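import Mathlib
import Pool.Agent.W824.BJ.Final
import Pool.Agent.H283R2.DR.Glue

/-!
# Two-fold covers of the vertex set and the generic rank in `ℝ³`
-/

set_option autoImplicit false

namespace Pool.Agent.Y647.RG

open Finset Pool.Agent.W824.BJ Pool.Agent.H789R5 Pool.Agent.H283R2.DR

variable {V : Type} [Fintype V] [DecidableEq V]

section classes

variable {C : Type} [Fintype C] [DecidableEq C]

theorem cnt_eq_inter (σ τ : V → C) {c d : C} (h : c ≠ d) :
    cnt σ τ univ c d = (jt σ τ c ∩ jt σ τ d).card := by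
  unfold cnt
  congr 1
  ext v
  rw [Finset.mem_filter, Finset.mem_inter, mem_jt, mem_jt]
  constructor
  · rintro ⟨-, ⟨h1, h2⟩ | ⟨h1, h2⟩⟩
    · exact ⟨Or.inl h1, Or.inr h2⟩
    · exact ⟨Or.inr h2, Or.inl h1⟩
  · rintro ⟨h1 | h1, h2 | h2⟩
    · exact absurd (h1.symm.trans h2) h
    · exact ⟨Finset.mem_univ _, Or.inl ⟨h1, h2⟩⟩
    · exact ⟨Finset.mem_univ _, Or.inr ⟨h2, h1⟩⟩
    · exact absurd (h1.symm.trans h2) h

theorem R2_eq_inter (σ τ : V → C) :
    R2 σ τ = ∑ q ∈ (univ : Finset C).offDiag, rho (jt σ τ q.1 ∩ jt σ τ q.2).card := by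
  unfold R2
  exact Finset.sum_congr rfl fun q hq => by rw [cnt_eq_inter σ τ (Finset.mem_offDiag.1 hq).2.2]

end classes

section cover

variable {ι : Type} [Fintype ι] [DecidableEq ι]

/-- each vertex is in at most two members of the family -/
def TwoFold (X : ι → Finset V) : Prop := ∀ v, (univ.filter fun i => v ∈ X i).card ≤ 2

omit [Fintype V] [Fintype ι] [DecidableEq ι] in
/-- each edge is inside a member of the family -/
def Covers (X : ι → Finset V) (G : SimpleGraph V) : Prop :=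
  ∀ u v, G.Adj u v → ∃ i, u ∈ X i ∧ v ∈ X i

theorem exists_st {X : ι → Finset V} (h : TwoFold X) :
    ∃ σ τ : V → ι ⊕ (V × Bool), (∀ v i, v ∈ X i ↔ (σ v = .inl i ∨ τ v = .inl i)) ∧
      (∀ v w, (σ v = .inr w ∨ τ v = .inr w) → v = w.1) ∧ ∀ v, σ v ≠ τ v := by
  have key : ∀ v, ∃ a b : ι ⊕ (V × Bool), (∀ i, v ∈ X i ↔ (a = .inl i ∨ b = .inl i)) ∧
      (∀ w, (a = .inr w ∨ b = .inr w) → v = w.1) ∧ a ≠ b := by
    intro v
    have hv := h v
    set F := univ.filter fun i => v ∈ X i with hF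
    have hm : ∀ i, v ∈ X i ↔ i ∈ F := by
      intro i
      rw [hF, Finset.mem_filter]
      exact ⟨fun h => ⟨Finset.mem_univ _, h⟩, fun h => h.2⟩
    have h3 : F.card = 0 ∨ F.card = 1 ∨ F.card = 2 := by omega
    rcases h3 with h3 | h3 | h3
    · rw [Finset.card_eq_zero] at h3
      refine ⟨.inr (v, false), .inr (v, true), ?_, ?_, by simp⟩
      · intro i
        rw [hm, h3]
        simp
      · rintro w (h | h)
        · exact congrArg Prod.fst (Sum.inr_injective h)
        · exact congrArg Prod.fst (Sum.inr_injective h)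
    · obtain ⟨i, h3⟩ := Finset.card_eq_one.1 h3
      refine ⟨.inl i, .inr (v, true), ?_, ?_, by simp⟩
      · intro j
        rw [hm, h3, Finset.mem_singleton]
        simp [eq_comm]
      · rintro w (h | h)
        · simp at h
        · exact congrArg Prod.fst (Sum.inr_injective h)
    · obtain ⟨i, j, hij, h3⟩ := Finset.card_eq_two.1 h3
      refine ⟨.inl i, .inl j, ?_, ?_, by simpa using hij⟩
      · intro k
        rw [hm, h3, Finset.mem_insert, Finset.mem_singleton]
        simp [eq_comm]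
      · rintro w (h | h) <;> simp at h
  choose σ τ h1 h2 h3 using key
  exact ⟨σ, τ, h1, h2, h3⟩

theorem rho_le_one {n : ℕ} (h : n ≤ 1) : rho n = 0 := by
  unfold rho
  rw [if_pos h]

theorem R1_cover {X : ι → Finset V} {σ τ : V → ι ⊕ (V × Bool)}
    (h1 : ∀ v i, v ∈ X i ↔ (σ v = .inl i ∨ τ v = .inl i))
    (h2 : ∀ v w, (σ v = .inr w ∨ τ v = .inr w) → v = w.1) :
    R1 σ τ = ∑ i, rho (X i).card := by
  unfold R1
  rw [Fintype.sum_sum_type]
  have e1 : ∀ i, jt σ τ (.inl i) = X i := by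
    intro i
    ext v
    rw [mem_jt, h1]
  have e2 : ∀ w : V × Bool, rho (jt σ τ (.inr w)).card = 0 := by
    intro w
    apply rho_le_one
    rw [Finset.card_le_one]
    intro a ha b hb
    rw [mem_jt] at ha hb
    rw [h2 a w ha, h2 b w hb]
  simp only [e1, e2, Finset.sum_const_zero, add_zero]

theorem R2_cover {X : ι → Finset V} {σ τ : V → ι ⊕ (V × Bool)}
    (h1 : ∀ v i, v ∈ X i ↔ (σ v = .inl i ∨ τ v = .inl i))
    (h2 : ∀ v w, (σ v = .inr w ∨ τ v = .inr w) → v = w.1) :
    R2 σ τ = ∑ q ∈ (univ : Finset ι).offDiag, rho (X q.1 ∩ X q.2).card := by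
  rw [R2_eq_inter]
  have e1 : ∀ i, jt σ τ (.inl i) = X i := by
    intro i
    ext v
    rw [mem_jt, h1]
  have e2 : ∀ w : V × Bool, (jt σ τ (.inr w)).card ≤ 1 := by
    intro w
    rw [Finset.card_le_one]
    intro a ha b hb
    rw [mem_jt] at ha hb
    rw [h2 a w ha, h2 b w hb]
  let φ : ι × ι ↪ (ι ⊕ (V × Bool)) × (ι ⊕ (V × Bool)) :=
    ⟨fun q => (.inl q.1, .inl q.2), by
      rintro ⟨a, b⟩ ⟨c, d⟩ h
      simp only [Prod.mk.injEq, Sum.inl.injEq] at h
      exact Prod.ext h.1 h.2⟩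
  have e3 : ∑ q ∈ (univ : Finset ι).offDiag, rho (X q.1 ∩ X q.2).card =
      ∑ q ∈ ((univ : Finset ι).offDiag).map φ, rho (jt σ τ q.1 ∩ jt σ τ q.2).card := by
    rw [Finset.sum_map]
    apply Finset.sum_congr rfl
    intro q _
    show _ = rho (jt σ τ (.inl q.1) ∩ jt σ τ (.inl q.2)).card
    rw [e1, e1]
  rw [e3]
  symm
  apply Finset.sum_subset
  · intro q hq
    rw [Finset.mem_map] at hq
    obtain ⟨r, hr, rfl⟩ := hq
    rw [Finset.mem_offDiag] at hr ⊢
    refine ⟨Finset.mem_univ _, Finset.mem_univ _, ?_⟩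
    intro h
    exact hr.2.2 (Sum.inl_injective h)
  · rintro ⟨a, b⟩ hq hq'
    apply rho_le_one
    rcases a with i | w
    · rcases b with j | w
      · exfalso
        apply hq'
        rw [Finset.mem_map]
        refine ⟨(i, j), ?_, rfl⟩
        rw [Finset.mem_offDiag] at hq ⊢
        refine ⟨Finset.mem_univ _, Finset.mem_univ _, ?_⟩
        intro h
        exact hq.2.2 (congrArg Sum.inl h)
      · exact (Finset.card_le_card Finset.inter_subset_right).trans (e2 w)
    · exact (Finset.card_le_card Finset.inter_subset_left).trans (e2 w)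

/-- **The upper bound**, for every graph. -/
theorem upper {X : ι → Finset V} (h : TwoFold X) {G : SimpleGraph V} (hG : Covers X G) :
    2 * genRank 3 G + ∑ q ∈ (univ : Finset ι).offDiag, rho (X q.1 ∩ X q.2).card ≤
      2 * ∑ i, rho (X i).card := by
  obtain ⟨σ, τ, h1, h2, h3⟩ := exists_st h
  obtain ⟨p, hp⟩ := exists_mg V 3
  rw [← R1_cover h1 h2, ← R2_cover h1 h2]
  apply rank_le hp
  intro u v huv
  obtain ⟨i, hu, hv⟩ := hG u v huv
  rw [h1] at hu hv
  rcases hu with hu | hu <;> rcases hv with hv | hv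
  · exact Or.inl (hu.trans hv.symm)
  · exact Or.inr (Or.inl (hu.trans hv.symm))
  · exact Or.inr (Or.inr (Or.inl (hu.trans hv.symm)))
  · exact Or.inr (Or.inr (Or.inr (hu.trans hv.symm)))

/-- the union of the complete graphs on the members -/
def bodies (X : ι → Finset V) : SimpleGraph V where
  Adj u v := u ≠ v ∧ ∃ i, u ∈ X i ∧ v ∈ X i
  symm := ⟨fun _ _ h => ⟨h.1.symm, h.2.imp fun _ h => ⟨h.2, h.1⟩⟩⟩
  loopless := ⟨fun _ h => h.1 rfl⟩

theorem twoFold_jt {C : Type} [Fintype C] [DecidableEq C] (σ τ : V → C) :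
    TwoFold (fun c => jt σ τ c) := by
  intro v
  have h : (univ.filter fun c => v ∈ jt σ τ c) ⊆ {σ v, τ v} := by
    intro c hc
    rw [Finset.mem_filter, mem_jt] at hc
    rw [Finset.mem_insert, Finset.mem_singleton]
    exact hc.2.imp Eq.symm Eq.symm
  exact (Finset.card_le_card h).trans Finset.card_le_two

/-- **The lower bound**: some two-fold family attains the rank. -/
theorem attain {X : ι → Finset V} (h : TwoFold X) :
    ∃ (C : Type) (_ : Fintype C) (_ : DecidableEq C) (Y : C → Finset V), TwoFold Y ∧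
      Covers Y (bodies X) ∧
      2 * genRank 3 (bodies X) + ∑ q ∈ (univ : Finset C).offDiag, rho (Y q.1 ∩ Y q.2).card =
        2 * ∑ c, rho (Y c).card := by
  classical
  obtain ⟨σ, τ, h1, h2, h3⟩ := exists_st h
  refine ⟨Quotient (rigRel σ τ (univ : Finset V)), inferInstance, inferInstance,
    fun c => jt (qs (rigRel σ τ univ) σ) (qs (rigRel σ τ univ) τ) c, twoFold_jt _ _, ?_, ?_⟩
  · rintro u v ⟨-, i, hu, hv⟩
    refine ⟨Quotient.mk (rigRel σ τ univ) (.inl i), ?_, ?_⟩
    · rw [mem_jt]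
      rw [h1] at hu
      exact hu.imp (fun h => congrArg _ h) (fun h => congrArg _ h)
    · rw [mem_jt]
      rw [h1] at hv
      exact hv.imp (fun h => congrArg _ h) (fun h => congrArg _ h)
  · have h4 := rank_eq σ τ h3 (bodies X) ?_ ?_
    · rw [R2_eq_inter] at h4
      exact h4
    · intro u v huv hc
      refine ⟨huv, ?_⟩
      have h5 : ∀ c : ι ⊕ (V × Bool), (σ u = c ∨ τ u = c) → (σ v = c ∨ τ v = c) →
          ∃ i, u ∈ X i ∧ v ∈ X i := by
        intro c hu hv
        rcases c with i | w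
        · exact ⟨i, (h1 u i).2 hu, (h1 v i).2 hv⟩
        · exact absurd ((h2 u w hu).trans (h2 v w hv).symm) huv
      rcases hc with hc | hc | hc | hc
      · exact h5 _ (Or.inl rfl) (Or.inl hc.symm)
      · exact h5 _ (Or.inl rfl) (Or.inr hc.symm)
      · exact h5 _ (Or.inr rfl) (Or.inl hc.symm)
      · exact h5 _ (Or.inr rfl) (Or.inr hc.symm)
    · rintro u v ⟨-, i, hu, hv⟩
      rw [h1] at hu hv
      rcases hu with hu | hu <;> rcases hv with hv | hv
      · exact Or.inl (hu.trans hv.symm)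
      · exact Or.inr (Or.inl (hu.trans hv.symm))
      · exact Or.inr (Or.inr (Or.inl (hu.trans hv.symm)))
      · exact Or.inr (Or.inr (Or.inr (hu.trans hv.symm)))

omit [Fintype V] [Fintype ι] [DecidableEq ι] in
theorem le_bodies {X : ι → Finset V} {G : SimpleGraph V} (hG : Covers X G) : G ≤ bodies X :=
  fun u v huv => ⟨huv.ne, hG u v huv⟩

omit [DecidableEq V] [Fintype ι] [DecidableEq ι] in
/-- adding all pairs inside rigid sets does not change the rank -/
theorem genRank_bodies [DecidableEq V] {p : V → Fin 3 → ℝ} (hp : MG p) {X : ι → Finset V}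
    {G : SimpleGraph V}
    (hG : Covers X G) (hr : ∀ i, RigidOn G (↑(X i) : Set V) p) :
    genRank 3 G = genRank 3 (bodies X) := by
  have h1 := genRank_add hp G
  have h2 := genRank_add hp (bodies X)
  have h3 : Mot G p = Mot (bodies X) p := by
    apply le_antisymm
    · intro q hq
      rw [mem_mot] at hq ⊢
      rintro u v ⟨-, i, hu, hv⟩
      obtain ⟨A, b, hA, hb⟩ := hr i q (fun x _ y _ hxy => hq x y hxy)
      rw [hb u (by exact_mod_cast hu), hb v (by exact_mod_cast hv), add_sub_add_right_eq_sub,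
        ← Matrix.mulVec_sub]
      exact skew_dot_self hA _
    · exact mot_anti (le_bodies hG) p
  have h4 : mo G p = mo (bodies X) p := by
    unfold mo
    rw [h3]
  omega

end cover

end Pool.Agent.Y647.RG
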