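import Mathlib
import Pool.Agent.Y647.RG.Cover

/-!
# Graphs each of whose neighbourhoods is covered by two rigid sets
-/

set_option autoImplicit false

namespace Pool.Agent.Y647.RG

open Finset Pool.Agent.W824.BJ Pool.Agent.H789R5 Pool.Agent.H283R2.DR

variable {V : Type} [Fintype V] [DecidableEq V] {p : V → Fin 3 → ℝ} {G : SimpleGraph V}

/-- a large rigid set: at least four vertices -/
def Big (G : SimpleGraph V) (p : V → Fin 3 → ℝ) (Z : Finset V) : Prop :=
  RigidOn G (↑Z : Set V) p ∧ 4 ≤ Z.card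

/-- a maximal large rigid set -/
def Max (G : SimpleGraph V) (p : V → Fin 3 → ℝ) (Z : Finset V) : Prop :=
  Big G p Z ∧ ∀ Z', Big G p Z' → Z ⊆ Z' → Z' = Z

omit [DecidableEq V] in
theorem Big.exists_max {Z : Finset V} (h : Big G p Z) : ∃ Z', Max G p Z' ∧ Z ⊆ Z' := by
  classical
  obtain ⟨Z', hZ', hm⟩ := Finset.exists_max_image
    (univ.filter fun W : Finset V => Big G p W ∧ Z ⊆ W) Finset.card
    ⟨Z, Finset.mem_filter.2 ⟨Finset.mem_univ _, h, subset_rfl⟩⟩
  rw [Finset.mem_filter] at hZ'
  refine ⟨Z', ⟨hZ'.2.1, ?_⟩, hZ'.2.2⟩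
  intro W hW hs
  have h1 := hm W (Finset.mem_filter.2 ⟨Finset.mem_univ _, hW, hZ'.2.2.trans hs⟩)
  exact (Finset.eq_of_subset_of_card_le hs h1).symm

/-- two large rigid sets with three common vertices -/
theorem Big.union (hp : Gen p) {Z W : Finset V} (h : Big G p Z) (h' : Big G p W)
    (hc : 3 ≤ (Z ∩ W).card) : Big G p (Z ∪ W) :=
  ⟨glue hp h.1 h'.1 hc, h.2.trans (Finset.card_le_card Finset.subset_union_left)⟩

theorem Max.eq_of_inter (hp : Gen p) {Z W : Finset V} (h : Max G p Z) (h' : Max G p W)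
    (hc : 3 ≤ (Z ∩ W).card) : Z = W := by
  have h1 := h.1.union hp h'.1 hc
  rw [← h.2 _ h1 Finset.subset_union_left]
  exact h'.2 _ h1 Finset.subset_union_right

omit [Fintype V] [DecidableEq V] in
/-- a nonzero vector orthogonal to two vectors -/
theorem exists_orth (a b : Fin 3 → ℝ) : ∃ r : Fin 3 → ℝ, r ≠ 0 ∧ a ⬝ᵥ r = 0 ∧ b ⬝ᵥ r = 0 := by
  let M : Matrix (Fin 2) (Fin 3) ℝ := Matrix.of ![a, b]
  obtain ⟨r, hr, h0⟩ := Submodule.exists_mem_ne_zero_of_ne_bot
    (LinearMap.ker_ne_bot_of_finrank_lt (f := M.mulVecLin) (by simp))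
  rw [LinearMap.mem_ker, Matrix.mulVecLin_apply] at hr
  exact ⟨r, h0, congrFun hr 0, congrFun hr 1⟩

omit [Fintype V] in
/-- each vertex of a large rigid set has three neighbours in the set -/
theorem Big.three_nbrs (hp : Gen p) {Z : Finset V} (h : Big G p Z) {v : V} (hv : v ∈ Z)
    [DecidableRel G.Adj] : 3 ≤ (Z.filter fun w => G.Adj v w).card := by
  by_contra hcon
  push Not at hcon
  have h2 : ∃ a b : V, ∀ w ∈ Z, G.Adj v w → w = a ∨ w = b := by
    have h3 : (Z.filter fun w => G.Adj v w).card ≤ 2 := by omega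
    rcases Nat.lt_or_ge (Z.filter fun w => G.Adj v w).card 2 with h4 | h4
    · have h5 : (Z.filter fun w => G.Adj v w).card ≤ 1 := by omega
      rw [Finset.card_le_one] at h5
      by_cases h6 : ∃ a, a ∈ Z.filter fun w => G.Adj v w
      · obtain ⟨a, ha⟩ := h6
        exact ⟨a, a, fun w hw hvw => Or.inl (h5 w (Finset.mem_filter.2 ⟨hw, hvw⟩) a ha)⟩
      · push Not at h6
        exact ⟨v, v, fun w hw hvw => absurd (Finset.mem_filter.2 ⟨hw, hvw⟩) (h6 w)⟩
    · obtain ⟨a, b, -, hab⟩ := Finset.card_eq_two.1 (le_antisymm h3 h4)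
      refine ⟨a, b, fun w hw hvw => ?_⟩
      have h5 : w ∈ Z.filter fun w => G.Adj v w := Finset.mem_filter.2 ⟨hw, hvw⟩
      rw [hab] at h5
      simpa using h5
  obtain ⟨a, b, hab⟩ := h2
  obtain ⟨r, hr0, hra, hrb⟩ := exists_orth (p v - p a) (p v - p b)
  obtain ⟨A, c, hA, hb⟩ := h.1 (Pi.single v r) (by
    intro x hx y hy hxy
    by_cases h3 : x = v
    · subst h3
      have h4 : y ≠ x := hxy.ne.symm
      rw [Pi.single_eq_same, Pi.single_eq_of_ne h4, sub_zero]
      rcases hab y hy hxy with rfl | rfl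
      · exact hra
      · exact hrb
    · by_cases h4 : y = v
      · subst h4
        rw [Pi.single_eq_same, Pi.single_eq_of_ne h3, zero_sub, dotProduct_neg, ← neg_dotProduct,
          neg_sub]
        rcases hab x hx hxy.symm with rfl | rfl
        · exact hra
        · exact hrb
      · rw [Pi.single_eq_of_ne h3, Pi.single_eq_of_ne h4, sub_zero, dotProduct_zero])
  have h3 : 3 ≤ (Z.erase v).card := by
    rw [Finset.card_erase_of_mem hv]
    have := h.2
    omega
  obtain ⟨h4, h5⟩ := triv_unique hp h3 hA (A' := 0) (b' := 0) (by simp) (by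
    intro w hw
    rw [Finset.mem_erase] at hw
    rw [← hb w (by exact_mod_cast hw.2), Pi.single_eq_of_ne hw.1]
    simp)
  have h6 := hb v (by exact_mod_cast hv)
  rw [h4, h5, Pi.single_eq_same] at h6
  exact hr0 (by simpa using h6)

/-- the members of the canonical family: the maximal large rigid sets, and the edges which are in no
large rigid set -/
def Mem (G : SimpleGraph V) (p : V → Fin 3 → ℝ) (Z : Finset V) : Prop :=
  Max G p Z ∨ ∃ u v, G.Adj u v ∧ Z = {u, v} ∧ ∀ W, Big G p W → u ∈ W → v ∉ W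

/-- the local condition at the placement `p` -/
def LocalAt (G : SimpleGraph V) (p : V → Fin 3 → ℝ) : Prop :=
  ∀ v, ∃ X Y : Finset V, v ∈ X ∧ Big G p X ∧ ((v ∈ Y ∧ Big G p Y) ∨ Y.card ≤ 1) ∧
    ∀ w, G.Adj v w → w ∈ X ∨ w ∈ Y

theorem mem_two (hp : Gen p) (hl : LocalAt G p) (v : V) :
    ∃ A B : Finset V, ∀ Z, Mem G p Z → v ∈ Z → Z = A ∨ Z = B := by
  classical
  obtain ⟨X, Y, hvX, hX, hY, hN⟩ := hl v
  obtain ⟨X', hX', hXX'⟩ := hX.exists_max
  -- large members with few neighbours of `v` outside `X'`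
  rcases hY with ⟨hvY, hY⟩ | hY
  · obtain ⟨Y', hY', hYY'⟩ := hY.exists_max
    refine ⟨X', Y', ?_⟩
    intro Z hZ hvZ
    rcases hZ with hZ | ⟨a, b, hab, rfl, hno⟩
    · by_contra hcon
      push Not at hcon
      have h1 : (Z ∩ X').card ≤ 2 := by
        by_contra h
        exact hcon.1 (hZ.eq_of_inter hp hX' (by omega))
      have h2 : (Z ∩ Y').card ≤ 2 := by
        by_contra h
        exact hcon.2 (hZ.eq_of_inter hp hY' (by omega))
      have h3 := hZ.1.three_nbrs hp hvZ
      have h4 : Z.filter (fun w => G.Adj v w) ⊆ (Z ∩ X').erase v ∪ (Z ∩ Y').erase v := by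
        intro w hw
        rw [Finset.mem_filter] at hw
        rw [Finset.mem_union, Finset.mem_erase, Finset.mem_erase, Finset.mem_inter,
          Finset.mem_inter]
        have h5 : w ≠ v := hw.2.ne.symm
        rcases hN w hw.2 with h | h
        · exact Or.inl ⟨h5, hw.1, hXX' h⟩
        · exact Or.inr ⟨h5, hw.1, hYY' h⟩
      have h5 := (Finset.card_le_card h4).trans (Finset.card_union_le _ _)
      rw [Finset.card_erase_of_mem (Finset.mem_inter.2 ⟨hvZ, hXX' hvX⟩),
        Finset.card_erase_of_mem (Finset.mem_inter.2 ⟨hvZ, hYY' hvY⟩)] at h5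
      omega
    · exfalso
      rw [Finset.mem_insert, Finset.mem_singleton] at hvZ
      rcases hvZ with rfl | rfl
      · rcases hN b hab with h | h
        · exact hno X hX hvX h
        · exact hno Y hY hvY h
      · rcases hN a hab.symm with h | h
        · exact hno X hX h hvX
        · exact hno Y hY h hvY
  · have hY1 := Finset.card_le_one.1 hY
    refine ⟨X', insert v Y, ?_⟩
    intro Z hZ hvZ
    rcases hZ with hZ | ⟨a, b, hab, rfl, hno⟩
    · left
      by_contra hcon
      have h1 : (Z ∩ X').card ≤ 2 := by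
        by_contra h
        exact hcon (hZ.eq_of_inter hp hX' (by omega))
      have h3 := hZ.1.three_nbrs hp hvZ
      have h4 : Z.filter (fun w => G.Adj v w) ⊆ (Z ∩ X').erase v ∪ Y := by
        intro w hw
        rw [Finset.mem_filter] at hw
        rw [Finset.mem_union, Finset.mem_erase, Finset.mem_inter]
        have h5 : w ≠ v := hw.2.ne.symm
        rcases hN w hw.2 with h | h
        · exact Or.inl ⟨h5, hw.1, hXX' h⟩
        · exact Or.inr h
      have h5 := (Finset.card_le_card h4).trans (Finset.card_union_le _ _)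
      rw [Finset.card_erase_of_mem (Finset.mem_inter.2 ⟨hvZ, hXX' hvX⟩)] at h5
      omega
    · right
      have key : ∀ w, G.Adj v w → (∀ W, Big G p W → v ∈ W → w ∉ W) →
          insert v Y = ({v, w} : Finset V) := by
        intro w hvw hno'
        have hwY : w ∈ Y := by
          rcases hN w hvw with h | h
          · exact absurd h (hno' X hX hvX)
          · exact h
        have : Y = {w} := by
          ext z
          rw [Finset.mem_singleton]
          exact ⟨fun hz => hY1 z hz w hwY, fun hz => hz ▸ hwY⟩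
        rw [this]
      rw [Finset.mem_insert, Finset.mem_singleton] at hvZ
      rcases hvZ with rfl | rfl
      · exact (key b hab hno).symm
      · rw [key a hab.symm (fun W hW h1 h2 => hno W hW h2 h1), Finset.pair_comm]

/-- **the canonical family** -/
theorem exists_family (hp : MG p) (hl : LocalAt G p) :
    ∃ (ι : Type) (_ : Fintype ι) (_ : DecidableEq ι) (X : ι → Finset V), TwoFold X ∧ Covers X G ∧
      ∀ i, RigidOn G (↑(X i) : Set V) p := by
  classical
  refine ⟨{Z : Finset V // Mem G p Z}, inferInstance, inferInstance, fun i => i.1, ?_, ?_, ?_⟩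
  · intro v
    obtain ⟨A, B, hAB⟩ := mem_two hp.toGen hl v
    refine (Finset.card_le_card_of_injOn (t := {A, B}) (fun i => i.1) ?_ ?_).trans
      Finset.card_le_two
    · intro i hi
      rw [Finset.mem_coe, Finset.mem_filter] at hi
      rw [Finset.mem_coe, Finset.mem_insert, Finset.mem_singleton]
      exact hAB i.1 i.2 hi.2
    · intro i _ j _ hij
      exact Subtype.ext hij
  · intro u v huv
    by_cases h : ∃ W, Big G p W ∧ u ∈ W ∧ v ∈ W
    · obtain ⟨W, hW, hu, hv⟩ := h
      obtain ⟨W', hW', hs⟩ := hW.exists_max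
      exact ⟨⟨W', Or.inl hW'⟩, hs hu, hs hv⟩
    · push Not at h
      exact ⟨⟨{u, v}, Or.inr ⟨u, v, huv, rfl, h⟩⟩, by simp, by simp⟩
  · rintro ⟨Z, hZ | ⟨u, v, huv, rfl, -⟩⟩
    · exact hZ.1.1
    · apply rigid_complete hp.toGen
      intro a ha b hb hab
      rw [Finset.mem_insert, Finset.mem_singleton] at ha hb
      rcases ha with rfl | rfl <;> rcases hb with rfl | rfl
      · exact absurd rfl hab
      · exact huv
      · exact huv.symm
      · exact absurd rfl hab

theorem main_local (hp : MG p) (hl : LocalAt G p) :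
    ∃ (C : Type) (_ : Fintype C) (_ : DecidableEq C) (Y : C → Finset V), TwoFold Y ∧
      Covers Y G ∧
      2 * genRank 3 G + ∑ q ∈ (univ : Finset C).offDiag, rho (Y q.1 ∩ Y q.2).card =
        2 * ∑ c, rho (Y c).card := by
  obtain ⟨ι, _, _, X, h1, h2, h3⟩ := exists_family hp hl
  obtain ⟨C, _, _, Y, h4, h5, h6⟩ := attain h1
  refine ⟨C, inferInstance, inferInstance, Y, h4, fun u v huv => h5 u v (le_bodies h2 huv), ?_⟩
  rw [genRank_bodies hp h2 h3]
  exact h6

end Pool.Agent.Y647.RG
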