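import Mathlib
import Pool.Agent.H789R5.RF.Ext
import Pool.Agent.Y647.RG.Local

/-!
# A joint between two bodies which move in two independent ways
-/

set_option autoImplicit false

namespace Pool.Agent.Y647.RG

open Matrix Finset Pool.Agent.H789R5 Pool.Agent.H283R2.DR

/-- if two infinitesimal motions are parallel everywhere, then they are proportional -/
theorem exists_indep {A A' : Matrix (Fin 3) (Fin 3) ℝ} {b b' : Fin 3 → ℝ} (hA : Aᵀ = -A)
    (hA' : A'ᵀ = -A')
    (h : ∀ s t : ℝ, s • A + t • A' = 0 → s • b + t • b' = 0 → s = 0 ∧ t = 0) :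
    ∃ x : Fin 3 → ℝ, LinearIndependent ℝ ![A *ᵥ x + b, A' *ᵥ x + b'] := by
  by_contra hcon
  push Not at hcon
  have key : ∀ x : Fin 3 → ℝ, ∀ i j, (A *ᵥ x + b) i * (A' *ᵥ x + b') j =
      (A *ᵥ x + b) j * (A' *ᵥ x + b') i := by
    intro x i j
    have h1 := hcon x
    rw [LinearIndependent.pair_iff] at h1
    push Not at h1
    obtain ⟨s, t, h2, h3⟩ := h1
    have hi := congrFun h2 i
    have hj := congrFun h2 j
    simp only [Pi.add_apply, Pi.smul_apply, smul_eq_mul, Pi.zero_apply] at hi hj ⊢
    by_cases hs : s = 0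
    · have ht := h3 hs
      rw [hs] at hi hj
      have e1 : (A' *ᵥ x) i + b' i = 0 := by
        rcases mul_eq_zero.1 (show t * ((A' *ᵥ x) i + b' i) = 0 by linarith) with h4 | h4
        · exact absurd h4 ht
        · exact h4
      have e2 : (A' *ᵥ x) j + b' j = 0 := by
        rcases mul_eq_zero.1 (show t * ((A' *ᵥ x) j + b' j) = 0 by linarith) with h4 | h4
        · exact absurd h4 ht
        · exact h4
      rw [e1, e2]
      ring
    · apply mul_left_cancel₀ hs
      linear_combination ((A' *ᵥ x) j + b' j) * hi - ((A' *ᵥ x) i + b' i) * hj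
  have sk : ∀ (B : Matrix (Fin 3) (Fin 3) ℝ), Bᵀ = -B → B 0 0 = 0 ∧ B 1 1 = 0 ∧ B 2 2 = 0 ∧
      B 1 0 = - B 0 1 ∧ B 2 0 = - B 0 2 ∧ B 2 1 = - B 1 2 := by
    intro B hB
    have e : ∀ i j, B j i = - B i j := fun i j => congrFun (congrFun hB i) j
    refine ⟨?_, ?_, ?_, e 0 1, e 0 2, e 1 2⟩
    · have := e 0 0; linarith
    · have := e 1 1; linarith
    · have := e 2 2; linarith
  obtain ⟨a1, a2, a3, a4, a5, a6⟩ := sk A hA
  obtain ⟨c1, c2, c3, c4, c5, c6⟩ := sk A' hA'
  have ev : ∀ (B : Matrix (Fin 3) (Fin 3) ℝ) (x : Fin 3 → ℝ) (i : Fin 3),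
      (B *ᵥ x) i = B i 0 * x 0 + B i 1 * x 1 + B i 2 * x 2 := by
    intro B x i
    simp [Matrix.mulVec, dotProduct, Fin.sum_univ_three]
  have k0 : ∀ i j, b i * b' j = b j * b' i := by
    intro i j
    have := key 0 i j
    simpa using this
  have kp : ∀ k i j, (A i k + b i) * (A' j k + b' j) = (A j k + b j) * (A' i k + b' i) := by
    intro k i j
    have := key (Pi.single k 1) i j
    simpa [Matrix.mulVec_single] using this
  have km : ∀ k i j, (-A i k + b i) * (-A' j k + b' j) = (-A j k + b j) * (-A' i k + b' i) := by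
    intro k i j
    have := key (Pi.single k (-1)) i j
    simpa [Matrix.mulVec_single] using this
  have kq : ∀ k i j, A i k * A' j k = A j k * A' i k := by
    intro k i j
    have e1 := kp k i j
    have e2 := km k i j
    have e3 := k0 i j
    linarith
  have kl : ∀ k i j, A i k * b' j + b i * A' j k = A j k * b' i + b j * A' i k := by
    intro k i j
    have e1 := kp k i j
    have e2 := km k i j
    linarith
  -- the entries
  set P := A 0 1
  set Q := A 0 2
  set R := A 1 2
  set P' := A' 0 1
  set Q' := A' 0 2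
  set R' := A' 1 2
  have m1 : P * Q' = Q * P' := by have := kq 0 1 2; rw [a4, a5, c4, c5] at this; linarith
  have m2 : P * R' = R * P' := by have := kq 1 0 2; rw [a6, c6] at this; linarith
  have m3 : Q * R' = R * Q' := kq 2 0 1
  have n1 : P * b' 0 = P' * b 0 := by
    have := kl 0 0 1; rw [a1, a4, c1, c4] at this; linarith
  have n2 : Q * b' 0 = Q' * b 0 := by
    have := kl 0 0 2; rw [a1, a5, c1, c5] at this; linarith
  have n3 : P * b' 1 = P' * b 1 := by
    have := kl 1 0 1; rw [a2, c2] at this; linarith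
  have n4 : R * b' 1 = R' * b 1 := by
    have := kl 1 1 2; rw [a2, c2, a6, c6] at this; linarith
  have n5 : Q * b' 2 = Q' * b 2 := by
    have := kl 2 0 2; rw [a3, c3] at this; linarith
  have n6 : R * b' 2 = R' * b 2 := by
    have := kl 2 1 2; rw [a3, c3] at this; linarith
  have o1 : P * b' 2 + Q' * b 1 = Q * b' 1 + P' * b 2 := by
    have := kl 0 1 2; rw [a4, a5, c4, c5] at this; linarith
  have o2 : P * b' 2 + R * b' 0 = P' * b 2 + R' * b 0 := by
    have := kl 1 0 2; rw [a6, c6] at this; linarith
  have o3 : Q * b' 1 + R' * b 0 = R * b' 0 + Q' * b 1 := by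
    have := kl 2 0 1; linarith
  have l1 : P * b' 2 = P' * b 2 := by linarith
  have l2 : Q * b' 1 = Q' * b 1 := by linarith
  have l3 : R * b' 0 = R' * b 0 := by linarith
  -- the six entries
  have hfin : ∀ s t : ℝ, s * P + t * P' = 0 → s * Q + t * Q' = 0 → s * R + t * R' = 0 →
      (∀ i, s * b i + t * b' i = 0) → s = 0 ∧ t = 0 := by
    intro s t h1 h2 h3 h4
    apply h s t
    · ext i j
      simp only [Matrix.add_apply, Matrix.smul_apply, smul_eq_mul, Matrix.zero_apply]
      fin_cases i <;> fin_cases j <;>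
        simp only [Fin.zero_eta, Fin.mk_one, Fin.reduceFinMk, Fin.isValue, a1, a2, a3, a4, a5, a6,
          c1, c2, c3, c4, c5, c6] <;> linarith
    · ext i
      simp only [Pi.add_apply, Pi.smul_apply, smul_eq_mul, Pi.zero_apply]
      exact h4 i
  have hz : ∀ e' e : ℝ, P * e' = P' * e → Q * e' = Q' * e → R * e' = R' * e →
      (∀ i, b i * e' = b' i * e) → e' = 0 := by
    intro e' e h1 h2 h3 h4
    exact (hfin e' (-e) (by linarith) (by linarith) (by linarith)
      (fun i => by have := h4 i; linarith)).1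
  have z1 : P' = 0 := hz P' P (by ring) (by linarith) (by linarith) (fun i => by
    fin_cases i <;> simp only [Fin.zero_eta, Fin.mk_one, Fin.reduceFinMk, Fin.isValue] <;> linarith)
  have z2 : Q' = 0 := hz Q' Q (by linarith) (by ring) (by linarith) (fun i => by
    fin_cases i <;> simp only [Fin.zero_eta, Fin.mk_one, Fin.reduceFinMk, Fin.isValue] <;> linarith)
  have z3 : R' = 0 := hz R' R (by linarith) (by linarith) (by ring) (fun i => by
    fin_cases i <;> simp only [Fin.zero_eta, Fin.mk_one, Fin.reduceFinMk, Fin.isValue] <;> linarith)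
  have z4 : ∀ j, b' j = 0 := by
    intro j
    refine hz (b' j) (b j) ?_ ?_ ?_ (fun i => by have := k0 i j; linarith)
    · fin_cases j <;> simp only [Fin.zero_eta, Fin.mk_one, Fin.reduceFinMk, Fin.isValue] <;> linarith
    · fin_cases j <;> simp only [Fin.zero_eta, Fin.mk_one, Fin.reduceFinMk, Fin.isValue] <;> linarith
    · fin_cases j <;> simp only [Fin.zero_eta, Fin.mk_one, Fin.reduceFinMk, Fin.isValue] <;> linarith
  have := (hfin 0 1 (by rw [z1]; ring) (by rw [z2]; ring) (by rw [z3]; ring)
    (fun i => by rw [z4 i]; ring)).2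
  norm_num at this

variable {V : Type} [Fintype V] [DecidableEq V] {p : V → Fin 3 → ℝ} {G : SimpleGraph V}

/-- all pairs of `r` and an element of `T` -/
def star (r : V) (T : Finset V) : SimpleGraph V where
  Adj u v := u ≠ v ∧ ((u = r ∧ v ∈ T) ∨ (v = r ∧ u ∈ T))
  symm := ⟨fun _ _ h => ⟨h.1.symm, h.2.symm⟩⟩
  loopless := ⟨fun _ h => h.1 rfl⟩

omit [Fintype V] [DecidableEq V] in
theorem orth_li {T : Finset V} (hT : T.card = 3) {x : Fin 3 → ℝ}
    (hli : LinearIndependent ℝ (fun z : T => x - p z)) {u : Fin 3 → ℝ}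
    (h : ∀ z ∈ T, (x - p z) ⬝ᵥ u = 0) : u = 0 := by
  have hspan := hli.span_eq_top_of_card_eq_finrank' (by simp [hT])
  have hall : ∀ v : Fin 3 → ℝ, v ⬝ᵥ u = 0 := by
    intro v
    have hw : v ∈ Submodule.span ℝ (Set.range fun z : T => x - p z) := by
      rw [hspan]; trivial
    induction hw using Submodule.span_induction with
    | mem y hy =>
      obtain ⟨i, rfl⟩ := hy
      exact h i i.2
    | zero => simp
    | add y z _ _ hy hz => rw [add_dotProduct, hy, hz, add_zero]
    | smul c y _ hy => rw [smul_dotProduct, hy, smul_zero]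
  exact dotProduct_self_eq_zero.1 (hall u)

theorem mot_update {G0 : SimpleGraph V} {r : V} (hiso : ∀ u, ¬ G0.Adj r u) (x : Fin 3 → ℝ) :
    Mot G0 (Function.update p r x) = Mot G0 p := by
  ext q
  rw [mem_mot, mem_mot]
  have h1 : ∀ u v, G0.Adj u v → Function.update p r x u = p u ∧ Function.update p r x v = p v := by
    intro u v huv
    constructor
    · exact Function.update_of_ne (by rintro rfl; exact hiso _ huv) _ _
    · exact Function.update_of_ne (by rintro rfl; exact hiso _ huv.symm) _ _
  constructor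
  · intro h u v huv
    have := h u v huv
    rwa [(h1 u v huv).1, (h1 u v huv).2] at this
  · intro h u v huv
    rw [(h1 u v huv).1, (h1 u v huv).2]
    exact h u v huv

theorem joint (hp : MG p) {G0 : SimpleGraph V} {r : V} (hiso : ∀ u, ¬ G0.Adj r u)
    {X Z : Finset V} (hrX : r ∉ X) (hrZ : r ∉ Z) (hX : X.card = 3) (hZ : Z.card = 3) {n : ℕ}
    (q : Fin n → V → Fin 3 → ℝ) (A : Fin n → Matrix (Fin 3) (Fin 3) ℝ) (b : Fin n → Fin 3 → ℝ)
    (hA : ∀ i, (A i)ᵀ = -(A i)) (hq : ∀ i, q i ∈ Mot G0 p) (hqZ : ∀ i, ∀ z ∈ Z, q i z = 0)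
    (hqX : ∀ i, ∀ x ∈ X, q i x = A i *ᵥ p x + b i) (x0 : Fin 3 → ℝ)
    (hx0 : LinearIndependent ℝ (fun i => A i *ᵥ x0 + b i)) :
    mo (G0 ⊔ star r (X ∪ Z)) p + 3 + n ≤ mo G0 p := by
  classical
  -- a good position for `r`
  obtain ⟨x, hx⟩ : ∃ x : Fin 3 → ℝ, LinearIndependent ℝ (fun i => A i *ᵥ x + b i) ∧
      LinearIndependent ℝ (fun z : X => x - p z) ∧ LinearIndependent ℝ (fun z : Z => x - p z) := by
    have h := TA.good_family (E := Fin 3 → ℝ) (ι := Fin 3)
      (fun i x => match i with
        | 0 => LinearIndependent ℝ (fun i => A i *ᵥ x + b i)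
        | 1 => LinearIndependent ℝ (fun z : X => x - p z)
        | 2 => LinearIndependent ℝ (fun z : Z => x - p z)) ?_ ?_
    · obtain ⟨x, hx⟩ := h
      exact ⟨x, hx 0, hx 1, hx 2⟩
    · intro i
      fin_cases i
      · intro y0 y1 h0
        refine (TA.linInd_good _ (fun i => A i *ᵥ (y1 - y0)) h0).subset ?_
        intro s hs
        rw [Set.mem_ofPred_eq] at hs ⊢
        intro hc
        apply hs
        have he : (fun i => A i *ᵥ (y0 + s • (y1 - y0)) + b i) =
            (fun i => A i *ᵥ y0 + b i) + s • (fun i => A i *ᵥ (y1 - y0)) := by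
          funext i
          rw [Pi.add_apply, Pi.smul_apply, Matrix.mulVec_add, Matrix.mulVec_smul]
          abel
        show LinearIndependent ℝ (fun i => A i *ᵥ (y0 + s • (y1 - y0)) + b i)
        rw [he]
        exact hc
      · intro y0 y1 h0
        refine (TA.linInd_good _ (fun _ => (y1 - y0)) h0).subset ?_
        intro s hs
        rw [Set.mem_ofPred_eq] at hs ⊢
        intro hc
        apply hs
        have he : (fun z : X => (y0 + s • (y1 - y0)) - p z) =
            (fun z : X => y0 - p z) + s • (fun _ : X => (y1 - y0)) := by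
          funext i
          rw [Pi.add_apply, Pi.smul_apply]
          abel
        show LinearIndependent ℝ (fun z : X => (y0 + s • (y1 - y0)) - p z)
        rw [he]
        exact hc
      · intro y0 y1 h0
        refine (TA.linInd_good _ (fun _ => (y1 - y0)) h0).subset ?_
        intro s hs
        rw [Set.mem_ofPred_eq] at hs ⊢
        intro hc
        apply hs
        have he : (fun z : Z => (y0 + s • (y1 - y0)) - p z) =
            (fun z : Z => y0 - p z) + s • (fun _ : Z => (y1 - y0)) := by
          funext i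
          rw [Pi.add_apply, Pi.smul_apply]
          abel
        show LinearIndependent ℝ (fun z : Z => (y0 + s • (y1 - y0)) - p z)
        rw [he]
        exact hc
    · intro i
      fin_cases i
      · exact ⟨x0, hx0⟩
      · exact ⟨p r, lin_of_pos hp hrX (by omega)⟩
      · exact ⟨p r, lin_of_pos hp hrZ (by omega)⟩
  obtain ⟨hx1, hx2, hx3⟩ := hx
  set p' := Function.update p r x with hp'
  set K := G0 ⊔ star r (X ∪ Z) with hK
  have hmin := hp.min K p'
  have hpr : p' r = x := Function.update_self _ _ _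
  have hpo : ∀ v, v ≠ r → p' v = p v := fun v hv => Function.update_of_ne hv _ _
  have hM : ∀ s ∈ Mot K p', s ∈ Mot G0 p := by
    intro s hs
    rw [← mot_update hiso x]
    exact mot_anti le_sup_left p' hs
  let Φ : (Mot K p' × (Fin 3 → ℝ) × (Fin n → ℝ)) →ₗ[ℝ] Mot G0 p :=
    { toFun := fun a => ⟨a.1.1 + (∑ i, a.2.2 i • q i) + Pi.single r a.2.1, by
        refine Submodule.add_mem _ (Submodule.add_mem _ (hM _ a.1.2)
          (Submodule.sum_mem _ fun i _ => Submodule.smul_mem _ _ (hq i))) ?_
        rw [mem_mot]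
        intro u v huv
        have hu : u ≠ r := by rintro rfl; exact hiso _ huv
        have hv : v ≠ r := by rintro rfl; exact hiso _ huv.symm
        rw [Pi.single_eq_of_ne hu, Pi.single_eq_of_ne hv]
        simp⟩
      map_add' := by
        intro a a'
        apply Subtype.ext
        simp only [Prod.fst_add, Prod.snd_add, Submodule.coe_add, Pi.add_apply, add_smul,
          Finset.sum_add_distrib, Pi.single_add]
        abel
      map_smul' := by
        intro c a
        apply Subtype.ext
        simp only [Prod.smul_fst, Prod.smul_snd, Submodule.coe_smul, Pi.smul_apply, smul_eq_mul,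
          RingHom.id_apply, smul_add, Finset.smul_sum, smul_smul, Pi.single_smul] }
  have hinj : Function.Injective Φ := by
    rw [injective_iff_map_eq_zero]
    rintro ⟨⟨s, hs⟩, y, c⟩ h0
    have h1 : s + (∑ i, c i • q i) + Pi.single r y = 0 := congrArg Subtype.val h0
    set u : V → Fin 3 → ℝ := (∑ i, c i • q i) + Pi.single r y with hu
    have hus : u = -s := by
      rw [eq_neg_iff_add_eq_zero, hu]
      rw [← h1]
      abel
    have huK : IsMotion K p' u := by
      rw [← mem_mot, hus]
      exact Submodule.neg_mem _ hs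
    have hne : ∀ v, v ≠ r → u v = ∑ i, c i • q i v := by
      intro v hv
      rw [hu, Pi.add_apply, Pi.single_eq_of_ne hv, add_zero, Finset.sum_apply]
      rfl
    have hadj : ∀ v, v ∈ X ∪ Z → v ≠ r → K.Adj r v := by
      intro v hv hvr
      exact Or.inr ⟨hvr.symm, Or.inl ⟨rfl, hv⟩⟩
    -- the value at `r` vanishes
    have hur : u r = 0 := by
      apply orth_li hZ hx3
      intro z hz
      have hzr : z ≠ r := fun h => hrZ (h ▸ hz)
      have h2 := huK r z (hadj z (Finset.mem_union_right _ hz) hzr)
      rw [hpr, hpo z hzr, hne z hzr] at h2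
      have h3 : ∑ i, c i • q i z = 0 := by
        apply Finset.sum_eq_zero
        intro i _
        rw [hqZ i z hz, smul_zero]
      rwa [h3, sub_zero] at h2
    have hsk : (∑ i, c i • A i)ᵀ = -(∑ i, c i • A i) := by
      rw [Matrix.transpose_sum, ← Finset.sum_neg_distrib]
      apply Finset.sum_congr rfl
      intro i _
      rw [Matrix.transpose_smul, hA i, smul_neg]
    have hc0 : ∑ i, c i • (A i *ᵥ x + b i) = 0 := by
      apply orth_li hX hx2
      intro z hz
      have hzr : z ≠ r := fun h => hrX (h ▸ hz)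
      have h2 := huK r z (hadj z (Finset.mem_union_left _ hz) hzr)
      rw [hpr, hpo z hzr, hne z hzr, hur, zero_sub, dotProduct_neg, neg_eq_zero] at h2
      have h3 : ∑ i, c i • q i z = (∑ i, c i • A i) *ᵥ p z + ∑ i, c i • b i := by
        rw [Matrix.sum_mulVec, ← Finset.sum_add_distrib]
        apply Finset.sum_congr rfl
        intro i _
        rw [hqX i z hz, smul_add, Matrix.smul_mulVec]
      have h4 : ∑ i, c i • (A i *ᵥ x + b i) =
          (∑ i, c i • q i z) + (∑ i, c i • A i) *ᵥ (x - p z) := by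
        rw [h3, Matrix.mulVec_sub, Matrix.sum_mulVec, Matrix.sum_mulVec]
        have : ∑ i, c i • (A i *ᵥ x + b i) = ∑ i, (c i • A i) *ᵥ x + ∑ i, c i • b i := by
          rw [← Finset.sum_add_distrib]
          apply Finset.sum_congr rfl
          intro i _
          rw [smul_add, Matrix.smul_mulVec]
        rw [this]
        abel
      rw [h4, dotProduct_add, h2, zero_add]
      exact skew_dot_self hsk _
    have hc : ∀ i, c i = 0 := Fintype.linearIndependent_iff.1 hx1 c hc0
    have hy : y = 0 := by
      have h2 : u r = y := by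
        rw [hu, Pi.add_apply, Pi.single_eq_same, Finset.sum_apply]
        rw [Finset.sum_eq_zero, zero_add]
        intro i _
        rw [hc i]
        simp
      rw [← h2, hur]
    have hs0 : s = 0 := by
      have h2 : u = 0 := by
        rw [hu, hy, Pi.single_zero, add_zero]
        apply Finset.sum_eq_zero
        intro i _
        rw [hc i, zero_smul]
      rw [h2] at hus
      exact (neg_eq_zero.1 hus.symm)
    rw [Prod.mk_eq_zero, Prod.mk_eq_zero]
    exact ⟨Subtype.ext hs0, hy, funext hc⟩
  have hfr := LinearMap.finrank_le_finrank_of_injective hinj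
  rw [Module.finrank_prod, Module.finrank_prod, Module.finrank_fin_fun, Module.finrank_fin_fun]
    at hfr
  have : mo K p' = Module.finrank ℝ (Mot K p') := rfl
  have : mo G0 p = Module.finrank ℝ (Mot G0 p) := rfl
  omega

end Pool.Agent.Y647.RG
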