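import Mathlib
import Pool.Agent.Y647.RG.Joint

/-!
# Adding a bar between two bodies
-/

set_option autoImplicit false

namespace Pool.Agent.Y647.RG

open Matrix Finset Pool.Agent.H789R5 Pool.Agent.H283R2.DR

variable {V : Type} [Fintype V] [DecidableEq V] {p : V → Fin 3 → ℝ} {G : SimpleGraph V}

/-- trivial motions are motions -/
theorem triv_mot (H : SimpleGraph V) (p : V → Fin 3 → ℝ) {A : Matrix (Fin 3) (Fin 3) ℝ}
    (hA : Aᵀ = -A) (b : Fin 3 → ℝ) : (fun v => A *ᵥ p v + b) ∈ Mot H p := by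
  rw [mem_mot]
  intro u v _
  rw [add_sub_add_right_eq_sub, ← Matrix.mulVec_sub]
  exact skew_dot_self hA _

theorem comp_triv (hp : Gen p) {H : SimpleGraph V} {X : Finset V}
    (hcl : ∀ a ∈ X, ∀ b ∈ X, a ≠ b → H.Adj a b) {q : V → Fin 3 → ℝ} (hq : q ∈ Mot H p) :
    ∃ (A : Matrix (Fin 3) (Fin 3) ℝ) (b : Fin 3 → ℝ), Aᵀ = -A ∧ ∀ v ∈ X, q v = A *ᵥ p v + b := by
  obtain ⟨A, b, hA, hb⟩ := rigid_complete hp H X hcl q
    (fun u _ v _ huv => (mem_mot H p q).1 hq u v huv)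
  exact ⟨A, b, hA, fun v hv => hb v (by exact_mod_cast hv)⟩

/-- a vertex joined to three vertices of a complete set moves with the set -/
theorem free_vertex (hp : MG p) {G0 : SimpleGraph V} {X T : Finset V}
    (hcl : ∀ a ∈ X, ∀ b ∈ X, a ≠ b → G0.Adj a b) {v : V} (hTX : T ⊆ X) (hT : T.card = 3)
    (hvT : v ∉ T) {q : V → Fin 3 → ℝ} (hq : q ∈ Mot G0 p)
    (h : ∀ z ∈ T, (p v - p z) ⬝ᵥ (q v - q z) = 0) :
    ∃ (A : Matrix (Fin 3) (Fin 3) ℝ) (b : Fin 3 → ℝ), Aᵀ = -A ∧ q v = A *ᵥ p v + b ∧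
      ∀ w ∈ X, q w = A *ᵥ p w + b := by
  obtain ⟨A, b, hA, hb⟩ := comp_triv hp.toGen hcl hq
  refine ⟨A, b, hA, ?_, hb⟩
  have h1 : q v - (A *ᵥ p v + b) = 0 := by
    apply orth_li hT (lin_of_pos hp hvT (by omega))
    intro z hz
    have h2 := h z hz
    rw [hb z (hTX hz)] at h2
    have h3 : q v - (A *ᵥ p v + b) = (q v - (A *ᵥ p z + b)) - A *ᵥ (p v - p z) := by
      rw [Matrix.mulVec_sub]
      abel
    rw [h3, dotProduct_sub, h2, skew_dot_self hA, sub_zero]
  exact sub_eq_zero.1 h1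

theorem attach (hp : MG p) {H : SimpleGraph V} {X : Finset V} {v r : V} (hvX : v ∈ X)
    (hX : 4 ≤ X.card) (hcl : ∀ a ∈ X, ∀ b ∈ X, a ≠ b → H.Adj a b)
    (hN : ∀ w, H.Adj v w → w ∈ X) (hr : r ∉ X) {q : V → Fin 3 → ℝ} (hq : q ∈ Mot H p)
    (hqX : ∀ x ∈ X, q x = 0) (hqr : q r ≠ 0) :
    mo (H ⊔ SimpleGraph.edge v r) p + 1 ≤ mo H p := by
  classical
  have hvr : v ≠ r := fun h => hr (h ▸ hvX)
  obtain ⟨T, hTX, hT⟩ := Finset.exists_subset_card_eq (s := X.erase v) (n := 3)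
    (by rw [Finset.card_erase_of_mem hvX]; omega)
  have hTX' : ∀ z ∈ T, z ∈ X ∧ z ≠ v := fun z hz =>
    ⟨Finset.mem_of_mem_erase (hTX hz), Finset.ne_of_mem_erase (hTX hz)⟩
  have hvT : v ∉ T := fun h => (hTX' v h).2 rfl
  have hrT : r ∉ T := fun h => hr (hTX' r h).1
  set G0 := H.deleteIncidenceSet v with hG0
  have hG0' : ∀ a b, G0.Adj a b ↔ H.Adj a b ∧ a ≠ v ∧ b ≠ v := by
    intro a b
    rw [hG0, SimpleGraph.deleteIncidenceSet_adj]
  -- a pair which is not blocked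
  obtain ⟨x, hx, hxr⟩ : ∃ x ∈ T, (p x - p r) ⬝ᵥ (q x - q r) ≠ 0 := by
    by_contra hcon
    push Not at hcon
    apply hqr
    apply orth_li hT (lin_of_pos hp hrT (by omega))
    intro z hz
    have h1 := hcon z hz
    rw [hqX z (hTX' z hz).1, zero_sub, dotProduct_neg, neg_eq_zero] at h1
    rw [← neg_sub, neg_dotProduct, h1, neg_zero]
  have hxr' : x ≠ r := fun h => hrT (h ▸ hx)
  set G1 := H ⊔ SimpleGraph.edge v r with hG1
  have e1 := ext1 hp G1 v (insert r T) (by rw [Finset.card_insert_of_notMem hrT, hT]) (by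
    intro z hz
    rw [Finset.mem_insert] at hz
    rcases hz with rfl | hz
    · exact Or.inr (by rw [SimpleGraph.edge_adj]; exact ⟨Or.inl ⟨rfl, rfl⟩, hvr⟩)
    · exact Or.inl (hcl v hvX z (hTX' z hz).1 (hTX' z hz).2.symm)) (x := x) (y := r)
    (Finset.mem_insert_of_mem hx) (Finset.mem_insert_self _ _) hxr'
  have e2 : G1.deleteIncidenceSet v = G0 := by
    ext a b
    rw [SimpleGraph.deleteIncidenceSet_adj, hG0', hG1, SimpleGraph.sup_adj,
      SimpleGraph.edge_adj]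
    constructor
    · rintro ⟨h | h, h1, h2⟩
      · exact ⟨h, h1, h2⟩
      · rcases h.1 with h3 | h3
        · exact absurd h3.1 h1
        · exact absurd h3.2 h2
    · rintro ⟨h, h1, h2⟩
      exact ⟨Or.inl h, h1, h2⟩
  rw [e2] at e1
  have e3 : mo (G0 ⊔ SimpleGraph.edge x r) p + 1 ≤ mo G0 p := by
    have h1 : Mot (G0 ⊔ SimpleGraph.edge x r) p < Mot G0 p := by
      refine lt_of_le_of_ne (mot_anti le_sup_left p) ?_
      intro heq
      have h2 : q ∈ Mot G0 p := mot_anti (fun a b h => ((hG0' a b).1 h).1) p hq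
      rw [← heq, mem_mot] at h2
      exact hxr (h2 x r (Or.inr (by
        rw [SimpleGraph.edge_adj]; exact ⟨Or.inl ⟨rfl, rfl⟩, hxr'⟩)))
    exact Submodule.finrank_lt_finrank_of_lt h1
  have e4 : mo G0 p ≤ mo H p + 3 := by
    have h1 := dim_drop (Mot G0 p) (Mot H p) (fun z : T => ef p v z) (by
      intro q' hq' h
      obtain ⟨A, b, hA, hv, hb⟩ := free_vertex hp (G0 := G0) (X := X.erase v) (T := T)
        (fun a ha c hc hac => (hG0' a c).2 ⟨hcl a (Finset.mem_of_mem_erase ha) c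
          (Finset.mem_of_mem_erase hc) hac, Finset.ne_of_mem_erase ha, Finset.ne_of_mem_erase hc⟩)
        hTX hT hvT hq' (fun z hz => h ⟨z, hz⟩)
      have hw : ∀ w, H.Adj v w → (p v - p w) ⬝ᵥ (q' v - q' w) = 0 := by
        intro w hw
        rw [hv, hb w (Finset.mem_erase.2 ⟨hw.ne.symm, hN w hw⟩), add_sub_add_right_eq_sub,
          ← Matrix.mulVec_sub]
        exact skew_dot_self hA _
      rw [mem_mot] at hq' ⊢
      intro a c hac
      by_cases ha : a = v
      · subst ha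
        exact hw c hac
      · by_cases hc : c = v
        · subst hc
          rw [← neg_sub (p c), ← neg_sub (q' c), neg_dotProduct_neg]
          exact hw a hac.symm
        · exact hq' a c ((hG0' a c).2 ⟨hac, ha, hc⟩))
    rw [Fintype.card_coe, hT] at h1
    exact h1
  omega

theorem not_tied (hp : MG p) {H : SimpleGraph V} {X Z : Finset V} {r s : V} (hX : 3 ≤ X.card)
    (hclX : ∀ a ∈ X, ∀ b ∈ X, a ≠ b → H.Adj a b) (hZ : 4 ≤ Z.card)
    (hclZ : ∀ a ∈ Z, ∀ b ∈ Z, a ≠ b → H.Adj a b) (hrZ : r ∈ Z) (hrX : r ∉ X)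
    (hN : ∀ w, H.Adj r w → w ∈ Z ∨ w = s) {q0 : V → Fin 3 → ℝ} (hq0 : q0 ∈ Mot H p)
    (hq0Z : ∀ z ∈ Z, q0 z = 0) (hq0X : ∃ x ∈ X, q0 x ≠ 0) :
    ∃ q ∈ Mot H p, (∀ x ∈ X, q x = 0) ∧ q r ≠ 0 := by
  classical
  by_contra hcon
  push Not at hcon
  set G0 := H.deleteIncidenceSet r with hG0
  have hG0' : ∀ a b, G0.Adj a b ↔ H.Adj a b ∧ a ≠ r ∧ b ≠ r := by
    intro a b
    rw [hG0, SimpleGraph.deleteIncidenceSet_adj]
  have hG0H : G0 ≤ H := fun a b h => ((hG0' a b).1 h).1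
  have hiso : ∀ u, ¬ G0.Adj r u := del_isolated H r
  obtain ⟨T, hTZ, hT⟩ := Finset.exists_subset_card_eq (s := Z.erase r) (n := 3)
    (by rw [Finset.card_erase_of_mem hrZ]; omega)
  have hTZ' : ∀ z ∈ T, z ∈ Z ∧ z ≠ r := fun z hz =>
    ⟨Finset.mem_of_mem_erase (hTZ hz), Finset.ne_of_mem_erase (hTZ hz)⟩
  have hrT : r ∉ T := fun h => (hTZ' r h).2 rfl
  obtain ⟨X3, hX3, hX3c⟩ := Finset.exists_subset_card_eq (s := X) (n := 3) hX
  have hrX3 : r ∉ X3 := fun h => hrX (hX3 h)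
  obtain ⟨A, b, hA, hb⟩ := comp_triv hp.toGen hclX hq0
  -- motions move `r` with `X`
  have hmove : ∀ q ∈ Mot H p, ∀ (A' : Matrix (Fin 3) (Fin 3) ℝ) (b' : Fin 3 → ℝ), A'ᵀ = -A' →
      (∀ x ∈ X, q x = A' *ᵥ p x + b') → q r = A' *ᵥ p r + b' := by
    intro q hq A' b' hA' hb'
    have h1 := hcon (q - fun v => A' *ᵥ p v + b') (Submodule.sub_mem _ hq (triv_mot H p hA' b'))
      (fun x hx => by rw [Pi.sub_apply, hb' x hx, sub_self])
    rw [Pi.sub_apply, sub_eq_zero] at h1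
    exact h1
  have hr0 : A *ᵥ p r + b = 0 := by
    rw [← hmove q0 hq0 A b hA hb]
    exact hq0Z r hrZ
  obtain ⟨x1, hx1, hx1'⟩ := hq0X
  have hne : A *ᵥ p x1 + b ≠ 0 := by rw [← hb x1 hx1]; exact hx1'
  have hclZ0 : ∀ a ∈ Z.erase r, ∀ c ∈ Z.erase r, a ≠ c → G0.Adj a c := fun a ha c hc hac =>
    (hG0' a c).2 ⟨hclZ a (Finset.mem_of_mem_erase ha) c (Finset.mem_of_mem_erase hc) hac,
      Finset.ne_of_mem_erase ha, Finset.ne_of_mem_erase hc⟩
  have hclX0 : ∀ a ∈ X, ∀ c ∈ X, a ≠ c → G0.Adj a c := fun a ha c hc hac =>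
    (hG0' a c).2 ⟨hclX a ha c hc hac, fun h => hrX (h ▸ ha), fun h => hrX (h ▸ hc)⟩
  have hq00 : q0 ∈ Mot G0 p := mot_anti hG0H p hq0
  by_cases hB : ∀ q1 ∈ Mot G0 p, (∀ z ∈ Z.erase r, q1 z = 0) →
      ∃ c : ℝ, ∀ x ∈ X, q1 x = c • (A *ᵥ p x + b)
  · have j1 := joint hp hiso hrX3 hrT hX3c hT (n := 1) (fun _ => q0) (fun _ => A) (fun _ => b)
      (fun _ => hA) (fun _ => hq00) (fun _ z hz => hq0Z z (hTZ' z hz).1)
      (fun _ x hx => hb x (hX3 hx)) (p x1) (LinearIndependent.of_subsingleton 0 hne)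
    have j2 := dim_drop (Mot G0 p) (Mot (G0 ⊔ star r (X3 ∪ T)) p) (fun z : T => ef p r z) (by
      intro q hq h
      obtain ⟨A2, b2, hA2, hr2, hb2⟩ := free_vertex hp hclZ0 hTZ hT hrT hq
        (fun z hz => h ⟨z, hz⟩)
      obtain ⟨c, hc⟩ := hB (q - fun v => A2 *ᵥ p v + b2)
        (Submodule.sub_mem _ hq (triv_mot G0 p hA2 b2))
        (fun z hz => by rw [Pi.sub_apply, hb2 z hz, sub_self])
      have hw : ∀ w ∈ X3 ∪ T, (p r - p w) ⬝ᵥ (q r - q w) = 0 := by
        intro w hw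
        rw [Finset.mem_union] at hw
        rcases hw with hw | hw
        · have h1 := hc w (hX3 hw)
          rw [Pi.sub_apply, sub_eq_iff_eq_add] at h1
          have h2 : A *ᵥ p w + b = - (A *ᵥ (p r - p w)) := by
            rw [Matrix.mulVec_sub]
            have : A *ᵥ p w + b = (A *ᵥ p r + b) - (A *ᵥ p r - A *ᵥ p w) := by abel
            rw [this, hr0, zero_sub]
          have h3 : q r - q w = c • (A *ᵥ (p r - p w)) + A2 *ᵥ (p r - p w) := by
            rw [hr2, h1, h2, smul_neg, Matrix.mulVec_sub A2]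
            abel
          rw [h3, dotProduct_add, dotProduct_smul, skew_dot_self hA, skew_dot_self hA2]
          simp
        · exact h ⟨w, hw⟩
      rw [mem_mot] at hq ⊢
      intro u v huv
      rcases huv with huv | ⟨huv, ⟨rfl, hv⟩ | ⟨rfl, hu⟩⟩
      · exact hq u v huv
      · exact hw v hv
      · rw [← neg_sub (p v), ← neg_sub (q v), neg_dotProduct_neg]
        exact hw u hu)
    rw [Fintype.card_coe, hT] at j2
    have : mo G0 p = Module.finrank ℝ (Mot G0 p) := rfl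
    have : mo (G0 ⊔ star r (X3 ∪ T)) p =
      Module.finrank ℝ (Mot (G0 ⊔ star r (X3 ∪ T)) p) := rfl
    omega
  · push Not at hB
    obtain ⟨q1, hq1, hq1Z, hq1c⟩ := hB
    obtain ⟨A1, b1, hA1, hb1⟩ := comp_triv hp.toGen hclX0 hq1
    obtain ⟨x0, hx0⟩ := exists_indep hA hA1 (by
      intro s t h1 h2
      have ht : t = 0 := by
        by_contra ht
        obtain ⟨x, hx, hx'⟩ := hq1c (-(t⁻¹ * s))
        apply hx'
        rw [hb1 x hx]
        have h3 : s • (A *ᵥ p x + b) + t • (A1 *ᵥ p x + b1) = 0 := by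
          have e1 : s • (A *ᵥ p x + b) + t • (A1 *ᵥ p x + b1) =
              (s • A + t • A1) *ᵥ p x + (s • b + t • b1) := by
            rw [Matrix.add_mulVec, Matrix.smul_mulVec, Matrix.smul_mulVec, smul_add, smul_add]
            abel
          rw [e1, h1, h2]
          simp
        have h4 : t • (A1 *ᵥ p x + b1) = -(s • (A *ᵥ p x + b)) := by
          rw [eq_neg_iff_add_eq_zero, add_comm]
          exact h3
        calc A1 *ᵥ p x + b1 = t⁻¹ • (t • (A1 *ᵥ p x + b1)) := by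
              rw [smul_smul, inv_mul_cancel₀ ht, one_smul]
          _ = -(t⁻¹ * s) • (A *ᵥ p x + b) := by
              rw [h4, smul_neg, smul_smul, neg_smul]
      refine ⟨?_, ht⟩
      by_contra hs
      apply hne
      rw [ht, zero_smul, add_zero] at h1 h2
      have e1 : A = 0 := (smul_eq_zero.1 h1).resolve_left hs
      have e2 : b = 0 := (smul_eq_zero.1 h2).resolve_left hs
      rw [e1, e2]
      simp)
    have j1 := joint hp hiso hrX3 hrT hX3c hT (n := 2) ![q0, q1] ![A, A1] ![b, b1]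
      (fun i => by fin_cases i; exacts [hA, hA1]) (fun i => by fin_cases i; exacts [hq00, hq1])
      (fun i z hz => by
        fin_cases i
        · exact hq0Z z (hTZ' z hz).1
        · exact hq1Z z (hTZ hz))
      (fun i x hx => by
        fin_cases i
        · exact hb x (hX3 hx)
        · exact hb1 x (hX3 hx)) x0 (by
        convert hx0 using 1
        funext i
        fin_cases i <;> rfl)
    have j2 := dim_drop (Mot G0 p) (Mot H p)
      (fun z : Option T => match z with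
        | none => ef p r s
        | some z => ef p r z) (by
      intro q hq h
      obtain ⟨A2, b2, hA2, hr2, hb2⟩ := free_vertex hp hclZ0 hTZ hT hrT hq
        (fun z hz => h (some ⟨z, hz⟩))
      have hw : ∀ w, H.Adj r w → (p r - p w) ⬝ᵥ (q r - q w) = 0 := by
        intro w hw
        rcases hN w hw with h1 | rfl
        · rw [hr2, hb2 w (Finset.mem_erase.2 ⟨hw.ne.symm, h1⟩), add_sub_add_right_eq_sub,
            ← Matrix.mulVec_sub]
          exact skew_dot_self hA2 _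
        · exact h none
      rw [mem_mot] at hq ⊢
      intro u v huv
      by_cases hu : u = r
      · subst hu
        exact hw v huv
      · by_cases hv : v = r
        · subst hv
          rw [← neg_sub (p v), ← neg_sub (q v), neg_dotProduct_neg]
          exact hw u huv.symm
        · exact hq u v ((hG0' u v).2 ⟨huv, hu, hv⟩))
    rw [Fintype.card_option, Fintype.card_coe, hT] at j2
    have j3 : Mot H p ≤ Mot (G0 ⊔ star r (X3 ∪ T)) p := by
      intro q hq
      have hw : ∀ w ∈ X3 ∪ T, (p r - p w) ⬝ᵥ (q r - q w) = 0 := by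
        intro w hw
        rw [Finset.mem_union] at hw
        rcases hw with hw | hw
        · obtain ⟨A', b', hA', hb'⟩ := comp_triv hp.toGen hclX hq
          rw [hmove q hq A' b' hA' hb', hb' w (hX3 hw), add_sub_add_right_eq_sub,
            ← Matrix.mulVec_sub]
          exact skew_dot_self hA' _
        · exact (mem_mot H p q).1 hq r w (hclZ r hrZ w (hTZ' w hw).1 (hTZ' w hw).2.symm)
      rw [mem_mot] at hq ⊢
      intro u v huv
      rcases huv with huv | ⟨huv, ⟨rfl, hv⟩ | ⟨rfl, hu⟩⟩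
      · exact hq u v (hG0H huv)
      · exact hw v hv
      · rw [← neg_sub (p v), ← neg_sub (q v), neg_dotProduct_neg]
        exact hw u hu
    have j4 := Submodule.finrank_mono j3
    have : mo G0 p = Module.finrank ℝ (Mot G0 p) := rfl
    have : mo (G0 ⊔ star r (X3 ∪ T)) p =
      Module.finrank ℝ (Mot (G0 ⊔ star r (X3 ∪ T)) p) := rfl
    omega

/-- **Adding a bar** between two bodies which are not rigidly connected: one end is in no other bar
and in no other body, the other end is in at most one other bar and in no other body. -/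
theorem bar_add (hp : MG p) {H : SimpleGraph V} {X Z : Finset V} {v r s : V} (hvX : v ∈ X)
    (hX : 4 ≤ X.card) (hclX : ∀ a ∈ X, ∀ b ∈ X, a ≠ b → H.Adj a b)
    (hNv : ∀ w, H.Adj v w → w ∈ X) (hrZ : r ∈ Z) (hZ : 4 ≤ Z.card)
    (hclZ : ∀ a ∈ Z, ∀ b ∈ Z, a ≠ b → H.Adj a b) (hrX : r ∉ X)
    (hNr : ∀ w, H.Adj r w → w ∈ Z ∨ w = s) {q0 : V → Fin 3 → ℝ} (hq0 : q0 ∈ Mot H p)
    (hq0Z : ∀ z ∈ Z, q0 z = 0) (hq0X : ∃ x ∈ X, q0 x ≠ 0) :
    mo (H ⊔ SimpleGraph.edge v r) p + 1 ≤ mo H p := by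
  obtain ⟨q, h1, h2, h3⟩ := not_tied hp (by omega) hclX hZ hclZ hrZ hrX hNr hq0 hq0Z hq0X
  exact attach hp hvX hX hclX hNv hrX h1 h2 h3

end Pool.Agent.Y647.RG
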