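import Mathlib
import Pool.Agent.Y647.RG.Local

/-!
# Claw-free graphs without edges in exactly one or two triangles satisfy the local condition
-/

set_option autoImplicit false

namespace Pool.Agent.Y647.RG

open Finset Pool.Agent.W824.BJ Pool.Agent.H789R5 Pool.Agent.H283R2.DR

variable {V : Type} [Fintype V] [DecidableEq V] {p : V → Fin 3 → ℝ} {G : SimpleGraph V}

/-- no vertex has three pairwise non-adjacent neighbours -/
def ClawFree (G : SimpleGraph V) : Prop :=
  ∀ v a b c, G.Adj v a → G.Adj v b → G.Adj v c → a ≠ b → a ≠ c → b ≠ c →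
    G.Adj a b ∨ G.Adj a c ∨ G.Adj b c

/-- the common neighbours -/
def cn (G : SimpleGraph V) [DecidableRel G.Adj] (u v : V) : Finset V :=
  univ.filter fun w => G.Adj u w ∧ G.Adj v w

variable [DecidableRel G.Adj]

omit [DecidableEq V] in
theorem mem_cn {u v w : V} : w ∈ cn G u v ↔ G.Adj u w ∧ G.Adj v w := by
  unfold cn
  rw [Finset.mem_filter]
  exact ⟨fun h => h.2, fun h => ⟨Finset.mem_univ _, h⟩⟩

omit [Fintype V] [DecidableRel G.Adj] in
theorem insert_clique {A : Finset V} {v : V} (hA : ∀ a ∈ A, ∀ b ∈ A, a ≠ b → G.Adj a b)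
    (hv : ∀ a ∈ A, G.Adj v a) : ∀ a ∈ insert v A, ∀ b ∈ insert v A, a ≠ b → G.Adj a b := by
  intro a ha b hb hab
  rw [Finset.mem_insert] at ha hb
  rcases ha with rfl | ha <;> rcases hb with rfl | hb
  · exact absurd rfl hab
  · exact hv b hb
  · exact (hv a ha).symm
  · exact hA a ha b hb hab

theorem split (hp : Gen p) {v x : V} (hvx : G.Adj v x) (hne : (cn G v x).Nonempty) :
    RigidOn G (↑(insert v (insert x (cn G v x))) : Set V) p ∨
      ∃ S, S ⊆ cn G v x ∧ S.Nonempty ∧ (cn G v x \ S).Nonempty ∧
        ∀ s ∈ S, ∀ t ∈ cn G v x \ S, ¬ G.Adj s t := by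
  classical
  obtain ⟨c0, hc0⟩ := hne
  obtain ⟨S, hS, hm⟩ := Finset.exists_max_image
    ((cn G v x).powerset.filter fun S : Finset V =>
      c0 ∈ S ∧ RigidOn G (↑(insert v (insert x S)) : Set V) p)
    Finset.card ⟨({c0} : Finset V), by
      rw [Finset.mem_filter, Finset.mem_powerset]
      refine ⟨Finset.singleton_subset_iff.2 hc0, Finset.mem_singleton_self _, ?_⟩
      apply rigid_complete hp
      rw [mem_cn] at hc0
      apply insert_clique
      · apply insert_clique
        · intro a ha b hb hab
          rw [Finset.mem_singleton] at ha hb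
          exact absurd (ha.trans hb.symm) hab
        · intro a ha
          rw [Finset.mem_singleton] at ha
          exact ha ▸ hc0.2
      · intro a ha
        rw [Finset.mem_insert, Finset.mem_singleton] at ha
        rcases ha with rfl | rfl
        · exact hvx
        · exact hc0.1⟩
  rw [Finset.mem_filter, Finset.mem_powerset] at hS
  by_cases hSC : S = cn G v x
  · left
    rw [← hSC]
    exact hS.2.2
  · right
    refine ⟨S, hS.1, ⟨c0, hS.2.1⟩, ?_, ?_⟩
    · rw [Finset.sdiff_nonempty]
      exact fun h => hSC (Finset.Subset.antisymm hS.1 h)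
    · intro s hs t ht hst
      rw [Finset.mem_sdiff] at ht
      have h1 := mem_cn.1 (hS.1 hs)
      have h2 := mem_cn.1 ht.1
      have hK : RigidOn G (↑(insert v (insert x ({s, t} : Finset V))) : Set V) p := by
        apply rigid_complete hp
        apply insert_clique
        · apply insert_clique
          · intro a ha b hb hab
            rw [Finset.mem_insert, Finset.mem_singleton] at ha hb
            rcases ha with rfl | rfl <;> rcases hb with rfl | rfl
            · exact absurd rfl hab
            · exact hst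
            · exact hst.symm
            · exact absurd rfl hab
          · intro a ha
            rw [Finset.mem_insert, Finset.mem_singleton] at ha
            rcases ha with rfl | rfl
            · exact h1.2
            · exact h2.2
        · intro a ha
          rw [Finset.mem_insert, Finset.mem_insert, Finset.mem_singleton] at ha
          rcases ha with rfl | rfl | rfl
          · exact hvx
          · exact h1.1
          · exact h2.1
      have h3 : 3 ≤ ((insert v (insert x S)) ∩ (insert v (insert x ({s, t} : Finset V)))).card := by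
        have h4 : ({v, x, s} : Finset V).card = 3 :=
          Finset.card_eq_three.2 ⟨v, x, s, hvx.ne, h1.1.ne, h1.2.ne, rfl⟩
        rw [← h4]
        apply Finset.card_le_card
        intro a ha
        simp only [Finset.mem_insert, Finset.mem_singleton] at ha
        simp only [Finset.mem_inter, Finset.mem_insert, Finset.mem_singleton]
        rcases ha with rfl | rfl | rfl
        · exact ⟨Or.inl rfl, Or.inl rfl⟩
        · exact ⟨Or.inr (Or.inl rfl), Or.inr (Or.inl rfl)⟩
        · exact ⟨Or.inr (Or.inr hs), Or.inr (Or.inr (Or.inl rfl))⟩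
      have h4 := glue hp hS.2.2 hK h3
      have h5 : (insert v (insert x S)) ∪ (insert v (insert x ({s, t} : Finset V))) =
          insert v (insert x (insert t S)) := by
        ext a
        simp only [Finset.mem_union, Finset.mem_insert, Finset.mem_singleton]
        constructor
        · rintro ((h | h | h) | (h | h | h | h))
          · exact Or.inl h
          · exact Or.inr (Or.inl h)
          · exact Or.inr (Or.inr (Or.inr h))
          · exact Or.inl h
          · exact Or.inr (Or.inl h)
          · exact Or.inr (Or.inr (Or.inr (h ▸ hs)))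
          · exact Or.inr (Or.inr (Or.inl h))
        · rintro (h | h | h | h)
          · exact Or.inl (Or.inl h)
          · exact Or.inl (Or.inr (Or.inl h))
          · exact Or.inr (Or.inr (Or.inr (Or.inr h)))
          · exact Or.inl (Or.inr (Or.inr h))
      rw [h5] at h4
      have h6 := hm (insert t S) (by
        rw [Finset.mem_filter, Finset.mem_powerset]
        exact ⟨Finset.insert_subset ht.1 hS.1, Finset.mem_insert_of_mem hS.2.1, h4⟩)
      rw [Finset.card_insert_of_notMem ht.2] at h6
      omega

/-- one side of a disconnected neighbourhood -/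
theorem side (hp : Gen p) {v x : V} (hvx : G.Adj v x) {S S' : Finset V}
    (hSS : S ∪ S' = cn G v x) (hno : ∀ s ∈ S, ∀ t ∈ S', ¬ G.Adj s t)
    (hcl : ∀ a ∈ S, ∀ b ∈ S, a ≠ b → G.Adj a b) (hne : S.Nonempty) (P : Finset V)
    (hP : ∀ z, z ∈ P ↔ G.Adj v z ∧ z ≠ x ∧ ¬ G.Adj x z ∧ ∀ s ∈ S, G.Adj z s)
    (hPcl : ∀ a ∈ P, ∀ b ∈ P, a ≠ b → G.Adj a b)
    (ht : ∀ s ∈ S, 3 ≤ (cn G v s).card) :
    ∃ Z, v ∈ Z ∧ S ⊆ Z ∧ P ⊆ Z ∧ Big G p Z ∧ (2 ≤ S.card → x ∈ Z) := by
  have hSC : ∀ s ∈ S, G.Adj v s ∧ G.Adj x s := fun s hs =>
    mem_cn.1 (hSS ▸ Finset.mem_union_left _ hs)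
  have hd : Disjoint S P := by
    rw [Finset.disjoint_left]
    intro a ha hb
    exact ((hP a).1 hb).2.2.1 (hSC a ha).2
  have hvS : v ∉ S ∪ P := by
    rw [Finset.mem_union]
    rintro (h | h)
    · exact (hSC v h).1.ne rfl
    · exact ((hP v).1 h).1.ne rfl
  have hK : RigidOn G (↑(insert v (S ∪ P)) : Set V) p := by
    apply rigid_complete hp
    apply insert_clique
    · intro a ha b hb hab
      rw [Finset.mem_union] at ha hb
      rcases ha with ha | ha <;> rcases hb with hb | hb
      · exact hcl a ha b hb hab
      · exact (((hP b).1 hb).2.2.2 a ha).symm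
      · exact ((hP a).1 ha).2.2.2 b hb
      · exact hPcl a ha b hb hab
    · intro a ha
      rw [Finset.mem_union] at ha
      rcases ha with ha | ha
      · exact (hSC a ha).1
      · exact ((hP a).1 ha).1
  rcases Nat.lt_or_ge S.card 2 with h2 | h2
  · refine ⟨insert v (S ∪ P), Finset.mem_insert_self _ _, ?_, ?_, ⟨hK, ?_⟩, fun h => ?_⟩
    · exact Finset.subset_union_left.trans (Finset.subset_insert _ _)
    · exact Finset.subset_union_right.trans (Finset.subset_insert _ _)
    · have h1 : S.card = 1 := by
        have := hne.card_pos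
        omega
      obtain ⟨s, hs⟩ := Finset.card_eq_one.1 h1
      have hsS : s ∈ S := by rw [hs]; exact Finset.mem_singleton_self _
      have h3 : cn G v s ⊆ insert x P := by
        intro z hz
        rw [mem_cn] at hz
        rw [Finset.mem_insert, hP]
        by_cases hzx : z = x
        · exact Or.inl hzx
        · right
          refine ⟨hz.1, hzx, ?_, ?_⟩
          · intro hxz
            have h4 : z ∈ S ∪ S' := hSS ▸ mem_cn.2 ⟨hz.1, hxz⟩
            rw [Finset.mem_union] at h4
            rcases h4 with h4 | h4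
            · rw [hs, Finset.mem_singleton] at h4
              exact hz.2.ne h4.symm
            · exact hno s hsS z h4 hz.2
          · intro s' hs'
            rw [hs, Finset.mem_singleton] at hs'
            rw [hs']
            exact hz.2.symm
      have h4 := (ht s hsS).trans ((Finset.card_le_card h3).trans (Finset.card_insert_le _ _))
      rw [Finset.card_insert_of_notMem hvS, Finset.card_union_of_disjoint hd]
      omega
    · omega
  · have hK' : RigidOn G (↑(insert v (insert x S)) : Set V) p := by
      apply rigid_complete hp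
      apply insert_clique
      · exact insert_clique hcl fun a ha => (hSC a ha).2
      · intro a ha
        rw [Finset.mem_insert] at ha
        rcases ha with rfl | ha
        · exact hvx
        · exact (hSC a ha).1
    have hvS' : v ∉ S := fun h => hvS (Finset.mem_union_left _ h)
    have hxS : x ∉ S := fun h => (hSC x h).2.ne rfl
    have h3 : 3 ≤ ((insert v (S ∪ P)) ∩ (insert v (insert x S))).card := by
      have h4 : (insert v S).card = S.card + 1 := Finset.card_insert_of_notMem hvS'
      have h5 : insert v S ⊆ (insert v (S ∪ P)) ∩ (insert v (insert x S)) := by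
        intro a ha
        simp only [Finset.mem_insert, Finset.mem_inter, Finset.mem_union] at ha ⊢
        rcases ha with h | h
        · exact ⟨Or.inl h, Or.inl h⟩
        · exact ⟨Or.inr (Or.inl h), Or.inr (Or.inr h)⟩
      have h6 := Finset.card_le_card h5
      omega
    have h4 := glue hp hK hK' h3
    refine ⟨_, ?_, ?_, ?_, ⟨h4, ?_⟩, fun _ => ?_⟩
    · exact Finset.mem_union_left _ (Finset.mem_insert_self _ _)
    · exact (Finset.subset_union_left.trans (Finset.subset_insert _ _)).trans
        Finset.subset_union_left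
    · exact (Finset.subset_union_right.trans (Finset.subset_insert _ _)).trans
        Finset.subset_union_left
    · have h5 : (insert v (insert x S)).card = S.card + 2 := by
        rw [Finset.card_insert_of_notMem, Finset.card_insert_of_notMem hxS]
        rw [Finset.mem_insert]
        rintro (h | h)
        · exact hvx.ne h
        · exact hvS' h
      have h6 := Finset.card_le_card
        (Finset.subset_union_right (s₁ := insert v (S ∪ P)) (s₂ := insert v (insert x S)))
      omega
    · exact Finset.mem_union_right _ (Finset.mem_insert_of_mem (Finset.mem_insert_self _ _))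

/-- a vertex `x` of the neighbourhood of `v` whose own neighbourhood there is not connected -/
theorem split_case (hp : Gen p) (hc : ClawFree G) {v x : V} (hvx : G.Adj v x)
    (ht : ∀ w, G.Adj v w → 3 ≤ (cn G v w).card) {S : Finset V} (hS : S ⊆ cn G v x)
    (hne : S.Nonempty) (hne' : (cn G v x \ S).Nonempty)
    (hno : ∀ s ∈ S, ∀ t ∈ cn G v x \ S, ¬ G.Adj s t) :
    ∃ X Y : Finset V, v ∈ X ∧ Big G p X ∧ (v ∈ Y ∧ Big G p Y) ∧
      ∀ w, G.Adj v w → w ∈ X ∨ w ∈ Y := by
  classical
  set S' := cn G v x \ S with hS'
  have hSS : S ∪ S' = cn G v x := Finset.union_sdiff_of_subset hS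
  have hSS' : S' ∪ S = cn G v x := by rw [Finset.union_comm, hSS]
  have hd : ∀ a ∈ S, ∀ b ∈ S', a ≠ b := by
    intro a ha b hb hab
    exact (Finset.mem_sdiff.1 hb).2 (hab ▸ ha)
  have hmS : ∀ s ∈ S, G.Adj v s ∧ G.Adj x s := fun s hs => mem_cn.1 (hS hs)
  have hmS' : ∀ s ∈ S', G.Adj v s ∧ G.Adj x s := fun s hs => mem_cn.1 (Finset.mem_sdiff.1 hs).1
  have hcl : ∀ a ∈ S, ∀ b ∈ S, a ≠ b → G.Adj a b := by
    intro a ha b hb hab
    obtain ⟨t, ht⟩ := hne'
    rcases hc v a b t (hmS a ha).1 (hmS b hb).1 (hmS' t ht).1 hab (hd a ha t ht) (hd b hb t ht)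
      with h | h | h
    · exact h
    · exact absurd h (hno a ha t ht)
    · exact absurd h (hno b hb t ht)
  have hcl' : ∀ a ∈ S', ∀ b ∈ S', a ≠ b → G.Adj a b := by
    intro a ha b hb hab
    obtain ⟨t, ht⟩ := hne
    rcases hc v a b t (hmS' a ha).1 (hmS' b hb).1 (hmS t ht).1 hab (hd t ht a ha).symm
      (hd t ht b hb).symm with h | h | h
    · exact h
    · exact absurd h.symm (hno t ht a ha)
    · exact absurd h.symm (hno t ht b hb)
  have hPcl : ∀ a b, G.Adj v a → a ≠ x → ¬ G.Adj x a → G.Adj v b → b ≠ x → ¬ G.Adj x b → a ≠ b →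
      G.Adj a b := by
    intro a b h1 h2 h3 h4 h5 h6 hab
    rcases hc v x a b hvx h1 h4 h2.symm h5.symm hab with h | h | h
    · exact absurd h h3
    · exact absurd h h6
    · exact h
  obtain ⟨X, h1, h2, h3, h4, h5⟩ := side hp hvx hSS hno hcl hne
    (univ.filter fun z => G.Adj v z ∧ z ≠ x ∧ ¬ G.Adj x z ∧ ∀ s ∈ S, G.Adj z s)
    (fun z => by simp) (by
      intro a ha b hb hab
      rw [Finset.mem_filter] at ha hb
      exact hPcl a b ha.2.1 ha.2.2.1 ha.2.2.2.1 hb.2.1 hb.2.2.1 hb.2.2.2.1 hab)
    (fun s hs => ht s (hmS s hs).1)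
  obtain ⟨Y, g1, g2, g3, g4, g5⟩ := side hp hvx hSS' (fun s hs t ht h => hno t ht s hs h.symm)
    hcl' hne'
    (univ.filter fun z => G.Adj v z ∧ z ≠ x ∧ ¬ G.Adj x z ∧ ∀ s ∈ S', G.Adj z s)
    (fun z => by simp) (by
      intro a ha b hb hab
      rw [Finset.mem_filter] at ha hb
      exact hPcl a b ha.2.1 ha.2.2.1 ha.2.2.2.1 hb.2.1 hb.2.2.1 hb.2.2.2.1 hab)
    (fun s hs => ht s (hmS' s hs).1)
  refine ⟨X, Y, h1, h4, ⟨g1, g4⟩, ?_⟩
  intro w hvw
  by_cases hwx : w = x
  · subst hwx
    have h6 := ht w hvw
    rw [← hSS] at h6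
    have h7 := h6.trans (Finset.card_union_le _ _)
    rcases Nat.lt_or_ge S.card 2 with h8 | h8
    · exact Or.inr (g5 (by omega))
    · exact Or.inl (h5 h8)
  · by_cases hxw : G.Adj x w
    · have h6 : w ∈ S ∪ S' := hSS ▸ mem_cn.2 ⟨hvw, hxw⟩
      rw [Finset.mem_union] at h6
      exact h6.imp (fun h => h2 h) (fun h => g2 h)
    · by_cases h6 : ∀ s ∈ S, G.Adj w s
      · exact Or.inl (h3 (Finset.mem_filter.2 ⟨Finset.mem_univ _, hvw, hwx, hxw, h6⟩))
      · right
        apply g3
        refine Finset.mem_filter.2 ⟨Finset.mem_univ _, hvw, hwx, hxw, ?_⟩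
        push Not at h6
        obtain ⟨s, hs, hws⟩ := h6
        intro t ht
        have h7 : w ≠ s := by
          rintro rfl
          exact hxw (hmS w hs).2
        have h8 : w ≠ t := by
          rintro rfl
          exact hxw (hmS' w ht).2
        rcases hc v w s t hvw (hmS s hs).1 (hmS' t ht).1 h7 h8 (hd s hs t ht) with h | h | h
        · exact absurd h hws
        · exact h
        · exact absurd h (hno s hs t ht)

theorem claw_local (hp : Gen p) (hc : ClawFree G)
    (hd : ∀ v, 3 ≤ (univ.filter fun w => G.Adj v w).card)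
    (ht : ∀ u v, G.Adj u v → (cn G u v).card = 0 ∨ 3 ≤ (cn G u v).card) : LocalAt G p := by
  classical
  intro v
  set N := univ.filter fun w => G.Adj v w with hN
  have hmN : ∀ w, w ∈ N ↔ G.Adj v w := by
    intro w
    rw [hN, Finset.mem_filter]
    exact ⟨fun h => h.2, fun h => ⟨Finset.mem_univ _, h⟩⟩
  have hvN : v ∉ N := fun h => ((hmN v).1 h).ne rfl
  have hdN : 3 ≤ N.card := by
    refine (hd v).trans (Finset.card_le_card ?_)
    intro w hw
    rw [hmN]
    exact (Finset.mem_filter.1 hw).2
  by_cases hbar : ∃ w, G.Adj v w ∧ (cn G v w).card = 0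
  · obtain ⟨w, hvw, h0⟩ := hbar
    rw [Finset.card_eq_zero] at h0
    have hnw : ∀ a, G.Adj v a → ¬ G.Adj w a := by
      intro a h1 h2
      have : a ∈ cn G v w := mem_cn.2 ⟨h1, h2⟩
      rw [h0] at this
      exact Finset.notMem_empty _ this
    have hcl : ∀ a ∈ N.erase w, ∀ b ∈ N.erase w, a ≠ b → G.Adj a b := by
      intro a ha b hb hab
      rw [Finset.mem_erase, hmN] at ha hb
      rcases hc v w a b hvw ha.2 hb.2 ha.1.symm hb.1.symm hab with h | h | h
      · exact absurd h (hnw a ha.2)
      · exact absurd h (hnw b hb.2)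
      · exact h
    have hcard : 3 ≤ (N.erase w).card := by
      have h1 : 2 ≤ (N.erase w).card := by
        rw [Finset.card_erase_of_mem ((hmN w).2 hvw)]
        omega
      obtain ⟨a, ha, b, hb, hab⟩ := Finset.one_lt_card.1 h1
      have h2 := hcl a ha b hb hab
      rw [Finset.mem_erase, hmN] at ha hb
      have h3 : b ∈ cn G v a := mem_cn.2 ⟨hb.2, h2⟩
      have h4 : 3 ≤ (cn G v a).card := by
        rcases ht v a ha.2 with h | h
        · rw [Finset.card_eq_zero] at h
          rw [h] at h3
          exact absurd h3 (Finset.notMem_empty _)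
        · exact h
      refine h4.trans (Finset.card_le_card ?_)
      intro z hz
      rw [mem_cn] at hz
      rw [Finset.mem_erase, hmN]
      refine ⟨?_, hz.1⟩
      rintro rfl
      exact hnw a ha.2 hz.2.symm
    refine ⟨insert v (N.erase w), {w}, Finset.mem_insert_self _ _, ⟨?_, ?_⟩, Or.inr (by simp), ?_⟩
    · apply rigid_complete hp
      apply insert_clique hcl
      intro a ha
      rw [Finset.mem_erase, hmN] at ha
      exact ha.2
    · rw [Finset.card_insert_of_notMem]
      · omega
      · exact fun h => hvN (Finset.mem_of_mem_erase h)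
    · intro a hva
      rw [Finset.mem_insert, Finset.mem_erase, hmN, Finset.mem_singleton]
      by_cases h : a = w
      · exact Or.inr h
      · exact Or.inl (Or.inr ⟨h, hva⟩)
  · push Not at hbar
    have ht' : ∀ w, G.Adj v w → 3 ≤ (cn G v w).card := fun w hw =>
      (ht v w hw).resolve_left (hbar w hw)
    by_cases hclq : ∀ a ∈ N, ∀ b ∈ N, a ≠ b → G.Adj a b
    · have hbig : Big G p (insert v N) := by
        refine ⟨?_, ?_⟩
        · apply rigid_complete hp
          exact insert_clique hclq fun a ha => (hmN a).1 ha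
        · rw [Finset.card_insert_of_notMem hvN]
          omega
      exact ⟨insert v N, insert v N, Finset.mem_insert_self _ _, hbig,
        Or.inl ⟨Finset.mem_insert_self _ _, hbig⟩,
        fun w hw => Or.inl (Finset.mem_insert_of_mem ((hmN w).2 hw))⟩
    · push Not at hclq
      obtain ⟨x, hx, y, hy, hxy, hnxy⟩ := hclq
      rw [hmN] at hx hy
      have hne : ∀ w, G.Adj v w → (cn G v w).Nonempty := by
        intro w hw
        rw [← Finset.card_pos]
        have := ht' w hw
        omega
      rcases split hp hx (hne x hx) with h1 | ⟨S, h1, h2, h3, h4⟩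
      · rcases split hp hy (hne y hy) with g1 | ⟨S, g1, g2, g3, g4⟩
        · have hcc : ∀ w, G.Adj v w → 4 ≤ (insert v (insert w (cn G v w))).card := by
            intro w hw
            rw [Finset.card_insert_of_notMem, Finset.card_insert_of_notMem]
            · have := ht' w hw
              omega
            · rw [mem_cn]
              exact fun h => h.2.ne rfl
            · rw [Finset.mem_insert, mem_cn]
              rintro (h | h)
              · exact hw.ne h
              · exact h.1.ne rfl
          refine ⟨_, _, Finset.mem_insert_self _ _, ⟨h1, hcc x hx⟩,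
            Or.inl ⟨Finset.mem_insert_self _ _, ⟨g1, hcc y hy⟩⟩, ?_⟩
          intro w hvw
          by_cases hwx : w = x
          · left
            rw [hwx]
            exact Finset.mem_insert_of_mem (Finset.mem_insert_self _ _)
          · by_cases hwy : w = y
            · right
              rw [hwy]
              exact Finset.mem_insert_of_mem (Finset.mem_insert_self _ _)
            · rcases hc v x y w hx hy hvw hxy (Ne.symm hwx) (Ne.symm hwy) with h | h | h
              · exact absurd h hnxy
              · left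
                exact Finset.mem_insert_of_mem (Finset.mem_insert_of_mem (mem_cn.2 ⟨hvw, h⟩))
              · right
                exact Finset.mem_insert_of_mem (Finset.mem_insert_of_mem (mem_cn.2 ⟨hvw, h⟩))
        · obtain ⟨X, Y, e1, e2, e3, e4⟩ := split_case hp hc hy ht' g1 g2 g3 g4
          exact ⟨X, Y, e1, e2, Or.inl e3, e4⟩
      · obtain ⟨X, Y, e1, e2, e3, e4⟩ := split_case hp hc hx ht' h1 h2 h3 h4
        exact ⟨X, Y, e1, e2, Or.inl e3, e4⟩

end Pool.Agent.Y647.RG
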