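import Mathlib
import Pool.Agent.Y647.RG.Claw

/-!
# Connectivity and generic rigidity in `ℝ³`
-/

set_option autoImplicit false

namespace Pool.Agent.Y647.RG

open Finset Pool.Agent.W824.BJ Pool.Agent.H789R5 Pool.Agent.H283R2.DR

variable {V : Type} [Fintype V] [DecidableEq V] {p : V → Fin 3 → ℝ} {G : SimpleGraph V}

/-- the local condition: two rigid sets with at least five vertices -/
def Local5 (G : SimpleGraph V) (p : V → Fin 3 → ℝ) : Prop :=
  ∀ v, ∃ X Y : Finset V, (v ∈ X ∧ RigidOn G (↑X : Set V) p ∧ 5 ≤ X.card) ∧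
    (v ∈ Y ∧ RigidOn G (↑Y : Set V) p ∧ 5 ≤ Y.card) ∧ ∀ w, G.Adj v w → w ∈ X ∨ w ∈ Y

omit [Fintype V] [DecidableEq V] in
theorem Local5.localAt (h : Local5 G p) : LocalAt G p := by
  intro v
  obtain ⟨X, Y, ⟨h1, h2, h3⟩, ⟨h4, h5, h6⟩, h7⟩ := h v
  exact ⟨X, Y, h1, ⟨h2, by omega⟩, Or.inl ⟨h4, h5, by omega⟩, h7⟩

/-- the maximal large rigid sets through `v` -/
theorem max_two (hp : Gen p) (hl : Local5 G p) (v : V) :
    ∃ A B : Finset V, (Max G p A ∧ v ∈ A ∧ 5 ≤ A.card) ∧ (Max G p B ∧ v ∈ B ∧ 5 ≤ B.card) ∧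
      (∀ Z, Max G p Z → v ∈ Z → Z = A ∨ Z = B) ∧ ∀ w, G.Adj v w → w ∈ A ∨ w ∈ B := by
  classical
  obtain ⟨X, Y, ⟨hvX, hX, hX5⟩, ⟨hvY, hY, hY5⟩, hN⟩ := hl v
  obtain ⟨X', hX', hXX'⟩ := Big.exists_max (G := G) (p := p) (Z := X) ⟨hX, by omega⟩
  obtain ⟨Y', hY', hYY'⟩ := Big.exists_max (G := G) (p := p) (Z := Y) ⟨hY, by omega⟩
  refine ⟨X', Y', ⟨hX', hXX' hvX, hX5.trans (Finset.card_le_card hXX')⟩,
    ⟨hY', hYY' hvY, hY5.trans (Finset.card_le_card hYY')⟩, ?_, ?_⟩
  · intro Z hZ hvZ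
    by_contra hcon
    push Not at hcon
    have h1 : (Z ∩ X').card ≤ 2 := by
      by_contra h
      exact hcon.1 (hZ.eq_of_inter hp hX' (by omega))
    have h2 : (Z ∩ Y').card ≤ 2 := by
      by_contra h
      exact hcon.2 (hZ.eq_of_inter hp hY' (by omega))
    have h3 := hZ.1.three_nbrs hp hvZ
    have h4 : Z.filter (fun w => G.Adj v w) ⊆ (Z ∩ X').erase v ∪ (Z ∩ Y').erase v := by
      intro w hw
      rw [Finset.mem_filter] at hw
      rw [Finset.mem_union, Finset.mem_erase, Finset.mem_erase, Finset.mem_inter,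
        Finset.mem_inter]
      have h5 : w ≠ v := hw.2.ne.symm
      rcases hN w hw.2 with h | h
      · exact Or.inl ⟨h5, hw.1, hXX' h⟩
      · exact Or.inr ⟨h5, hw.1, hYY' h⟩
    have h5 := (Finset.card_le_card h4).trans (Finset.card_union_le _ _)
    rw [Finset.card_erase_of_mem (Finset.mem_inter.2 ⟨hvZ, hXX' hvX⟩),
      Finset.card_erase_of_mem (Finset.mem_inter.2 ⟨hvZ, hYY' hvY⟩)] at h5
    omega
  · intro w hw
    exact (hN w hw).imp (fun h => hXX' h) (fun h => hYY' h)

/-- removing at most four vertices leaves a connected graph -/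
def Conn5 (G : SimpleGraph V) : Prop :=
  ∀ S : Finset V, S.card ≤ 4 → ∀ A B : Finset V, (∀ v, v ∈ S ∨ v ∈ A ∨ v ∈ B) → A.Nonempty →
    B.Nonempty → Disjoint S A → Disjoint S B → Disjoint A B → ∃ a ∈ A, ∃ b ∈ B, G.Adj a b

theorem rigid5 (hp : MG p) (hl : Local5 G p) (hG : Conn5 G) [Nonempty V] :
    RigidOn G Set.univ p := by
  classical
  choose α β hα hβ hαβ hN using fun v => max_two hp.toGen hl v
  -- the bodies
  let B := {Z : Finset V // Max G p Z}
  let a : V → B := fun v => ⟨α v, (hα v).1⟩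
  let b : V → B := fun v => ⟨β v, (hβ v).1⟩
  have hab : ∀ (v : V) (Z : B), v ∈ Z.1 ↔ (Z = a v ∨ Z = b v) := by
    intro v Z
    constructor
    · intro hv
      exact (hαβ v Z.1 Z.2 hv).imp (fun h => Subtype.ext h) (fun h => Subtype.ext h)
    · rintro (h | h)
      · rw [h]; exact (hα v).2.1
      · rw [h]; exact (hβ v).2.1
  have h5 : ∀ Z : B, 5 ≤ Z.1.card := by
    intro Z
    obtain ⟨v, hv⟩ := Finset.card_pos.1 (lt_of_lt_of_le (by norm_num) Z.2.1.2)
    rcases (hab v Z).1 hv with h | h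
    · rw [h]; exact (hα v).2.2
    · rw [h]; exact (hβ v).2.2
  -- the graph of all pairs in a common body
  let H : SimpleGraph V :=
    { Adj := fun u v => u ≠ v ∧ ∃ Z : B, u ∈ Z.1 ∧ v ∈ Z.1
      symm := ⟨fun _ _ h => ⟨h.1.symm, h.2.imp fun _ h => ⟨h.2, h.1⟩⟩⟩
      loopless := ⟨fun _ h => h.1 rfl⟩ }
  have hGH : ∀ q : V → Fin 3 → ℝ, (∀ u v, G.Adj u v → (p u - p v) ⬝ᵥ (q u - q v) = 0) →
      ∀ u v, H.Adj u v → (p u - p v) ⬝ᵥ (q u - q v) = 0 := by
    rintro q hq u v ⟨-, Z, hu, hv⟩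
    obtain ⟨A, c, hA, hb⟩ := Z.2.1.1 q (fun x _ y _ hxy => hq x y hxy)
    rw [hb u (by exact_mod_cast hu), hb v (by exact_mod_cast hv), add_sub_add_right_eq_sub,
      ← Matrix.mulVec_sub]
    exact skew_dot_self hA _
  -- vertices in two bodies
  let W : Set V := {v | a v ≠ b v}
  have hcut : ∀ X : Set B, X.Nonempty → X ≠ Set.univ → ∀ J : Finset V,
      (∀ v, v ∈ J ↔ ¬ (a v ∈ X ↔ b v ∈ X)) → 5 ≤ J.card := by
    intro X hX hX' J hmJ
    by_contra hcon
    obtain ⟨Z, hZ⟩ := hX
    obtain ⟨Z', hZ'⟩ := (Set.ne_univ_iff_exists_notMem X).1 hX'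
    have hdis : ∀ (Y : B), ∃ v ∈ Y.1, v ∉ J := by
      intro Y
      by_contra hc
      push Not at hc
      have := Finset.card_le_card (fun v hv => hc v hv : Y.1 ⊆ J)
      have := h5 Y
      omega
    obtain ⟨z, hz, hzJ⟩ := hdis Z
    obtain ⟨z', hz', hzJ'⟩ := hdis Z'
    obtain ⟨x, hx, y, hy, hxy⟩ := hG J (by omega)
      (univ.filter fun v => v ∉ J ∧ a v ∈ X) (univ.filter fun v => v ∉ J ∧ a v ∉ X)
      (by
        intro v
        by_cases h1 : v ∈ J
        · exact Or.inl h1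
        · by_cases h2 : a v ∈ X
          · exact Or.inr (Or.inl (Finset.mem_filter.2 ⟨Finset.mem_univ _, h1, h2⟩))
          · exact Or.inr (Or.inr (Finset.mem_filter.2 ⟨Finset.mem_univ _, h1, h2⟩)))
      (by
        refine ⟨z, Finset.mem_filter.2 ⟨Finset.mem_univ _, hzJ, ?_⟩⟩
        rw [hmJ, not_not] at hzJ
        rcases (hab z Z).1 hz with h | h
        · rw [← h]; exact hZ
        · rw [hzJ, ← h]; exact hZ)
      (by
        refine ⟨z', Finset.mem_filter.2 ⟨Finset.mem_univ _, hzJ', ?_⟩⟩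
        rw [hmJ, not_not] at hzJ'
        rcases (hab z' Z').1 hz' with h | h
        · rw [← h]; exact hZ'
        · rw [hzJ', ← h]; exact hZ')
      (by
        rw [Finset.disjoint_left]
        intro v h1 h2
        exact (Finset.mem_filter.1 h2).2.1 h1)
      (by
        rw [Finset.disjoint_left]
        intro v h1 h2
        exact (Finset.mem_filter.1 h2).2.1 h1)
      (by
        rw [Finset.disjoint_left]
        intro v h1 h2
        exact (Finset.mem_filter.1 h2).2.2 (Finset.mem_filter.1 h1).2.2)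
    rw [Finset.mem_filter, hmJ, not_not] at hx hy
    have key : ∀ Y : B, x ∈ Y.1 → y ∈ Y.1 → False := by
      intro Y h1 h2
      have g1 : Y ∈ X := by
        rcases (hab x Y).1 h1 with h | h
        · rw [h]; exact hx.2.2
        · rw [h, ← hx.2.1]; exact hx.2.2
      have g2 : Y ∉ X := by
        rcases (hab y Y).1 h2 with h | h
        · rw [h]; exact hy.2.2
        · rw [h, ← hy.2.1]; exact hy.2.2
      exact g2 g1
    rcases hN x y hxy with h | h
    · exact key (a x) (hα x).2.1 h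
    · exact key (b x) (hβ x).2.1 h
  by_cases hone : ∀ Z Z' : B, Z = Z'
  · -- one body
    obtain ⟨v0⟩ := ‹Nonempty V›
    have h6 : ((a v0).1 : Set V) = Set.univ := by
      rw [Set.eq_univ_iff_forall]
      intro v
      have := (hα v).2.1
      rw [Finset.mem_coe, hone (a v0) (a v)]
      exact this
    rw [← h6]
    exact (a v0).2.1.1
  · push Not at hone
    obtain ⟨Z0, Z1, hZ01⟩ := hone
    have hsing : ∀ Z : B, ({Z} : Set B) ≠ Set.univ := by
      intro Z h
      have h1 : Z0 ∈ ({Z} : Set B) := h ▸ Set.mem_univ _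
      have h2 : Z1 ∈ ({Z} : Set B) := h ▸ Set.mem_univ _
      exact hZ01 (h1.trans h2.symm)
    have hZW : ∀ Z : B, 5 ≤ (Z.1.filter fun v => v ∈ W).card := by
      intro Z
      have hW' : ∀ v, v ∈ W ↔ a v ≠ b v := fun v => Iff.rfl
      refine hcut {Z} ⟨Z, rfl⟩ (hsing Z) _ ?_
      intro v
      rw [Finset.mem_filter, hab, hW', Set.mem_singleton_iff, Set.mem_singleton_iff]
      constructor
      · rintro ⟨h1 | h1, h2⟩ h3
        · exact h2 (h1.symm.trans (h3.1 h1.symm).symm)
        · exact h2 ((h3.2 h1.symm).trans h1)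
      · intro h
        refine ⟨?_, fun h' => h (by rw [h'])⟩
        by_contra hc
        push Not at hc
        exact h ⟨fun h' => absurd h'.symm hc.1, fun h' => absurd h'.symm hc.2⟩
    let s : W → B := fun v => a v
    let t : W → B := fun v => b v
    have hW3 : 3 ≤ Fintype.card W := by
      have h1 := hZW Z0
      have h2 : (Z0.1.filter fun v => v ∈ W).card ≤ Fintype.card W := by
        rw [← Set.toFinset_card]
        apply Finset.card_le_card
        intro v hv
        rw [Finset.mem_filter] at hv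
        exact Set.mem_toFinset.2 hv.2
      omega
    have hst : ∀ v w : W, (s v = s w ∨ s v = t w ∨ t v = s w ∨ t v = t w) ↔
        ∃ Z : B, (v : V) ∈ Z.1 ∧ (w : V) ∈ Z.1 := by
      intro v w
      constructor
      · rintro (h | h | h | h)
        · exact ⟨s v, (hab _ _).2 (Or.inl rfl), (hab _ _).2 (Or.inl h)⟩
        · exact ⟨s v, (hab _ _).2 (Or.inl rfl), (hab _ _).2 (Or.inr h)⟩
        · exact ⟨t v, (hab _ _).2 (Or.inr rfl), (hab _ _).2 (Or.inl h)⟩
        · exact ⟨t v, (hab _ _).2 (Or.inr rfl), (hab _ _).2 (Or.inr h)⟩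
      · rintro ⟨Z, h1, h2⟩
        rw [hab] at h1 h2
        rcases h1 with h1 | h1 <;> rcases h2 with h2 | h2
        · exact Or.inl (h1.symm.trans h2)
        · exact Or.inr (Or.inl (h1.symm.trans h2))
        · exact Or.inr (Or.inr (Or.inl (h1.symm.trans h2)))
        · exact Or.inr (Or.inr (Or.inr (h1.symm.trans h2)))
    have hR := conn5 s t (fun v => v.2) (H.induce W)
      (fun v w hvw h => ⟨fun h' => hvw (Subtype.ext h'), (hst v w).1 h⟩)
      (fun v w h => (hst v w).2 h.2) hW3 (by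
        intro X hX hX'
        have h1 := hcut X hX hX' (univ.filter fun v : V => ¬ (a v ∈ X ↔ b v ∈ X))
          (fun v => by rw [Finset.mem_filter]; exact ⟨fun h => h.2, fun h => ⟨Finset.mem_univ _, h⟩⟩)
        refine h1.trans ?_
        have h2 : (univ.filter fun v : V => ¬ (a v ∈ X ↔ b v ∈ X)).card =
            {v : W | ¬ (s v ∈ X ↔ t v ∈ X)}.ncard := by
          rw [← Set.ncard_coe_finset, ← Set.ncard_image_of_injective _
            (Subtype.val_injective : Function.Injective (fun v : W => (v : V)))]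
          congr 1
          ext v
          simp only [Finset.coe_filter, Finset.mem_univ, true_and, Set.mem_ofPred_eq,
            Set.mem_image]
          constructor
          · intro h
            exact ⟨⟨v, fun h' => h (by rw [h'])⟩, h, rfl⟩
          · rintro ⟨w, hw, rfl⟩
            exact hw
        exact h2.le)
    rw [hp.toGen.genRigid_induce_iff H W] at hR
    intro q hq
    have hq' : ∀ u v, H.Adj u v → (p u - p v) ⬝ᵥ (q u - q v) = 0 :=
      hGH q (fun u v h => hq u trivial v trivial h)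
    obtain ⟨A, c, hA, hc⟩ := hR q (fun u _ v _ h => hq' u v h)
    refine ⟨A, c, hA, ?_⟩
    intro v _
    obtain ⟨A', c', hA', hc'⟩ := (a v).2.1.1 q (fun u _ w _ h => hq u trivial w trivial h)
    obtain ⟨e1, e2⟩ := triv_unique hp.toGen
      (S := (a v).1.filter fun v => v ∈ W) (by have := hZW (a v); omega) hA hA' (b := c) (b' := c')
      (by
        intro w hw
        rw [Finset.mem_filter] at hw
        rw [← hc w hw.2, ← hc' w (by exact_mod_cast hw.1)])
    rw [hc' v (by exact_mod_cast (hα v).2.1), ← e1, ← e2]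

end Pool.Agent.Y647.RG
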