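import Mathlib
import Pool.Agent.Y647.RG.Conn
import Pool.Agent.TH912.Rig.Base

/-!
# In a claw-free graph whose edges are in three triangles no maximal rigid set has four vertices
-/

set_option autoImplicit false

namespace Pool.Agent.Y647.RG

open Matrix Finset Pool.Agent.W824.BJ Pool.Agent.H789R5 Pool.Agent.H283R2.DR

variable {V : Type} [Fintype V] [DecidableEq V] {p : V → Fin 3 → ℝ} {G : SimpleGraph V}

omit [Fintype V] in
theorem rigid_four (hp : Gen p) (G : SimpleGraph V) {a b c d : V} (h1 : G.Adj a b)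
    (h2 : G.Adj a c) (h3 : G.Adj a d) (h4 : G.Adj b c) (h5 : G.Adj b d) (h6 : G.Adj c d) :
    RigidOn G (↑({a, b, c, d} : Finset V) : Set V) p := by
  apply rigid_complete hp
  apply insert_clique
  · apply insert_clique
    · apply insert_clique
      · intro x hx y hy hxy
        rw [Finset.mem_singleton] at hx hy
        exact absurd (hx.trans hy.symm) hxy
      · intro x hx
        rw [Finset.mem_singleton] at hx
        exact hx ▸ h6
    · intro x hx
      rw [Finset.mem_insert, Finset.mem_singleton] at hx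
      rcases hx with rfl | rfl
      · exact h4
      · exact h5
  · intro x hx
    rw [Finset.mem_insert, Finset.mem_insert, Finset.mem_singleton] at hx
    rcases hx with rfl | rfl | rfl
    · exact h1
    · exact h2
    · exact h3

omit [Fintype V] in
/-- **0-extension** for rigid vertex sets -/
theorem ext0 (hp : Gen p) {U : Set V} {w x y z : V} (hxU : x ∈ U) (hyU : y ∈ U) (hzU : z ∈ U)
    (hxy : x ≠ y) (hxz : x ≠ z) (hyz : y ≠ z) (ax : G.Adj w x) (ay : G.Adj w y) (az : G.Adj w z)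
    (h : RigidOn G U p) : RigidOn G (insert w U) p := by
  intro q hq
  obtain ⟨A, b, hA, hb⟩ := h q (fun u hu v hv huv => hq u (Or.inr hu) v (Or.inr hv) huv)
  refine ⟨A, b, hA, ?_⟩
  set r : Fin 3 → ℝ := q w - (A *ᵥ p w + b) with hr
  have horth : ∀ u ∈ U, G.Adj w u → (p u - p w) ⬝ᵥ r = 0 := by
    intro u hu hwu
    have h1 := hq w (Or.inl rfl) u (Or.inr hu) hwu
    have h3 : q w - q u = r + A *ᵥ (p w - p u) := by
      rw [hr, hb u hu, Matrix.mulVec_sub]
      abel
    rw [h3, dotProduct_add, skew_dot_self hA, add_zero] at h1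
    rw [← neg_sub, neg_dotProduct, h1, neg_zero]
  have hr0 : r = 0 := Pool.Agent.TH912.Rig.orth_zero hp ax.ne ay.ne az.ne hxy hxz hyz
    (horth x hxU ax) (horth y hyU ay) (horth z hzU az)
  rintro u (rfl | hu)
  · rw [hr, sub_eq_zero] at hr0
    exact hr0
  · exact hb u hu

omit [Fintype V] in
/-- the octahedron is rigid -/
theorem octa (hp : Gen p) {x x' y y' z z' : V} (h1 : G.Adj x y) (h2 : G.Adj x y')
    (h3 : G.Adj x' y) (h4 : G.Adj x' y') (h5 : G.Adj x z) (h6 : G.Adj x z') (h7 : G.Adj x' z)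
    (h8 : G.Adj x' z') (h9 : G.Adj y z) (h10 : G.Adj y z') (h11 : G.Adj y' z)
    (h12 : G.Adj y' z') (hx : x ≠ x') (hy : y ≠ y') (hz : z ≠ z') :
    RigidOn G (↑({z', x, x', y, y', z} : Finset V) : Set V) p := by
  set H := G ⊔ SimpleGraph.edge x x' with hH
  have hGH : ∀ a b, G.Adj a b → H.Adj a b := fun a b h => Or.inl h
  have hxx : H.Adj x x' := Or.inr (by
    rw [SimpleGraph.edge_adj]
    exact ⟨Or.inl ⟨rfl, rfl⟩, hx⟩)
  have r1 := rigid_four hp H hxx (hGH _ _ h1) (hGH _ _ h5) (hGH _ _ h3) (hGH _ _ h7) (hGH _ _ h9)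
  have r2 := rigid_four hp H hxx (hGH _ _ h2) (hGH _ _ h5) (hGH _ _ h4) (hGH _ _ h7) (hGH _ _ h11)
  have r3 := glue hp r1 r2 (by
    have h : ({x, x', z} : Finset V).card = 3 :=
      Finset.card_eq_three.2 ⟨x, x', z, hx, h5.ne, h7.ne, rfl⟩
    rw [← h]
    apply Finset.card_le_card
    intro a ha
    simp only [Finset.mem_insert, Finset.mem_singleton, Finset.mem_inter] at ha ⊢
    tauto)
  have r4 : ({x, x', y, z} : Finset V) ∪ {x, x', y', z} = {x, x', y, y', z} := by
    ext a
    simp only [Finset.mem_insert, Finset.mem_singleton, Finset.mem_union]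
    tauto
  rw [r4] at r3
  have r5 := Pool.Agent.TH912.Rig.ext1R hp (G := G) (U := (↑({x, x', y, y', z} : Finset V) : Set V))
    (v := z') (x := x) (y := x') (z := y) (w := y') (by
      rw [Finset.mem_coe]
      simp only [Finset.mem_insert, Finset.mem_singleton]
      rintro (h | h | h | h | h)
      · exact h6.ne h.symm
      · exact h8.ne h.symm
      · exact h10.ne h.symm
      · exact h12.ne h.symm
      · exact hz h.symm)
    (by simp) (by simp) (by simp) (by simp) hx h1.ne h2.ne h3.ne h4.ne hy h6.symm h8.symm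
    h10.symm h12.symm r3
  rw [Finset.coe_insert]
  exact r5

variable [DecidableRel G.Adj]

theorem Max.five (hp : Gen p) (hc : ClawFree G) (ht : ∀ u v, G.Adj u v → 3 ≤ (cn G u v).card)
    {Z : Finset V} (hZ : Max G p Z) : 5 ≤ Z.card := by
  classical
  by_contra hcon
  have h4 : Z.card = 4 := by
    have := hZ.1.2
    omega
  -- the set is a clique
  have hcl : ∀ u ∈ Z, ∀ w ∈ Z, u ≠ w → G.Adj u w := by
    intro u hu w hw huw
    by_contra hn
    have h1 := hZ.1.three_nbrs hp hu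
    have h2 : Z.filter (fun w => G.Adj u w) ⊆ (Z.erase u).erase w := by
      intro t ht
      rw [Finset.mem_filter] at ht
      rw [Finset.mem_erase, Finset.mem_erase]
      refine ⟨?_, ht.2.ne.symm, ht.1⟩
      rintro rfl
      exact hn ht.2
    have h3 := Finset.card_le_card h2
    rw [Finset.card_erase_of_mem (Finset.mem_erase.2 ⟨huw.symm, hw⟩),
      Finset.card_erase_of_mem hu] at h3
    omega
  -- no vertex outside has three neighbours in the set
  have hthree : ∀ x, x ∉ Z → ∀ u ∈ Z, ∀ w ∈ Z, ∀ t ∈ Z, u ≠ w → u ≠ t → w ≠ t → G.Adj x u →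
      G.Adj x w → G.Adj x t → False := by
    intro x hx u hu w hw t ht huw hut hwt h1 h2 h3
    have r1 := rigid_four hp G h1 h2 h3 (hcl u hu w hw huw) (hcl u hu t ht hut)
      (hcl w hw t ht hwt)
    have r2 := glue hp r1 hZ.1.1 (by
      have h : ({u, w, t} : Finset V).card = 3 := Finset.card_eq_three.2 ⟨u, w, t, huw, hut, hwt, rfl⟩
      rw [← h]
      apply Finset.card_le_card
      intro a ha
      simp only [Finset.mem_insert, Finset.mem_singleton, Finset.mem_inter] at ha ⊢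
      rcases ha with rfl | rfl | rfl
      · exact ⟨by tauto, hu⟩
      · exact ⟨by tauto, hw⟩
      · exact ⟨by tauto, ht⟩)
    have r3 := hZ.2 _ ⟨r2, hZ.1.2.trans (Finset.card_le_card Finset.subset_union_right)⟩
      Finset.subset_union_right
    apply hx
    rw [← r3]
    exact Finset.mem_union_left _ (Finset.mem_insert_self _ _)
  -- the outer common neighbours
  have hF : ∀ u ∈ Z, ∀ w ∈ Z, u ≠ w → ∃ x, x ∉ Z ∧ G.Adj x u ∧ G.Adj x w ∧
      ∀ t ∈ Z, G.Adj x t → t = u ∨ t = w := by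
    intro u hu w hw huw
    have h1 := ht u w (hcl u hu w hw huw)
    have h2 : ∃ x ∈ cn G u w, x ∉ Z := by
      by_contra hn
      push Not at hn
      have h3 : cn G u w ⊆ (Z.erase u).erase w := by
        intro x hx
        rw [Finset.mem_erase, Finset.mem_erase]
        exact ⟨(mem_cn.1 hx).2.ne.symm, (mem_cn.1 hx).1.ne.symm, hn x hx⟩
      have h5 := Finset.card_le_card h3
      rw [Finset.card_erase_of_mem (Finset.mem_erase.2 ⟨huw.symm, hw⟩),
        Finset.card_erase_of_mem hu] at h5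
      omega
    obtain ⟨x, hx, hxZ⟩ := h2
    rw [mem_cn] at hx
    refine ⟨x, hxZ, hx.1.symm, hx.2.symm, ?_⟩
    intro t htZ hxt
    by_contra hn
    push Not at hn
    exact hthree x hxZ u hu w hw t htZ huw hn.1.symm hn.2.symm hx.1.symm hx.2.symm hxt
  obtain ⟨a, b, c, d, hab, hac, had, hbc, hbd, hcd, hZe⟩ := Finset.card_eq_four.1 h4
  have ha : a ∈ Z := by rw [hZe]; simp
  have hb : b ∈ Z := by rw [hZe]; simp
  have hcZ : c ∈ Z := by rw [hZe]; simp
  have hd : d ∈ Z := by rw [hZe]; simp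
  -- two outer common neighbours with a common vertex are adjacent
  have hadj : ∀ u ∈ Z, ∀ w ∈ Z, ∀ w' ∈ Z, ∀ t ∈ Z, u ≠ w' → w ≠ w' → t ≠ u →
      t ≠ w → t ≠ w' → ∀ x y, x ∉ Z → G.Adj x u →
      (∀ t ∈ Z, G.Adj x t → t = u ∨ t = w) → y ∉ Z → G.Adj y u → G.Adj y w' →
      (∀ t ∈ Z, G.Adj y t → t = u ∨ t = w') → G.Adj x y := by
    intro u hu w hw w' hw' t htZ huw' hww e1 e2 e3 x y hx h1 h3 hy h5 h6 h7
    have hxy : x ≠ y := by
      rintro rfl
      rcases h3 w' hw' h6 with h | h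
      · exact huw' h.symm
      · exact hww h.symm
    have hxt : ¬ G.Adj x t := fun h => (h3 t htZ h).elim e1 e2
    have hyt : ¬ G.Adj y t := fun h => (h7 t htZ h).elim e1 e3
    have hxt' : x ≠ t := fun h => hx (h ▸ htZ)
    have hyt' : y ≠ t := fun h => hy (h ▸ htZ)
    rcases hc u x y t h1.symm h5.symm (hcl u hu t htZ e1.symm) hxy hxt' hyt' with h | h | h
    · exact h
    · exact absurd h hxt
    · exact absurd h hyt
  obtain ⟨x, x1, x2, x3, x4⟩ := hF a ha b hb hab
  obtain ⟨x', x1', x2', x3', x4'⟩ := hF c hcZ d hd hcd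
  obtain ⟨y, y1, y2, y3, y4⟩ := hF a ha c hcZ hac
  obtain ⟨y', y1', y2', y3', y4'⟩ := hF b hb d hd hbd
  obtain ⟨z, z1, z2, z3, z4⟩ := hF a ha d hd had
  obtain ⟨z', z1', z2', z3', z4'⟩ := hF b hb c hcZ hbc
  have sw : ∀ {x u w : V}, (∀ t ∈ Z, G.Adj x t → t = u ∨ t = w) →
      ∀ t ∈ Z, G.Adj x t → t = w ∨ t = u := fun h t ht hxt => (h t ht hxt).symm
  -- the pairs: x = ab, x' = cd, y = ac, y' = bd, z = ad, z' = bc
  have h1 : G.Adj x y := hadj a ha b hb c hcZ d hd hac hbc had.symm hbd.symm hcd.symm x y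
    x1 x2 x4 y1 y2 y3 y4
  have h2 : G.Adj x y' := hadj b hb a ha d hd c hcZ hbd had hbc.symm hac.symm hcd x y'
    x1 x3 (sw x4) y1' y2' y3' y4'
  have h3 : G.Adj x' y := hadj c hcZ d hd a ha b hb hac.symm had.symm hbc hbd hab.symm x' y
    x1' x2' x4' y1 y3 y2 (sw y4)
  have h4 : G.Adj x' y' := hadj d hd c hcZ b hb a ha hbd.symm hbc.symm had hac hab x' y'
    x1' x3' (sw x4') y1' y3' y2' (sw y4')
  have h5 : G.Adj x z := hadj a ha b hb d hd c hcZ had hbd hac.symm hbc.symm hcd x z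
    x1 x2 x4 z1 z2 z3 z4
  have h6 : G.Adj x z' := hadj b hb a ha c hcZ d hd hbc hac hbd.symm had.symm hcd.symm x z'
    x1 x3 (sw x4) z1' z2' z3' z4'
  have h7 : G.Adj x' z := hadj d hd c hcZ a ha b hb had.symm hac.symm hbd hbc hab.symm x' z
    x1' x3' (sw x4') z1 z3 z2 (sw z4)
  have h8 : G.Adj x' z' := hadj c hcZ d hd b hb a ha hbc.symm hbd.symm hac had hab x' z'
    x1' x2' x4' z1' z3' z2' (sw z4')
  have h9 : G.Adj y z := hadj a ha c hcZ d hd b hb had hcd hab.symm hbc hbd y z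
    y1 y2 y4 z1 z2 z3 z4
  have h10 : G.Adj y z' := hadj c hcZ a ha b hb d hd hbc.symm hab hcd.symm had.symm hbd.symm y z'
    y1 y3 (sw y4) z1' z3' z2' (sw z4')
  have h11 : G.Adj y' z := hadj d hd b hb a ha c hcZ had.symm hab.symm hcd hbc.symm hac.symm y' z
    y1' y3' (sw y4') z1 z3 z2 (sw z4)
  have h12 : G.Adj y' z' := hadj b hb d hd c hcZ a ha hbc hcd.symm hab had hac y' z'
    y1' y2' y4' z1' z2' z3' z4'
  have hxx : x ≠ x' := by
    rintro rfl
    rcases x4 c hcZ x2' with h | h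
    · exact hac h.symm
    · exact hbc h.symm
  have hyy : y ≠ y' := by
    rintro rfl
    rcases y4 b hb y2' with h | h
    · exact hab h.symm
    · exact hbc h
  have hzz : z ≠ z' := by
    rintro rfl
    rcases z4 b hb z2' with h | h
    · exact hab h.symm
    · exact hbd h
  have r0 := octa hp h1 h2 h3 h4 h5 h6 h7 h8 h9 h10 h11 h12 hxx hyy hzz
  set O : Finset V := {z', x, x', y, y', z} with hO
  -- add the vertices of the set one by one
  have hadd : ∀ (W : Finset V), O ⊆ W → RigidOn G (↑W : Set V) p → ∀ u r s t, G.Adj u r →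
      G.Adj u s → G.Adj u t → G.Adj r s → G.Adj r t → G.Adj s t → r ∈ O → s ∈ O → t ∈ O →
      RigidOn G (↑(({u, r, s, t} : Finset V) ∪ W) : Set V) p := by
    intro W hW hWr u r s t e1 e2 e3 e4 e5 e6 e7 e8 e9
    refine glue hp (rigid_four hp G e1 e2 e3 e4 e5 e6) hWr ?_
    have h : ({r, s, t} : Finset V).card = 3 :=
      Finset.card_eq_three.2 ⟨r, s, t, e4.ne, e5.ne, e6.ne, rfl⟩
    rw [← h]
    apply Finset.card_le_card
    intro a ha
    simp only [Finset.mem_insert, Finset.mem_singleton, Finset.mem_inter] at ha ⊢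
    rcases ha with rfl | rfl | rfl
    · exact ⟨by tauto, hW e7⟩
    · exact ⟨by tauto, hW e8⟩
    · exact ⟨by tauto, hW e9⟩
  have r1 := hadd O subset_rfl r0 a x y z x2.symm y2.symm z2.symm h1 h5 h9 (by simp [hO])
    (by simp [hO]) (by simp [hO])
  have r2 := hadd _ Finset.subset_union_right r1 b x y' z' x3.symm y2'.symm z2'.symm h2 h6 h12
    (by simp [hO]) (by simp [hO]) (by simp [hO])
  have r3 := hadd _ (Finset.subset_union_right.trans Finset.subset_union_right) r2 c x' y z'
    x2'.symm y3.symm z3'.symm h3 h8 h10 (by simp [hO]) (by simp [hO]) (by simp [hO])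
  have r4 := glue hp r3 hZ.1.1 (by
    have h : ({a, b, c} : Finset V).card = 3 := Finset.card_eq_three.2 ⟨a, b, c, hab, hac, hbc, rfl⟩
    rw [← h]
    apply Finset.card_le_card
    intro e he
    simp only [Finset.mem_insert, Finset.mem_singleton, Finset.mem_inter, Finset.mem_union] at he ⊢
    rcases he with rfl | rfl | rfl
    · exact ⟨by tauto, ha⟩
    · exact ⟨by tauto, hb⟩
    · exact ⟨by tauto, hcZ⟩)
  have r5 := hZ.2 _ ⟨r4, hZ.1.2.trans (Finset.card_le_card Finset.subset_union_right)⟩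
    Finset.subset_union_right
  apply x1'
  rw [← r5]
  simp only [Finset.mem_insert, Finset.mem_singleton, Finset.mem_union]
  tauto

theorem local5_of_claw (hp : Gen p) (hc : ClawFree G)
    (hd : ∀ v, 3 ≤ (univ.filter fun w => G.Adj v w).card)
    (ht : ∀ u v, G.Adj u v → 3 ≤ (cn G u v).card) : Local5 G p := by
  classical
  intro v
  obtain ⟨X, Y, h1, h2, h3, h4⟩ := claw_local hp hc hd (fun u v h => Or.inr (ht u v h)) v
  obtain ⟨X', hX', hXX'⟩ := h2.exists_max
  rcases h3 with ⟨h3, h5⟩ | h3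
  · obtain ⟨Y', hY', hYY'⟩ := h5.exists_max
    exact ⟨X', Y', ⟨hXX' h1, hX'.1.1, hX'.five hp hc ht⟩, ⟨hYY' h3, hY'.1.1, hY'.five hp hc ht⟩,
      fun w hw => (h4 w hw).imp (fun h => hXX' h) (fun h => hYY' h)⟩
  · -- the neighbours outside: at most one, but it has three common neighbours with `v` in `X`
    refine ⟨X', X', ⟨hXX' h1, hX'.1.1, hX'.five hp hc ht⟩,
      ⟨hXX' h1, hX'.1.1, hX'.five hp hc ht⟩, ?_⟩
    intro w hw
    left
    rcases h4 w hw with h | h
    · exact hXX' h
    · by_contra hn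
      have h6 : cn G v w ⊆ X' := by
        intro t ht
        rw [mem_cn] at ht
        rcases h4 t ht.1 with h' | h'
        · exact hXX' h'
        · exact absurd (Finset.card_le_one.1 h3 w h t h') ht.2.ne
      obtain ⟨s, hs, r, hr, t, ht', e1, e2, e3⟩ := Finset.two_lt_card.1 (ht v w hw)
      have h7 := ext0 hp (U := (↑X' : Set V)) (w := w) (h6 hs) (h6 hr) (h6 ht') e1 e2 e3
        (mem_cn.1 hs).2 (mem_cn.1 hr).2 (mem_cn.1 ht').2 hX'.1.1
      rw [← Finset.coe_insert] at h7
      have h8 := hX'.2 _ ⟨h7, hX'.1.2.trans (Finset.card_le_card (Finset.subset_insert _ _))⟩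
        (Finset.subset_insert _ _)
      exact hn (h8 ▸ Finset.mem_insert_self _ _)

end Pool.Agent.Y647.RG
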