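import Mathlib
import Pool.Agent.Y647.RG.Five
import Pool.Agent.TH912.Rig.Body

/-!
# Maximal rigid sets and bars in claw-free graphs
-/

set_option autoImplicit false

namespace Pool.Agent.Y647.RG

open Finset Pool.Agent.W824.BJ Pool.Agent.H789R5 Pool.Agent.H283R2.DR

variable {V : Type} [Fintype V] [DecidableEq V] {p : V → Fin 3 → ℝ} {G : SimpleGraph V}

/-- an edge which is in no large rigid set -/
def Bar (G : SimpleGraph V) (p : V → Fin 3 → ℝ) (u v : V) : Prop :=
  G.Adj u v ∧ ∀ W, Big G p W → u ∈ W → v ∉ W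

omit [Fintype V] [DecidableEq V] in
theorem Bar.symm {u v : V} (h : Bar G p u v) : Bar G p v u :=
  ⟨h.1.symm, fun W hW hv hu => h.2 W hW hu hv⟩

/-- the members of the family: maximal large rigid sets and triangles of bars -/
def Member (G : SimpleGraph V) (p : V → Fin 3 → ℝ) (Z : Finset V) : Prop :=
  Max G p Z ∨ ∃ a b c, Bar G p a b ∧ Bar G p a c ∧ Bar G p b c ∧ Z = {a, b, c}

/-- each vertex is in a large rigid set -/
def Cov (G : SimpleGraph V) (p : V → Fin 3 → ℝ) : Prop := ∀ v, ∃ Z, v ∈ Z ∧ Big G p Z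

variable [DecidableRel G.Adj]

theorem out_two (hp : Gen p) {X : Finset V} (hX : Max G p X) {r : V} (hr : r ∉ X) :
    (X.filter fun w => G.Adj r w).card ≤ 2 := by
  by_contra hcon
  push Not at hcon
  obtain ⟨a, ha, b, hb, c, hc, hab, hac, hbc⟩ := Finset.two_lt_card.1 hcon
  rw [Finset.mem_filter] at ha hb hc
  have h1 := ext0 hp (U := (↑X : Set V)) (w := r) (by exact_mod_cast ha.1)
    (by exact_mod_cast hb.1) (by exact_mod_cast hc.1) hab hac hbc ha.2 hb.2 hc.2 hX.1.1
  rw [← Finset.coe_insert] at h1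
  have h2 := hX.2 _ ⟨h1, hX.1.2.trans (Finset.card_le_card (Finset.subset_insert _ _))⟩
    (Finset.subset_insert _ _)
  exact hr (h2 ▸ Finset.mem_insert_self _ _)

/-- the neighbours outside a maximal rigid set form a clique -/
theorem clique_out (hp : Gen p) (hc : ClawFree G) {X : Finset V} (hX : Max G p X) {v r r' : V}
    (hv : v ∈ X) (h1 : G.Adj v r) (h2 : G.Adj v r') (hr : r ∉ X) (hr' : r' ∉ X) (hne : r ≠ r') :
    G.Adj r r' := by
  by_contra hn
  have h3 := hX.1.three_nbrs hp hv
  have h4 : (X.filter fun w => G.Adj v w) ⊆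
      ((X.filter fun w => G.Adj r w).erase v) ∪ ((X.filter fun w => G.Adj r' w).erase v) := by
    intro a ha
    rw [Finset.mem_filter] at ha
    rw [Finset.mem_union, Finset.mem_erase, Finset.mem_erase, Finset.mem_filter, Finset.mem_filter]
    have e1 : a ≠ v := ha.2.ne.symm
    have e2 : a ≠ r := fun h => hr (h ▸ ha.1)
    have e3 : a ≠ r' := fun h => hr' (h ▸ ha.1)
    rcases hc v a r r' ha.2 h1 h2 e2 e3 hne with h | h | h
    · exact Or.inl ⟨e1, ha.1, h.symm⟩
    · exact Or.inr ⟨e1, ha.1, h.symm⟩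
    · exact absurd h hn
  have h5 := (Finset.card_le_card h4).trans (Finset.card_union_le _ _)
  rw [Finset.card_erase_of_mem (Finset.mem_filter.2 ⟨hv, h1.symm⟩),
    Finset.card_erase_of_mem (Finset.mem_filter.2 ⟨hv, h2.symm⟩)] at h5
  have h6 : (Finset.filter (G.Adj r) X).card ≤ 2 := out_two hp hX hr
  have h7 : (Finset.filter (G.Adj r') X).card ≤ 2 := out_two hp hX hr'
  have h8 : 3 ≤ (Finset.filter (G.Adj v) X).card := h3
  omega

/-- the neighbours of `v` outside `X` -/
def out (G : SimpleGraph V) [DecidableRel G.Adj] (X : Finset V) (v : V) : Finset V :=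
  univ.filter fun w => G.Adj v w ∧ w ∉ X

theorem mem_out {X : Finset V} {v w : V} : w ∈ out G X v ↔ G.Adj v w ∧ w ∉ X := by
  unfold out
  rw [Finset.mem_filter]
  exact ⟨fun h => h.2, fun h => ⟨Finset.mem_univ _, h⟩⟩

theorem out_big (hp : Gen p) (hc : ClawFree G) {X : Finset V} (hX : Max G p X) {v : V}
    (hv : v ∈ X) (h3 : 3 ≤ (out G X v).card) : Big G p (insert v (out G X v)) := by
  constructor
  · apply rigid_complete hp
    apply insert_clique
    · intro a ha b hb hab
      rw [mem_out] at ha hb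
      exact clique_out hp hc hX hv ha.1 hb.1 ha.2 hb.2 hab
    · intro a ha
      exact (mem_out.1 ha).1
  · rw [Finset.card_insert_of_notMem]
    · omega
    · rw [mem_out]
      exact fun h => h.2 hv

/-- another maximal rigid set through `v` contains two neighbours outside the first -/
theorem two_in_out (hp : Gen p) {X Y : Finset V} (hX : Max G p X) (hY : Max G p Y)
    (hXY : Y ≠ X) {v : V} (hvX : v ∈ X) (hvY : v ∈ Y) : 2 ≤ (Y ∩ out G X v).card := by
  have h1 := hY.1.three_nbrs hp hvY
  have h2 : (Y ∩ X).card ≤ 2 := by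
    by_contra h
    exact hXY (hY.eq_of_inter hp hX (by omega))
  have h3 : (Y.filter fun w => G.Adj v w) ⊆ ((Y ∩ X).erase v) ∪ (Y ∩ out G X v) := by
    intro w hw
    rw [Finset.mem_filter] at hw
    rw [Finset.mem_union, Finset.mem_erase, Finset.mem_inter, Finset.mem_inter, mem_out]
    by_cases h : w ∈ X
    · exact Or.inl ⟨hw.2.ne.symm, hw.1, h⟩
    · exact Or.inr ⟨hw.1, hw.2, h⟩
  have h4 := (Finset.card_le_card h3).trans (Finset.card_union_le _ _)
  rw [Finset.card_erase_of_mem (Finset.mem_inter.2 ⟨hvY, hvX⟩)] at h4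
  omega

theorem bar_facts (hp : Gen p) (hc : ClawFree G) {X : Finset V} (hX : Max G p X) {v r : V}
    (hv : v ∈ X) (hb : Bar G p v r) :
    (out G X v).card ≤ 2 ∧ (∀ Y, Max G p Y → v ∈ Y → Y = X) ∧
      ∀ w, Bar G p v w ↔ w ∈ out G X v := by
  have hrX : r ∉ X := hb.2 X hX.1 hv
  have hr : r ∈ out G X v := mem_out.2 ⟨hb.1, hrX⟩
  have h1 : (out G X v).card ≤ 2 := by
    by_contra h
    exact hb.2 _ (out_big hp hc hX hv (by omega)) (Finset.mem_insert_self _ _)
      (Finset.mem_insert_of_mem hr)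
  have h2 : ∀ Y, Max G p Y → v ∈ Y → Y = X := by
    intro Y hY hvY
    by_contra hne
    have h3 := two_in_out hp hX hY hne hv hvY
    have h4 : Y ∩ out G X v = out G X v :=
      Finset.eq_of_subset_of_card_le Finset.inter_subset_right (by omega)
    have h5 : r ∈ Y := Finset.mem_of_mem_inter_left (h4 ▸ hr)
    exact hb.2 Y hY.1 hvY h5
  refine ⟨h1, h2, ?_⟩
  intro w
  constructor
  · intro h
    exact mem_out.2 ⟨h.1, h.2 X hX.1 hv⟩
  · intro h
    rw [mem_out] at h
    refine ⟨h.1, fun W hW hvW hwW => ?_⟩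
    obtain ⟨W', hW', hs⟩ := hW.exists_max
    exact h.2 (h2 W' hW' (hs hvW) ▸ hs hwW)

/-- each vertex is in at most two members -/
theorem member_two (hp : Gen p) (hc : ClawFree G) (hK : Cov G p) (v : V) :
    ∃ A B : Finset V, ∀ Z, Member G p Z → v ∈ Z → Z = A ∨ Z = B := by
  classical
  obtain ⟨X0, hvX0, hX0⟩ := hK v
  obtain ⟨X, hX, hXX⟩ := hX0.exists_max
  have hv : v ∈ X := hXX hvX0
  by_cases hbar : ∃ r, Bar G p v r
  · obtain ⟨r, hr⟩ := hbar
    obtain ⟨h1, h2, h3⟩ := bar_facts hp hc hX hv hr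
    refine ⟨X, insert v (out G X v), ?_⟩
    rintro Z (hZ | ⟨a, b, c, hab, hac, hbc, rfl⟩) hvZ
    · exact Or.inl (h2 Z hZ hvZ)
    · right
      have key : ∀ x y, Bar G p v x → Bar G p v y → x ≠ y → out G X v = {x, y} := by
        intro x y hx hy hxy
        symm
        apply Finset.eq_of_subset_of_card_le
        · intro w hw
          rw [Finset.mem_insert, Finset.mem_singleton] at hw
          rcases hw with rfl | rfl
          · exact (h3 _).1 hx
          · exact (h3 _).1 hy
        · rw [Finset.card_pair hxy]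
          exact h1
      rw [Finset.mem_insert, Finset.mem_insert, Finset.mem_singleton] at hvZ
      rcases hvZ with rfl | rfl | rfl
      · rw [key b c hab hac hbc.1.ne]
      · rw [key a c hab.symm hbc hac.1.ne]
        ext w
        simp only [Finset.mem_insert, Finset.mem_singleton]
        tauto
      · rw [key a b hac.symm hbc.symm hab.1.ne]
        ext w
        simp only [Finset.mem_insert, Finset.mem_singleton]
        tauto
  · push Not at hbar
    have hmax : ∀ Z, Member G p Z → v ∈ Z → Max G p Z := by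
      rintro Z (hZ | ⟨a, b, c, hab, hac, hbc, rfl⟩) hvZ
      · exact hZ
      · exfalso
        rw [Finset.mem_insert, Finset.mem_insert, Finset.mem_singleton] at hvZ
        rcases hvZ with rfl | rfl | rfl
        · exact hbar _ hab
        · exact hbar _ hab.symm
        · exact hbar _ hac.symm
    by_cases hY : ∃ Y, Max G p Y ∧ v ∈ Y ∧ Y ≠ X
    · obtain ⟨Y, hY, hvY, hYX⟩ := hY
      refine ⟨X, Y, ?_⟩
      intro Z hZ hvZ
      have hZ' := hmax Z hZ hvZ
      by_cases hZX : Z = X
      · exact Or.inl hZX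
      · right
        have e1 := two_in_out hp hX hY hYX hv hvY
        have e2 := two_in_out hp hX hZ' hZX hv hvZ
        have hvo : v ∉ out G X v := fun h => (mem_out.1 h).2 hv
        rcases Nat.lt_or_ge (out G X v).card 3 with h3 | h3
        · have f1 : Y ∩ out G X v = out G X v :=
            Finset.eq_of_subset_of_card_le Finset.inter_subset_right (by omega)
          have f2 : Z ∩ out G X v = out G X v :=
            Finset.eq_of_subset_of_card_le Finset.inter_subset_right (by omega)
          apply hZ'.eq_of_inter hp hY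
          have f3 : insert v (out G X v) ⊆ Z ∩ Y := by
            intro w hw
            rw [Finset.mem_insert] at hw
            rw [Finset.mem_inter]
            rcases hw with rfl | hw
            · exact ⟨hvZ, hvY⟩
            · exact ⟨Finset.mem_of_mem_inter_left (f2 ▸ hw),
                Finset.mem_of_mem_inter_left (f1 ▸ hw)⟩
          have f4 := Finset.card_le_card f3
          rw [Finset.card_insert_of_notMem hvo] at f4
          have f5 := Finset.card_le_card (Finset.inter_subset_right (s₁ := Y) (s₂ := out G X v))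
          omega
        · obtain ⟨K, hKm, hKs⟩ := (out_big hp hc hX hv h3).exists_max
          have key : ∀ W, Max G p W → v ∈ W → 2 ≤ (W ∩ out G X v).card → W = K := by
            intro W hW hvW h2
            apply hW.eq_of_inter hp hKm
            have f3 : insert v (W ∩ out G X v) ⊆ W ∩ K := by
              intro w hw
              rw [Finset.mem_insert, Finset.mem_inter] at hw
              rw [Finset.mem_inter]
              rcases hw with rfl | hw
              · exact ⟨hvW, hKs (Finset.mem_insert_self _ _)⟩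
              · exact ⟨hw.1, hKs (Finset.mem_insert_of_mem hw.2)⟩
            have f4 := Finset.card_le_card f3
            rw [Finset.card_insert_of_notMem
              (fun h => hvo (Finset.mem_of_mem_inter_right h))] at f4
            omega
          rw [key Z hZ' hvZ e2, key Y hY hvY e1]
    · push Not at hY
      exact ⟨X, X, fun Z hZ hvZ => Or.inl (hY Z (hmax Z hZ hvZ) hvZ)⟩

/-- an edge which is in no member -/
def FBar (G : SimpleGraph V) (p : V → Fin 3 → ℝ) (u v : V) : Prop :=
  G.Adj u v ∧ ∀ Z, Member G p Z → u ∈ Z → v ∉ Z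

omit [DecidableRel G.Adj] in
theorem FBar.bar {u v : V} (h : FBar G p u v) : Bar G p u v := by
  refine ⟨h.1, fun W hW hu hv => ?_⟩
  obtain ⟨W', hW', hs⟩ := hW.exists_max
  exact h.2 W' (Or.inl hW') (hs hu) (hs hv)

omit [DecidableRel G.Adj] in
theorem FBar.symm {u v : V} (h : FBar G p u v) : FBar G p v u :=
  ⟨h.1.symm, fun Z hZ hv hu => h.2 Z hZ hu hv⟩

/-- an end of a free bar is in exactly one member -/
theorem fbar_one (hp : Gen p) (hc : ClawFree G) {X : Finset V} (hX : Max G p X) {v r : V}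
    (hv : v ∈ X) (hb : FBar G p v r) : ∀ Z, Member G p Z → v ∈ Z → Z = X := by
  obtain ⟨h1, h2, h3⟩ := bar_facts hp hc hX hv hb.bar
  rintro Z (hZ | ⟨a, b, c, hab, hac, hbc, rfl⟩) hvZ
  · exact h2 Z hZ hvZ
  · exfalso
    have hr := (h3 r).1 hb.bar
    have key : ∀ x y, Bar G p v x → Bar G p v y → x ≠ y → r = x ∨ r = y := by
      intro x y hx hy hxy
      by_contra hn
      push Not at hn
      have h4 : ({r, x, y} : Finset V) ⊆ out G X v := by
        intro w hw
        rw [Finset.mem_insert, Finset.mem_insert, Finset.mem_singleton] at hw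
        rcases hw with rfl | rfl | rfl
        · exact hr
        · exact (h3 _).1 hx
        · exact (h3 _).1 hy
      have h5 := Finset.card_le_card h4
      rw [Finset.card_eq_three.2 ⟨r, x, y, hn.1, hn.2, hxy, rfl⟩] at h5
      omega
    have hmem : Member G p ({a, b, c} : Finset V) := Or.inr ⟨a, b, c, hab, hac, hbc, rfl⟩
    apply hb.2 _ hmem hvZ
    rw [Finset.mem_insert, Finset.mem_insert, Finset.mem_singleton] at hvZ
    rw [Finset.mem_insert, Finset.mem_insert, Finset.mem_singleton]
    rcases hvZ with rfl | rfl | rfl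
    · rcases key b c hab hac hbc.1.ne with h | h
      · exact Or.inr (Or.inl h)
      · exact Or.inr (Or.inr h)
    · rcases key a c hab.symm hbc hac.1.ne with h | h
      · exact Or.inl h
      · exact Or.inr (Or.inr h)
    · rcases key a b hac.symm hbc.symm hab.1.ne with h | h
      · exact Or.inl h
      · exact Or.inr (Or.inl h)

/-- two free bars at a vertex lead to the same maximal rigid set -/
theorem fbar_same (hp : Gen p) (hc : ClawFree G) (hK : Cov G p) {Z : Finset V} {v r r' : V}
    (hZ : Max G p Z) (hr : r ∈ Z) (hb : FBar G p v r) (hb' : FBar G p v r') (hne : r ≠ r') :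
    r' ∈ Z ∧ G.Adj r r' := by
  obtain ⟨X0, hvX0, hX0⟩ := hK v
  obtain ⟨X, hX, hXX⟩ := hX0.exists_max
  have hv : v ∈ X := hXX hvX0
  obtain ⟨h1, h2, h3⟩ := bar_facts hp hc hX hv hb.bar
  have e1 := mem_out.1 ((h3 r).1 hb.bar)
  have e2 := mem_out.1 ((h3 r').1 hb'.bar)
  have hadj : G.Adj r r' := clique_out hp hc hX hv e1.1 e2.1 e1.2 e2.2 hne
  refine ⟨?_, hadj⟩
  by_cases hbb : Bar G p r r'
  · exfalso
    apply hb.2 {v, r, r'} (Or.inr ⟨v, r, r', hb.bar, hb'.bar, hbb, rfl⟩)
    · exact Finset.mem_insert_self _ _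
    · exact Finset.mem_insert_of_mem (Finset.mem_insert_self _ _)
  · have h4 : ∃ W, Big G p W ∧ r ∈ W ∧ r' ∈ W := by
      by_contra hn
      push Not at hn
      exact hbb ⟨hadj, fun W hW hr => hn W hW hr⟩
    obtain ⟨W, hW, hrW, hrW'⟩ := h4
    obtain ⟨W', hW', hs⟩ := hW.exists_max
    have h5 := fbar_one hp hc hZ hr hb.symm W' (Or.inl hW') (hs hrW)
    exact h5 ▸ hs hrW'

/-- free bars contain no circuit -/
theorem exists_end (hp : Gen p) (hc : ClawFree G) (hK : Cov G p) {B : SimpleGraph V}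
    (hB : ∀ u v, B.Adj u v → FBar G p u v) {v0 r0 : V} (h0 : B.Adj v0 r0) :
    ∃ v r, B.Adj v r ∧ ∀ w, B.Adj v w → w = r := by
  classical
  by_contra hcon
  push Not at hcon
  have hmax : ∀ v, ∃ X, Max G p X ∧ v ∈ X := by
    intro v
    obtain ⟨X0, hvX0, hX0⟩ := hK v
    obtain ⟨X, hX, hXX⟩ := hX0.exists_max
    exact ⟨X, hX, hXX hvX0⟩
  obtain ⟨X, hX, hvX⟩ := hmax v0
  obtain ⟨Z, hZ, hrZ⟩ := hmax r0
  obtain ⟨r1, hr1, hr1'⟩ := hcon v0 r0 h0
  obtain ⟨v1, hv1, hv1'⟩ := hcon r0 v0 h0.symm
  have hr1Z := fbar_same hp hc hK hZ hrZ (hB _ _ h0) (hB _ _ hr1) hr1'.symm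
  have hv1X := fbar_same hp hc hK hX hvX (hB _ _ h0).symm (hB _ _ hv1) hv1'.symm
  obtain ⟨v2, hv2, hv2'⟩ := hcon r1 v0 hr1.symm
  have hv2X := fbar_same hp hc hK hX hvX (hB _ _ hr1).symm (hB _ _ hv2) hv2'.symm
  have hXZ : X ≠ Z := by
    rintro rfl
    exact (hB _ _ h0).bar.2 X hX.1 hvX hrZ
  -- at most two bars at a vertex
  have hdeg : ∀ a x y z, Bar G p a x → Bar G p a y → Bar G p a z → x ≠ y → x ≠ z → y ≠ z →
      False := by
    intro a x y z hx hy hz hxy hxz hyz
    obtain ⟨W, hW, haW⟩ := hmax a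
    obtain ⟨h1, h2, h3⟩ := bar_facts hp hc hW haW hx
    have h4 : ({x, y, z} : Finset V) ⊆ out G W a := by
      intro w hw
      rw [Finset.mem_insert, Finset.mem_insert, Finset.mem_singleton] at hw
      rcases hw with rfl | rfl | rfl
      · exact (h3 _).1 hx
      · exact (h3 _).1 hy
      · exact (h3 _).1 hz
    have h5 := Finset.card_le_card h4
    rw [Finset.card_eq_three.2 ⟨x, y, z, hxy, hxz, hyz, rfl⟩] at h5
    omega
  have hv12 : v1 ≠ v2 := by
    rintro rfl
    -- a complete graph with four vertices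
    apply (hB _ _ h0).bar.2 {v0, v1, r0, r1}
    · refine ⟨rigid_four hp G hv1X.2 (hB _ _ h0).1 (hB _ _ hr1).1 (hB _ _ hv1).1.symm
        (hB _ _ hv2).1.symm hr1Z.2, ?_⟩
      rw [Finset.card_eq_four.2 ⟨v0, v1, r0, r1, hv1'.symm, (hB _ _ h0).1.ne, (hB _ _ hr1).1.ne,
        (hB _ _ hv1).1.ne.symm, (hB _ _ hv2).1.ne.symm, hr1'.symm, rfl⟩]
    · simp
    · simp
  obtain ⟨r2, hr2, hr2'⟩ := hcon v1 r0 hv1.symm
  have hr2Z := fbar_same hp hc hK hZ hrZ (hB _ _ hv1).symm (hB _ _ hr2) hr2'.symm
  obtain ⟨r3, hr3, hr3'⟩ := hcon v2 r1 hv2.symm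
  have hr3Z := fbar_same hp hc hK hZ hr1Z.1 (hB _ _ hv2).symm (hB _ _ hr3) hr3'.symm
  -- the six bars
  set S : Finset (V × V) := {(v0, r0), (v0, r1), (v1, r0), (v1, r2), (v2, r1), (v2, r3)} with hS
  have hSc : S.card = 6 := by
    rw [hS]
    rw [Finset.card_insert_of_notMem, Finset.card_insert_of_notMem, Finset.card_insert_of_notMem,
      Finset.card_insert_of_notMem, Finset.card_insert_of_notMem, Finset.card_singleton]
    all_goals simp only [Finset.mem_insert, Finset.mem_singleton, Prod.mk.injEq, not_or, not_and]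
    · exact fun _ h => hr3' h.symm
    · exact ⟨fun h => absurd h hv12, fun h => absurd h hv12⟩
    · exact ⟨fun _ h => hr2' h.symm, fun h => absurd h hv12, fun h => absurd h hv12⟩
    · exact ⟨fun h => absurd h.symm hv1', fun h => absurd h.symm hv1',
        fun h => absurd h.symm hv2', fun h => absurd h.symm hv2'⟩
    · exact ⟨fun _ h => hr1' h.symm, fun h => absurd h.symm hv1', fun h => absurd h.symm hv1',
        fun h => absurd h.symm hv2', fun h => absurd h.symm hv2'⟩
  have hSb : ∀ e ∈ S, e.1 ∈ X ∧ e.2 ∈ Z ∧ Bar G p e.1 e.2 := by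
    intro e he
    rw [hS] at he
    simp only [Finset.mem_insert, Finset.mem_singleton] at he
    rcases he with rfl | rfl | rfl | rfl | rfl | rfl
    · exact ⟨hvX, hrZ, (hB _ _ h0).bar⟩
    · exact ⟨hvX, hr1Z.1, (hB _ _ hr1).bar⟩
    · exact ⟨hv1X.1, hrZ, (hB _ _ hv1).bar.symm⟩
    · exact ⟨hv1X.1, hr2Z.1, (hB _ _ hr2).bar⟩
    · exact ⟨hv2X.1, hr1Z.1, (hB _ _ hv2).bar.symm⟩
    · exact ⟨hv2X.1, hr3Z.1, (hB _ _ hr3).bar⟩
  have hkill : ∀ u, (S.filter fun e => e.1 = u ∨ e.2 = u).card ≤ 2 := by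
    intro u
    by_contra h3
    push Not at h3
    obtain ⟨W, hW, huW⟩ := hmax u
    obtain ⟨e0, he0⟩ : (S.filter fun e => e.1 = u ∨ e.2 = u).Nonempty := by
      rw [← Finset.card_pos]; omega
    rw [Finset.mem_filter] at he0
    have hbu : ∃ w, Bar G p u w := by
      rcases he0.2 with h | h
      · exact ⟨e0.2, h ▸ (hSb e0 he0.1).2.2⟩
      · exact ⟨e0.1, h ▸ (hSb e0 he0.1).2.2.symm⟩
    obtain ⟨w0, hw0⟩ := hbu
    obtain ⟨h1, h2, hout⟩ := bar_facts hp hc hW huW hw0
    have hle : (S.filter fun e => e.1 = u ∨ e.2 = u).card ≤ (out G W u).card := by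
      apply Finset.card_le_card_of_injOn (fun e => if e.1 = u then e.2 else e.1)
      · intro e he
        have he' := Finset.mem_filter.1 (Finset.mem_coe.1 he)
        have hbe := (hSb e he'.1).2.2
        rw [Finset.mem_coe]
        by_cases h : e.1 = u
        · show (if e.1 = u then e.2 else e.1) ∈ _
          rw [if_pos h]
          exact (hout _).1 (h ▸ hbe)
        · show (if e.1 = u then e.2 else e.1) ∈ _
          rw [if_neg h]
          exact (hout _).1 ((he'.2.resolve_left h) ▸ hbe.symm)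
      · intro e he e' he' heq
        have he1 := Finset.mem_filter.1 (Finset.mem_coe.1 he)
        have he1' := Finset.mem_filter.1 (Finset.mem_coe.1 he')
        have hbe := hSb e he1.1
        have hbe' := hSb e' he1'.1
        have heq' : (if e.1 = u then e.2 else e.1) = (if e'.1 = u then e'.2 else e'.1) := heq
        by_cases h : e.1 = u <;> by_cases h' : e'.1 = u
        · rw [if_pos h, if_pos h'] at heq'
          exact Prod.ext (h.trans h'.symm) heq'
        · rw [if_pos h, if_neg h'] at heq'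
          exfalso
          -- `e.2 = e'.1` is in both sets
          obtain ⟨-, g2, -⟩ := bar_facts hp hc hX hbe'.1 hbe'.2.2
          exact hXZ (g2 Z hZ (heq' ▸ hbe.2.1)).symm
        · rw [if_neg h, if_pos h'] at heq'
          exfalso
          obtain ⟨-, g2, -⟩ := bar_facts hp hc hX hbe.1 hbe.2.2
          exact hXZ (g2 Z hZ (heq' ▸ hbe'.2.1)).symm
        · rw [if_neg h, if_neg h'] at heq'
          exact Prod.ext heq' ((he1.2.resolve_left h).trans (he1'.2.resolve_left h').symm)
    omega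
  have hrig := Pool.Agent.TH912.Rig.two_bodies hp hX.1.1 hZ.1.1 (by
    intro U hU1 hU2 hU3
    have hsub : S \ (U.biUnion fun u => S.filter fun e => e.1 = u ∨ e.2 = u) ⊆
        Pool.Agent.TH912.Rig.bars G (X \ U) (Z \ U) := by
      intro e he
      rw [Finset.mem_sdiff, Finset.mem_biUnion] at he
      have hbe := hSb e he.1
      rw [Pool.Agent.TH912.Rig.mem_bars, Finset.mem_sdiff, Finset.mem_sdiff]
      refine ⟨⟨hbe.1, fun h => he.2 ⟨e.1, h, Finset.mem_filter.2 ⟨he.1, Or.inl rfl⟩⟩⟩,
        ⟨hbe.2.1, fun h => he.2 ⟨e.2, h, Finset.mem_filter.2 ⟨he.1, Or.inr rfl⟩⟩⟩, hbe.2.2.1⟩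
    have h1 := Finset.card_le_card hsub
    have h2 := Finset.le_card_sdiff (U.biUnion fun u => S.filter fun e => e.1 = u ∨ e.2 = u) S
    have h3 : (U.biUnion fun u => S.filter fun e => e.1 = u ∨ e.2 = u).card ≤ U.card * 2 :=
      Finset.card_biUnion_le_card_mul _ _ _ (fun u _ => hkill u)
    have h4 : (4 - U.card).choose 2 ≤ 6 - U.card * 2 := by
      interval_cases U.card <;> decide
    omega)
  have hbig : Big G p (X ∪ Z) :=
    ⟨hrig, hX.1.2.trans (Finset.card_le_card Finset.subset_union_left)⟩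
  have h1 := hX.2 _ hbig Finset.subset_union_left
  apply (hB _ _ h0).bar.2 X hX.1 hvX
  rw [← h1]
  exact Finset.mem_union_right _ hrZ

end Pool.Agent.Y647.RG
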