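import Mathlib
import Pool.Agent.Y647.RG.ClawMem
import Pool.Agent.Y647.RG.BarAdd

/-!
# The rank of claw-free graphs in which each vertex is in a large rigid subgraph
-/

set_option autoImplicit false

namespace Pool.Agent.Y647.RG

open Matrix Finset Pool.Agent.W824.BJ Pool.Agent.H789R5 Pool.Agent.H283R2.DR

variable {V : Type} [Fintype V] [DecidableEq V] {p : V → Fin 3 → ℝ} {G : SimpleGraph V}

/-- the upper bound for families which cover all but some edges -/
theorem upperF {ι : Type} [Fintype ι] [DecidableEq ι] {X : ι → Finset V} (h : TwoFold X)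
    {F : Finset (Sym2 V)} (hG : Covers X (G.deleteEdges (↑F : Set (Sym2 V)))) :
    2 * genRank 3 G + ∑ q ∈ (univ : Finset ι).offDiag, rho (X q.1 ∩ X q.2).card ≤
      2 * F.card + 2 * ∑ i, rho (X i).card := by
  obtain ⟨p, hp⟩ := exists_mg V 3
  have h1 := upper h hG
  have h2 := genRank_add hp G
  have h3 := genRank_add hp (G.deleteEdges (↑F : Set (Sym2 V)))
  have h4 := mo_le_add (G := G.deleteEdges (↑F : Set (Sym2 V))) (G' := G) p
  have h5 : (G.edgeSet \ (G.deleteEdges (↑F : Set (Sym2 V))).edgeSet).ncard ≤ F.card := by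
    rw [← Set.ncard_coe_finset]
    apply Set.ncard_le_ncard _ (Set.toFinite _)
    intro e he
    rw [SimpleGraph.edgeSet_deleteEdges, Set.mem_sdiff, Set.mem_sdiff] at he
    by_contra hn
    exact he.2 ⟨he.1, hn⟩
  omega

/-- all motions are trivial on `T` -/
def Tied (G : SimpleGraph V) (p : V → Fin 3 → ℝ) (T : Finset V) : Prop :=
  ∀ q ∈ Mot G p, ∃ (A : Matrix (Fin 3) (Fin 3) ℝ) (b : Fin 3 → ℝ), Aᵀ = -A ∧
    ∀ v ∈ T, q v = A *ᵥ p v + b

theorem member_card (hp : Gen p) {Z : Finset V} (hZ : Member G p Z) :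
    3 ≤ Z.card ∧ RigidOn G (↑Z : Set V) p := by
  rcases hZ with hZ | ⟨a, b, c, hab, hac, hbc, rfl⟩
  · exact ⟨by have := hZ.1.2; omega, hZ.1.1⟩
  · refine ⟨by rw [Finset.card_eq_three.2 ⟨a, b, c, hab.1.ne, hac.1.ne, hbc.1.ne, rfl⟩], ?_⟩
    apply rigid_complete hp
    apply insert_clique
    · apply insert_clique
      · intro x hx y hy hxy
        rw [Finset.mem_singleton] at hx hy
        exact absurd (hx.trans hy.symm) hxy
      · intro x hx
        rw [Finset.mem_singleton] at hx
        exact hx ▸ hbc.1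
    · intro x hx
      rw [Finset.mem_insert, Finset.mem_singleton] at hx
      rcases hx with rfl | rfl
      · exact hab.1
      · exact hac.1

theorem tied_of_rigid {Z : Finset V} (h : RigidOn G (↑Z : Set V) p) : Tied G p Z := by
  intro q hq
  obtain ⟨A, b, hA, hb⟩ := h q (fun u _ v _ huv => (mem_mot G p q).1 hq u v huv)
  exact ⟨A, b, hA, fun v hv => hb v (by exact_mod_cast hv)⟩

theorem Tied.union (hp : Gen p) {Z W U : Finset V} (h : Tied G p (Z ∪ W))
    (h' : Tied G p (W ∪ U)) (hW : 3 ≤ W.card) : Tied G p (Z ∪ U) := by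
  intro q hq
  obtain ⟨A, b, hA, hb⟩ := h q hq
  obtain ⟨A', b', hA', hb'⟩ := h' q hq
  obtain ⟨e1, e2⟩ := triv_unique hp hW hA hA' (b := b) (b' := b') (by
    intro v hv
    rw [← hb v (Finset.mem_union_right _ hv), ← hb' v (Finset.mem_union_left _ hv)])
  refine ⟨A, b, hA, ?_⟩
  intro v hv
  rw [Finset.mem_union] at hv
  rcases hv with hv | hv
  · exact hb v (Finset.mem_union_left _ hv)
  · rw [hb' v (Finset.mem_union_right _ hv), e1, e2]

/-- the members as a type -/
abbrev Idx (G : SimpleGraph V) (p : V → Fin 3 → ℝ) := {Z : Finset V // Member G p Z}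

/-- rigidly connected members -/
def tieRel (hp : Gen p) (G : SimpleGraph V) : Setoid (Idx G p) where
  r Z W := Tied G p (Z.1 ∪ W.1)
  iseqv :=
    { refl := fun Z => by
        show Tied G p (Z.1 ∪ Z.1)
        rw [Finset.union_self]
        exact tied_of_rigid (member_card hp Z.2).2
      symm := fun {Z W} h => by
        show Tied G p (W.1 ∪ Z.1)
        rw [Finset.union_comm]
        exact h
      trans := fun {Z W U} h h' => Tied.union hp h h' (member_card hp W.2).1 }

open Classical in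
/-- the union of the members of a class -/
noncomputable def cls (hp : Gen p) (G : SimpleGraph V) (c : Quotient (tieRel hp G)) : Finset V :=
  univ.filter fun v => ∃ Z : Idx G p, Quotient.mk (tieRel hp G) Z = c ∧ v ∈ Z.1

theorem mem_cls (hp : Gen p) {c : Quotient (tieRel hp G)} {v : V} :
    v ∈ cls hp G c ↔ ∃ Z : Idx G p, Quotient.mk (tieRel hp G) Z = c ∧ v ∈ Z.1 := by
  classical
  unfold cls
  rw [Finset.mem_filter]
  exact ⟨fun h => h.2, fun h => ⟨Finset.mem_univ _, h⟩⟩

theorem cls_tied (hp : Gen p) (c : Quotient (tieRel hp G)) : Tied G p (cls hp G c) := by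
  induction c using Quotient.inductionOn with
  | h Z0 =>
    intro q hq
    obtain ⟨A, b, hA, hb⟩ := tied_of_rigid (member_card hp Z0.2).2 q hq
    refine ⟨A, b, hA, ?_⟩
    intro v hv
    rw [mem_cls] at hv
    obtain ⟨Z, hZ, hvZ⟩ := hv
    have h1 : Tied G p (Z.1 ∪ Z0.1) := Quotient.exact hZ
    obtain ⟨A', b', hA', hb'⟩ := h1 q hq
    obtain ⟨e1, e2⟩ := triv_unique hp (member_card hp Z0.2).1 hA hA' (b := b) (b' := b') (by
      intro w hw
      rw [← hb w hw, ← hb' w (Finset.mem_union_right _ hw)])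
    rw [hb' v (Finset.mem_union_left _ hvZ), e1, e2]

theorem sub_cls (hp : Gen p) (Z : Idx G p) : Z.1 ⊆ cls hp G (Quotient.mk (tieRel hp G) Z) :=
  fun _ hv => (mem_cls hp).2 ⟨Z, rfl, hv⟩

section main

variable [DecidableRel G.Adj] [Fintype (Idx G p)]

theorem cls_twoFold (hp : Gen p) (hc : ClawFree G) (hK : Cov G p)
    [Fintype (Quotient (tieRel hp G))] : TwoFold (cls hp G) := by
  classical
  intro v
  obtain ⟨A, B, hAB⟩ := member_two hp hc hK v
  have h : (univ.filter fun c => v ∈ cls hp G c) ⊆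
      (univ.filter fun Z : Idx G p => v ∈ Z.1).image (Quotient.mk (tieRel hp G)) := by
    intro c hcc
    rw [Finset.mem_filter, mem_cls] at hcc
    obtain ⟨-, Z, hZ, hvZ⟩ := hcc
    exact Finset.mem_image.2 ⟨Z, Finset.mem_filter.2 ⟨Finset.mem_univ _, hvZ⟩, hZ⟩
  refine (Finset.card_le_card h).trans (Finset.card_image_le.trans ?_)
  have h2 : ((univ.filter fun Z : Idx G p => v ∈ Z.1).image fun Z => Z.1) ⊆ {A, B} := by
    intro Z hZ
    rw [Finset.mem_image] at hZ
    obtain ⟨Z', hZ', rfl⟩ := hZ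
    rw [Finset.mem_filter] at hZ'
    rw [Finset.mem_insert, Finset.mem_singleton]
    exact hAB Z'.1 Z'.2 hZ'.2
  rw [← Finset.card_image_of_injective _ (Subtype.val_injective : Function.Injective
    (fun Z : Idx G p => Z.1))]
  exact (Finset.card_le_card h2).trans Finset.card_le_two

omit [DecidableRel G.Adj] [Fintype (Idx G p)] in
/-- the edges which are in no class -/
def loose (hp : Gen p) (G : SimpleGraph V) : SimpleGraph V where
  Adj u v := G.Adj u v ∧ ¬ ∃ c, u ∈ cls hp G c ∧ v ∈ cls hp G c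
  symm := ⟨fun _ _ h => ⟨h.1.symm, fun ⟨c, h1, h2⟩ => h.2 ⟨c, h2, h1⟩⟩⟩
  loopless := ⟨fun _ h => h.1.ne rfl⟩

omit [DecidableRel G.Adj] [Fintype (Idx G p)] in
theorem loose_fbar (hp : Gen p) {u v : V} (h : (loose hp G).Adj u v) : FBar G p u v := by
  refine ⟨h.1, fun Z hZ hu hv => h.2 ⟨Quotient.mk (tieRel hp G) ⟨Z, hZ⟩, ?_, ?_⟩⟩
  · exact sub_cls hp ⟨Z, hZ⟩ hu
  · exact sub_cls hp ⟨Z, hZ⟩ hv

omit [DecidableRel G.Adj] [Fintype (Idx G p)] in
theorem mot_eq (hp : Gen p) : Mot G p = Mot (bodies (cls hp G) ⊔ loose hp G) p := by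
  apply le_antisymm
  · intro q hq
    have hq' := hq
    rw [mem_mot] at hq ⊢
    rintro u v (⟨-, c, hu, hv⟩ | h)
    · obtain ⟨A, b, hA, hb⟩ := cls_tied hp c q hq'
      rw [hb u hu, hb v hv, add_sub_add_right_eq_sub, ← Matrix.mulVec_sub]
      exact skew_dot_self hA _
    · exact hq u v h.1
  · apply mot_anti
    intro u v huv
    by_cases h : ∃ c, u ∈ cls hp G c ∧ v ∈ cls hp G c
    · exact Or.inl ⟨huv.ne, h⟩
    · exact Or.inr ⟨huv, h⟩

theorem add_bars (hp : MG p) (hc : ClawFree G) (hK : Cov G p) (n : ℕ) :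
    ∀ B : SimpleGraph V, B ≤ loose hp.toGen G → B.edgeSet.ncard = n →
      mo (bodies (cls hp.toGen G) ⊔ B) p + n ≤ mo (bodies (cls hp.toGen G)) p := by
  classical
  induction n with
  | zero =>
    intro B _ _
    exact mo_anti le_sup_left p
  | succ n ih =>
    intro B hB hn
    obtain ⟨e, he⟩ : B.edgeSet.Nonempty := by
      rw [← Set.ncard_pos (Set.toFinite _)]
      omega
    obtain ⟨v, r, hvr, huniq⟩ : ∃ v r, B.Adj v r ∧ ∀ w, B.Adj v w → w = r := by
      induction e using Sym2.ind with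
      | _ v0 r0 => exact exists_end hp.toGen hc hK (fun u v h => loose_fbar _ (hB h)) he
    set B' := B.deleteEdges {s(v, r)} with hB'
    have hB'adj : ∀ a b, B'.Adj a b ↔ B.Adj a b ∧ s(a, b) ≠ s(v, r) := by
      intro a b
      rw [hB', SimpleGraph.deleteEdges_adj, Set.mem_singleton_iff]
    have hB'n : B'.edgeSet.ncard = n := by
      have hmem : s(v, r) ∈ B.edgeSet := hvr
      have h7 := Set.ncard_diff_singleton_add_one hmem (Set.toFinite _)
      rw [hB', SimpleGraph.edgeSet_deleteEdges]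
      omega
    have hB'le : B' ≤ B := fun a b h => ((hB'adj a b).1 h).1
    have h1 := ih B' (hB'le.trans hB) hB'n
    have h2 : bodies (cls hp.toGen G) ⊔ B =
        (bodies (cls hp.toGen G) ⊔ B') ⊔ SimpleGraph.edge v r := by
      rw [sup_assoc]
      congr 1
      ext a b
      rw [SimpleGraph.sup_adj, hB'adj, SimpleGraph.edge_adj]
      constructor
      · intro h
        by_cases h3 : s(a, b) = s(v, r)
        · right
          refine ⟨?_, h.ne⟩
          rw [Sym2.eq_iff] at h3
          exact h3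
        · exact Or.inl ⟨h, h3⟩
      · rintro (h | ⟨⟨rfl, rfl⟩ | ⟨rfl, rfl⟩, -⟩)
        · exact h.1
        · exact hvr
        · exact hvr.symm
    have hfb := loose_fbar _ (hB hvr)
    have hmax : ∀ v, ∃ X, Max G p X ∧ v ∈ X := by
      intro v
      obtain ⟨X0, hvX0, hX0⟩ := hK v
      obtain ⟨X, hX, hXX⟩ := hX0.exists_max
      exact ⟨X, hX, hXX hvX0⟩
    obtain ⟨X, hX, hvX⟩ := hmax v
    obtain ⟨Z, hZ, hrZ⟩ := hmax r
    let iv : Idx G p := ⟨X, Or.inl hX⟩
    let ir : Idx G p := ⟨Z, Or.inl hZ⟩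
    let c := Quotient.mk (tieRel hp.toGen G) iv
    let d := Quotient.mk (tieRel hp.toGen G) ir
    have hone : ∀ (a b : V) (W : Finset V) (hW : Max G p W), a ∈ W → FBar G p a b →
        ∀ c', a ∈ cls hp.toGen G c' → c' = Quotient.mk (tieRel hp.toGen G) ⟨W, Or.inl hW⟩ := by
      intro a b W hW haW hab c' hac'
      rw [mem_cls] at hac'
      obtain ⟨U, hU, haU⟩ := hac'
      have h3 := fbar_one hp.toGen hc hW haW hab U.1 U.2 haU
      rw [← hU]
      congr 1
      exact Subtype.ext h3
    have hvc : v ∈ cls hp.toGen G c := sub_cls hp.toGen iv hvX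
    have hrd : r ∈ cls hp.toGen G d := sub_cls hp.toGen ir hrZ
    have hcd : c ≠ d := by
      intro h
      exact (hB hvr).2 ⟨c, hvc, h ▸ hrd⟩
    have hrc : r ∉ cls hp.toGen G c := by
      intro h
      exact hcd (hone r v Z hZ hrZ hfb.symm c h)
    have hcl : ∀ c' : Quotient (tieRel hp.toGen G), ∀ a ∈ cls hp.toGen G c',
        ∀ b ∈ cls hp.toGen G c', a ≠ b → (bodies (cls hp.toGen G) ⊔ B').Adj a b :=
      fun c' a ha b hb hab => Or.inl ⟨hab, c', ha, hb⟩
    -- the other bar at `r`
    obtain ⟨s, hs⟩ : ∃ s, ∀ w, B'.Adj r w → w = s := by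
      by_cases h3 : ∃ s, B'.Adj r s
      · obtain ⟨s, hs⟩ := h3
        refine ⟨s, fun w hw => ?_⟩
        by_contra hne
        have hsv : s ≠ v := by
          rintro rfl
          exact ((hB'adj _ _).1 hs).2 Sym2.eq_swap
        have hwv : w ≠ v := by
          rintro rfl
          exact ((hB'adj _ _).1 hw).2 Sym2.eq_swap
        obtain ⟨g1, -, g3⟩ := bar_facts hp.toGen hc hZ hrZ hfb.symm.bar
        have h4 : ({v, s, w} : Finset V) ⊆ out G Z r := by
          intro x hx
          rw [Finset.mem_insert, Finset.mem_insert, Finset.mem_singleton] at hx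
          rcases hx with rfl | rfl | rfl
          · exact (g3 _).1 hfb.symm.bar
          · exact (g3 _).1 (loose_fbar _ (hB (hB'le hs))).bar
          · exact (g3 _).1 (loose_fbar _ (hB (hB'le hw))).bar
        have h5 := Finset.card_le_card h4
        rw [Finset.card_eq_three.2 ⟨v, s, w, hsv.symm, hwv.symm, Ne.symm hne, rfl⟩] at h5
        omega
      · push Not at h3
        exact ⟨v, fun w hw => absurd hw (h3 w)⟩
    -- a relative motion
    have hnt : ¬ Tied G p (X ∪ Z) := fun h => hcd (Quotient.sound h)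
    unfold Tied at hnt
    push Not at hnt
    obtain ⟨q, hq, hqn⟩ := hnt
    obtain ⟨A1, b1, hA1, hb1⟩ := cls_tied hp.toGen c q hq
    obtain ⟨A2, b2, hA2, hb2⟩ := cls_tied hp.toGen d q hq
    have h3 := bar_add hp (H := bodies (cls hp.toGen G) ⊔ B') (X := cls hp.toGen G c)
      (Z := cls hp.toGen G d) (v := v) (r := r) (s := s) hvc
      (hX.1.2.trans (Finset.card_le_card (sub_cls hp.toGen iv))) (hcl c)
      (by
        rintro w (⟨-, c', h4, h5⟩ | h4)
        · have h6 : c' = c := hone v r X hX hvX hfb c' h4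
          rw [← h6]
          exact h5
        · exfalso
          have h5 := huniq w (hB'le h4)
          exact ((hB'adj _ _).1 h4).2 (by rw [h5])) hrd
      (hZ.1.2.trans (Finset.card_le_card (sub_cls hp.toGen ir))) (hcl d) hrc
      (by
        rintro w (⟨-, c', h4, h5⟩ | h4)
        · have h6 : c' = d := hone r v Z hZ hrZ hfb.symm c' h4
          refine Or.inl ?_
          rw [← h6]
          exact h5
        · exact Or.inr (hs w h4))
      (q0 := q - fun v => A2 *ᵥ p v + b2)
      (Submodule.sub_mem _ (mot_anti (sup_le_sup_left (hB'le.trans hB) _) p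
        ((mot_eq hp.toGen (G := G)) ▸ hq)) (triv_mot _ p hA2 b2))
      (fun z hz => by rw [Pi.sub_apply, hb2 z hz, sub_self])
      (by
        by_contra hcon
        push Not at hcon
        obtain ⟨e1, e2⟩ := triv_unique hp.toGen (S := cls hp.toGen G c)
          (by
            have h4 : 4 ≤ (cls hp.toGen G c).card :=
              hX.1.2.trans (Finset.card_le_card (sub_cls hp.toGen iv))
            omega) hA1 hA2 (b := b1) (b' := b2) (by
            intro w hw
            have h4 := hcon w hw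
            rw [Pi.sub_apply, sub_eq_zero] at h4
            rw [← hb1 w hw]
            exact h4)
        obtain ⟨w, hw, hw'⟩ := hqn A1 b1 hA1
        apply hw'
        rw [Finset.mem_union] at hw
        rcases hw with hw | hw
        · exact hb1 w (sub_cls hp.toGen iv hw)
        · rw [e1, e2]
          exact hb2 w (sub_cls hp.toGen ir hw))
    rw [h2]
    omega

theorem claw_rank (hp : MG p) (hc : ClawFree G) (hK : Cov G p) :
    ∃ (F : Finset (Sym2 V)) (C : Type) (_ : Fintype C) (_ : DecidableEq C) (Y : C → Finset V),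
      TwoFold Y ∧ Covers Y (G.deleteEdges (↑F : Set (Sym2 V))) ∧
      2 * genRank 3 G + ∑ q ∈ (univ : Finset C).offDiag, rho (Y q.1 ∩ Y q.2).card =
        2 * F.card + 2 * ∑ c, rho (Y c).card := by
  classical
  letI : Fintype (Quotient (tieRel hp.toGen G)) := Fintype.ofFinite _
  obtain ⟨C, h1, h2, Y, hY1, hY2, hY3⟩ := attain (cls_twoFold hp.toGen hc hK)
  refine ⟨(loose hp.toGen G).edgeFinset, C, h1, h2, Y, hY1, ?_, ?_⟩
  · intro u v huv
    rw [SimpleGraph.deleteEdges_adj, SimpleGraph.coe_edgeFinset, SimpleGraph.mem_edgeSet] at huv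
    apply hY2 u v
    refine ⟨huv.1.ne, ?_⟩
    by_contra hn
    exact huv.2 ⟨huv.1, hn⟩
  · apply le_antisymm
    · apply upperF hY1
      intro u v huv
      rw [SimpleGraph.deleteEdges_adj, SimpleGraph.coe_edgeFinset, SimpleGraph.mem_edgeSet] at huv
      apply hY2 u v
      refine ⟨huv.1.ne, ?_⟩
      by_contra hn
      exact huv.2 ⟨huv.1, hn⟩
    · have e1 := add_bars hp hc hK _ (loose hp.toGen G) le_rfl rfl
      have e2 : mo G p = mo (bodies (cls hp.toGen G) ⊔ loose hp.toGen G) p := by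
        unfold mo
        rw [mot_eq hp.toGen]
      have e3 := genRank_add hp G
      have e4 := genRank_add hp (bodies (cls hp.toGen G))
      have e5 : (loose hp.toGen G).edgeSet.ncard = (loose hp.toGen G).edgeFinset.card := by
        rw [← SimpleGraph.coe_edgeFinset, Set.ncard_coe_finset]
      omega

end main

end Pool.Agent.Y647.RG
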