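import Mathlib
import Pool.Agent.Y647.RG.ClawAll

/-!
# Claw-free graphs in which each vertex with a neighbour is in a large rigid subgraph
-/

set_option autoImplicit false

namespace Pool.Agent.Y647.RG

open Matrix Finset Pool.Agent.W824.BJ Pool.Agent.H789R5 Pool.Agent.H283R2.DR

variable {V : Type} [Fintype V] [DecidableEq V] {p : V → Fin 3 → ℝ} {G : SimpleGraph V}

/-- each vertex with a neighbour is in a large rigid set -/
def CovN (G : SimpleGraph V) (p : V → Fin 3 → ℝ) : Prop :=
  ∀ v w, G.Adj v w → ∃ Z, v ∈ Z ∧ Big G p Z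

variable [DecidableRel G.Adj]

/-- a member contains neighbours of its elements -/
theorem member_nbr (hp : Gen p) {Z : Finset V} (hZ : Member G p Z) {v : V} (hv : v ∈ Z) :
    ∃ w, G.Adj v w := by
  rcases hZ with hZ | ⟨a, b, c, hab, hac, hbc, rfl⟩
  · have h1 := hZ.1.three_nbrs hp hv
    obtain ⟨w, hw⟩ := Finset.card_pos.1 (show 0 < (Z.filter fun w => G.Adj v w).card by omega)
    exact ⟨w, (Finset.mem_filter.1 hw).2⟩
  · rw [Finset.mem_insert, Finset.mem_insert, Finset.mem_singleton] at hv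
    rcases hv with rfl | rfl | rfl
    · exact ⟨b, hab.1⟩
    · exact ⟨a, hab.1.symm⟩
    · exact ⟨a, hac.1.symm⟩

/-- each vertex is in at most two members -/
theorem member_twoN (hp : Gen p) (hc : ClawFree G) (hK : CovN G p) (v : V) :
    ∃ A B : Finset V, ∀ Z, Member G p Z → v ∈ Z → Z = A ∨ Z = B := by
  classical
  by_cases hn : ∃ w, G.Adj v w
  swap
  · exact ⟨∅, ∅, fun Z hZ hvZ => absurd (member_nbr hp hZ hvZ) hn⟩
  obtain ⟨w0, hw0⟩ := hn
  obtain ⟨X0, hvX0, hX0⟩ := hK v w0 hw0
  obtain ⟨X, hX, hXX⟩ := hX0.exists_max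
  have hv : v ∈ X := hXX hvX0
  by_cases hbar : ∃ r, Bar G p v r
  · obtain ⟨r, hr⟩ := hbar
    obtain ⟨h1, h2, h3⟩ := bar_facts hp hc hX hv hr
    refine ⟨X, insert v (out G X v), ?_⟩
    rintro Z (hZ | ⟨a, b, c, hab, hac, hbc, rfl⟩) hvZ
    · exact Or.inl (h2 Z hZ hvZ)
    · right
      have key : ∀ x y, Bar G p v x → Bar G p v y → x ≠ y → out G X v = {x, y} := by
        intro x y hx hy hxy
        symm
        apply Finset.eq_of_subset_of_card_le
        · intro w hw
          rw [Finset.mem_insert, Finset.mem_singleton] at hw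
          rcases hw with rfl | rfl
          · exact (h3 _).1 hx
          · exact (h3 _).1 hy
        · rw [Finset.card_pair hxy]
          exact h1
      rw [Finset.mem_insert, Finset.mem_insert, Finset.mem_singleton] at hvZ
      rcases hvZ with rfl | rfl | rfl
      · rw [key b c hab hac hbc.1.ne]
      · rw [key a c hab.symm hbc hac.1.ne]
        ext w
        simp only [Finset.mem_insert, Finset.mem_singleton]
        tauto
      · rw [key a b hac.symm hbc.symm hab.1.ne]
        ext w
        simp only [Finset.mem_insert, Finset.mem_singleton]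
        tauto
  · push Not at hbar
    have hmax : ∀ Z, Member G p Z → v ∈ Z → Max G p Z := by
      rintro Z (hZ | ⟨a, b, c, hab, hac, hbc, rfl⟩) hvZ
      · exact hZ
      · exfalso
        rw [Finset.mem_insert, Finset.mem_insert, Finset.mem_singleton] at hvZ
        rcases hvZ with rfl | rfl | rfl
        · exact hbar _ hab
        · exact hbar _ hab.symm
        · exact hbar _ hac.symm
    by_cases hY : ∃ Y, Max G p Y ∧ v ∈ Y ∧ Y ≠ X
    · obtain ⟨Y, hY, hvY, hYX⟩ := hY
      refine ⟨X, Y, ?_⟩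
      intro Z hZ hvZ
      have hZ' := hmax Z hZ hvZ
      by_cases hZX : Z = X
      · exact Or.inl hZX
      · right
        have e1 := two_in_out hp hX hY hYX hv hvY
        have e2 := two_in_out hp hX hZ' hZX hv hvZ
        have hvo : v ∉ out G X v := fun h => (mem_out.1 h).2 hv
        rcases Nat.lt_or_ge (out G X v).card 3 with h3 | h3
        · have f1 : Y ∩ out G X v = out G X v :=
            Finset.eq_of_subset_of_card_le Finset.inter_subset_right (by omega)
          have f2 : Z ∩ out G X v = out G X v :=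
            Finset.eq_of_subset_of_card_le Finset.inter_subset_right (by omega)
          apply hZ'.eq_of_inter hp hY
          have f3 : insert v (out G X v) ⊆ Z ∩ Y := by
            intro w hw
            rw [Finset.mem_insert] at hw
            rw [Finset.mem_inter]
            rcases hw with rfl | hw
            · exact ⟨hvZ, hvY⟩
            · exact ⟨Finset.mem_of_mem_inter_left (f2 ▸ hw),
                Finset.mem_of_mem_inter_left (f1 ▸ hw)⟩
          have f4 := Finset.card_le_card f3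
          rw [Finset.card_insert_of_notMem hvo] at f4
          have f5 := Finset.card_le_card (Finset.inter_subset_right (s₁ := Y) (s₂ := out G X v))
          omega
        · obtain ⟨K, hKm, hKs⟩ := (out_big hp hc hX hv h3).exists_max
          have key : ∀ W, Max G p W → v ∈ W → 2 ≤ (W ∩ out G X v).card → W = K := by
            intro W hW hvW h2
            apply hW.eq_of_inter hp hKm
            have f3 : insert v (W ∩ out G X v) ⊆ W ∩ K := by
              intro w hw
              rw [Finset.mem_insert, Finset.mem_inter] at hw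
              rw [Finset.mem_inter]
              rcases hw with rfl | hw
              · exact ⟨hvW, hKs (Finset.mem_insert_self _ _)⟩
              · exact ⟨hw.1, hKs (Finset.mem_insert_of_mem hw.2)⟩
            have f4 := Finset.card_le_card f3
            rw [Finset.card_insert_of_notMem
              (fun h => hvo (Finset.mem_of_mem_inter_right h))] at f4
            omega
          rw [key Z hZ' hvZ e2, key Y hY hvY e1]
    · push Not at hY
      exact ⟨X, X, fun Z hZ hvZ => Or.inl (hY Z (hmax Z hZ hvZ) hvZ)⟩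

/-- two free bars at a vertex lead to the same maximal rigid set -/
theorem fbar_sameN (hp : Gen p) (hc : ClawFree G) (hK : CovN G p) {Z : Finset V} {v r r' : V}
    (hZ : Max G p Z) (hr : r ∈ Z) (hb : FBar G p v r) (hb' : FBar G p v r') (hne : r ≠ r') :
    r' ∈ Z ∧ G.Adj r r' := by
  obtain ⟨X0, hvX0, hX0⟩ := hK v r hb.1
  obtain ⟨X, hX, hXX⟩ := hX0.exists_max
  have hv : v ∈ X := hXX hvX0
  obtain ⟨h1, h2, h3⟩ := bar_facts hp hc hX hv hb.bar
  have e1 := mem_out.1 ((h3 r).1 hb.bar)
  have e2 := mem_out.1 ((h3 r').1 hb'.bar)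
  have hadj : G.Adj r r' := clique_out hp hc hX hv e1.1 e2.1 e1.2 e2.2 hne
  refine ⟨?_, hadj⟩
  by_cases hbb : Bar G p r r'
  · exfalso
    apply hb.2 {v, r, r'} (Or.inr ⟨v, r, r', hb.bar, hb'.bar, hbb, rfl⟩)
    · exact Finset.mem_insert_self _ _
    · exact Finset.mem_insert_of_mem (Finset.mem_insert_self _ _)
  · have h4 : ∃ W, Big G p W ∧ r ∈ W ∧ r' ∈ W := by
      by_contra hn
      push Not at hn
      exact hbb ⟨hadj, fun W hW hr => hn W hW hr⟩
    obtain ⟨W, hW, hrW, hrW'⟩ := h4
    obtain ⟨W', hW', hs⟩ := hW.exists_max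
    have h5 := fbar_one hp hc hZ hr hb.symm W' (Or.inl hW') (hs hrW)
    exact h5 ▸ hs hrW'

/-- free bars contain no circuit -/
theorem exists_endN (hp : Gen p) (hc : ClawFree G) (hK : CovN G p) {B : SimpleGraph V}
    (hB : ∀ u v, B.Adj u v → FBar G p u v) {v0 r0 : V} (h0 : B.Adj v0 r0) :
    ∃ v r, B.Adj v r ∧ ∀ w, B.Adj v w → w = r := by
  classical
  by_contra hcon
  push Not at hcon
  have hmax : ∀ v w, G.Adj v w → ∃ X, Max G p X ∧ v ∈ X := by
    intro v w hvw
    obtain ⟨X0, hvX0, hX0⟩ := hK v w hvw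
    obtain ⟨X, hX, hXX⟩ := hX0.exists_max
    exact ⟨X, hX, hXX hvX0⟩
  obtain ⟨X, hX, hvX⟩ := hmax v0 r0 (hB _ _ h0).1
  obtain ⟨Z, hZ, hrZ⟩ := hmax r0 v0 (hB _ _ h0).1.symm
  obtain ⟨r1, hr1, hr1'⟩ := hcon v0 r0 h0
  obtain ⟨v1, hv1, hv1'⟩ := hcon r0 v0 h0.symm
  have hr1Z := fbar_sameN hp hc hK hZ hrZ (hB _ _ h0) (hB _ _ hr1) hr1'.symm
  have hv1X := fbar_sameN hp hc hK hX hvX (hB _ _ h0).symm (hB _ _ hv1) hv1'.symm
  obtain ⟨v2, hv2, hv2'⟩ := hcon r1 v0 hr1.symm
  have hv2X := fbar_sameN hp hc hK hX hvX (hB _ _ hr1).symm (hB _ _ hv2) hv2'.symm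
  have hXZ : X ≠ Z := by
    rintro rfl
    exact (hB _ _ h0).bar.2 X hX.1 hvX hrZ
  -- at most two bars at a vertex
  have hdeg : ∀ a x y z, Bar G p a x → Bar G p a y → Bar G p a z → x ≠ y → x ≠ z → y ≠ z →
      False := by
    intro a x y z hx hy hz hxy hxz hyz
    obtain ⟨W, hW, haW⟩ := hmax a x hx.1
    obtain ⟨h1, h2, h3⟩ := bar_facts hp hc hW haW hx
    have h4 : ({x, y, z} : Finset V) ⊆ out G W a := by
      intro w hw
      rw [Finset.mem_insert, Finset.mem_insert, Finset.mem_singleton] at hw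
      rcases hw with rfl | rfl | rfl
      · exact (h3 _).1 hx
      · exact (h3 _).1 hy
      · exact (h3 _).1 hz
    have h5 := Finset.card_le_card h4
    rw [Finset.card_eq_three.2 ⟨x, y, z, hxy, hxz, hyz, rfl⟩] at h5
    omega
  have hv12 : v1 ≠ v2 := by
    rintro rfl
    -- a complete graph with four vertices
    apply (hB _ _ h0).bar.2 {v0, v1, r0, r1}
    · refine ⟨rigid_four hp G hv1X.2 (hB _ _ h0).1 (hB _ _ hr1).1 (hB _ _ hv1).1.symm
        (hB _ _ hv2).1.symm hr1Z.2, ?_⟩
      rw [Finset.card_eq_four.2 ⟨v0, v1, r0, r1, hv1'.symm, (hB _ _ h0).1.ne, (hB _ _ hr1).1.ne,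
        (hB _ _ hv1).1.ne.symm, (hB _ _ hv2).1.ne.symm, hr1'.symm, rfl⟩]
    · simp
    · simp
  obtain ⟨r2, hr2, hr2'⟩ := hcon v1 r0 hv1.symm
  have hr2Z := fbar_sameN hp hc hK hZ hrZ (hB _ _ hv1).symm (hB _ _ hr2) hr2'.symm
  obtain ⟨r3, hr3, hr3'⟩ := hcon v2 r1 hv2.symm
  have hr3Z := fbar_sameN hp hc hK hZ hr1Z.1 (hB _ _ hv2).symm (hB _ _ hr3) hr3'.symm
  -- the six bars
  set S : Finset (V × V) := {(v0, r0), (v0, r1), (v1, r0), (v1, r2), (v2, r1), (v2, r3)} with hS
  have hSc : S.card = 6 := by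
    rw [hS]
    rw [Finset.card_insert_of_notMem, Finset.card_insert_of_notMem, Finset.card_insert_of_notMem,
      Finset.card_insert_of_notMem, Finset.card_insert_of_notMem, Finset.card_singleton]
    all_goals simp only [Finset.mem_insert, Finset.mem_singleton, Prod.mk.injEq, not_or, not_and]
    · exact fun _ h => hr3' h.symm
    · exact ⟨fun h => absurd h hv12, fun h => absurd h hv12⟩
    · exact ⟨fun _ h => hr2' h.symm, fun h => absurd h hv12, fun h => absurd h hv12⟩
    · exact ⟨fun h => absurd h.symm hv1', fun h => absurd h.symm hv1',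
        fun h => absurd h.symm hv2', fun h => absurd h.symm hv2'⟩
    · exact ⟨fun _ h => hr1' h.symm, fun h => absurd h.symm hv1', fun h => absurd h.symm hv1',
        fun h => absurd h.symm hv2', fun h => absurd h.symm hv2'⟩
  have hSb : ∀ e ∈ S, e.1 ∈ X ∧ e.2 ∈ Z ∧ Bar G p e.1 e.2 := by
    intro e he
    rw [hS] at he
    simp only [Finset.mem_insert, Finset.mem_singleton] at he
    rcases he with rfl | rfl | rfl | rfl | rfl | rfl
    · exact ⟨hvX, hrZ, (hB _ _ h0).bar⟩
    · exact ⟨hvX, hr1Z.1, (hB _ _ hr1).bar⟩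
    · exact ⟨hv1X.1, hrZ, (hB _ _ hv1).bar.symm⟩
    · exact ⟨hv1X.1, hr2Z.1, (hB _ _ hr2).bar⟩
    · exact ⟨hv2X.1, hr1Z.1, (hB _ _ hv2).bar.symm⟩
    · exact ⟨hv2X.1, hr3Z.1, (hB _ _ hr3).bar⟩
  have hkill : ∀ u, (S.filter fun e => e.1 = u ∨ e.2 = u).card ≤ 2 := by
    intro u
    by_contra h3
    push Not at h3
    obtain ⟨e0, he0⟩ : (S.filter fun e => e.1 = u ∨ e.2 = u).Nonempty := by
      rw [← Finset.card_pos]; omega
    rw [Finset.mem_filter] at he0
    have hbu : ∃ w, Bar G p u w := by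
      rcases he0.2 with h | h
      · exact ⟨e0.2, h ▸ (hSb e0 he0.1).2.2⟩
      · exact ⟨e0.1, h ▸ (hSb e0 he0.1).2.2.symm⟩
    obtain ⟨w0, hw0⟩ := hbu
    obtain ⟨W, hW, huW⟩ := hmax u w0 hw0.1
    obtain ⟨h1, h2, hout⟩ := bar_facts hp hc hW huW hw0
    have hle : (S.filter fun e => e.1 = u ∨ e.2 = u).card ≤ (out G W u).card := by
      apply Finset.card_le_card_of_injOn (fun e => if e.1 = u then e.2 else e.1)
      · intro e he
        have he' := Finset.mem_filter.1 (Finset.mem_coe.1 he)
        have hbe := (hSb e he'.1).2.2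
        rw [Finset.mem_coe]
        by_cases h : e.1 = u
        · show (if e.1 = u then e.2 else e.1) ∈ _
          rw [if_pos h]
          exact (hout _).1 (h ▸ hbe)
        · show (if e.1 = u then e.2 else e.1) ∈ _
          rw [if_neg h]
          exact (hout _).1 ((he'.2.resolve_left h) ▸ hbe.symm)
      · intro e he e' he' heq
        have he1 := Finset.mem_filter.1 (Finset.mem_coe.1 he)
        have he1' := Finset.mem_filter.1 (Finset.mem_coe.1 he')
        have hbe := hSb e he1.1
        have hbe' := hSb e' he1'.1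
        have heq' : (if e.1 = u then e.2 else e.1) = (if e'.1 = u then e'.2 else e'.1) := heq
        by_cases h : e.1 = u <;> by_cases h' : e'.1 = u
        · rw [if_pos h, if_pos h'] at heq'
          exact Prod.ext (h.trans h'.symm) heq'
        · rw [if_pos h, if_neg h'] at heq'
          exfalso
          -- `e.2 = e'.1` is in both sets
          obtain ⟨-, g2, -⟩ := bar_facts hp hc hX hbe'.1 hbe'.2.2
          exact hXZ (g2 Z hZ (heq' ▸ hbe.2.1)).symm
        · rw [if_neg h, if_pos h'] at heq'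
          exfalso
          obtain ⟨-, g2, -⟩ := bar_facts hp hc hX hbe.1 hbe.2.2
          exact hXZ (g2 Z hZ (heq' ▸ hbe'.2.1)).symm
        · rw [if_neg h, if_neg h'] at heq'
          exact Prod.ext heq' ((he1.2.resolve_left h).trans (he1'.2.resolve_left h').symm)
    omega
  have hrig := Pool.Agent.TH912.Rig.two_bodies hp hX.1.1 hZ.1.1 (by
    intro U hU1 hU2 hU3
    have hsub : S \ (U.biUnion fun u => S.filter fun e => e.1 = u ∨ e.2 = u) ⊆
        Pool.Agent.TH912.Rig.bars G (X \ U) (Z \ U) := by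
      intro e he
      rw [Finset.mem_sdiff, Finset.mem_biUnion] at he
      have hbe := hSb e he.1
      rw [Pool.Agent.TH912.Rig.mem_bars, Finset.mem_sdiff, Finset.mem_sdiff]
      refine ⟨⟨hbe.1, fun h => he.2 ⟨e.1, h, Finset.mem_filter.2 ⟨he.1, Or.inl rfl⟩⟩⟩,
        ⟨hbe.2.1, fun h => he.2 ⟨e.2, h, Finset.mem_filter.2 ⟨he.1, Or.inr rfl⟩⟩⟩, hbe.2.2.1⟩
    have h1 := Finset.card_le_card hsub
    have h2 := Finset.le_card_sdiff (U.biUnion fun u => S.filter fun e => e.1 = u ∨ e.2 = u) S
    have h3 : (U.biUnion fun u => S.filter fun e => e.1 = u ∨ e.2 = u).card ≤ U.card * 2 :=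
      Finset.card_biUnion_le_card_mul _ _ _ (fun u _ => hkill u)
    have h4 : (4 - U.card).choose 2 ≤ 6 - U.card * 2 := by
      interval_cases U.card <;> decide
    omega)
  have hbig : Big G p (X ∪ Z) :=
    ⟨hrig, hX.1.2.trans (Finset.card_le_card Finset.subset_union_left)⟩
  have h1 := hX.2 _ hbig Finset.subset_union_left
  apply (hB _ _ h0).bar.2 X hX.1 hvX
  rw [← h1]
  exact Finset.mem_union_right _ hrZ

section main

variable [Fintype (Idx G p)]

theorem cls_twoFoldN (hp : Gen p) (hc : ClawFree G) (hK : CovN G p)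
    [Fintype (Quotient (tieRel hp G))] : TwoFold (cls hp G) := by
  classical
  intro v
  obtain ⟨A, B, hAB⟩ := member_twoN hp hc hK v
  have h : (univ.filter fun c => v ∈ cls hp G c) ⊆
      (univ.filter fun Z : Idx G p => v ∈ Z.1).image (Quotient.mk (tieRel hp G)) := by
    intro c hcc
    rw [Finset.mem_filter, mem_cls] at hcc
    obtain ⟨-, Z, hZ, hvZ⟩ := hcc
    exact Finset.mem_image.2 ⟨Z, Finset.mem_filter.2 ⟨Finset.mem_univ _, hvZ⟩, hZ⟩
  refine (Finset.card_le_card h).trans (Finset.card_image_le.trans ?_)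
  have h2 : ((univ.filter fun Z : Idx G p => v ∈ Z.1).image fun Z => Z.1) ⊆ {A, B} := by
    intro Z hZ
    rw [Finset.mem_image] at hZ
    obtain ⟨Z', hZ', rfl⟩ := hZ
    rw [Finset.mem_filter] at hZ'
    rw [Finset.mem_insert, Finset.mem_singleton]
    exact hAB Z'.1 Z'.2 hZ'.2
  rw [← Finset.card_image_of_injective _ (Subtype.val_injective : Function.Injective
    (fun Z : Idx G p => Z.1))]
  exact (Finset.card_le_card h2).trans Finset.card_le_two

theorem add_barsN (hp : MG p) (hc : ClawFree G) (hK : CovN G p) (n : ℕ) :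
    ∀ B : SimpleGraph V, B ≤ loose hp.toGen G → B.edgeSet.ncard = n →
      mo (bodies (cls hp.toGen G) ⊔ B) p + n ≤ mo (bodies (cls hp.toGen G)) p := by
  classical
  induction n with
  | zero =>
    intro B _ _
    exact mo_anti le_sup_left p
  | succ n ih =>
    intro B hB hn
    obtain ⟨e, he⟩ : B.edgeSet.Nonempty := by
      rw [← Set.ncard_pos (Set.toFinite _)]
      omega
    obtain ⟨v, r, hvr, huniq⟩ : ∃ v r, B.Adj v r ∧ ∀ w, B.Adj v w → w = r := by
      induction e using Sym2.ind with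
      | _ v0 r0 => exact exists_endN hp.toGen hc hK (fun u v h => loose_fbar _ (hB h)) he
    set B' := B.deleteEdges {s(v, r)} with hB'
    have hB'adj : ∀ a b, B'.Adj a b ↔ B.Adj a b ∧ s(a, b) ≠ s(v, r) := by
      intro a b
      rw [hB', SimpleGraph.deleteEdges_adj, Set.mem_singleton_iff]
    have hB'n : B'.edgeSet.ncard = n := by
      have hmem : s(v, r) ∈ B.edgeSet := hvr
      have h7 := Set.ncard_diff_singleton_add_one hmem (Set.toFinite _)
      rw [hB', SimpleGraph.edgeSet_deleteEdges]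
      omega
    have hB'le : B' ≤ B := fun a b h => ((hB'adj a b).1 h).1
    have h1 := ih B' (hB'le.trans hB) hB'n
    have h2 : bodies (cls hp.toGen G) ⊔ B =
        (bodies (cls hp.toGen G) ⊔ B') ⊔ SimpleGraph.edge v r := by
      rw [sup_assoc]
      congr 1
      ext a b
      rw [SimpleGraph.sup_adj, hB'adj, SimpleGraph.edge_adj]
      constructor
      · intro h
        by_cases h3 : s(a, b) = s(v, r)
        · right
          refine ⟨?_, h.ne⟩
          rw [Sym2.eq_iff] at h3
          exact h3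
        · exact Or.inl ⟨h, h3⟩
      · rintro (h | ⟨⟨rfl, rfl⟩ | ⟨rfl, rfl⟩, -⟩)
        · exact h.1
        · exact hvr
        · exact hvr.symm
    have hfb := loose_fbar _ (hB hvr)
    have hmax : ∀ v w, G.Adj v w → ∃ X, Max G p X ∧ v ∈ X := by
      intro v w hvw
      obtain ⟨X0, hvX0, hX0⟩ := hK v w hvw
      obtain ⟨X, hX, hXX⟩ := hX0.exists_max
      exact ⟨X, hX, hXX hvX0⟩
    obtain ⟨X, hX, hvX⟩ := hmax v r hfb.1
    obtain ⟨Z, hZ, hrZ⟩ := hmax r v hfb.1.symm
    let iv : Idx G p := ⟨X, Or.inl hX⟩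
    let ir : Idx G p := ⟨Z, Or.inl hZ⟩
    let c := Quotient.mk (tieRel hp.toGen G) iv
    let d := Quotient.mk (tieRel hp.toGen G) ir
    have hone : ∀ (a b : V) (W : Finset V) (hW : Max G p W), a ∈ W → FBar G p a b →
        ∀ c', a ∈ cls hp.toGen G c' → c' = Quotient.mk (tieRel hp.toGen G) ⟨W, Or.inl hW⟩ := by
      intro a b W hW haW hab c' hac'
      rw [mem_cls] at hac'
      obtain ⟨U, hU, haU⟩ := hac'
      have h3 := fbar_one hp.toGen hc hW haW hab U.1 U.2 haU
      rw [← hU]
      congr 1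
      exact Subtype.ext h3
    have hvc : v ∈ cls hp.toGen G c := sub_cls hp.toGen iv hvX
    have hrd : r ∈ cls hp.toGen G d := sub_cls hp.toGen ir hrZ
    have hcd : c ≠ d := by
      intro h
      exact (hB hvr).2 ⟨c, hvc, h ▸ hrd⟩
    have hrc : r ∉ cls hp.toGen G c := by
      intro h
      exact hcd (hone r v Z hZ hrZ hfb.symm c h)
    have hcl : ∀ c' : Quotient (tieRel hp.toGen G), ∀ a ∈ cls hp.toGen G c',
        ∀ b ∈ cls hp.toGen G c', a ≠ b → (bodies (cls hp.toGen G) ⊔ B').Adj a b :=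
      fun c' a ha b hb hab => Or.inl ⟨hab, c', ha, hb⟩
    -- the other bar at `r`
    obtain ⟨s, hs⟩ : ∃ s, ∀ w, B'.Adj r w → w = s := by
      by_cases h3 : ∃ s, B'.Adj r s
      · obtain ⟨s, hs⟩ := h3
        refine ⟨s, fun w hw => ?_⟩
        by_contra hne
        have hsv : s ≠ v := by
          rintro rfl
          exact ((hB'adj _ _).1 hs).2 Sym2.eq_swap
        have hwv : w ≠ v := by
          rintro rfl
          exact ((hB'adj _ _).1 hw).2 Sym2.eq_swap
        obtain ⟨g1, -, g3⟩ := bar_facts hp.toGen hc hZ hrZ hfb.symm.bar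
        have h4 : ({v, s, w} : Finset V) ⊆ out G Z r := by
          intro x hx
          rw [Finset.mem_insert, Finset.mem_insert, Finset.mem_singleton] at hx
          rcases hx with rfl | rfl | rfl
          · exact (g3 _).1 hfb.symm.bar
          · exact (g3 _).1 (loose_fbar _ (hB (hB'le hs))).bar
          · exact (g3 _).1 (loose_fbar _ (hB (hB'le hw))).bar
        have h5 := Finset.card_le_card h4
        rw [Finset.card_eq_three.2 ⟨v, s, w, hsv.symm, hwv.symm, Ne.symm hne, rfl⟩] at h5
        omega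
      · push Not at h3
        exact ⟨v, fun w hw => absurd hw (h3 w)⟩
    -- a relative motion
    have hnt : ¬ Tied G p (X ∪ Z) := fun h => hcd (Quotient.sound h)
    unfold Tied at hnt
    push Not at hnt
    obtain ⟨q, hq, hqn⟩ := hnt
    obtain ⟨A1, b1, hA1, hb1⟩ := cls_tied hp.toGen c q hq
    obtain ⟨A2, b2, hA2, hb2⟩ := cls_tied hp.toGen d q hq
    have h3 := bar_add hp (H := bodies (cls hp.toGen G) ⊔ B') (X := cls hp.toGen G c)
      (Z := cls hp.toGen G d) (v := v) (r := r) (s := s) hvc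
      (hX.1.2.trans (Finset.card_le_card (sub_cls hp.toGen iv))) (hcl c)
      (by
        rintro w (⟨-, c', h4, h5⟩ | h4)
        · have h6 : c' = c := hone v r X hX hvX hfb c' h4
          rw [← h6]
          exact h5
        · exfalso
          have h5 := huniq w (hB'le h4)
          exact ((hB'adj _ _).1 h4).2 (by rw [h5])) hrd
      (hZ.1.2.trans (Finset.card_le_card (sub_cls hp.toGen ir))) (hcl d) hrc
      (by
        rintro w (⟨-, c', h4, h5⟩ | h4)
        · have h6 : c' = d := hone r v Z hZ hrZ hfb.symm c' h4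
          refine Or.inl ?_
          rw [← h6]
          exact h5
        · exact Or.inr (hs w h4))
      (q0 := q - fun v => A2 *ᵥ p v + b2)
      (Submodule.sub_mem _ (mot_anti (sup_le_sup_left (hB'le.trans hB) _) p
        ((mot_eq hp.toGen (G := G)) ▸ hq)) (triv_mot _ p hA2 b2))
      (fun z hz => by rw [Pi.sub_apply, hb2 z hz, sub_self])
      (by
        by_contra hcon
        push Not at hcon
        obtain ⟨e1, e2⟩ := triv_unique hp.toGen (S := cls hp.toGen G c)
          (by
            have h4 : 4 ≤ (cls hp.toGen G c).card :=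
              hX.1.2.trans (Finset.card_le_card (sub_cls hp.toGen iv))
            omega) hA1 hA2 (b := b1) (b' := b2) (by
            intro w hw
            have h4 := hcon w hw
            rw [Pi.sub_apply, sub_eq_zero] at h4
            rw [← hb1 w hw]
            exact h4)
        obtain ⟨w, hw, hw'⟩ := hqn A1 b1 hA1
        apply hw'
        rw [Finset.mem_union] at hw
        rcases hw with hw | hw
        · exact hb1 w (sub_cls hp.toGen iv hw)
        · rw [e1, e2]
          exact hb2 w (sub_cls hp.toGen ir hw))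
    rw [h2]
    omega

omit [DecidableRel G.Adj] [Fintype (Idx G p)] in
/-- **The lower bound**: some two-fold family attains the rank. -/
theorem attainS {ι : Type} [Fintype ι] [DecidableEq ι] {X : ι → Finset V} (h : TwoFold X) :
    ∃ (C : Type) (_ : Fintype C) (_ : DecidableEq C) (Y : C → Finset V), TwoFold Y ∧
      Covers Y (bodies X) ∧ (∀ i, ∃ c, X i ⊆ Y c) ∧
      2 * genRank 3 (bodies X) + ∑ q ∈ (univ : Finset C).offDiag, rho (Y q.1 ∩ Y q.2).card =
        2 * ∑ c, rho (Y c).card := by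
  classical
  obtain ⟨σ, τ, h1, h2, h3⟩ := exists_st h
  refine ⟨Quotient (rigRel σ τ (univ : Finset V)), inferInstance, inferInstance,
    fun c => jt (qs (rigRel σ τ univ) σ) (qs (rigRel σ τ univ) τ) c, twoFold_jt _ _, ?_, ?_, ?_⟩
  · rintro u v ⟨-, i, hu, hv⟩
    refine ⟨Quotient.mk (rigRel σ τ univ) (.inl i), ?_, ?_⟩
    · rw [mem_jt]
      rw [h1] at hu
      exact hu.imp (fun h => congrArg _ h) (fun h => congrArg _ h)
    · rw [mem_jt]
      rw [h1] at hv
      exact hv.imp (fun h => congrArg _ h) (fun h => congrArg _ h)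
  · intro i
    refine ⟨Quotient.mk (rigRel σ τ univ) (.inl i), ?_⟩
    intro v hv
    rw [mem_jt]
    rw [h1] at hv
    exact hv.imp (fun h => congrArg _ h) (fun h => congrArg _ h)
  · have h4 := rank_eq σ τ h3 (bodies X) ?_ ?_
    · rw [R2_eq_inter] at h4
      exact h4
    · intro u v huv hc
      refine ⟨huv, ?_⟩
      have h5 : ∀ c : ι ⊕ (V × Bool), (σ u = c ∨ τ u = c) → (σ v = c ∨ τ v = c) →
          ∃ i, u ∈ X i ∧ v ∈ X i := by
        intro c hu hv
        rcases c with i | w
        · exact ⟨i, (h1 u i).2 hu, (h1 v i).2 hv⟩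
        · exact absurd ((h2 u w hu).trans (h2 v w hv).symm) huv
      rcases hc with hc | hc | hc | hc
      · exact h5 _ (Or.inl rfl) (Or.inl hc.symm)
      · exact h5 _ (Or.inl rfl) (Or.inr hc.symm)
      · exact h5 _ (Or.inr rfl) (Or.inl hc.symm)
      · exact h5 _ (Or.inr rfl) (Or.inr hc.symm)
    · rintro u v ⟨-, i, hu, hv⟩
      rw [h1] at hu hv
      rcases hu with hu | hu <;> rcases hv with hv | hv
      · exact Or.inl (hu.trans hv.symm)
      · exact Or.inr (Or.inl (hu.trans hv.symm))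
      · exact Or.inr (Or.inr (Or.inl (hu.trans hv.symm)))
      · exact Or.inr (Or.inr (Or.inr (hu.trans hv.symm)))

theorem claw_rankN (hp : MG p) (hc : ClawFree G) (hK : CovN G p) :
    ∃ (F : Finset (Sym2 V)) (C : Type) (_ : Fintype C) (_ : DecidableEq C) (Y : C → Finset V),
      TwoFold Y ∧ Covers Y (G.deleteEdges (↑F : Set (Sym2 V))) ∧
      (∀ Z, Big G p Z → ∃ c, Z ⊆ Y c) ∧
      2 * genRank 3 G + ∑ q ∈ (univ : Finset C).offDiag, rho (Y q.1 ∩ Y q.2).card =
        2 * F.card + 2 * ∑ c, rho (Y c).card := by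
  classical
  letI : Fintype (Quotient (tieRel hp.toGen G)) := Fintype.ofFinite _
  obtain ⟨C, h1, h2, Y, hY1, hY2, hY0, hY3⟩ := attainS (cls_twoFoldN hp.toGen hc hK)
  refine ⟨(loose hp.toGen G).edgeFinset, C, h1, h2, Y, hY1, ?_, ?_, ?_⟩
  · intro u v huv
    rw [SimpleGraph.deleteEdges_adj, SimpleGraph.coe_edgeFinset, SimpleGraph.mem_edgeSet] at huv
    apply hY2 u v
    refine ⟨huv.1.ne, ?_⟩
    by_contra hn
    exact huv.2 ⟨huv.1, hn⟩
  · intro Z hZ
    obtain ⟨Z', hZ', hs⟩ := hZ.exists_max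
    obtain ⟨c, hc'⟩ := hY0 (Quotient.mk (tieRel hp.toGen G) ⟨Z', Or.inl hZ'⟩)
    exact ⟨c, hs.trans ((sub_cls hp.toGen ⟨Z', Or.inl hZ'⟩).trans hc')⟩
  · apply le_antisymm
    · apply upperF hY1
      intro u v huv
      rw [SimpleGraph.deleteEdges_adj, SimpleGraph.coe_edgeFinset, SimpleGraph.mem_edgeSet] at huv
      apply hY2 u v
      refine ⟨huv.1.ne, ?_⟩
      by_contra hn
      exact huv.2 ⟨huv.1, hn⟩
    · have e1 := add_barsN hp hc hK _ (loose hp.toGen G) le_rfl rfl
      have e2 : mo G p = mo (bodies (cls hp.toGen G) ⊔ loose hp.toGen G) p := by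
        unfold mo
        rw [mot_eq hp.toGen]
      have e3 := genRank_add hp G
      have e4 := genRank_add hp (bodies (cls hp.toGen G))
      have e5 : (loose hp.toGen G).edgeSet.ncard = (loose hp.toGen G).edgeFinset.card := by
        rw [← SimpleGraph.coe_edgeFinset, Set.ncard_coe_finset]
      omega

end main

end Pool.Agent.Y647.RG
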