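import Mathlib

/-!
# A cubic form attached to two vectors on a cycle with five vertices
-/

set_option autoImplicit false

namespace Pool.Agent.Y647.RG

open Matrix Finset

/-- the quadratic form of `f` at `m` -/
def qf (f m : Fin 5 → ℝ) : ℝ :=
  f 0 * m 0 * m 1 + f 1 * m 1 * m 2 + f 2 * m 2 * m 3 + f 3 * m 3 * m 4 + f 4 * m 4 * m 0

/-- the linear form of `f` at `m` -/
def lf (f m : Fin 5 → ℝ) : ℝ :=
  f 0 * (m 0 + m 1) + f 1 * (m 1 + m 2) + f 2 * (m 2 + m 3) + f 3 * (m 3 + m 4) +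
    f 4 * (m 4 + m 0)

/-- the cubic form -/
def cf (f g m : Fin 5 → ℝ) : ℝ := qf f m * lf g m - qf g m * lf f m

/-- the linear combination with coefficients `δ` -/
def sf (δ m : Fin 5 → ℝ) : ℝ := δ 0 * m 0 + δ 1 * m 1 + δ 2 * m 2 + δ 3 * m 3 + δ 4 * m 4

theorem cf_all {f g δ : Fin 5 → ℝ} (hδ : δ 0 ≠ 0)
    (h : ∀ m, sf δ m ≠ 0 → cf f g m = 0) (m : Fin 5 → ℝ) : cf f g m = 0 := by
  by_cases hs : sf δ m = 0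
  · have key : ∀ k : ℝ, k ≠ 0 → cf f g ![m 0 + k, m 1, m 2, m 3, m 4] = 0 := by
      intro k hk
      apply h
      have h1 : sf δ ![m 0 + k, m 1, m 2, m 3, m 4] = sf δ m + δ 0 * k := by
        unfold sf
        simp only [Matrix.cons_val]
        ring
      rw [h1, hs, zero_add]
      exact mul_ne_zero hδ hk
    have h1 := key 1 (by norm_num)
    have h2 := key 2 (by norm_num)
    have h3 := key 3 (by norm_num)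
    have h4 := key 4 (by norm_num)
    unfold cf qf lf at h1 h2 h3 h4 ⊢
    simp only [Matrix.cons_val] at h1 h2 h3 h4
    linear_combination 4 * h1 - 6 * h2 + 4 * h3 - h4
  · exact h m hs

theorem minors {f g δ : Fin 5 → ℝ} (hδ : δ 0 ≠ 0)
    (h : ∀ m, sf δ m ≠ 0 → cf f g m = 0) : ∀ i j, f i * g j = g i * f j := by
  have hall := cf_all hδ h
  have a0 := hall ![1, 1, 0, 0, 0]
  have a1 := hall ![0, 1, 1, 0, 0]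
  have a2 := hall ![0, 0, 1, 1, 0]
  have a3 := hall ![0, 0, 0, 1, 1]
  have a4 := hall ![1, 0, 0, 0, 1]
  have b0 := hall ![1, -1, 0, 0, 0]
  have b1 := hall ![0, 1, -1, 0, 0]
  have b2 := hall ![0, 0, 1, -1, 0]
  have b3 := hall ![0, 0, 0, 1, -1]
  have b4 := hall ![-1, 0, 0, 0, 1]
  have c0 := hall ![1, 1, 1, 0, 0]
  have c1 := hall ![0, 1, 1, 1, 0]
  have c2 := hall ![0, 0, 1, 1, 1]
  have c3 := hall ![1, 0, 0, 1, 1]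
  unfold cf qf lf at a0 a1 a2 a3 a4 b0 b1 b2 b3 b4 c0 c1 c2 c3
  simp only [Matrix.cons_val] at a0 a1 a2 a3 a4 b0 b1 b2 b3 b4 c0 c1 c2 c3
  have m01 : f 0 * g 1 = g 0 * f 1 := by linarith
  have m12 : f 1 * g 2 = g 1 * f 2 := by linarith
  have m23 : f 2 * g 3 = g 2 * f 3 := by linarith
  have m34 : f 3 * g 4 = g 3 * f 4 := by linarith
  have m40 : f 4 * g 0 = g 4 * f 0 := by linarith
  have n0 : f 0 * g 2 - g 0 * f 2 = f 4 * g 1 - g 4 * f 1 := by linarith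
  have n1 : f 1 * g 3 - g 1 * f 3 = f 0 * g 2 - g 0 * f 2 := by linarith
  have n2 : f 2 * g 4 - g 2 * f 4 = f 1 * g 3 - g 1 * f 3 := by linarith
  have n3 : f 3 * g 0 - g 3 * f 0 = f 2 * g 4 - g 2 * f 4 := by linarith
  set n := f 1 * g 3 - g 1 * f 3 with hn
  have hz : n * n = 0 := by
    have h1 : (f 0 * g 2 - g 0 * f 2) * (f 1 * g 3 - g 1 * f 3) =
        (f 0 * g 1 - g 0 * f 1) * (f 2 * g 3 - g 2 * f 3) +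
        (f 0 * g 3 - g 0 * f 3) * (f 1 * g 2 - g 1 * f 2) := by ring
    rw [m01, m12, sub_self, sub_self, zero_mul, mul_zero, add_zero, ← n1, ← hn] at h1
    exact h1
  have hz' : n = 0 := mul_self_eq_zero.1 hz
  have k0 : f 0 * g 2 = g 0 * f 2 := by linarith
  have k1 : f 1 * g 3 = g 1 * f 3 := by linarith
  have k2 : f 2 * g 4 = g 2 * f 4 := by linarith
  have k3 : f 3 * g 0 = g 3 * f 0 := by linarith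
  have k4 : f 4 * g 1 = g 4 * f 1 := by linarith
  intro i j
  fin_cases i <;> fin_cases j <;>
    simp only [Fin.zero_eta, Fin.mk_one, Fin.reduceFinMk, Fin.isValue] <;> linarith

/-- the two scalar identities -/
theorem pent_alg {P Q : Fin 5 → Fin 3 → ℝ} {δ μ : Fin 5 → ℝ} {x w : Fin 3 → ℝ}
    (h0 : ∑ i, δ i = 0) (h1 : ∑ i, δ i • P i = 0)
    (hx : sf δ μ • x = ∑ i, (δ i * μ i) • P i) (hE : ∀ i, (x - P i) ⬝ᵥ (w - Q i) = 0)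
    (hs : ∀ i, (P i - P (i + 2)) ⬝ᵥ (Q i - Q (i + 2)) = 0) :
    qf (fun i => δ i * δ (i + 1) * ((P i - P (i + 1)) ⬝ᵥ (Q i - Q (i + 1)))) μ = 0 ∧
    lf (fun i => δ i * δ (i + 1) * ((P i - P (i + 1)) ⬝ᵥ (Q i - Q (i + 1)))) μ = 0 := by
  have hd : ∀ z : Fin 3 → ℝ, δ 0 * (P 0 ⬝ᵥ z) + δ 1 * (P 1 ⬝ᵥ z) + δ 2 * (P 2 ⬝ᵥ z) +
      δ 3 * (P 3 ⬝ᵥ z) + δ 4 * (P 4 ⬝ᵥ z) = 0 := by
    intro z
    have h2 : (∑ i, δ i • P i) ⬝ᵥ z = 0 := by rw [h1, zero_dotProduct]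
    rw [sum_dotProduct, Fin.sum_univ_five] at h2
    simpa only [smul_dotProduct, smul_eq_mul] using h2
  have hxz : ∀ z : Fin 3 → ℝ, sf δ μ * (x ⬝ᵥ z) = δ 0 * μ 0 * (P 0 ⬝ᵥ z) +
      δ 1 * μ 1 * (P 1 ⬝ᵥ z) + δ 2 * μ 2 * (P 2 ⬝ᵥ z) +
      δ 3 * μ 3 * (P 3 ⬝ᵥ z) + δ 4 * μ 4 * (P 4 ⬝ᵥ z) := by
    intro z
    have h2 : (sf δ μ • x) ⬝ᵥ z = (∑ i, (δ i * μ i) • P i) ⬝ᵥ z := by rw [hx]
    rw [sum_dotProduct, Fin.sum_univ_five] at h2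
    simpa only [smul_dotProduct, smul_eq_mul] using h2
  rw [Fin.sum_univ_five] at h0
  have e := hE
  simp only [sub_dotProduct, dotProduct_sub] at e hs
  have hsE : ∀ i, (δ 0 * μ 0 * (P 0 ⬝ᵥ w) + δ 1 * μ 1 * (P 1 ⬝ᵥ w) + δ 2 * μ 2 * (P 2 ⬝ᵥ w) +
      δ 3 * μ 3 * (P 3 ⬝ᵥ w) + δ 4 * μ 4 * (P 4 ⬝ᵥ w)) -
      (δ 0 * μ 0 * (P 0 ⬝ᵥ Q i) + δ 1 * μ 1 * (P 1 ⬝ᵥ Q i) + δ 2 * μ 2 * (P 2 ⬝ᵥ Q i) +
      δ 3 * μ 3 * (P 3 ⬝ᵥ Q i) + δ 4 * μ 4 * (P 4 ⬝ᵥ Q i)) -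
      sf δ μ * (P i ⬝ᵥ w - P i ⬝ᵥ Q i) = 0 := by
    intro i
    rw [← hxz, ← hxz]
    linear_combination sf δ μ * e i
  have s0 := hs 0
  have s1 := hs 1
  have s2 := hs 2
  have s3 := hs 3
  have s4 := hs 4
  have E0 := hsE 0
  have E1 := hsE 1
  have E2 := hsE 2
  have E3 := hsE 3
  have E4 := hsE 4
  have dw := hd w
  have d0 := hd (Q 0)
  have d1 := hd (Q 1)
  have d2 := hd (Q 2)
  have d3 := hd (Q 3)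
  have d4 := hd (Q 4)
  simp only [show (0 : Fin 5) + 2 = 2 from rfl, show (1 : Fin 5) + 2 = 3 from rfl,
    show (2 : Fin 5) + 2 = 4 from rfl, show (3 : Fin 5) + 2 = 0 from rfl,
    show (4 : Fin 5) + 2 = 1 from rfl] at s0 s1 s2 s3 s4
  unfold qf lf
  simp only [show (0 : Fin 5) + 1 = 1 from rfl, show (1 : Fin 5) + 1 = 2 from rfl,
    show (2 : Fin 5) + 1 = 3 from rfl, show (3 : Fin 5) + 1 = 4 from rfl,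
    show (4 : Fin 5) + 1 = 0 from rfl, sub_dotProduct, dotProduct_sub]
  unfold sf at E0 E1 E2 E3 E4
  constructor
  · linear_combination δ 0 * μ 0 * E0 + δ 1 * μ 1 * E1 + δ 2 * μ 2 * E2 + δ 3 * μ 3 * E3 +
      δ 4 * μ 4 * E4 - δ 0 * μ 0 * (δ 2 * μ 2) * s0 - δ 1 * μ 1 * (δ 3 * μ 3) * s1 -
      δ 2 * μ 2 * (δ 4 * μ 4) * s2 - δ 3 * μ 3 * (δ 0 * μ 0) * s3 - δ 4 * μ 4 * (δ 1 * μ 1) * s4
  · linear_combination δ 0 * E0 + δ 1 * E1 + δ 2 * E2 + δ 3 * E3 + δ 4 * E4 -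
      (δ 0 * μ 0 * (P 0 ⬝ᵥ w) + δ 1 * μ 1 * (P 1 ⬝ᵥ w) + δ 2 * μ 2 * (P 2 ⬝ᵥ w) +
        δ 3 * μ 3 * (P 3 ⬝ᵥ w) + δ 4 * μ 4 * (P 4 ⬝ᵥ w)) * h0 +
      (δ 0 * μ 0 + δ 1 * μ 1 + δ 2 * μ 2 + δ 3 * μ 3 + δ 4 * μ 4) * dw +
      (δ 0 * μ 0 * (P 0 ⬝ᵥ Q 0) + δ 1 * μ 1 * (P 1 ⬝ᵥ Q 1) + δ 2 * μ 2 * (P 2 ⬝ᵥ Q 2) +
        δ 3 * μ 3 * (P 3 ⬝ᵥ Q 3) + δ 4 * μ 4 * (P 4 ⬝ᵥ Q 4)) * h0 -
      δ 0 * μ 0 * d0 - δ 1 * μ 1 * d1 - δ 2 * μ 2 * d2 - δ 3 * μ 3 * d3 - δ 4 * μ 4 * d4 -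
      (δ 0 * (δ 2 * μ 2) + δ 0 * μ 0 * δ 2) * s0 - (δ 1 * (δ 3 * μ 3) + δ 1 * μ 1 * δ 3) * s1 -
      (δ 2 * (δ 4 * μ 4) + δ 2 * μ 2 * δ 4) * s2 - (δ 3 * (δ 0 * μ 0) + δ 3 * μ 3 * δ 0) * s3 -
      (δ 4 * (δ 1 * μ 1) + δ 4 * μ 4 * δ 1) * s4

end Pool.Agent.Y647.RG
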