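import Mathlib
import Pool.Agent.Y647.RG.Cubic
import Pool.Agent.Y647.RG.ClawAll

/-!
# A vertex whose neighbourhood contains a cycle with five vertices
-/

set_option autoImplicit false

namespace Pool.Agent.Y647.RG

open Matrix Finset Pool.Agent.H789R5 Pool.Agent.H283R2.DR

variable {V : Type} [Fintype V] [DecidableEq V] {p : V → Fin 3 → ℝ} {G : SimpleGraph V}

/-- the rate of the pair `b i`, `b (i + 1)` -/
noncomputable def rt (p q : V → Fin 3 → ℝ) (b : Fin 5 → V) (i : Fin 5) : ℝ :=
  (p (b i) - p (b (i + 1))) ⬝ᵥ (q (b i) - q (b (i + 1)))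

/-- an affine dependency of five points, without zero coefficients -/
theorem exists_dep (hp : MG p) {b : Fin 5 → V} (hb : Function.Injective b) :
    ∃ δ : Fin 5 → ℝ, ∑ i, δ i = 0 ∧ ∑ i, δ i • p (b i) = 0 ∧ ∀ i, δ i ≠ 0 := by
  have hdep : ¬ LinearIndependent ℝ (fun i : Fin 5 => ((p (b i), 1) : (Fin 3 → ℝ) × ℝ)) := by
    intro h
    have := h.fintype_card_le_finrank
    simp at this
  rw [Fintype.not_linearIndependent_iff] at hdep
  obtain ⟨g, hg, a0, ha0⟩ := hdep
  have l0 : ∑ i, g i = 0 := by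
    have := congrArg Prod.snd hg
    rw [Prod.snd_sum] at this
    simpa using this
  have l1 : ∑ i, g i • p (b i) = 0 := by
    have := congrArg Prod.fst hg
    rw [Prod.fst_sum] at this
    simpa using this
  refine ⟨g, l0, l1, ?_⟩
  intro i hi
  have h2 := hp.pos 4 (fun k => b (i.succAbove k)) (by norm_num)
    (hb.comp Fin.succAbove_right_injective)
  rw [affineIndependent_iff] at h2
  have h3 := h2 Finset.univ (fun k => g (i.succAbove k))
    (by rw [Fin.sum_univ_succAbove _ i, hi, zero_add] at l0; exact l0)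
    (by rw [Fin.sum_univ_succAbove _ i, hi, zero_smul, zero_add] at l1; exact l1)
  have hne : a0 ≠ i := fun h => ha0 (h ▸ hi)
  obtain ⟨k, hk⟩ := Fin.exists_succAbove_eq hne
  apply ha0
  rw [← hk]
  exact h3 k (Finset.mem_univ _)

theorem pent (hp : MG p) {G0 : SimpleGraph V} {v : V} (hiso : ∀ u, ¬ G0.Adj v u)
    {b : Fin 5 → V} (hb : Function.Injective b) (hvb : ∀ i, b i ≠ v)
    (hside : ∀ i, G0.Adj (b i) (b (i + 2))) {q q' : V → Fin 3 → ℝ} (hq : q ∈ Mot G0 p)
    (hq' : q' ∈ Mot G0 p) {i0 j0 : Fin 5}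
    (hij : rt p q b i0 * rt p q' b j0 ≠ rt p q' b i0 * rt p q b j0) :
    mo (G0 ⊔ star v (univ.image b)) p + 5 ≤ mo G0 p := by
  classical
  obtain ⟨δ, l0, l1, hδ⟩ := exists_dep hp hb
  set f : Fin 5 → ℝ := fun i => δ i * δ (i + 1) * rt p q b i with hf
  set g : Fin 5 → ℝ := fun i => δ i * δ (i + 1) * rt p q' b i with hg
  obtain ⟨μ, hs, hc⟩ : ∃ μ, sf δ μ ≠ 0 ∧ cf f g μ ≠ 0 := by
    by_contra hcon
    push Not at hcon
    have h1 := minors (hδ 0) hcon i0 j0
    apply hij
    rw [hf, hg] at h1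
    have h2 : (δ i0 * δ (i0 + 1)) * (δ j0 * δ (j0 + 1)) ≠ 0 :=
      mul_ne_zero (mul_ne_zero (hδ _) (hδ _)) (mul_ne_zero (hδ _) (hδ _))
    apply mul_left_cancel₀ h2
    linear_combination h1
  set x : Fin 3 → ℝ := (sf δ μ)⁻¹ • ∑ i, (δ i * μ i) • p (b i) with hx
  have hx' : sf δ μ • x = ∑ i, (δ i * μ i) • p (b i) := by
    rw [hx, smul_smul, mul_inv_cancel₀ hs, one_smul]
  set p' := Function.update p v x with hp'
  set K := G0 ⊔ star v (univ.image b) with hK
  have hmin := hp.min K p'
  have hpv : p' v = x := Function.update_self _ _ _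
  have hpo : ∀ w, w ≠ v → p' w = p w := fun w hw => Function.update_of_ne hw _ _
  have hM : ∀ s ∈ Mot K p', s ∈ Mot G0 p := by
    intro s hs
    rw [← mot_update hiso x]
    exact mot_anti le_sup_left p' hs
  let Φ : (Mot K p' × (Fin 3 → ℝ) × (ℝ × ℝ)) →ₗ[ℝ] Mot G0 p :=
    { toFun := fun a => ⟨a.1.1 + (a.2.2.1 • q + a.2.2.2 • q') + Pi.single v a.2.1, by
        refine Submodule.add_mem _ (Submodule.add_mem _ (hM _ a.1.2)
          (Submodule.add_mem _ (Submodule.smul_mem _ _ hq) (Submodule.smul_mem _ _ hq'))) ?_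
        rw [mem_mot]
        intro u w huw
        have hu : u ≠ v := by rintro rfl; exact hiso _ huw
        have hw : w ≠ v := by rintro rfl; exact hiso _ huw.symm
        rw [Pi.single_eq_of_ne hu, Pi.single_eq_of_ne hw]
        simp⟩
      map_add' := by
        intro a a'
        apply Subtype.ext
        simp only [Prod.fst_add, Prod.snd_add, Submodule.coe_add, add_smul,
          Pi.single_add]
        abel
      map_smul' := by
        intro c a
        apply Subtype.ext
        simp only [Prod.smul_fst, Prod.smul_snd, Submodule.coe_smul, smul_eq_mul,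
          RingHom.id_apply, smul_add, smul_smul, Pi.single_smul] }
  have hinj : Function.Injective Φ := by
    rw [injective_iff_map_eq_zero]
    rintro ⟨⟨s, hs⟩, y, t, t'⟩ h0
    have h1 : s + (t • q + t' • q') + Pi.single v y = 0 := congrArg Subtype.val h0
    set u : V → Fin 3 → ℝ := (t • q + t' • q') + Pi.single v y with hu
    have hus : u = -s := by
      rw [eq_neg_iff_add_eq_zero, hu]
      rw [← h1]
      abel
    have huK : IsMotion K p' u := by
      rw [← mem_mot, hus]
      exact Submodule.neg_mem _ hs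
    have hne : ∀ w, w ≠ v → u w = t • q w + t' • q' w := by
      intro w hw
      rw [hu, Pi.add_apply, Pi.single_eq_of_ne hw, add_zero]
      rfl
    have hE : ∀ i, (x - p (b i)) ⬝ᵥ (u v - (t • q (b i) + t' • q' (b i))) = 0 := by
      intro i
      have h2 := huK v (b i) (Or.inr ⟨(hvb i).symm, Or.inl ⟨rfl,
        Finset.mem_image_of_mem b (Finset.mem_univ i)⟩⟩)
      rwa [hpv, hpo _ (hvb i), hne _ (hvb i)] at h2
    have hrate : ∀ i j, (p (b i) - p (b j)) ⬝ᵥ
        ((t • q (b i) + t' • q' (b i)) - (t • q (b j) + t' • q' (b j))) =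
        t * ((p (b i) - p (b j)) ⬝ᵥ (q (b i) - q (b j))) +
        t' * ((p (b i) - p (b j)) ⬝ᵥ (q' (b i) - q' (b j))) := by
      intro i j
      have e1 : (t • q (b i) + t' • q' (b i)) - (t • q (b j) + t' • q' (b j)) =
          t • (q (b i) - q (b j)) + t' • (q' (b i) - q' (b j)) := by
        rw [smul_sub, smul_sub]
        abel
      rw [e1, dotProduct_add, dotProduct_smul, dotProduct_smul, smul_eq_mul, smul_eq_mul]
    have hsd : ∀ i, (p (b i) - p (b (i + 2))) ⬝ᵥ ((t • q (b i) + t' • q' (b i)) -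
        (t • q (b (i + 2)) + t' • q' (b (i + 2)))) = 0 := by
      intro i
      rw [hrate, (mem_mot G0 p q).1 hq _ _ (hside i), (mem_mot G0 p q').1 hq' _ _ (hside i)]
      ring
    obtain ⟨k1, k2⟩ := pent_alg (P := fun i => p (b i))
      (Q := fun i => t • q (b i) + t' • q' (b i)) (δ := δ) (μ := μ) (x := x) (w := u v)
      l0 l1 hx' hE hsd
    simp only [hrate] at k1 k2
    have c1 : t * qf f μ + t' * qf g μ = 0 := by
      rw [← k1, hf, hg]
      unfold qf rt
      ring
    have c2 : t * lf f μ + t' * lf g μ = 0 := by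
      rw [← k2, hf, hg]
      unfold lf rt
      ring
    have ht : t = 0 := by
      have h2 : t * cf f g μ = 0 := by
        unfold cf
        linear_combination lf g μ * c1 - qf g μ * c2
      exact (mul_eq_zero.1 h2).resolve_right hc
    have ht' : t' = 0 := by
      have h2 : t' * cf f g μ = 0 := by
        unfold cf
        linear_combination qf f μ * c2 - lf f μ * c1
      exact (mul_eq_zero.1 h2).resolve_right hc
    have hw : u v = 0 := by
      have hT : ({b 1, b 2, b 3} : Finset V).card = 3 := by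
        rw [Finset.card_eq_three]
        exact ⟨b 1, b 2, b 3, fun h => absurd (hb h) (by decide), fun h => absurd (hb h)
          (by decide), fun h => absurd (hb h) (by decide), rfl⟩
      have h0T : b 0 ∉ ({b 1, b 2, b 3} : Finset V) := by
        rw [Finset.mem_insert, Finset.mem_insert, Finset.mem_singleton]
        rintro (h | h | h)
        · exact absurd (hb h) (by decide)
        · exact absurd (hb h) (by decide)
        · exact absurd (hb h) (by decide)
      apply orth_li hT (lin_of_pos hp h0T (by omega))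
      have h3 : ∀ i, (x - p (b i)) ⬝ᵥ u v = 0 := by
        intro i
        have h4 := hE i
        rwa [ht, ht', zero_smul, zero_smul, add_zero, sub_zero] at h4
      intro z hz
      rw [Finset.mem_insert, Finset.mem_insert, Finset.mem_singleton] at hz
      have h4 : ∀ i, (p (b 0) - p (b i)) ⬝ᵥ u v = 0 := by
        intro i
        have e1 : p (b 0) - p (b i) = (x - p (b i)) - (x - p (b 0)) := by abel
        rw [e1, sub_dotProduct, h3, h3, sub_zero]
      rcases hz with rfl | rfl | rfl
      · exact h4 1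
      · exact h4 2
      · exact h4 3
    have hy : y = 0 := by
      have h2 : u v = y := by
        rw [hu, Pi.add_apply, Pi.single_eq_same, ht, ht', zero_smul, zero_smul]
        simp
      rw [← h2, hw]
    have hs0 : s = 0 := by
      have h2 : u = 0 := by
        rw [hu, hy, Pi.single_zero, ht, ht', zero_smul, zero_smul]
        simp
      rw [h2] at hus
      exact (neg_eq_zero.1 hus.symm)
    rw [Prod.mk_eq_zero, Prod.mk_eq_zero, Prod.mk_eq_zero]
    exact ⟨Subtype.ext hs0, hy, ht, ht'⟩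
  have hfr := LinearMap.finrank_le_finrank_of_injective hinj
  rw [Module.finrank_prod, Module.finrank_prod, Module.finrank_prod, Module.finrank_fin_fun,
    Module.finrank_self] at hfr
  have : mo K p' = Module.finrank ℝ (Mot K p') := rfl
  have : mo G0 p = Module.finrank ℝ (Mot G0 p) := rfl
  omega

/-- a motion with zero rates on a set is trivial there -/
theorem triv_of_rates (hp : Gen p) {N : Finset V} {q : V → Fin 3 → ℝ}
    (h : ∀ a ∈ N, ∀ c ∈ N, a ≠ c → (p a - p c) ⬝ᵥ (q a - q c) = 0) :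
    ∃ (A : Matrix (Fin 3) (Fin 3) ℝ) (b : Fin 3 → ℝ), Aᵀ = -A ∧ ∀ v ∈ N, q v = A *ᵥ p v + b := by
  obtain ⟨A, b, hA, hb⟩ := rigid_complete hp (⊤ : SimpleGraph V) N
    (fun a _ c _ hac => by rw [SimpleGraph.top_adj]; exact hac) q (by
      intro u hu w hw huw
      exact h u (by exact_mod_cast hu) w (by exact_mod_cast hw) huw.ne)
  exact ⟨A, b, hA, fun v hv => hb v (by exact_mod_cast hv)⟩

/-- a pair of neighbours which moves -/
theorem gain4 (hp : MG p) (G : SimpleGraph V) (v : V) {N : Finset V} (hN : N.card = 4)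
    (hNG : ∀ z ∈ N, G.Adj v z) {x y : V} (hx : x ∈ N) (hy : y ∈ N) {q : V → Fin 3 → ℝ}
    (hq : q ∈ Mot (G.deleteIncidenceSet v) p) (hr : (p x - p y) ⬝ᵥ (q x - q y) ≠ 0) :
    mo G p + 4 ≤ mo (G.deleteIncidenceSet v) p := by
  have hxy : x ≠ y := by
    rintro rfl
    apply hr
    simp
  have e1 := ext1 hp G v N hN hNG hx hy hxy
  have e3 : mo (G.deleteIncidenceSet v ⊔ SimpleGraph.edge x y) p + 1 ≤
      mo (G.deleteIncidenceSet v) p := by
    have h1 : Mot (G.deleteIncidenceSet v ⊔ SimpleGraph.edge x y) p <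
        Mot (G.deleteIncidenceSet v) p := by
      refine lt_of_le_of_ne (mot_anti le_sup_left p) ?_
      intro heq
      rw [← heq, mem_mot] at hq
      exact hr (hq x y (Or.inr (by
        rw [SimpleGraph.edge_adj]; exact ⟨Or.inl ⟨rfl, rfl⟩, hxy⟩)))
    exact Submodule.finrank_lt_finrank_of_lt h1
  omega

theorem deg4 (hp : MG p) (G : SimpleGraph V) (v : V) {N : Finset V} (hN : N.card = 4)
    (hNG : ∀ z ∈ N, G.Adj v z) :
    mo G p + 4 ≤ mo (G.deleteIncidenceSet v) p ∨ Tied G p N := by
  by_cases h : ∃ q ∈ Mot (G.deleteIncidenceSet v) p, ∃ x ∈ N, ∃ y ∈ N,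
      (p x - p y) ⬝ᵥ (q x - q y) ≠ 0
  · obtain ⟨q, hq, x, hx, y, hy, hr⟩ := h
    exact Or.inl (gain4 hp G v hN hNG hx hy hq hr)
  · right
    push Not at h
    intro q hq
    exact triv_of_rates hp.toGen (fun a ha c hc _ =>
      h q (mot_anti (G.deleteIncidenceSet_le v) p hq) a ha c hc)

theorem fin5_a : ∀ i j : Fin 5, i ≠ j → j = i + 1 ∨ j = i + 2 ∨ i = j + 1 ∨ i = j + 2 := by
  decide

theorem fin5_b : ∀ i : Fin 5, i ≠ i + 2 := by decide

theorem fin5_c : ∀ i : Fin 5, i + 1 ≠ i + 2 := by decide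

/-- sides and diagonals -/
theorem triv_of_rt (hp : Gen p) {b : Fin 5 → V} (hb : Function.Injective b)
    {q : V → Fin 3 → ℝ} (h1 : ∀ i, rt p q b i = 0)
    (h2 : ∀ i, (p (b i) - p (b (i + 2))) ⬝ᵥ (q (b i) - q (b (i + 2))) = 0) :
    ∃ (A : Matrix (Fin 3) (Fin 3) ℝ) (c : Fin 3 → ℝ), Aᵀ = -A ∧
      ∀ v ∈ univ.image b, q v = A *ᵥ p v + c := by
  apply triv_of_rates hp
  have hsy : ∀ x y : V, (p x - p y) ⬝ᵥ (q x - q y) = (p y - p x) ⬝ᵥ (q y - q x) := by
    intro x y
    rw [← neg_sub (p y), ← neg_sub (q y), neg_dotProduct_neg]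
  intro a ha c hc hac
  rw [Finset.mem_image] at ha hc
  obtain ⟨i, -, rfl⟩ := ha
  obtain ⟨j, -, rfl⟩ := hc
  have hij : i ≠ j := fun h => hac (congrArg b h)
  have h3 := fin5_a i j hij
  rcases h3 with rfl | rfl | rfl | rfl
  · exact h1 i
  · exact h2 i
  · rw [hsy]; exact h1 j
  · rw [hsy]; exact h2 j

theorem deg5 (hp : MG p) (G : SimpleGraph V) (v : V) {b : Fin 5 → V} (hb : Function.Injective b)
    (hN : ∀ w, G.Adj v w ↔ w ∈ univ.image b) (hside : ∀ i, G.Adj (b i) (b (i + 2))) :
    mo G p + 5 ≤ mo (G.deleteIncidenceSet v) p ∨ Tied G p (univ.image b) := by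
  classical
  set G0 := G.deleteIncidenceSet v with hG0
  have hG0' : ∀ a b, G0.Adj a b ↔ G.Adj a b ∧ a ≠ v ∧ b ≠ v := by
    intro a b
    rw [hG0, SimpleGraph.deleteIncidenceSet_adj]
  have hG0le : G0 ≤ G := fun a b h => ((hG0' a b).1 h).1
  have hiso : ∀ u, ¬ G0.Adj v u := del_isolated G v
  have hvb : ∀ i, b i ≠ v := fun i =>
    ((hN (b i)).2 (Finset.mem_image_of_mem b (Finset.mem_univ i))).ne.symm
  have hside0 : ∀ i, G0.Adj (b i) (b (i + 2)) := fun i => (hG0' _ _).2 ⟨hside i, hvb _, hvb _⟩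
  have hcard : (univ.image b).card = 5 := by
    rw [Finset.card_image_of_injective _ hb]
    simp
  by_cases hm : ∃ q ∈ Mot G0 p, ∃ q' ∈ Mot G0 p, ∃ i j,
      rt p q b i * rt p q' b j ≠ rt p q' b i * rt p q b j
  · left
    obtain ⟨q, hq, q', hq', i, j, hij⟩ := hm
    have h1 := pent hp hiso hb hvb hside0 hq hq' hij
    have h2 : G0 ⊔ star v (univ.image b) ≤ G := by
      intro x y hxy
      rcases hxy with h | ⟨-, ⟨rfl, h⟩ | ⟨rfl, h⟩⟩
      · exact hG0le h
      · exact (hN y).2 h
      · exact ((hN x).2 h).symm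
    have h3 := mo_anti h2 p
    omega
  · right
    push Not at hm
    by_contra hnt
    unfold Tied at hnt
    push Not at hnt
    obtain ⟨q, hq, hqn⟩ := hnt
    have hq0 : q ∈ Mot G0 p := mot_anti hG0le p hq
    have hsz : ∀ q' ∈ Mot G0 p, ∀ i,
        (p (b i) - p (b (i + 2))) ⬝ᵥ (q' (b i) - q' (b (i + 2))) = 0 :=
      fun q' hq' i => (mem_mot G0 p q').1 hq' _ _ (hside0 i)
    obtain ⟨i, hi⟩ : ∃ i, rt p q b i ≠ 0 := by
      by_contra hcon
      push Not at hcon
      obtain ⟨A, c, hA, hc⟩ := triv_of_rt hp.toGen hb hcon (hsz q hq0)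
      obtain ⟨w, hw, hw'⟩ := hqn A c hA
      exact hw' (hc w hw)
    have hi1 : b i ≠ b (i + 2) := fun h => fin5_b i (hb h)
    have hi2 : b (i + 1) ≠ b (i + 2) := fun h => fin5_c i (hb h)
    have e1 : mo G p + 4 ≤ mo G0 p := by
      refine gain4 hp G v (N := (univ.image b).erase (b (i + 2))) ?_ ?_ (x := b i)
        (y := b (i + 1)) ?_ ?_ hq0 hi
      · rw [Finset.card_erase_of_mem (Finset.mem_image_of_mem b (Finset.mem_univ _)), hcard]
      · intro z hz
        exact (hN z).2 (Finset.mem_of_mem_erase hz)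
      · exact Finset.mem_erase.2 ⟨hi1, Finset.mem_image_of_mem b (Finset.mem_univ _)⟩
      · exact Finset.mem_erase.2 ⟨hi2, Finset.mem_image_of_mem b (Finset.mem_univ _)⟩
    obtain ⟨T, hTN, hT⟩ := Finset.exists_subset_card_eq (s := univ.image b) (n := 3) (by omega)
    have hvT : v ∉ T := fun h => ((hN v).2 (hTN h)).ne rfl
    have e2 := dim_drop (Mot G0 p) (Mot G p) (fun z : T => ef p v z) (by
      intro q' hq' h
      set t : ℝ := rt p q' b i / rt p q b i with ht
      obtain ⟨A, c, hA, hc⟩ := triv_of_rt hp.toGen hb (q := q' - t • q) (by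
        intro j
        have h1 := hm q hq0 q' hq' i j
        have h2 : rt p (q' - t • q) b j = rt p q' b j - t * rt p q b j := by
          unfold rt
          simp only [Pi.sub_apply, Pi.smul_apply, sub_dotProduct, dotProduct_sub,
            dotProduct_smul, smul_eq_mul]
          ring
        rw [h2, ht]
        field_simp
        linear_combination h1) (hsz _ (Submodule.sub_mem _ hq' (Submodule.smul_mem _ _ hq0)))
      set r : V → Fin 3 → ℝ := q' - t • q - fun w => A *ᵥ p w + c with hr
      have hrN : ∀ w, G.Adj v w → r w = 0 := by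
        intro w hw
        rw [hr, Pi.sub_apply, hc w ((hN w).1 hw), sub_self]
      have hs : t • q + (fun w => A *ᵥ p w + c) ∈ Mot G p :=
        Submodule.add_mem _ (Submodule.smul_mem _ _ hq) (triv_mot G p hA c)
      have hq'e : q' = r + (t • q + fun w => A *ᵥ p w + c) := by
        rw [hr]
        abel
      have hr0 : r ∈ Mot G0 p := by
        rw [hr]
        exact Submodule.sub_mem _ (Submodule.sub_mem _ hq' (Submodule.smul_mem _ _ hq0))
          (triv_mot G0 p hA c)
      have hrv : r v = 0 := by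
        apply orth_li hT (lin_of_pos hp hvT (by omega))
        intro z hz
        have hvz : G.Adj v z := (hN z).2 (hTN hz)
        have h1 : (p v - p z) ⬝ᵥ (q' v - q' z) = 0 := h ⟨z, hz⟩
        have h2 := (mem_mot G p _).1 hs v z hvz
        have h3 : r v = (q' v - q' z) - ((t • q + fun w => A *ᵥ p w + c) v -
            (t • q + fun w => A *ᵥ p w + c) z) := by
          have h4 := hrN z hvz
          have h5 : q' v = r v + (t • q + fun w => A *ᵥ p w + c) v := congrFun hq'e v
          have h6 : q' z = r z + (t • q + fun w => A *ᵥ p w + c) z := congrFun hq'e z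
          rw [h5, h6, h4]
          abel
        rw [h3, dotProduct_sub, h1, h2, sub_zero]
      rw [hq'e]
      refine Submodule.add_mem _ ?_ hs
      rw [mem_mot] at hr0 ⊢
      intro x y hxy
      by_cases hx : x = v
      · subst hx
        rw [hrv, hrN y hxy]
        simp
      · by_cases hy : y = v
        · subst hy
          rw [hrv, hrN x hxy.symm]
          simp
        · exact hr0 x y ((hG0' x y).2 ⟨hxy, hx, hy⟩))
    rw [Fintype.card_coe, hT] at e2
    have : mo G0 p = Module.finrank ℝ (Mot G0 p) := rfl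
    have : mo G p = Module.finrank ℝ (Mot G p) := rfl
    omega

end Pool.Agent.Y647.RG
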