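import Mathlib
import Pool.Agent.Y647.RG.ClawNI
import Pool.Agent.Y647.RG.Pent

/-!
# The rank of all claw-free graphs

A vertex in no large rigid set has at most five neighbours. It is either deleted with its edges, or
its neighbourhood is completed and the vertex is deleted.
-/

set_option autoImplicit false
set_option linter.unusedSectionVars false

namespace Pool.Agent.Y647.RG

open Matrix Finset Pool.Agent.W824.BJ Pool.Agent.H789R5 Pool.Agent.H283R2.DR

variable {V : Type} [Fintype V] [DecidableEq V] {p : V → Fin 3 → ℝ} {G : SimpleGraph V}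

/-- the rank formula holds with a family which respects the large rigid sets -/
def Att (G : SimpleGraph V) (p : V → Fin 3 → ℝ) : Prop :=
  ∃ (F : Finset (Sym2 V)) (C : Type) (_ : Fintype C) (_ : DecidableEq C) (Y : C → Finset V),
    TwoFold Y ∧ Covers Y (G.deleteEdges (↑F : Set (Sym2 V))) ∧
    (∀ Z, Big G p Z → ∃ c, Z ⊆ Y c) ∧
    2 * genRank 3 G + ∑ q ∈ (univ : Finset C).offDiag, rho (Y q.1 ∩ Y q.2).card =
      2 * F.card + 2 * ∑ c, rho (Y c).card

theorem Big.transfer {H : SimpleGraph V} {Z : Finset V} (h : Big G p Z)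
    (hs : ∀ a ∈ Z, ∀ b ∈ Z, G.Adj a b → H.Adj a b) : Big H p Z := by
  refine ⟨fun q hq => h.1 q ?_, h.2⟩
  intro u hu w hw huw
  exact hq u hu w hw (hs u (by exact_mod_cast hu) w (by exact_mod_cast hw) huw)

/-- deleting a vertex whose edges are independent of the rest -/
theorem stepA (hp : MG p) {v : V} (hv : ∀ Z, Big G p Z → v ∉ Z) {N : Finset V}
    (hN : ∀ w, G.Adj v w ↔ w ∈ N) (hm : mo G p + N.card ≤ mo (G.deleteIncidenceSet v) p)
    (h : Att (G.deleteIncidenceSet v) p) : Att G p := by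
  obtain ⟨F, C, i1, i2, Y, h1, h2, h3, h4⟩ := h
  have hcov : Covers Y (G.deleteEdges (↑(F ∪ N.image fun w => s(v, w)) : Set (Sym2 V))) := by
    intro u w huw
    rw [SimpleGraph.deleteEdges_adj, Finset.mem_coe, Finset.mem_union, not_or] at huw
    obtain ⟨g1, g2, g3⟩ := huw
    apply h2 u w
    rw [SimpleGraph.deleteEdges_adj, SimpleGraph.deleteIncidenceSet_adj]
    refine ⟨⟨g1, ?_, ?_⟩, fun h => g2 (by exact_mod_cast h)⟩
    · rintro rfl
      exact g3 (Finset.mem_image.2 ⟨w, (hN w).1 g1, rfl⟩)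
    · rintro rfl
      exact g3 (Finset.mem_image.2 ⟨u, (hN u).1 g1.symm, Sym2.eq_swap⟩)
  refine ⟨F ∪ N.image fun w => s(v, w), C, i1, i2, Y, h1, hcov, ?_, ?_⟩
  · intro Z hZ
    apply h3 Z
    apply hZ.transfer
    intro a ha b hb hab
    rw [SimpleGraph.deleteIncidenceSet_adj]
    exact ⟨hab, fun h => hv Z hZ (h ▸ ha), fun h => hv Z hZ (h ▸ hb)⟩
  · apply le_antisymm
    · exact upperF h1 hcov
    · have e1 := genRank_add hp G
      have e2 := genRank_add hp (G.deleteIncidenceSet v)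
      have e3 := Finset.card_union_le F (N.image fun w => s(v, w))
      have e4 : (N.image fun w => s(v, w)).card ≤ N.card := Finset.card_image_le
      omega

theorem rho_step {m n : ℕ} (h : m ≤ n) : rho (m + 1) + rho n ≤ rho m + rho (n + 1) := by
  unfold rho
  split_ifs <;> omega

theorem rho_mono {m n : ℕ} (h : m ≤ n) : rho m ≤ rho n := by
  unfold rho
  split_ifs <;> omega

/-- erasing a vertex from all members of a two-fold family -/
theorem erase_le {C : Type} [Fintype C] [DecidableEq C] {Y : C → Finset V} (h : TwoFold Y)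
    (v : V) :
    2 * ∑ c, rho ((Y c).erase v).card +
      ∑ q ∈ (univ : Finset C).offDiag, rho (Y q.1 ∩ Y q.2).card ≤
    2 * ∑ c, rho (Y c).card +
      ∑ q ∈ (univ : Finset C).offDiag, rho ((Y q.1).erase v ∩ (Y q.2).erase v).card := by
  set D : C → ℕ := fun c => rho (Y c).card - rho ((Y c).erase v).card with hD
  have hD' : ∀ c, rho (Y c).card = rho ((Y c).erase v).card + D c := by
    intro c
    have := rho_mono (Finset.card_le_card (Finset.erase_subset v (Y c)))
    rw [hD]
    show _ = rho ((Y c).erase v).card + (rho (Y c).card - rho ((Y c).erase v).card)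
    omega
  have e1 : ∑ c, rho (Y c).card = ∑ c, rho ((Y c).erase v).card + ∑ c, D c := by
    rw [← Finset.sum_add_distrib]
    exact Finset.sum_congr rfl fun c _ => hD' c
  have e2 : ∑ q ∈ (univ : Finset C).offDiag, rho (Y q.1 ∩ Y q.2).card ≤
      ∑ q ∈ (univ : Finset C).offDiag, rho ((Y q.1).erase v ∩ (Y q.2).erase v).card +
      ∑ q ∈ (univ : Finset C).offDiag, (if v ∈ Y q.1 ∧ v ∈ Y q.2 then D q.1 else 0) := by
    rw [← Finset.sum_add_distrib]
    apply Finset.sum_le_sum
    intro q _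
    by_cases hv : v ∈ Y q.1 ∧ v ∈ Y q.2
    · rw [if_pos hv]
      have g1 : (Y q.1).erase v ∩ (Y q.2).erase v = (Y q.1 ∩ Y q.2).erase v := by
        ext w
        simp only [Finset.mem_inter, Finset.mem_erase]
        tauto
      have g2 : (Y q.1 ∩ Y q.2).card = ((Y q.1 ∩ Y q.2).erase v).card + 1 :=
        (Finset.card_erase_add_one (Finset.mem_inter.2 hv)).symm
      have g3 : (Y q.1).card = ((Y q.1).erase v).card + 1 :=
        (Finset.card_erase_add_one hv.1).symm
      have g4 : ((Y q.1 ∩ Y q.2).erase v).card ≤ ((Y q.1).erase v).card :=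
        Finset.card_le_card (Finset.erase_subset_erase _ Finset.inter_subset_left)
      have g5 := rho_step g4
      have g6 := hD' q.1
      rw [g1, g2]
      rw [g3] at g6
      omega
    · rw [if_neg hv]
      have g1 : Y q.1 ∩ Y q.2 = (Y q.1).erase v ∩ (Y q.2).erase v := by
        ext w
        simp only [Finset.mem_inter, Finset.mem_erase]
        constructor
        · rintro ⟨k1, k2⟩
          have : w ≠ v := by
            rintro rfl
            exact hv ⟨k1, k2⟩
          exact ⟨⟨this, k1⟩, this, k2⟩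
        · rintro ⟨k1, k2⟩
          exact ⟨k1.2, k2.2⟩
      rw [add_zero, ← g1]
  have e3 : ∑ q ∈ (univ : Finset C).offDiag, (if v ∈ Y q.1 ∧ v ∈ Y q.2 then D q.1 else 0) ≤
      ∑ c, D c := by
    rw [← Finset.sum_filter]
    rw [← Finset.sum_image (f := D) (g := Prod.fst)
      (s := ((univ : Finset C).offDiag).filter fun q => v ∈ Y q.1 ∧ v ∈ Y q.2)]
    · exact Finset.sum_le_sum_of_subset (Finset.subset_univ _)
    · rintro ⟨a, b⟩ hab ⟨a', b'⟩ hab' heq
      have heq' : a = a' := heq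
      subst heq'
      rw [Finset.mem_coe, Finset.mem_filter, Finset.mem_offDiag] at hab hab'
      by_contra hne
      have hbb : b ≠ b' := fun h => hne (by rw [h])
      have k1 : ({a, b, b'} : Finset C) ⊆ univ.filter fun c => v ∈ Y c := by
        intro c hc
        rw [Finset.mem_insert, Finset.mem_insert, Finset.mem_singleton] at hc
        rw [Finset.mem_filter]
        rcases hc with rfl | rfl | rfl
        · exact ⟨Finset.mem_univ _, hab.2.1⟩
        · exact ⟨Finset.mem_univ _, hab.2.2⟩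
        · exact ⟨Finset.mem_univ _, hab'.2.2⟩
      have k2 := Finset.card_le_card k1
      rw [Finset.card_eq_three.2 ⟨a, b, b', hab.1.2.2, hab'.1.2.2, hbb, rfl⟩] at k2
      have k3 := h v
      omega
  omega

/-- completing the neighbourhood of `v` and deleting `v` -/
def lc (G : SimpleGraph V) (v : V) (N : Finset V) : SimpleGraph V where
  Adj a b := (G.Adj a b ∧ a ≠ v ∧ b ≠ v) ∨ (a ≠ b ∧ a ∈ N ∧ b ∈ N)
  symm := ⟨fun _ _ h => h.imp (fun h => ⟨h.1.symm, h.2.2, h.2.1⟩) (fun h => ⟨h.1.symm, h.2.2, h.2.1⟩)⟩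
  loopless := ⟨fun _ h => h.elim (fun h => h.1.ne rfl) (fun h => h.1 rfl)⟩

theorem stepB (hp : MG p) {v : V} (hv : ∀ Z, Big G p Z → v ∉ Z) {N : Finset V}
    (hN : ∀ w, G.Adj v w ↔ w ∈ N) (hN4 : 4 ≤ N.card) (hT : Tied G p N)
    (h : Att (lc G v N) p) : Att G p := by
  have hvN : v ∉ N := fun h => ((hN v).2 h).ne rfl
  -- the dimension count
  have hmo : mo G p + 3 ≤ mo (lc G v N) p := by
    obtain ⟨T, hTN, hT3⟩ := Finset.exists_subset_card_eq (s := N) (n := 3) (by omega)
    let Gc : SimpleGraph V := G ⊔ lc G v N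
    have e1 : Mot G p ≤ Mot Gc p := by
      intro q hq
      obtain ⟨A, b, hA, hb⟩ := hT q hq
      rw [mem_mot] at hq ⊢
      rintro x y (hxy | ⟨hxy, -, -⟩ | ⟨-, hx, hy⟩)
      · exact hq x y hxy
      · exact hq x y hxy
      · rw [hb x hx, hb y hy, add_sub_add_right_eq_sub, ← Matrix.mulVec_sub]
        exact skew_dot_self hA _
    have e2 : mo G p ≤ mo Gc p := Submodule.finrank_mono e1
    have e3 := Pool.Agent.H789R5.ext0 hp Gc v T (by omega) (fun z hz => Or.inl ((hN z).2 (hTN hz)))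
    have e4 : mo (Gc.deleteIncidenceSet v) p ≤ mo (lc G v N) p := by
      apply mo_anti
      intro a b hab
      rw [SimpleGraph.deleteIncidenceSet_adj]
      refine ⟨Or.inr hab, ?_, ?_⟩
      · rintro rfl
        rcases hab with h | h
        · exact h.2.1 rfl
        · exact hvN h.2.1
      · rintro rfl
        rcases hab with h | h
        · exact h.2.2 rfl
        · exact hvN h.2.2
    omega
  obtain ⟨F, C, i1, i2, Y, h1, h2, h3, h4⟩ := h
  set Y' : C → Finset V := fun c => (Y c).erase v with hY'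
  have hY'v : ∀ c, v ∉ Y' c := fun c => Finset.notMem_erase v (Y c)
  have hers := erase_le h1 v
  have hNbig : Big (lc G v N) p N :=
    ⟨rigid_complete hp.toGen _ N (fun a ha b hb hab => Or.inr ⟨hab, ha, hb⟩), hN4⟩
  obtain ⟨c0, hc0⟩ := h3 N hNbig
  have hc0' : N ⊆ Y' c0 := fun w hw => Finset.mem_erase.2 ⟨fun h => hvN (h ▸ hw), hc0 hw⟩
  set Z : C → Finset V := fun c => if c = c0 then insert v (Y' c) else Y' c with hZ
  have hZm : ∀ c u, u ≠ v → (u ∈ Z c ↔ u ∈ Y c) := by
    intro c u hu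
    rw [hZ]
    show u ∈ (if c = c0 then insert v (Y' c) else Y' c) ↔ _
    by_cases hc : c = c0
    · rw [if_pos hc, Finset.mem_insert, hY', Finset.mem_erase]
      constructor
      · rintro (h | h)
        · exact absurd h hu
        · exact h.2
      · intro h
        exact Or.inr ⟨hu, h⟩
    · rw [if_neg hc, hY', Finset.mem_erase]
      exact ⟨fun h => h.2, fun h => ⟨hu, h⟩⟩
  have hZv : ∀ c, v ∈ Z c ↔ c = c0 := by
    intro c
    rw [hZ]
    show v ∈ (if c = c0 then insert v (Y' c) else Y' c) ↔ _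
    by_cases hc : c = c0
    · rw [if_pos hc]
      exact ⟨fun _ => hc, fun _ => Finset.mem_insert_self _ _⟩
    · rw [if_neg hc]
      exact ⟨fun h => absurd h (hY'v c), fun h => absurd h hc⟩
  have hZ2 : TwoFold Z := by
    intro u
    by_cases hu : u = v
    · subst hu
      have : (univ.filter fun c => u ∈ Z c) ⊆ {c0} := by
        intro c hc
        rw [Finset.mem_filter, hZv] at hc
        exact Finset.mem_singleton.2 hc.2
      exact (Finset.card_le_card this).trans (by simp)
    · have : (univ.filter fun c => u ∈ Z c) = univ.filter fun c => u ∈ Y c := by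
        apply Finset.filter_congr
        intro c _
        exact hZm c u hu
      rw [this]
      exact h1 u
  have hcov : Covers Z (G.deleteEdges (↑F : Set (Sym2 V))) := by
    intro a b hab
    rw [SimpleGraph.deleteEdges_adj] at hab
    by_cases ha : a = v
    · subst ha
      have hb : b ∈ N := (hN b).1 hab.1
      exact ⟨c0, (hZv c0).2 rfl, (hZm c0 b hab.1.ne.symm).2 (hc0 hb)⟩
    · by_cases hb : b = v
      · subst hb
        have ha' : a ∈ N := (hN a).1 hab.1.symm
        exact ⟨c0, (hZm c0 a ha).2 (hc0 ha'), (hZv c0).2 rfl⟩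
      · obtain ⟨c, k1, k2⟩ := h2 a b (by
          rw [SimpleGraph.deleteEdges_adj]
          exact ⟨Or.inl ⟨hab.1, ha, hb⟩, hab.2⟩)
        exact ⟨c, (hZm c a ha).2 k1, (hZm c b hb).2 k2⟩
  refine ⟨F, C, i1, i2, Z, hZ2, hcov, ?_, ?_⟩
  · intro W hW
    obtain ⟨c, hc⟩ := h3 W (hW.transfer (fun a ha b hb hab =>
      Or.inl ⟨hab, fun h => hv W hW (h ▸ ha), fun h => hv W hW (h ▸ hb)⟩))
    refine ⟨c, fun w hw => (hZm c w ?_).2 (hc hw)⟩
    rintro rfl
    exact hv W hW hw
  · apply le_antisymm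
    · exact upperF hZ2 hcov
    · have s1 : ∑ q ∈ (univ : Finset C).offDiag, rho (Z q.1 ∩ Z q.2).card =
          ∑ q ∈ (univ : Finset C).offDiag, rho ((Y q.1).erase v ∩ (Y q.2).erase v).card := by
        apply Finset.sum_congr rfl
        intro q hq
        rw [Finset.mem_offDiag] at hq
        congr 2
        ext w
        rw [Finset.mem_inter, Finset.mem_inter, Finset.mem_erase, Finset.mem_erase]
        by_cases hw : w = v
        · subst hw
          rw [hZv, hZv]
          constructor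
          · rintro ⟨k1, k2⟩
            exact absurd (k1.trans k2.symm) hq.2.2
          · rintro ⟨k1, -⟩
            exact absurd rfl k1.1
        · rw [hZm _ w hw, hZm _ w hw]
          exact ⟨fun h => ⟨⟨hw, h.1⟩, hw, h.2⟩, fun h => ⟨h.1.2, h.2.2⟩⟩
      have s2 : ∑ c, rho (Z c).card ≤ ∑ c, rho ((Y c).erase v).card + 3 := by
        have s3 : ∀ c, rho (Z c).card ≤ rho ((Y c).erase v).card + if c = c0 then 3 else 0 := by
          intro c
          rw [hZ]
          show rho (if c = c0 then insert v (Y' c) else Y' c).card ≤ _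
          by_cases hc : c = c0
          · rw [if_pos hc, if_pos hc, Finset.card_insert_of_notMem (hY'v c)]
            have k1 : 4 ≤ (Y' c).card := hN4.trans (Finset.card_le_card (hc ▸ hc0'))
            have k2 : (Y' c).card = ((Y c).erase v).card := rfl
            rw [← k2]
            unfold rho
            split_ifs <;> omega
          · rw [if_neg hc, if_neg hc, add_zero]
        refine (Finset.sum_le_sum fun c _ => s3 c).trans ?_
        rw [Finset.sum_add_distrib, Finset.sum_ite_eq' univ c0, if_pos (Finset.mem_univ _)]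
      have e1 := genRank_add hp G
      have e2 := genRank_add hp (lc G v N)
      rw [s1]
      omega

theorem claw_del (hc : ClawFree G) (v : V) : ClawFree (G.deleteIncidenceSet v) := by
  intro u a b c ha hb hcc hab hac hbc
  rw [SimpleGraph.deleteIncidenceSet_adj] at ha hb hcc
  rw [SimpleGraph.deleteIncidenceSet_adj, SimpleGraph.deleteIncidenceSet_adj,
    SimpleGraph.deleteIncidenceSet_adj]
  rcases hc u a b c ha.1 hb.1 hcc.1 hab hac hbc with h | h | h
  · exact Or.inl ⟨h, ha.2.2, hb.2.2⟩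
  · exact Or.inr (Or.inl ⟨h, ha.2.2, hcc.2.2⟩)
  · exact Or.inr (Or.inr ⟨h, hb.2.2, hcc.2.2⟩)

theorem claw_lc (hc : ClawFree G) {v : V} {N : Finset V} (hN : ∀ w, G.Adj v w ↔ w ∈ N) :
    ClawFree (lc G v N) := by
  intro u a b c ha hb hcc hab hac hbc
  -- two of the three in `N`
  by_cases h1 : a ∈ N ∧ b ∈ N
  · exact Or.inl (Or.inr ⟨hab, h1.1, h1.2⟩)
  by_cases h2 : a ∈ N ∧ c ∈ N
  · exact Or.inr (Or.inl (Or.inr ⟨hac, h2.1, h2.2⟩))
  by_cases h3 : b ∈ N ∧ c ∈ N
  · exact Or.inr (Or.inr (Or.inr ⟨hbc, h3.1, h3.2⟩))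
  -- a new edge at `u`
  have key : ∀ x y z : V, u ∈ N → x ∉ N → y ∉ N → (lc G v N).Adj u x → (lc G v N).Adj u y →
      x ≠ y → (lc G v N).Adj x y := by
    intro x y _ hu hx hy hux huy hxy
    have hvu : G.Adj v u := (hN u).2 hu
    rcases hux with k1 | k1
    swap
    · exact absurd k1.2.2 hx
    rcases huy with k2 | k2
    swap
    · exact absurd k2.2.2 hy
    rcases hc u v x y hvu.symm k1.1 k2.1 k1.2.2.symm k2.2.2.symm hxy with k | k | k
    · exact absurd ((hN x).1 k) hx
    · exact absurd ((hN y).1 k) hy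
    · exact Or.inl ⟨k, k1.2.2, k2.2.2⟩
  by_cases hu : u ∈ N
  · by_cases ha' : a ∈ N
    · exact Or.inr (Or.inr (key b c a hu (fun h => h1 ⟨ha', h⟩) (fun h => h2 ⟨ha', h⟩) hb hcc hbc))
    · by_cases hb' : b ∈ N
      · exact Or.inr (Or.inl (key a c b hu ha' (fun h => h3 ⟨hb', h⟩) ha hcc hac))
      · exact Or.inl (key a b c hu ha' hb' ha hb hab)
  · have old : ∀ x, (lc G v N).Adj u x → G.Adj u x ∧ u ≠ v ∧ x ≠ v := by
      intro x hx
      rcases hx with h | h
      · exact h
      · exact absurd h.2.1 hu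
    have ha1 := old a ha
    have hb1 := old b hb
    have hc1 := old c hcc
    rcases hc u a b c ha1.1 hb1.1 hc1.1 hab hac hbc with h | h | h
    · exact Or.inl (Or.inl ⟨h, ha1.2.2, hb1.2.2⟩)
    · exact Or.inr (Or.inl (Or.inl ⟨h, ha1.2.2, hc1.2.2⟩))
    · exact Or.inr (Or.inr (Or.inl ⟨h, hb1.2.2, hc1.2.2⟩))

section ramsey

variable {N : Finset V}

theorem mk5 (hc : N.card = 5) {x0 x1 x2 x3 x4 : V} (m0 : x0 ∈ N) (m1 : x1 ∈ N) (m2 : x2 ∈ N)
    (m3 : x3 ∈ N) (m4 : x4 ∈ N) (h01 : G.Adj x0 x1) (h12 : G.Adj x1 x2) (h23 : G.Adj x2 x3)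
    (h34 : G.Adj x3 x4) (h40 : G.Adj x4 x0) (n02 : x0 ≠ x2) (n03 : x0 ≠ x3) (n13 : x1 ≠ x3)
    (n14 : x1 ≠ x4) (n24 : x2 ≠ x4) :
    ∃ b : Fin 5 → V, Function.Injective b ∧ univ.image b = N ∧ ∀ i, G.Adj (b i) (b (i + 2)) := by
  have n01 := h01.ne
  have n12 := h12.ne
  have n23 := h23.ne
  have n34 := h34.ne
  have n40 := h40.ne
  have hinj : Function.Injective (![x0, x3, x1, x4, x2] : Fin 5 → V) := by
    intro i j hij
    fin_cases i <;> fin_cases j <;> first | rfl | (exfalso; simp at hij; tauto)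
  refine ⟨![x0, x3, x1, x4, x2], hinj, ?_, ?_⟩
  · apply Finset.eq_of_subset_of_card_le
    · intro w hw
      rw [Finset.mem_image] at hw
      obtain ⟨i, -, rfl⟩ := hw
      fin_cases i <;> assumption
    · rw [hc, Finset.card_image_of_injective _ hinj]
      simp
  · intro i
    fin_cases i
    · exact h01
    · exact h34
    · exact h12
    · exact h40.symm.symm
    · exact h23

variable [DecidableRel G.Adj]

theorem nb2 (hT : ∀ a ∈ N, ∀ b ∈ N, ∀ c ∈ N, G.Adj a b → G.Adj a c → G.Adj b c → False)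
    (hI : ∀ a ∈ N, ∀ b ∈ N, ∀ c ∈ N, a ≠ b → a ≠ c → b ≠ c →
      G.Adj a b ∨ G.Adj a c ∨ G.Adj b c) {x : V} (hx : x ∈ N) :
    (N.filter fun y => G.Adj x y).card ≤ 2 := by
  by_contra hcon
  push Not at hcon
  obtain ⟨a, ha, b, hb, c, hc, hab, hac, hbc⟩ := Finset.two_lt_card.1 hcon
  rw [Finset.mem_filter] at ha hb hc
  rcases hI a ha.1 b hb.1 c hc.1 hab hac hbc with h | h | h
  · exact hT x hx a ha.1 b hb.1 ha.2 hb.2 h
  · exact hT x hx a ha.1 c hc.1 ha.2 hc.2 h
  · exact hT x hx b hb.1 c hc.1 hb.2 hc.2 h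

theorem nn2 (hT : ∀ a ∈ N, ∀ b ∈ N, ∀ c ∈ N, G.Adj a b → G.Adj a c → G.Adj b c → False)
    (hI : ∀ a ∈ N, ∀ b ∈ N, ∀ c ∈ N, a ≠ b → a ≠ c → b ≠ c →
      G.Adj a b ∨ G.Adj a c ∨ G.Adj b c) {x : V} (hx : x ∈ N) :
    (N.filter fun y => y ≠ x ∧ ¬ G.Adj x y).card ≤ 2 := by
  by_contra hcon
  push Not at hcon
  obtain ⟨a, ha, b, hb, c, hc, hab, hac, hbc⟩ := Finset.two_lt_card.1 hcon
  rw [Finset.mem_filter] at ha hb hc
  have key : ∀ y z, y ∈ N → z ∈ N → y ≠ x → z ≠ x → y ≠ z → ¬ G.Adj x y → ¬ G.Adj x z →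
      G.Adj y z := by
    intro y z hy hz hyx hzx hyz h1 h2
    rcases hI x hx y hy z hz hyx.symm hzx.symm hyz with h | h | h
    · exact absurd h h1
    · exact absurd h h2
    · exact h
  exact hT a ha.1 b hb.1 c hc.1 (key a b ha.1 hb.1 ha.2.1 hb.2.1 hab ha.2.2 hb.2.2)
    (key a c ha.1 hc.1 ha.2.1 hc.2.1 hac ha.2.2 hc.2.2)
    (key b c hb.1 hc.1 hb.2.1 hc.2.1 hbc hb.2.2 hc.2.2)

theorem split3 {x : V} (hx : x ∈ N) :
    N.card = 1 + (N.filter fun y => G.Adj x y).card +
      (N.filter fun y => y ≠ x ∧ ¬ G.Adj x y).card := by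
  have h1 : N = {x} ∪ (N.filter fun y => G.Adj x y) ∪
      (N.filter fun y => y ≠ x ∧ ¬ G.Adj x y) := by
    ext y
    simp only [Finset.mem_union, Finset.mem_singleton, Finset.mem_filter]
    constructor
    · intro hy
      by_cases h1 : y = x
      · exact Or.inl (Or.inl h1)
      · by_cases h2 : G.Adj x y
        · exact Or.inl (Or.inr ⟨hy, h2⟩)
        · exact Or.inr ⟨hy, h1, h2⟩
    · rintro ((rfl | h) | h)
      · exact hx
      · exact h.1
      · exact h.1
  have h2 : Disjoint ({x} : Finset V) (N.filter fun y => G.Adj x y) := by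
    rw [Finset.disjoint_singleton_left, Finset.mem_filter]
    exact fun h => h.2.ne rfl
  have h3 : Disjoint (({x} : Finset V) ∪ (N.filter fun y => G.Adj x y))
      (N.filter fun y => y ≠ x ∧ ¬ G.Adj x y) := by
    rw [Finset.disjoint_left]
    intro y hy hy'
    rw [Finset.mem_union, Finset.mem_singleton, Finset.mem_filter] at hy
    rw [Finset.mem_filter] at hy'
    rcases hy with h | h
    · exact hy'.2.1 h
    · exact hy'.2.2 h.2
  have h4 := congrArg Finset.card h1
  rw [Finset.card_union_of_disjoint h3, Finset.card_union_of_disjoint h2,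
    Finset.card_singleton] at h4
  exact h4

theorem card_le5 (hT : ∀ a ∈ N, ∀ b ∈ N, ∀ c ∈ N, G.Adj a b → G.Adj a c → G.Adj b c → False)
    (hI : ∀ a ∈ N, ∀ b ∈ N, ∀ c ∈ N, a ≠ b → a ≠ c → b ≠ c →
      G.Adj a b ∨ G.Adj a c ∨ G.Adj b c) : N.card ≤ 5 := by
  rcases N.eq_empty_or_nonempty with h | ⟨x, hx⟩
  · rw [h]; simp
  · have h1 : (N.filter fun y => G.Adj x y).card ≤ 2 := nb2 hT hI hx
    have h2 : (N.filter fun y => y ≠ x ∧ ¬ G.Adj x y).card ≤ 2 := nn2 hT hI hx
    have h3 : N.card = 1 + (N.filter fun y => G.Adj x y).card +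
      (N.filter fun y => y ≠ x ∧ ¬ G.Adj x y).card := split3 hx
    omega

theorem cycle5 (hT : ∀ a ∈ N, ∀ b ∈ N, ∀ c ∈ N, G.Adj a b → G.Adj a c → G.Adj b c → False)
    (hI : ∀ a ∈ N, ∀ b ∈ N, ∀ c ∈ N, a ≠ b → a ≠ c → b ≠ c →
      G.Adj a b ∨ G.Adj a c ∨ G.Adj b c) (hc : N.card = 5) :
    ∃ b : Fin 5 → V, Function.Injective b ∧ univ.image b = N ∧ ∀ i, G.Adj (b i) (b (i + 2)) := by
  have hb : ∀ x ∈ N, (N.filter fun y => G.Adj x y).card = 2 ∧
      (N.filter fun y => y ≠ x ∧ ¬ G.Adj x y).card = 2 := by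
    intro x hx
    have h1 : (N.filter fun y => G.Adj x y).card ≤ 2 := nb2 hT hI hx
    have h2 : (N.filter fun y => y ≠ x ∧ ¬ G.Adj x y).card ≤ 2 := nn2 hT hI hx
    have h3 : N.card = 1 + (N.filter fun y => G.Adj x y).card +
      (N.filter fun y => y ≠ x ∧ ¬ G.Adj x y).card := split3 hx
    constructor <;> omega
  obtain ⟨x0, m0⟩ : N.Nonempty := by rw [← Finset.card_pos]; omega
  obtain ⟨x1, x4, n14, e1⟩ := Finset.card_eq_two.1 (hb x0 m0).1
  obtain ⟨x2, x3, n23, e2⟩ := Finset.card_eq_two.1 (hb x0 m0).2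
  have k1 : x1 ∈ N ∧ G.Adj x0 x1 := by
    have : x1 ∈ N.filter fun y => G.Adj x0 y := by rw [e1]; simp
    exact Finset.mem_filter.1 this
  have k4 : x4 ∈ N ∧ G.Adj x0 x4 := by
    have : x4 ∈ N.filter fun y => G.Adj x0 y := by rw [e1]; simp
    exact Finset.mem_filter.1 this
  have k2 : x2 ∈ N ∧ x2 ≠ x0 ∧ ¬ G.Adj x0 x2 := by
    have : x2 ∈ N.filter fun y => y ≠ x0 ∧ ¬ G.Adj x0 y := by rw [e2]; simp
    exact Finset.mem_filter.1 this
  have k3 : x3 ∈ N ∧ x3 ≠ x0 ∧ ¬ G.Adj x0 x3 := by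
    have : x3 ∈ N.filter fun y => y ≠ x0 ∧ ¬ G.Adj x0 y := by rw [e2]; simp
    exact Finset.mem_filter.1 this
  have hcover : ∀ y ∈ N, y = x0 ∨ y = x1 ∨ y = x2 ∨ y = x3 ∨ y = x4 := by
    intro y hy
    by_cases h1 : y = x0
    · exact Or.inl h1
    · by_cases h2 : G.Adj x0 y
      · have : y ∈ N.filter fun y => G.Adj x0 y := Finset.mem_filter.2 ⟨hy, h2⟩
        rw [e1, Finset.mem_insert, Finset.mem_singleton] at this
        tauto
      · have : y ∈ N.filter fun y => y ≠ x0 ∧ ¬ G.Adj x0 y := Finset.mem_filter.2 ⟨hy, h1, h2⟩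
        rw [e2, Finset.mem_insert, Finset.mem_singleton] at this
        tauto
  have h14 : ¬ G.Adj x1 x4 := fun h => hT x0 m0 x1 k1.1 x4 k4.1 k1.2 k4.2 h
  have h23 : G.Adj x2 x3 := by
    rcases hI x0 m0 x2 k2.1 x3 k3.1 k2.2.1.symm k3.2.1.symm n23 with h | h | h
    · exact absurd h k2.2.2
    · exact absurd h k3.2.2
    · exact h
  have n12 : x1 ≠ x2 := fun h => k2.2.2 (h ▸ k1.2)
  have n13 : x1 ≠ x3 := fun h => k3.2.2 (h ▸ k1.2)
  have n42 : x4 ≠ x2 := fun h => k2.2.2 (h ▸ k4.2)
  have n43 : x4 ≠ x3 := fun h => k3.2.2 (h ▸ k4.2)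
  -- the second neighbour
  have second : ∀ x, x ∈ N → G.Adj x0 x → (∀ y, G.Adj x y → y ∈ N → y = x0 ∨ y = x2 ∨ y = x3) →
      G.Adj x x2 ∨ G.Adj x x3 := by
    intro x hx hx0 hy
    obtain ⟨a, c, hac, e⟩ := Finset.card_eq_two.1 (hb x hx).1
    have ha : a ∈ N ∧ G.Adj x a := by
      have : a ∈ N.filter fun y => G.Adj x y := by rw [e]; simp
      exact Finset.mem_filter.1 this
    have hcc : c ∈ N ∧ G.Adj x c := by
      have : c ∈ N.filter fun y => G.Adj x y := by rw [e]; simp
      exact Finset.mem_filter.1 this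
    rcases hy a ha.2 ha.1 with rfl | rfl | rfl
    · rcases hy c hcc.2 hcc.1 with rfl | rfl | rfl
      · exact absurd rfl hac
      · exact Or.inl hcc.2
      · exact Or.inr hcc.2
    · exact Or.inl ha.2
    · exact Or.inr ha.2
  have s1 := second x1 k1.1 k1.2 (by
    intro y hy hyN
    rcases hcover y hyN with h | h | h | h | h
    · exact Or.inl h
    · exact absurd h hy.ne.symm
    · exact Or.inr (Or.inl h)
    · exact Or.inr (Or.inr h)
    · exact absurd (h ▸ hy) h14)
  have s4 := second x4 k4.1 k4.2 (by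
    intro y hy hyN
    rcases hcover y hyN with h | h | h | h | h
    · exact Or.inl h
    · exact absurd (h ▸ hy).symm h14
    · exact Or.inr (Or.inl h)
    · exact Or.inr (Or.inr h)
    · exact absurd h hy.ne.symm)
  -- no vertex with three neighbours
  have three : ∀ x a b c, x ∈ N → a ∈ N → b ∈ N → c ∈ N → G.Adj x a → G.Adj x b → G.Adj x c →
      a ≠ b → a ≠ c → b ≠ c → False := by
    intro x a b c hx ha hb' hc' h1 h2 h3 hab hac hbc
    have h4 : ({a, b, c} : Finset V) ⊆ N.filter fun y => G.Adj x y := by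
      intro y hy
      rw [Finset.mem_insert, Finset.mem_insert, Finset.mem_singleton] at hy
      rw [Finset.mem_filter]
      rcases hy with rfl | rfl | rfl
      · exact ⟨ha, h1⟩
      · exact ⟨hb', h2⟩
      · exact ⟨hc', h3⟩
    have h5 := Finset.card_le_card h4
    rw [Finset.card_eq_three.2 ⟨a, b, c, hab, hac, hbc, rfl⟩] at h5
    have h6 := (hb x hx).1
    omega
  rcases s1 with s1 | s1
  · have s4' : G.Adj x4 x3 := by
      rcases s4 with s4 | s4
      · exact (three x2 x1 x4 x3 k2.1 k1.1 k4.1 k3.1 s1.symm s4.symm h23 n14 n13 n43).elim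
      · exact s4
    exact mk5 hc m0 k1.1 k2.1 k3.1 k4.1 k1.2 s1 h23 s4'.symm k4.2.symm k2.2.1.symm k3.2.1.symm
      n13 n14 n42.symm
  · have s4' : G.Adj x4 x2 := by
      rcases s4 with s4 | s4
      · exact s4
      · exact (three x3 x1 x4 x2 k3.1 k1.1 k4.1 k2.1 s1.symm s4.symm h23.symm n14 n12 n42).elim
    exact mk5 hc m0 k1.1 k3.1 k2.1 k4.1 k1.2 s1 h23.symm s4'.symm k4.2.symm k3.2.1.symm
      k2.2.1.symm n12 n14 n43.symm

end ramsey

open Classical in
/-- the number of vertices with a neighbour -/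
noncomputable def nis (G : SimpleGraph V) : ℕ := (univ.filter fun v => ∃ w, G.Adj v w).card

theorem nis_lt {H : SimpleGraph V} {v w : V} (hvw : G.Adj v w)
    (h : ∀ a b, H.Adj a b → a ≠ v ∧ ∃ c, G.Adj a c) : nis H < nis G := by
  classical
  apply Finset.card_lt_card
  rw [Finset.ssubset_iff_of_subset]
  · refine ⟨v, Finset.mem_filter.2 ⟨Finset.mem_univ _, w, hvw⟩, ?_⟩
    rw [Finset.mem_filter]
    rintro ⟨-, b, hb⟩
    exact (h v b hb).1 rfl
  · intro a ha
    rw [Finset.mem_filter] at ha ⊢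
    obtain ⟨-, b, hb⟩ := ha
    exact ⟨Finset.mem_univ _, (h a b hb).2⟩

/-- **The rank formula for all claw-free graphs.** -/
theorem att_all (hp : MG p) (n : ℕ) : ∀ G : SimpleGraph V, ClawFree G → nis G ≤ n → Att G p := by
  classical
  induction n with
  | zero =>
    intro G hc hn
    have hK : CovN G p := by
      intro v w hvw
      exfalso
      have h1 : 0 < nis G := Finset.card_pos.2 ⟨v, Finset.mem_filter.2 ⟨Finset.mem_univ _, w, hvw⟩⟩
      omega
    letI : Fintype (Idx G p) := Fintype.ofFinite _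
    exact claw_rankN hp hc hK
  | succ n ih =>
    intro G hc hn
    by_cases hK : CovN G p
    · letI : Fintype (Idx G p) := Fintype.ofFinite _
      exact claw_rankN hp hc hK
    · unfold CovN at hK
      push Not at hK
      obtain ⟨v, w, hvw, hno⟩ := hK
      have hv : ∀ Z, Big G p Z → v ∉ Z := fun Z hZ hvZ => hno Z hvZ hZ
      set N : Finset V := univ.filter fun w => G.Adj v w with hNdef
      have hN : ∀ w, G.Adj v w ↔ w ∈ N := by
        intro w
        rw [hNdef, Finset.mem_filter]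
        exact ⟨fun h => ⟨Finset.mem_univ _, h⟩, fun h => h.2⟩
      have hT : ∀ a ∈ N, ∀ b ∈ N, ∀ c ∈ N, G.Adj a b → G.Adj a c → G.Adj b c → False := by
        intro a ha b hb c hcc hab hac hbc
        have ha' := (hN a).2 ha
        have hb' := (hN b).2 hb
        have hc' := (hN c).2 hcc
        apply hv {v, a, b, c}
        · refine ⟨rigid_four hp.toGen G ha' hb' hc' hab hac hbc, ?_⟩
          rw [Finset.card_eq_four.2 ⟨v, a, b, c, ha'.ne, hb'.ne, hc'.ne, hab.ne, hac.ne, hbc.ne,
            rfl⟩]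
        · simp
      have hI : ∀ a ∈ N, ∀ b ∈ N, ∀ c ∈ N, a ≠ b → a ≠ c → b ≠ c →
          G.Adj a b ∨ G.Adj a c ∨ G.Adj b c :=
        fun a ha b hb c hcc => hc v a b c ((hN a).2 ha) ((hN b).2 hb) ((hN c).2 hcc)
      have h5 := card_le5 hT hI
      -- the two smaller graphs
      have hA : Att (G.deleteIncidenceSet v) p := by
        apply ih _ (claw_del hc v)
        have : nis (G.deleteIncidenceSet v) < nis G := by
          apply nis_lt hvw
          intro a b hab
          rw [SimpleGraph.deleteIncidenceSet_adj] at hab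
          exact ⟨hab.2.1, b, hab.1⟩
        omega
      have hB : Att (lc G v N) p := by
        apply ih _ (claw_lc hc hN)
        have : nis (lc G v N) < nis G := by
          apply nis_lt hvw
          rintro a b (hab | hab)
          · exact ⟨hab.2.1, b, hab.1⟩
          · have := (hN a).2 hab.2.1
            exact ⟨this.ne.symm, v, this.symm⟩
        omega
      rcases Nat.lt_or_ge N.card 4 with h3 | h3
      · exact stepA hp hv hN (Pool.Agent.H789R5.ext0 hp G v N (by omega)
          (fun z hz => (hN z).2 hz)) hA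
      · rcases Nat.lt_or_ge N.card 5 with h4 | h4
        · have hN4 : N.card = 4 := by omega
          rcases deg4 hp G v hN4 (fun z hz => (hN z).2 hz) with h | h
          · exact stepA hp hv hN (by rw [hN4]; exact h) hA
          · exact stepB hp hv hN h3 h hB
        · have hN5 : N.card = 5 := by omega
          obtain ⟨b, hb, hbN, hside⟩ := cycle5 hT hI hN5
          rcases deg5 hp G v hb (fun w => by rw [hbN]; exact hN w) hside with h | h
          · exact stepA hp hv hN (by rw [hN5]; exact h) hA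
          · rw [hbN] at h
            exact stepB hp hv hN h3 h hB

end Pool.Agent.Y647.RG
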