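import Mathlib
import Pool.Agent.Y647.RG.ClawIter

/-!
# Claw-free graphs which are closed in the generic rigidity matroid of `ℝ³`
-/

set_option autoImplicit false
set_option linter.unusedSectionVars false

namespace Pool.Agent.Y647.RG

open Matrix Finset Pool.Agent.W824.BJ Pool.Agent.H789R5 Pool.Agent.H283R2.DR

variable {V : Type} [Fintype V] [DecidableEq V] {p : V → Fin 3 → ℝ} {G : SimpleGraph V}

/-- the pairs inside a set -/
def pr (s : Finset V) : Finset (Sym2 V) := s.offDiag.image fun x => s(x.1, x.2)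

theorem mem_pr {s : Finset V} {a b : V} : s(a, b) ∈ pr s ↔ a ∈ s ∧ b ∈ s ∧ a ≠ b := by
  unfold pr
  rw [Finset.mem_image]
  constructor
  · rintro ⟨⟨c, d⟩, h, he⟩
    rw [Finset.mem_offDiag] at h
    rcases Sym2.eq_iff.1 he with ⟨rfl, rfl⟩ | ⟨rfl, rfl⟩
    · exact h
    · exact ⟨h.2.1, h.1, h.2.2.symm⟩
  · rintro h
    exact ⟨(a, b), Finset.mem_offDiag.2 h, rfl⟩

theorem card_pr (s : Finset V) : (pr s).card = s.card.choose 2 := by
  unfold pr
  exact Sym2.card_image_offDiag s

theorem rho_le4 {n : ℕ} (h : n ≤ 4) : rho n = n.choose 2 := by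
  interval_cases n <;> decide

theorem pr_mono {s t : Finset V} (h : s ⊆ t) : pr s ⊆ pr t := by
  intro e he
  induction e using Sym2.ind with
  | _ a b =>
    rw [mem_pr] at he ⊢
    exact ⟨h he.1, h he.2.1, he.2.2⟩

variable {C : Type} [Fintype C] [DecidableEq C]

theorem off_insert {S : Finset C} {d : C} (hd : d ∉ S) (f : C → C → ℕ)
    (hf : ∀ a b, f a b = f b a) :
    ∑ q ∈ (insert d S).offDiag, f q.1 q.2 = ∑ q ∈ S.offDiag, f q.1 q.2 + 2 * ∑ c ∈ S, f c d := by
  rw [Finset.offDiag_insert hd]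
  rw [Finset.sum_union, Finset.sum_union, Finset.sum_product, Finset.sum_product]
  · simp only [Finset.sum_singleton]
    have : ∑ x ∈ S, f d x = ∑ x ∈ S, f x d := Finset.sum_congr rfl fun x _ => hf d x
    rw [this]
    ring
  · rw [Finset.disjoint_left]
    rintro ⟨a, b⟩ h1 h2
    rw [Finset.mem_offDiag] at h1
    rw [Finset.mem_product, Finset.mem_singleton] at h2
    exact hd (h2.1 ▸ h1.1)
  · rw [Finset.disjoint_left]
    rintro ⟨a, b⟩ h1 h2
    rw [Finset.mem_union, Finset.mem_offDiag, Finset.mem_product, Finset.mem_singleton] at h1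
    rw [Finset.mem_product, Finset.mem_singleton] at h2
    rcases h1 with h1 | h1
    · exact hd (h2.2 ▸ h1.2.1)
    · exact hd (h1.1 ▸ h2.1)

/-- a maximal clique with at least five vertices -/
def MC (G : SimpleGraph V) (X : Finset V) : Prop :=
  5 ≤ X.card ∧ G.IsClique (X : Set V) ∧ ∀ Y : Finset V, G.IsClique (Y : Set V) → X ⊆ Y → Y = X

/-- a choice of members which attains the rank -/
def BB (G : SimpleGraph V) (Y : C → Finset V) (r : ℕ) (S : Finset C) (F : Finset (Sym2 V)) :
    Prop :=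
  (∀ u v, G.Adj u v → s(u, v) ∈ F ∨ ∃ c ∈ S, u ∈ Y c ∧ v ∈ Y c) ∧
  (∀ X, MC G X → ∃ c ∈ S, Y c = X) ∧
  2 * F.card + 2 * ∑ c ∈ S, rho (Y c).card ≤
    2 * r + ∑ q ∈ S.offDiag, rho (Y q.1 ∩ Y q.2).card

theorem three_mem {Y : C → Finset V} (h : TwoFold Y) {a b c : C} {v : V} (ha : v ∈ Y a)
    (hb : v ∈ Y b) (hc : v ∈ Y c) (hab : a ≠ b) (hac : a ≠ c) (hbc : b ≠ c) : False := by
  have k1 : ({a, b, c} : Finset C) ⊆ univ.filter fun c => v ∈ Y c := by
    intro x hx
    rw [Finset.mem_insert, Finset.mem_insert, Finset.mem_singleton] at hx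
    rw [Finset.mem_filter]
    rcases hx with rfl | rfl | rfl
    · exact ⟨Finset.mem_univ _, ha⟩
    · exact ⟨Finset.mem_univ _, hb⟩
    · exact ⟨Finset.mem_univ _, hc⟩
  have k2 := Finset.card_le_card k1
  rw [Finset.card_eq_three.2 ⟨a, b, c, hab, hac, hbc, rfl⟩] at k2
  have k3 := h v
  omega

theorem remove {Y : C → Finset V} (h : TwoFold Y) {r : ℕ} {S : Finset C}
    {F : Finset (Sym2 V)} (hB : BB G Y r S F) {d : C} (hd : d ∈ S)
    (hX : ∀ X, MC G X → ∃ c ∈ S.erase d, Y c = X)
    (hcase : (Y d).card ≤ 4 ∨ ∃ c ∈ S.erase d, Y d ⊆ Y c) :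
    ∃ F', BB G Y r (S.erase d) F' := by
  obtain ⟨h1, h2, h3⟩ := hB
  set P := (pr (Y d)).filter (fun e => ∀ c ∈ S.erase d, e ∉ pr (Y c)) with hP
  refine ⟨F ∪ P, ?_, hX, ?_⟩
  · intro u v huv
    rcases h1 u v huv with h | ⟨c, hc, hu, hv⟩
    · exact Or.inl (Finset.mem_union_left _ h)
    · by_cases hcd : c = d
      · subst hcd
        by_cases hex : ∃ c' ∈ S.erase c, u ∈ Y c' ∧ v ∈ Y c'
        · exact Or.inr hex
        · left
          apply Finset.mem_union_right
          rw [hP, Finset.mem_filter]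
          refine ⟨mem_pr.2 ⟨hu, hv, huv.ne⟩, ?_⟩
          intro c' hc' hm
          rw [mem_pr] at hm
          exact hex ⟨c', hc', hm.1, hm.2.1⟩
      · exact Or.inr ⟨c, Finset.mem_erase.2 ⟨hcd, hc⟩, hu, hv⟩
  · have key : P.card + ∑ c ∈ S.erase d, rho (Y c ∩ Y d).card ≤ rho (Y d).card := by
      rcases hcase with h4 | ⟨c0, hc0, hs⟩
      · have e1 : ∀ c ∈ S.erase d, rho (Y c ∩ Y d).card = (pr (Y c ∩ Y d)).card := by
          intro c _
          rw [card_pr]
          exact rho_le4 ((Finset.card_le_card Finset.inter_subset_right).trans h4)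
        rw [Finset.sum_congr rfl e1, ← Finset.card_biUnion, rho_le4 h4, ← card_pr,
          ← Finset.card_union_of_disjoint]
        · apply Finset.card_le_card
          intro e he
          rw [Finset.mem_union, Finset.mem_biUnion] at he
          rcases he with he | ⟨c, _, he⟩
          · exact (Finset.mem_filter.1 he).1
          · exact pr_mono Finset.inter_subset_right he
        · rw [Finset.disjoint_left]
          intro e he he'
          rw [Finset.mem_biUnion] at he'
          obtain ⟨c, hc, hc'⟩ := he'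
          exact (Finset.mem_filter.1 he).2 c hc (pr_mono Finset.inter_subset_left hc')
        · intro a ha b hb hab
          rw [Finset.mem_coe, Finset.mem_erase] at ha hb
          rw [Function.onFun, Finset.disjoint_left]
          intro e he he'
          induction e using Sym2.ind with
          | _ x y =>
            rw [mem_pr, Finset.mem_inter] at he he'
            exact three_mem h he.1.1 he'.1.1 he.1.2 hab ha.1 hb.1
      · have e1 : P = ∅ := by
          rw [Finset.eq_empty_iff_forall_notMem]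
          intro e he
          rw [hP, Finset.mem_filter] at he
          exact he.2 c0 hc0 (pr_mono hs he.1)
        rw [e1, Finset.card_empty, zero_add, Finset.sum_eq_single c0]
        · rw [Finset.inter_eq_right.2 hs]
        · intro b hb hbc
          rw [Finset.mem_erase] at hb hc0
          have e2 : Y b ∩ Y d = ∅ := by
            rw [Finset.eq_empty_iff_forall_notMem]
            intro v hv
            rw [Finset.mem_inter] at hv
            exact three_mem h hv.1 hv.2 (hs hv.2) hb.1 hbc hc0.1.symm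
          rw [e2]
          rfl
        · intro hn
          exact absurd hc0 hn
    have e1 := off_insert (Finset.notMem_erase d S) (fun a b => rho (Y a ∩ Y b).card)
      (fun a b => by rw [Finset.inter_comm])
    rw [Finset.insert_erase hd] at e1
    have e2 : ∑ c ∈ S, rho (Y c).card = rho (Y d).card + ∑ c ∈ S.erase d, rho (Y c).card :=
      (Finset.add_sum_erase S (fun c => rho (Y c).card) hd).symm
    have e3 := Finset.card_union_le F P
    omega

open Classical in
/-- the maximal cliques with at least five vertices -/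
noncomputable def mcs (G : SimpleGraph V) : Finset (Finset V) := univ.filter fun X => MC G X

theorem mem_mcs {X : Finset V} : X ∈ mcs G ↔ MC G X := by
  classical
  unfold mcs
  rw [Finset.mem_filter]
  exact ⟨fun h => h.2, fun h => ⟨Finset.mem_univ _, h⟩⟩

theorem clique_extend {Z : Finset V} (hZ : G.IsClique (Z : Set V)) (h5 : 5 ≤ Z.card) :
    ∃ X, MC G X ∧ Z ⊆ X := by
  classical
  obtain ⟨X, hX, hm⟩ := Finset.exists_max_image
    (univ.filter fun W : Finset V => G.IsClique (W : Set V) ∧ Z ⊆ W) Finset.card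
    ⟨Z, Finset.mem_filter.2 ⟨Finset.mem_univ _, hZ, subset_rfl⟩⟩
  rw [Finset.mem_filter] at hX
  refine ⟨X, ⟨h5.trans (Finset.card_le_card hX.2.2), hX.2.1, ?_⟩, hX.2.2⟩
  intro W hW hs
  exact (Finset.eq_of_subset_of_card_le hs
    (hm W (Finset.mem_filter.2 ⟨Finset.mem_univ _, hW, hX.2.2.trans hs⟩))).symm

theorem dress_aux (hp : MG p) (hc : ClawFree G)
    (hcl : ∀ u v, u ≠ v → ¬ G.Adj u v → genRank 3 G < genRank 3 (G ⊔ SimpleGraph.edge u v))
    [DecidableRel G.Adj] :
    (∀ v, ((mcs G).filter fun X => v ∈ X).card ≤ 2) ∧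
    (∀ X ∈ mcs G, ∀ X' ∈ mcs G, X ≠ X' → (X ∩ X').card ≤ 2) ∧
    2 * genRank 3 G + ∑ q ∈ (mcs G).offDiag, rho (q.1 ∩ q.2).card =
      2 * (G.edgeFinset.filter fun e => ∀ X ∈ mcs G, e ∉ pr X).card +
        2 * ∑ X ∈ mcs G, rho X.card := by
  classical
  obtain ⟨F, C, i1, i2, Y, h1, h2, h3, h4⟩ := att_all hp _ G hc le_rfl
  -- the members are cliques
  have hY : ∀ c, G.IsClique (Y c : Set V) := by
    intro c u hu v hv huv
    by_contra hn
    have e1 := hcl u v huv hn
    have e2 := upperF h1 (G := G ⊔ SimpleGraph.edge u v) (F := F) (by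
      intro a b hab
      rw [SimpleGraph.deleteEdges_adj, SimpleGraph.sup_adj, SimpleGraph.edge_adj] at hab
      rcases hab.1 with h | ⟨⟨rfl, rfl⟩ | ⟨rfl, rfl⟩, -⟩
      · exact h2 a b (by rw [SimpleGraph.deleteEdges_adj]; exact ⟨h, hab.2⟩)
      · exact ⟨c, hu, hv⟩
      · exact ⟨c, hv, hu⟩)
    omega
  have hbig : ∀ X : Finset V, G.IsClique (X : Set V) → 4 ≤ X.card → Big G p X := fun X hX h4 =>
    ⟨rigid_complete hp.toGen G X (fun a ha b hb hab => hX ha hb hab), h4⟩
  have hmem : ∀ X, MC G X → ∃ c, Y c = X := by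
    intro X hX
    obtain ⟨c, hc'⟩ := h3 X (hbig X hX.2.1 (by have := hX.1; omega))
    exact ⟨c, hX.2.2 _ (hY c) hc'⟩
  have hint : ∀ X ∈ mcs G, ∀ X' ∈ mcs G, X ≠ X' → (X ∩ X').card ≤ 2 := by
    intro X hX X' hX' hne
    rw [mem_mcs] at hX hX'
    by_contra hcon
    have b1 := (hbig X hX.2.1 (by have := hX.1; omega)).union hp.toGen
      (hbig X' hX'.2.1 (by have := hX'.1; omega)) (by omega)
    obtain ⟨c, hc'⟩ := h3 _ b1
    have e1 := hX.2.2 _ (hY c) (Finset.subset_union_left.trans hc')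
    have e2 := hX'.2.2 _ (hY c) (Finset.subset_union_right.trans hc')
    exact hne (e1.symm.trans e2)
  -- a minimal choice
  have hstart : BB G Y (genRank 3 G) univ F := by
    refine ⟨?_, ?_, ?_⟩
    · intro u v huv
      by_cases h : s(u, v) ∈ F
      · exact Or.inl h
      · obtain ⟨c, hc'⟩ := h2 u v (by
          rw [SimpleGraph.deleteEdges_adj]
          exact ⟨huv, fun h' => h (by exact_mod_cast h')⟩)
        exact Or.inr ⟨c, Finset.mem_univ _, hc'⟩
    · intro X hX
      obtain ⟨c, hc'⟩ := hmem X hX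
      exact ⟨c, Finset.mem_univ _, hc'⟩
    · exact h4.ge
  obtain ⟨S, hS, hmin⟩ := Finset.exists_min_image
    (univ.filter fun S : Finset C => ∃ F', BB G Y (genRank 3 G) S F') Finset.card
    ⟨univ, Finset.mem_filter.2 ⟨Finset.mem_univ _, F, hstart⟩⟩
  rw [Finset.mem_filter] at hS
  obtain ⟨-, F', hB⟩ := hS
  have hno : ∀ d ∈ S, ¬ ((∀ X, MC G X → ∃ c ∈ S.erase d, Y c = X) ∧
      ((Y d).card ≤ 4 ∨ ∃ c ∈ S.erase d, Y d ⊆ Y c)) := by
    rintro d hd ⟨k1, k2⟩
    obtain ⟨F'', hF''⟩ := remove h1 hB hd k1 k2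
    have := hmin (S.erase d) (Finset.mem_filter.2 ⟨Finset.mem_univ _, F'', hF''⟩)
    rw [Finset.card_erase_of_mem hd] at this
    have := Finset.card_pos.2 ⟨d, hd⟩
    omega
  have hall : ∀ d ∈ S, MC G (Y d) := by
    intro d hd
    by_contra hn
    apply hno d hd
    have k1 : ∀ X, MC G X → ∃ c ∈ S.erase d, Y c = X := by
      intro X hX
      obtain ⟨c, hc', rfl⟩ := hB.2.1 X hX
      exact ⟨c, Finset.mem_erase.2 ⟨fun h => hn (h ▸ hX), hc'⟩, rfl⟩
    refine ⟨k1, ?_⟩
    by_cases h5 : (Y d).card ≤ 4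
    · exact Or.inl h5
    · right
      obtain ⟨X, hX, hs⟩ := clique_extend (hY d) (by omega)
      obtain ⟨c, hc', rfl⟩ := k1 X hX
      exact ⟨c, hc', hs⟩
  have hinj : Set.InjOn Y (S : Set C) := by
    intro a ha b hb hab
    by_contra hne
    rw [Finset.mem_coe] at ha hb
    apply hno a ha
    refine ⟨?_, Or.inr ⟨b, Finset.mem_erase.2 ⟨Ne.symm hne, hb⟩, hab.le⟩⟩
    intro X hX
    obtain ⟨c, hc', hcX⟩ := hB.2.1 X hX
    by_cases hca : c = a
    · exact ⟨b, Finset.mem_erase.2 ⟨Ne.symm hne, hb⟩, by rw [← hab, ← hca, hcX]⟩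
    · exact ⟨c, Finset.mem_erase.2 ⟨hca, hc'⟩, hcX⟩
  have himg : mcs G = S.image Y := by
    ext X
    rw [mem_mcs, Finset.mem_image]
    constructor
    · intro hX
      exact hB.2.1 X hX
    · rintro ⟨c, hc', rfl⟩
      exact hall c hc'
  have htwo : ∀ v, ((mcs G).filter fun X => v ∈ X).card ≤ 2 := by
    intro v
    rw [himg]
    have e1 : (S.image Y).filter (fun X => v ∈ X) ⊆ (univ.filter fun c => v ∈ Y c).image Y := by
      intro X hX
      rw [Finset.mem_filter, Finset.mem_image] at hX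
      obtain ⟨⟨c, hc', rfl⟩, hv⟩ := hX
      exact Finset.mem_image_of_mem Y (Finset.mem_filter.2 ⟨Finset.mem_univ _, hv⟩)
    exact (Finset.card_le_card e1).trans (Finset.card_image_le.trans (h1 v))
  refine ⟨htwo, hint, ?_⟩
  set F0 := G.edgeFinset.filter fun e => ∀ X ∈ mcs G, e ∉ pr X with hF0
  apply le_antisymm
  · -- the upper bound
    have u1 : TwoFold (fun X : mcs G => X.1) := by
      intro v
      refine (Finset.card_le_card_of_injOn (t := (mcs G).filter fun X => v ∈ X)
        (fun X => X.1) ?_ ?_).trans (htwo v)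
      · intro X hX
        rw [Finset.mem_coe, Finset.mem_filter] at hX
        rw [Finset.mem_coe, Finset.mem_filter]
        exact ⟨X.2, hX.2⟩
      · intro X _ X' _ h
        exact Subtype.ext h
    have u2 := upperF u1 (G := G) (F := F0) (by
      intro a b hab
      rw [SimpleGraph.deleteEdges_adj] at hab
      by_contra hn
      apply hab.2
      rw [Finset.mem_coe, hF0, Finset.mem_filter, SimpleGraph.mem_edgeFinset]
      refine ⟨hab.1, ?_⟩
      intro X hX hm
      rw [mem_pr] at hm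
      exact hn ⟨⟨X, hX⟩, hm.1, hm.2.1⟩)
    have u3 : ∑ c : mcs G, rho (c : Finset V).card = ∑ X ∈ mcs G, rho X.card :=
      Finset.sum_coe_sort (mcs G) (fun X => rho X.card)
    have u4 : ∑ q ∈ (univ : Finset (mcs G)).offDiag, rho (q.1.1 ∩ q.2.1).card =
        ∑ q ∈ (mcs G).offDiag, rho (q.1 ∩ q.2).card := by
      refine Finset.sum_bij (fun q _ => (q.1.1, q.2.1)) ?_ ?_ ?_ ?_
      · intro q hq
        rw [Finset.mem_offDiag] at hq ⊢
        exact ⟨q.1.2, q.2.2, fun h => hq.2.2 (Subtype.ext h)⟩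
      · intro q _ q' _ h
        exact Prod.ext (Subtype.ext (congrArg Prod.fst h)) (Subtype.ext (congrArg Prod.snd h))
      · rintro ⟨X, X'⟩ hq
        rw [Finset.mem_offDiag] at hq
        refine ⟨(⟨X, hq.1⟩, ⟨X', hq.2.1⟩), ?_, rfl⟩
        rw [Finset.mem_offDiag]
        exact ⟨Finset.mem_univ _, Finset.mem_univ _, fun h => hq.2.2 (congrArg Subtype.val h)⟩
      · intro q _
        rfl
    rw [u4, u3] at u2
    exact u2
  · -- the lower bound
    have e1 : ∑ X ∈ mcs G, rho X.card = ∑ c ∈ S, rho (Y c).card := by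
      rw [himg, Finset.sum_image hinj]
    have e2 : ∑ q ∈ (mcs G).offDiag, rho (q.1 ∩ q.2).card =
        ∑ q ∈ S.offDiag, rho (Y q.1 ∩ Y q.2).card := by
      symm
      refine Finset.sum_bij (fun q _ => (Y q.1, Y q.2)) ?_ ?_ ?_ ?_
      · intro q hq
        rw [Finset.mem_offDiag] at hq ⊢
        rw [himg]
        exact ⟨Finset.mem_image_of_mem Y hq.1, Finset.mem_image_of_mem Y hq.2.1,
          fun h => hq.2.2 (hinj hq.1 hq.2.1 h)⟩
      · intro q hq q' hq' h
        rw [Finset.mem_offDiag] at hq hq'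
        exact Prod.ext (hinj hq.1 hq'.1 (congrArg Prod.fst h))
          (hinj hq.2.1 hq'.2.1 (congrArg Prod.snd h))
      · rintro ⟨X, X'⟩ hq
        rw [Finset.mem_offDiag, himg, Finset.mem_image, Finset.mem_image] at hq
        obtain ⟨⟨a, ha, ha'⟩, ⟨b, hb, hb'⟩, hne⟩ := hq
        refine ⟨(a, b), ?_, ?_⟩
        · rw [Finset.mem_offDiag]
          refine ⟨ha, hb, ?_⟩
          intro hab
          have hab' : a = b := hab
          exact hne (ha'.symm.trans (hab' ▸ hb'))
        · show (Y a, Y b) = (X, X')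
          rw [ha', hb']
      · intro q _
        rfl
    have e3 : F0 ⊆ F' := by
      intro e he
      rw [hF0, Finset.mem_filter] at he
      induction e using Sym2.ind with
      | _ a b =>
        have hab : G.Adj a b := by
          have := he.1
          rwa [SimpleGraph.mem_edgeFinset, SimpleGraph.mem_edgeSet] at this
        rcases hB.1 a b hab with h | ⟨c, hc', ha, hb⟩
        · exact h
        · exfalso
          exact he.2 (Y c) (mem_mcs.2 (hall c hc')) (mem_pr.2 ⟨ha, hb, hab.ne⟩)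
    have e4 := Finset.card_le_card e3
    have e5 := hB.2.2
    rw [e1, e2]
    omega

end Pool.Agent.Y647.RG
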