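import Mathlib
import Pool.Agent.Y647.RG.Dress

/-!
# Rank functions with the ranks of the rigidity matroid on complete graphs
-/

set_option autoImplicit false
set_option linter.unusedSectionVars false

namespace Pool.Agent.Y647.RG

open Matrix Finset Pool.Agent.W824.BJ Pool.Agent.H789R5 Pool.Agent.H283R2.DR

variable {V : Type} [Fintype V] [DecidableEq V]

/-- the complete graph on a set of vertices -/
def kg (A : Finset V) : SimpleGraph V where
  Adj a b := a ≠ b ∧ a ∈ A ∧ b ∈ A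
  symm := ⟨fun _ _ h => ⟨h.1.symm, h.2.2, h.2.1⟩⟩
  loopless := ⟨fun _ h => h.1 rfl⟩

/-- a submodular function on graphs with unit increase and with the values `3 |U| - 6` on the
complete graphs with at least three vertices -/
structure CR (ρ : SimpleGraph V → ℕ) : Prop where
  mono : ∀ {H H' : SimpleGraph V}, H ≤ H' → ρ H ≤ ρ H'
  sub : ∀ H H' : SimpleGraph V, ρ (H ⊔ H') + ρ (H ⊓ H') ≤ ρ H + ρ H'
  le : ∀ H : SimpleGraph V, ρ H ≤ H.edgeSet.ncard
  comp : ∀ U : Finset V, 3 ≤ U.card → ρ (kg U) = 3 * U.card - 6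

variable {ρ : SimpleGraph V → ℕ}

theorem edge_kg {a b : V} (h : a ≠ b) : (kg ({a, b} : Finset V)) = SimpleGraph.edge a b := by
  ext x y
  rw [SimpleGraph.edge_adj]
  show (x ≠ y ∧ x ∈ ({a, b} : Finset V) ∧ y ∈ ({a, b} : Finset V)) ↔ _
  simp only [Finset.mem_insert, Finset.mem_singleton]
  constructor
  · rintro ⟨hxy, rfl | rfl, rfl | rfl⟩
    · exact absurd rfl hxy
    · exact ⟨Or.inl ⟨rfl, rfl⟩, hxy⟩
    · exact ⟨Or.inr ⟨rfl, rfl⟩, hxy⟩
    · exact absurd rfl hxy
  · rintro ⟨⟨rfl, rfl⟩ | ⟨rfl, rfl⟩, hxy⟩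
    · exact ⟨hxy, Or.inl rfl, Or.inr rfl⟩
    · exact ⟨hxy, Or.inr rfl, Or.inl rfl⟩

theorem kg_ncard (A : Finset V) : (kg A).edgeSet.ncard = A.card.choose 2 := by
  rw [← card_pr, ← Set.ncard_coe_finset]
  congr 1
  ext e
  induction e using Sym2.ind with
  | _ a b =>
    rw [SimpleGraph.mem_edgeSet, Finset.mem_coe, mem_pr]
    show (a ≠ b ∧ a ∈ A ∧ b ∈ A) ↔ _
    tauto

theorem CR.join (h : CR ρ) (H H' : SimpleGraph V) : ρ (H ⊔ H') ≤ ρ H + H'.edgeSet.ncard := by
  have h1 := h.sub H H'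
  have h2 := h.le H'
  omega

theorem CR.kg_le (h : CR ρ) (A : Finset V) : ρ (kg A) ≤ rho A.card := by
  by_cases h3 : 3 ≤ A.card
  · rw [h.comp A h3]
    unfold rho
    rw [if_neg (by omega), if_neg (by omega)]
  · have h1 := h.le (kg A)
    rw [kg_ncard, ← rho_le4 (by omega)] at h1
    exact h1

theorem kg_join {A B : Finset V} (hAB : ∀ v ∈ A, v ∉ B) :
    kg (A ∪ B) = (kg A ⊔ kg B) ⊔ (kg (A ∪ B) \ (kg A ⊔ kg B)) := by
  rw [sup_sdiff_self_right, eq_comm, sup_eq_right]
  rintro x y (h | h)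
  · exact ⟨h.1, Finset.mem_union_left _ h.2.1, Finset.mem_union_left _ h.2.2⟩
  · exact ⟨h.1, Finset.mem_union_right _ h.2.1, Finset.mem_union_right _ h.2.2⟩

/-- two disjoint pairs -/
theorem CR.two (h : CR ρ) {A B : Finset V} (hA : A.card = 2) (hB : B.card = 2)
    (hAB : ∀ v ∈ A, v ∉ B) : 2 ≤ ρ (kg A ⊔ kg B) := by
  have hd : Disjoint A B := Finset.disjoint_left.2 hAB
  have hc : (A ∪ B).card = 4 := by rw [Finset.card_union_of_disjoint hd, hA, hB]
  have h1 := h.comp (A ∪ B) (by omega)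
  rw [kg_join hAB, hc] at h1
  have h2 := h.join (kg A ⊔ kg B) (kg (A ∪ B) \ (kg A ⊔ kg B))
  have h3 : (kg (A ∪ B) \ (kg A ⊔ kg B)).edgeSet.ncard ≤ 4 := by
    have e1 : (kg A ⊔ kg B).edgeSet.ncard = 2 := by
      rw [SimpleGraph.edgeSet_sup, Set.ncard_union_eq, kg_ncard, kg_ncard, hA, hB]
      · rfl
      · rw [Set.disjoint_left]
        intro e
        induction e using Sym2.ind with
        | _ a b =>
          rw [SimpleGraph.mem_edgeSet, SimpleGraph.mem_edgeSet]
          intro h4 h5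
          exact hAB a h4.2.1 h5.2.1
    have e2 : (kg (A ∪ B)).edgeSet.ncard = 6 := by
      rw [kg_ncard, hc]
      rfl
    rw [SimpleGraph.edgeSet_sdiff]
    have e3 := Set.ncard_sdiff_add_ncard_of_subset (s := (kg A ⊔ kg B).edgeSet)
      (t := (kg (A ∪ B)).edgeSet) (by
        apply SimpleGraph.edgeSet_mono
        rintro x y (h | h)
        · exact ⟨h.1, Finset.mem_union_left _ h.2.1, Finset.mem_union_left _ h.2.2⟩
        · exact ⟨h.1, Finset.mem_union_right _ h.2.1, Finset.mem_union_right _ h.2.2⟩)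
      (Set.toFinite _)
    omega
  omega

/-- a single pair, if there is a third vertex -/
theorem CR.one (h : CR ρ) {A : Finset V} (hA : A.card = 2) {w : V} (hw : w ∉ A) :
    1 ≤ ρ (kg A) := by
  have hc : (insert w A).card = 3 := by rw [Finset.card_insert_of_notMem hw, hA]
  have h1 := h.comp (insert w A) (by omega)
  have hle : kg A ≤ kg (insert w A) := fun x y h =>
    ⟨h.1, Finset.mem_insert_of_mem h.2.1, Finset.mem_insert_of_mem h.2.2⟩
  have e0 : kg (insert w A) = kg A ⊔ (kg (insert w A) \ kg A) := by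
    rw [sup_sdiff_self_right, eq_comm, sup_eq_right]
    exact hle
  rw [e0, hc] at h1
  have h2 := h.join (kg A) (kg (insert w A) \ kg A)
  have e1 : (kg A).edgeSet.ncard = 1 := by rw [kg_ncard, hA]; rfl
  have e2 : (kg (insert w A)).edgeSet.ncard = 3 := by rw [kg_ncard, hc]; rfl
  have e3 := Set.ncard_sdiff_add_ncard_of_subset (SimpleGraph.edgeSet_mono hle) (Set.toFinite _)
  rw [← SimpleGraph.edgeSet_sdiff] at e3
  omega

variable {C : Type} [Fintype C] [DecidableEq C]

/-- the union of the complete graphs on the members with indices in `S` -/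
def bd (Y : C → Finset V) (S : Finset C) : SimpleGraph V where
  Adj a b := a ≠ b ∧ ∃ c ∈ S, a ∈ Y c ∧ b ∈ Y c
  symm := ⟨fun _ _ h => ⟨h.1.symm, h.2.imp fun _ h => ⟨h.1, h.2.2, h.2.1⟩⟩⟩
  loopless := ⟨fun _ h => h.1 rfl⟩

/-- a choice of members which is two-fold, covers `H`, and has value at most `r` -/
def FB (H : SimpleGraph V) (r : ℕ) (T : Finset C) (Y : C → Finset V) : Prop :=
  (∀ v, (T.filter fun c => v ∈ Y c).card ≤ 2) ∧
  (∀ u v, H.Adj u v → ∃ c ∈ T, u ∈ Y c ∧ v ∈ Y c) ∧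
  2 * ∑ c ∈ T, rho (Y c).card ≤ 2 * r + ∑ q ∈ T.offDiag, rho (Y q.1 ∩ Y q.2).card

theorem three_memT {T : Finset C} {Y : C → Finset V}
    (h : ∀ v, (T.filter fun c => v ∈ Y c).card ≤ 2) {a b c : C} (hT : a ∈ T) (hT' : b ∈ T)
    (hT'' : c ∈ T) {v : V} (ha : v ∈ Y a) (hb : v ∈ Y b) (hc : v ∈ Y c) (hab : a ≠ b)
    (hac : a ≠ c) (hbc : b ≠ c) : False := by
  have k1 : ({a, b, c} : Finset C) ⊆ T.filter fun c => v ∈ Y c := by
    intro x hx
    rw [Finset.mem_insert, Finset.mem_insert, Finset.mem_singleton] at hx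
    rw [Finset.mem_filter]
    rcases hx with rfl | rfl | rfl
    · exact ⟨hT, ha⟩
    · exact ⟨hT', hb⟩
    · exact ⟨hT'', hc⟩
  have k2 := Finset.card_le_card k1
  rw [Finset.card_eq_three.2 ⟨a, b, c, hab, hac, hbc, rfl⟩] at k2
  have k3 := h v
  omega

theorem rho_add (a b : ℕ) : rho a + rho b ≤ rho (a + b) := by
  unfold rho
  split_ifs <;> omega

theorem rho_sum (S : Finset C) (f : C → ℕ) : ∑ c ∈ S, rho (f c) ≤ rho (∑ c ∈ S, f c) := by
  classical
  induction S using Finset.induction with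
  | empty => simp
  | insert a S ha ih =>
    rw [Finset.sum_insert ha, Finset.sum_insert ha]
    exact (Nat.add_le_add_left ih _).trans (rho_add _ _)

/-- intersections of a member with the others of a two-fold family -/
theorem inter_sum {T : Finset C} {Y : C → Finset V}
    (h : ∀ v, (T.filter fun c => v ∈ Y c).card ≤ 2) {S : Finset C} (hS : S ⊆ T) {d : C}
    (hd : d ∈ T) (hdS : d ∉ S) :
    (S.biUnion Y ∩ Y d).card = ∑ c ∈ S, (Y c ∩ Y d).card := by
  rw [Finset.biUnion_inter, Finset.card_biUnion]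
  intro a ha b hb hab
  rw [Finset.mem_coe] at ha hb
  rw [Function.onFun, Finset.disjoint_left]
  intro v hv hv'
  rw [Finset.mem_inter] at hv hv'
  have ha' : a ≠ d := by
    rintro rfl
    exact hdS ha
  have hb' : b ≠ d := by
    rintro rfl
    exact hdS hb
  exact three_memT h (hS ha) (hS hb) hd hv.1 hv'.1 hv.2 hab ha' hb'

/-- the number of elements of the union of a two-fold family -/
theorem union_card {T : Finset C} {Y : C → Finset V}
    (h : ∀ v, (T.filter fun c => v ∈ Y c).card ≤ 2) (S : Finset C) (hS : S ⊆ T) :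
    2 * (S.biUnion Y).card + ∑ q ∈ S.offDiag, (Y q.1 ∩ Y q.2).card =
      2 * ∑ c ∈ S, (Y c).card := by
  classical
  induction S using Finset.induction with
  | empty => simp
  | insert a S ha ih =>
    have hS' : S ⊆ T := fun c hc => hS (Finset.mem_insert_of_mem hc)
    have h1 := ih hS'
    have h2 := off_insert ha (fun a b => (Y a ∩ Y b).card) (fun a b => by rw [Finset.inter_comm])
    have h3 := inter_sum h hS' (hS (Finset.mem_insert_self _ _)) ha
    rw [Finset.biUnion_insert, Finset.sum_insert ha]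
    have h4 := Finset.card_union_add_card_inter (Y a) (S.biUnion Y)
    rw [Finset.inter_comm, h3] at h4
    have h5 : ∑ q ∈ (insert a S).offDiag, (Y q.1 ∩ Y q.2).card =
      ∑ q ∈ S.offDiag, (Y q.1 ∩ Y q.2).card + 2 * ∑ c ∈ S, (Y c ∩ Y a).card := h2
    omega

/-- merging the members with indices in `S` -/
theorem merge {H : SimpleGraph V} {r : ℕ} {T : Finset C} {Y : C → Finset V} (hB : FB H r T Y)
    {S : Finset C} (hS : S ⊆ T) {c0 : C} (hc0 : c0 ∈ S)
    (hv : 2 * rho (S.biUnion Y).card + ∑ q ∈ S.offDiag, rho (Y q.1 ∩ Y q.2).card ≤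
      2 * ∑ c ∈ S, rho (Y c).card) :
    FB H r (insert c0 (T \ S)) (fun c => if c = c0 then S.biUnion Y else Y c) := by
  classical
  obtain ⟨h1, h2, h3⟩ := hB
  set Y' : C → Finset V := fun c => if c = c0 then S.biUnion Y else Y c with hY'
  have hY0 : Y' c0 = S.biUnion Y := if_pos rfl
  have hY1 : ∀ c, c ∈ T \ S → Y' c = Y c := by
    intro c hc
    rw [Finset.mem_sdiff] at hc
    have hne : c ≠ c0 := by
      rintro rfl
      exact hc.2 hc0
    exact if_neg hne
  have hc0' : c0 ∉ T \ S := fun h => (Finset.mem_sdiff.1 h).2 hc0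
  refine ⟨?_, ?_, ?_⟩
  · intro v
    let m : C → C := fun c => if c ∈ S then c0 else c
    have e1 : ((insert c0 (T \ S)).filter fun c => v ∈ Y' c) ⊆
        (T.filter fun c => v ∈ Y c).image m := by
      intro c hc
      rw [Finset.mem_filter, Finset.mem_insert] at hc
      rw [Finset.mem_image]
      obtain ⟨rfl | hc', hvc⟩ := hc
      · rw [hY0, Finset.mem_biUnion] at hvc
        obtain ⟨d, hd, hvd⟩ := hvc
        exact ⟨d, Finset.mem_filter.2 ⟨hS hd, hvd⟩, if_pos hd⟩
      · rw [hY1 c hc'] at hvc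
        rw [Finset.mem_sdiff] at hc'
        exact ⟨c, Finset.mem_filter.2 ⟨hc'.1, hvc⟩, if_neg hc'.2⟩
    exact (Finset.card_le_card e1).trans (Finset.card_image_le.trans (h1 v))
  · intro u v huv
    obtain ⟨c, hc, hu, hv'⟩ := h2 u v huv
    by_cases hcS : c ∈ S
    · refine ⟨c0, Finset.mem_insert_self _ _, ?_, ?_⟩
      · rw [hY0]; exact Finset.mem_biUnion.2 ⟨c, hcS, hu⟩
      · rw [hY0]; exact Finset.mem_biUnion.2 ⟨c, hcS, hv'⟩
    · have hc' : c ∈ T \ S := Finset.mem_sdiff.2 ⟨hc, hcS⟩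
      refine ⟨c, Finset.mem_insert_of_mem hc', ?_, ?_⟩
      · rw [hY1 c hc']; exact hu
      · rw [hY1 c hc']; exact hv'
  · -- the value
    have hTS : T = S ∪ (T \ S) := (Finset.union_sdiff_of_subset hS).symm
    have hdis : Disjoint S (T \ S) := Finset.disjoint_sdiff
    have s1 : ∑ c ∈ T, rho (Y c).card = ∑ c ∈ S, rho (Y c).card + ∑ c ∈ T \ S, rho (Y c).card := by
      rw [← Finset.sum_union hdis, ← hTS]
    have s2 : ∑ c ∈ insert c0 (T \ S), rho (Y' c).card =
        rho (S.biUnion Y).card + ∑ c ∈ T \ S, rho (Y c).card := by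
      rw [Finset.sum_insert hc0', hY0]
      congr 1
      exact Finset.sum_congr rfl fun c hc => by rw [hY1 c hc]
    have s3 : ∑ q ∈ (insert c0 (T \ S)).offDiag, rho (Y' q.1 ∩ Y' q.2).card =
        ∑ q ∈ (T \ S).offDiag, rho (Y q.1 ∩ Y q.2).card +
        2 * ∑ c ∈ T \ S, rho (S.biUnion Y ∩ Y c).card := by
      have h5 := off_insert hc0' (fun a b => rho (Y' a ∩ Y' b).card)
        (fun a b => by rw [Finset.inter_comm])
      have h6 : ∑ q ∈ (insert c0 (T \ S)).offDiag, rho (Y' q.1 ∩ Y' q.2).card =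
        ∑ q ∈ (T \ S).offDiag, rho (Y' q.1 ∩ Y' q.2).card +
        2 * ∑ c ∈ T \ S, rho (Y' c ∩ Y' c0).card := h5
      rw [h6]
      congr 1
      · apply Finset.sum_congr rfl
        intro q hq
        rw [Finset.mem_offDiag] at hq
        rw [hY1 _ hq.1, hY1 _ hq.2.1]
      · congr 1
        apply Finset.sum_congr rfl
        intro c hc
        rw [hY1 c hc, hY0, Finset.inter_comm]
    have s4 : ∑ q ∈ T.offDiag, rho (Y q.1 ∩ Y q.2).card =
        ∑ q ∈ S.offDiag, rho (Y q.1 ∩ Y q.2).card +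
        ∑ q ∈ (T \ S).offDiag, rho (Y q.1 ∩ Y q.2).card +
        2 * ∑ d ∈ T \ S, ∑ c ∈ S, rho (Y c ∩ Y d).card := by
      have e1 : T.offDiag = S.offDiag ∪ (T \ S).offDiag ∪ S ×ˢ (T \ S) ∪ (T \ S) ×ˢ S := by
        conv_lhs => rw [hTS]
        exact Finset.offDiag_union hdis
      rw [e1, Finset.sum_union, Finset.sum_union, Finset.sum_union, Finset.sum_product,
        Finset.sum_product]
      · have e2 : ∑ x ∈ S, ∑ y ∈ T \ S, rho (Y x ∩ Y y).card =
            ∑ d ∈ T \ S, ∑ c ∈ S, rho (Y c ∩ Y d).card := Finset.sum_comm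
        have e3 : ∑ x ∈ T \ S, ∑ y ∈ S, rho (Y x ∩ Y y).card =
            ∑ d ∈ T \ S, ∑ c ∈ S, rho (Y c ∩ Y d).card := by
          apply Finset.sum_congr rfl
          intro d _
          apply Finset.sum_congr rfl
          intro c _
          rw [Finset.inter_comm]
        simp only
        rw [e2, e3]
        ring
      · rw [Finset.disjoint_left]
        rintro ⟨a, b⟩ ha hb
        rw [Finset.mem_offDiag] at ha hb
        exact Finset.disjoint_left.1 hdis ha.1 hb.1
      · rw [Finset.disjoint_left]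
        rintro ⟨a, b⟩ ha hb
        rw [Finset.mem_union, Finset.mem_offDiag, Finset.mem_offDiag] at ha
        rw [Finset.mem_product] at hb
        rcases ha with ha | ha
        · exact Finset.disjoint_left.1 hdis ha.2.1 hb.2
        · exact Finset.disjoint_left.1 hdis hb.1 ha.1
      · rw [Finset.disjoint_left]
        rintro ⟨a, b⟩ ha hb
        rw [Finset.mem_union, Finset.mem_union, Finset.mem_offDiag, Finset.mem_offDiag,
          Finset.mem_product] at ha
        rw [Finset.mem_product] at hb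
        rcases ha with (ha | ha) | ha
        · exact Finset.disjoint_left.1 hdis ha.1 hb.1
        · exact Finset.disjoint_left.1 hdis hb.2 ha.2.1
        · exact Finset.disjoint_left.1 hdis ha.1 hb.1
    have s5 : ∑ d ∈ T \ S, ∑ c ∈ S, rho (Y c ∩ Y d).card ≤
        ∑ c ∈ T \ S, rho (S.biUnion Y ∩ Y c).card := by
      apply Finset.sum_le_sum
      intro d hd
      rw [Finset.mem_sdiff] at hd
      rw [inter_sum h1 hS hd.1 hd.2]
      exact rho_sum S fun c => (Y c ∩ Y d).card
    rw [s2, s3]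
    omega

end Pool.Agent.Y647.RG
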