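import Mathlib
import Pool.Agent.Y647.RG.Count

/-!
# The generic rigidity matroid of `ℝ³` has the largest rank on claw-free graphs
-/

set_option autoImplicit false
set_option linter.unusedSectionVars false

namespace Pool.Agent.Y647.RG

open Matrix Finset Pool.Agent.W824.BJ Pool.Agent.H789R5 Pool.Agent.H283R2.DR

variable {V : Type} [Fintype V] [DecidableEq V] {ρ : SimpleGraph V → ℕ}
variable {C : Type} [Fintype C] [DecidableEq C]

theorem drop_small {H : SimpleGraph V} {r : ℕ} {T : Finset C} {Y : C → Finset V}
    (hB : FB H r T Y) {c : C} (hc : c ∈ T) (h1 : (Y c).card ≤ 1) : FB H r (T.erase c) Y := by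
  obtain ⟨g1, g2, g3⟩ := hB
  refine ⟨?_, ?_, ?_⟩
  · intro v
    exact (Finset.card_le_card (Finset.filter_subset_filter _ (Finset.erase_subset _ _))).trans
      (g1 v)
  · intro u v huv
    obtain ⟨d, hd, hu, hv⟩ := g2 u v huv
    refine ⟨d, Finset.mem_erase.2 ⟨?_, hd⟩, hu, hv⟩
    rintro rfl
    exact huv.ne (Finset.card_le_one.1 h1 u hu v hv)
  · have e1 := off_insert (Finset.notMem_erase c T) (fun a b => rho (Y a ∩ Y b).card)
      (fun a b => by rw [Finset.inter_comm])
    rw [Finset.insert_erase hc] at e1
    have e2 : ∑ c ∈ T, rho (Y c).card = rho (Y c).card + ∑ d ∈ T.erase c, rho (Y d).card :=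
      (Finset.add_sum_erase T (fun c => rho (Y c).card) hc).symm
    have e3 : ∑ d ∈ T.erase c, rho (Y d ∩ Y c).card = 0 := by
      apply Finset.sum_eq_zero
      intro d _
      exact rho_le_one ((Finset.card_le_card Finset.inter_subset_right).trans h1)
    have e4 : ∑ q ∈ T.offDiag, rho (Y q.1 ∩ Y q.2).card =
      ∑ q ∈ (T.erase c).offDiag, rho (Y q.1 ∩ Y q.2).card +
        2 * ∑ d ∈ T.erase c, rho (Y d ∩ Y c).card := e1
    omega

theorem peel (hρ : CR ρ) {T : Finset C} {Y : C → Finset V}
    (h1 : ∀ v, (T.filter fun c => v ∈ Y c).card ≤ 2) (hsz : ∀ c ∈ T, 2 ≤ (Y c).card)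
    (hst : ∀ S, S ⊆ T → 2 ≤ S.card → 2 * ∑ c ∈ S, rho (Y c).card <
      2 * rho (S.biUnion Y).card + ∑ q ∈ S.offDiag, rho (Y q.1 ∩ Y q.2).card) (m : ℕ) :
    ∀ S, S ⊆ T → S.card = m → 2 * ρ (bd Y S) + ∑ q ∈ S.offDiag, rho (Y q.1 ∩ Y q.2).card ≤
      2 * ∑ c ∈ S, rho (Y c).card := by
  classical
  -- pairs of members
  have hpair : ∀ c ∈ T, ∀ d ∈ T, c ≠ d → (Y c ∩ Y d).card ≤ 2 ∧ 3 ≤ (Y c ∪ Y d).card := by
    intro c hc d hd hcd
    have g1 := hst {c, d} (by
      intro x hx
      rw [Finset.mem_insert, Finset.mem_singleton] at hx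
      rcases hx with rfl | rfl
      · exact hc
      · exact hd) (by rw [Finset.card_pair hcd])
    have g2 := off_insert (S := ({d} : Finset C)) (d := c) (by
      rw [Finset.mem_singleton]; exact hcd) (fun a b => rho (Y a ∩ Y b).card)
      (fun a b => by rw [Finset.inter_comm])
    have g3 : ∑ q ∈ ({c, d} : Finset C).offDiag, rho (Y q.1 ∩ Y q.2).card =
        2 * rho (Y d ∩ Y c).card := by
      refine g2.trans ?_
      simp
    have g4 : ({c, d} : Finset C).biUnion Y = Y c ∪ Y d := by
      rw [Finset.biUnion_insert, Finset.singleton_biUnion]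
    rw [Finset.sum_pair hcd, g3, g4, Finset.inter_comm] at g1
    have g5 := Finset.card_union_add_card_inter (Y c) (Y d)
    have g6 := hsz c hc
    have g7 := hsz d hd
    have g8 := Finset.card_le_card (Finset.inter_subset_left (s₁ := Y c) (s₂ := Y d))
    have g9 := Finset.card_le_card (Finset.inter_subset_right (s₁ := Y c) (s₂ := Y d))
    generalize (Y c ∩ Y d).card = t at *
    generalize (Y c ∪ Y d).card = u at *
    generalize (Y c).card = a at *
    generalize (Y d).card = b at *
    unfold rho at g1
    split_ifs at g1 <;> omega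
  induction m with
  | zero =>
    intro S _ hS
    rw [Finset.card_eq_zero] at hS
    subst hS
    have g1 := hρ.le (bd Y ∅)
    have g2 : (bd Y (∅ : Finset C)).edgeSet = ∅ := by
      rw [Set.eq_empty_iff_forall_notMem]
      intro e
      induction e using Sym2.ind with
      | _ a b =>
        rintro ⟨-, c, hc, -⟩
        exact absurd hc (Finset.notMem_empty c)
    rw [g2, Set.ncard_empty] at g1
    simp only [Finset.offDiag_empty, Finset.sum_empty]
    omega
  | succ m ih =>
    intro S hS hSm
    rcases Nat.lt_or_ge S.card 2 with hS2 | hS2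
    · obtain ⟨c, rfl⟩ := Finset.card_eq_one.1 (show S.card = 1 by omega)
      have g1 : bd Y {c} = kg (Y c) := by
        ext a b
        constructor
        · rintro ⟨hab, d, hd, h⟩
          rw [Finset.mem_singleton] at hd
          subst hd
          exact ⟨hab, h⟩
        · rintro ⟨hab, h⟩
          exact ⟨hab, c, Finset.mem_singleton_self c, h⟩
      rw [g1, Finset.offDiag_singleton, Finset.sum_empty, Finset.sum_singleton]
      have := hρ.kg_le (Y c)
      omega
    · -- a member with few neighbours
      have hu3 : 3 ≤ (S.biUnion Y).card := by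
        obtain ⟨c, hc, d, hd, hcd⟩ := Finset.one_lt_card.1 (show 1 < S.card by omega)
        refine (hpair c (hS hc) d (hS hd) hcd).2.trans (Finset.card_le_card ?_)
        apply Finset.union_subset
        · exact Finset.subset_biUnion_of_mem Y hc
        · exact Finset.subset_biUnion_of_mem Y hd
      obtain ⟨c, hc, hlt⟩ : ∃ c ∈ S, ∑ d ∈ S.erase c,
          (3 * (Y d ∩ Y c).card - rho (Y d ∩ Y c).card) < 12 := by
        by_contra hcon
        push Not at hcon
        have g1 := hst S hS hS2
        have g2 := union_card h1 S hS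
        have g3 : S.card * 12 ≤ ∑ c ∈ S, ∑ d ∈ S.erase c,
            (3 * (Y d ∩ Y c).card - rho (Y d ∩ Y c).card) := by
          rw [← smul_eq_mul]
          exact Finset.card_nsmul_le_sum S _ 12 hcon
        have g4 : ∑ c ∈ S, ∑ d ∈ S.erase c,
            (3 * (Y d ∩ Y c).card - rho (Y d ∩ Y c).card) =
            ∑ q ∈ S.offDiag, (3 * (Y q.1 ∩ Y q.2).card - rho (Y q.1 ∩ Y q.2).card) := by
          rw [Finset.sum_sigma']
          refine Finset.sum_bij (fun x _ => (x.2, x.1)) ?_ ?_ ?_ ?_
          · rintro ⟨a, b⟩ hx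
            rw [Finset.mem_sigma, Finset.mem_erase] at hx
            rw [Finset.mem_offDiag]
            exact ⟨hx.2.2, hx.1, hx.2.1⟩
          · rintro ⟨a, b⟩ _ ⟨a', b'⟩ _ h
            simp only [Prod.mk.injEq] at h
            obtain ⟨rfl, rfl⟩ := h
            rfl
          · rintro ⟨a, b⟩ hx
            rw [Finset.mem_offDiag] at hx
            refine ⟨⟨b, a⟩, ?_, rfl⟩
            rw [Finset.mem_sigma, Finset.mem_erase]
            exact ⟨hx.2.1, hx.2.2, hx.1⟩
          · rintro ⟨a, b⟩ _
            rfl
        have g5 : ∑ q ∈ S.offDiag, (3 * (Y q.1 ∩ Y q.2).card - rho (Y q.1 ∩ Y q.2).card) +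
            ∑ q ∈ S.offDiag, rho (Y q.1 ∩ Y q.2).card =
            3 * ∑ q ∈ S.offDiag, (Y q.1 ∩ Y q.2).card := by
          rw [← Finset.sum_add_distrib, Finset.mul_sum]
          apply Finset.sum_congr rfl
          intro q _
          have : rho (Y q.1 ∩ Y q.2).card ≤ 3 * (Y q.1 ∩ Y q.2).card := by
            unfold rho
            split_ifs <;> omega
          omega
        have g6 : 3 * ∑ c ∈ S, (Y c).card ≤ ∑ c ∈ S, rho (Y c).card + 6 * S.card := by
          have k1 : 6 * S.card = ∑ c ∈ S, 6 := by
            rw [Finset.sum_const, smul_eq_mul, mul_comm]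
          rw [k1, ← Finset.sum_add_distrib, Finset.mul_sum]
          apply Finset.sum_le_sum
          intro c hc
          have k2 := hsz c (hS hc)
          unfold rho
          split_ifs <;> omega
        have g7 : rho (S.biUnion Y).card = 3 * (S.biUnion Y).card - 6 := by
          unfold rho
          rw [if_neg (by omega), if_neg (by omega)]
        omega
      have hcT := hS hc
      have hS'T : S.erase c ⊆ T := (Finset.erase_subset _ _).trans hS
      have hih := ih (S.erase c) hS'T (by rw [Finset.card_erase_of_mem hc]; omega)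
      have e1 : ∑ q ∈ S.offDiag, rho (Y q.1 ∩ Y q.2).card =
          ∑ q ∈ (S.erase c).offDiag, rho (Y q.1 ∩ Y q.2).card +
          2 * ∑ d ∈ S.erase c, rho (Y d ∩ Y c).card := by
        have := off_insert (Finset.notMem_erase c S) (fun a b => rho (Y a ∩ Y b).card)
          (fun a b => by rw [Finset.inter_comm])
        rw [Finset.insert_erase hc] at this
        exact this
      have e2 : ∑ d ∈ S, rho (Y d).card = rho (Y c).card + ∑ d ∈ S.erase c, rho (Y d).card :=
        (Finset.add_sum_erase S (fun c => rho (Y c).card) hc).symm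
      have e3 : bd Y S ≤ bd Y (S.erase c) ⊔ kg (Y c) := by
        rintro a b ⟨hab, d, hd, ha, hb⟩
        by_cases hdc : d = c
        · subst hdc
          exact Or.inr ⟨hab, ha, hb⟩
        · exact Or.inl ⟨hab, d, Finset.mem_erase.2 ⟨hdc, hd⟩, ha, hb⟩
      have e4 := hρ.sub (bd Y (S.erase c)) (kg (Y c))
      have e5 := hρ.mono e3
      have e6 := hρ.kg_le (Y c)
      -- the common edges
      have hle : ∀ d ∈ S.erase c, kg (Y d ∩ Y c) ≤ bd Y (S.erase c) ⊓ kg (Y c) := by
        rintro d hd a b ⟨hab, ha, hb⟩
        rw [Finset.mem_inter] at ha hb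
        exact ⟨⟨hab, d, hd, ha.1, hb.1⟩, hab, ha.2, hb.2⟩
      have e7 : ∑ d ∈ S.erase c, rho (Y d ∩ Y c).card ≤ ρ (bd Y (S.erase c) ⊓ kg (Y c)) := by
        set D := (S.erase c).filter fun d => (Y d ∩ Y c).card = 2 with hD
        have k1 : ∑ d ∈ S.erase c, rho (Y d ∩ Y c).card = D.card := by
          rw [hD, Finset.card_filter]
          apply Finset.sum_congr rfl
          intro d hd
          have hd' := Finset.mem_erase.1 hd
          have := (hpair d (hS hd'.2) c hcT hd'.1).1
          unfold rho
          split_ifs <;> omega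
        have k2 : D.card * 5 ≤ ∑ d ∈ S.erase c,
            (3 * (Y d ∩ Y c).card - rho (Y d ∩ Y c).card) := by
          have k3 : D.card * 5 ≤ ∑ d ∈ D, (3 * (Y d ∩ Y c).card - rho (Y d ∩ Y c).card) := by
            rw [← smul_eq_mul]
            apply Finset.card_nsmul_le_sum
            intro d hd
            rw [hD, Finset.mem_filter] at hd
            rw [hd.2]
            decide
          exact k3.trans (Finset.sum_le_sum_of_subset (Finset.filter_subset _ _))
        rw [k1]
        have k3 : D.card = 0 ∨ D.card = 1 ∨ D.card = 2 := by omega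
        rcases k3 with k3 | k3 | k3
        · omega
        · obtain ⟨d, hd⟩ := Finset.card_eq_one.1 k3
          have hdD : d ∈ D := by rw [hd]; exact Finset.mem_singleton_self d
          rw [hD, Finset.mem_filter] at hdD
          have hd' := Finset.mem_erase.1 hdD.1
          have h3 := (hpair d (hS hd'.2) c hcT hd'.1).2
          obtain ⟨w, hw, hw'⟩ := Finset.exists_mem_notMem_of_card_lt_card
            (s := Y d ∩ Y c) (t := Y d ∪ Y c) (by omega)
          have h4 := hρ.one hdD.2 hw'
          have h5 := hρ.mono (hle d hdD.1)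
          omega
        · obtain ⟨d, d', hdd, hd⟩ := Finset.card_eq_two.1 k3
          have hdD : d ∈ D := by rw [hd]; simp
          have hdD' : d' ∈ D := by rw [hd]; simp
          rw [hD, Finset.mem_filter] at hdD hdD'
          have f1 := Finset.mem_erase.1 hdD.1
          have f2 := Finset.mem_erase.1 hdD'.1
          have h4 := hρ.two hdD.2 hdD'.2 (by
            intro v hv hv'
            rw [Finset.mem_inter] at hv hv'
            exact three_memT h1 (hS f1.2) (hS f2.2) hcT hv.1 hv'.1 hv.2 hdd f1.1 f2.1)
          have h5 := hρ.mono (sup_le (hle d hdD.1) (hle d' hdD'.1))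
          omega
      omega

theorem bodies_rank (hρ : CR ρ) {Z : C → Finset V} (h : TwoFold Z) :
    ρ (bodies Z) ≤ genRank 3 (bodies Z) := by
  classical
  obtain ⟨C', i1, i2, Y0, h1, h2, -, h3⟩ := attainS h
  set r := genRank 3 (bodies Z) with hr
  have hex : ∃ n, ∃ (T : Finset C') (Y : C' → Finset V), FB (bodies Z) r T Y ∧ T.card = n := by
    refine ⟨_, univ, Y0, ⟨h1, ?_, h3.ge⟩, rfl⟩
    intro u v huv
    obtain ⟨c, hc⟩ := h2 u v huv
    exact ⟨c, Finset.mem_univ _, hc⟩
  obtain ⟨T, Y, hB, hTn⟩ := Nat.find_spec hex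
  have hmin : ∀ (T' : Finset C') (Y' : C' → Finset V), FB (bodies Z) r T' Y' →
      T.card ≤ T'.card := fun T' Y' h => hTn ▸ Nat.find_min' hex ⟨T', Y', h, rfl⟩
  have hsz : ∀ c ∈ T, 2 ≤ (Y c).card := by
    intro c hc
    by_contra hn
    have g1 := hmin _ _ (drop_small hB hc (by omega))
    rw [Finset.card_erase_of_mem hc] at g1
    have := Finset.card_pos.2 ⟨c, hc⟩
    omega
  have hst : ∀ S, S ⊆ T → 2 ≤ S.card → 2 * ∑ c ∈ S, rho (Y c).card <
      2 * rho (S.biUnion Y).card + ∑ q ∈ S.offDiag, rho (Y q.1 ∩ Y q.2).card := by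
    intro S hS hS2
    by_contra hn
    obtain ⟨c0, hc0⟩ := Finset.card_pos.1 (show 0 < S.card by omega)
    have g1 := hmin _ _ (merge hB hS hc0 (by omega))
    have g2 : c0 ∉ T \ S := fun h => (Finset.mem_sdiff.1 h).2 hc0
    rw [Finset.card_insert_of_notMem g2, Finset.card_sdiff_of_subset hS] at g1
    have g3 := Finset.card_le_card hS
    omega
  have h5 := peel hρ hB.1 hsz hst _ T subset_rfl rfl
  have h6 : bodies Z ≤ bd Y T := by
    intro u v huv
    obtain ⟨c, hc, hu, hv⟩ := hB.2.1 u v huv
    exact ⟨huv.ne, c, hc, hu, hv⟩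
  have h7 := hρ.mono h6
  have h8 := hB.2.2
  omega

/-- the dimension count for the completion of a tied neighbourhood -/
theorem lc_mo {p : V → Fin 3 → ℝ} {G : SimpleGraph V} (hp : MG p) {v : V} {N : Finset V}
    (hN : ∀ w, G.Adj v w ↔ w ∈ N) (hN3 : 3 ≤ N.card) (hT : Tied G p N) :
    mo G p + 3 ≤ mo (lc G v N) p := by
  have hvN : v ∉ N := fun h => ((hN v).2 h).ne rfl
  obtain ⟨T, hTN, hT3⟩ := Finset.exists_subset_card_eq (s := N) (n := 3) (by omega)
  let Gc : SimpleGraph V := G ⊔ lc G v N
  have e1 : Mot G p ≤ Mot Gc p := by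
    intro q hq
    obtain ⟨A, b, hA, hb⟩ := hT q hq
    rw [mem_mot] at hq ⊢
    rintro x y (hxy | ⟨hxy, -, -⟩ | ⟨-, hx, hy⟩)
    · exact hq x y hxy
    · exact hq x y hxy
    · rw [hb x hx, hb y hy, add_sub_add_right_eq_sub, ← Matrix.mulVec_sub]
      exact skew_dot_self hA _
  have e2 : mo G p ≤ mo Gc p := Submodule.finrank_mono e1
  have e3 := Pool.Agent.H789R5.ext0 hp Gc v T (by omega)
    (fun z hz => Or.inl ((hN z).2 (hTN hz)))
  have e4 : mo (Gc.deleteIncidenceSet v) p ≤ mo (lc G v N) p := by
    apply mo_anti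
    intro a b hab
    rw [SimpleGraph.deleteIncidenceSet_adj]
    refine ⟨Or.inr hab, ?_, ?_⟩
    · rintro rfl
      rcases hab with h | h
      · exact h.2.1 rfl
      · exact hvN h.2.1
    · rintro rfl
      rcases hab with h | h
      · exact h.2.2 rfl
      · exact hvN h.2.2
  omega

/-- **maximality on claw-free graphs** -/
theorem count_le {p : V → Fin 3 → ℝ} (hp : MG p) (hρ : CR ρ) (n : ℕ) :
    ∀ G : SimpleGraph V, ClawFree G → nis G ≤ n → ρ G ≤ genRank 3 G := by
  classical
  have base : ∀ G : SimpleGraph V, ClawFree G → CovN G p → ρ G ≤ genRank 3 G := by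
    intro G hc hK
    letI : Fintype (Idx G p) := Fintype.ofFinite _
    letI : Fintype (Quotient (tieRel hp.toGen G)) := Fintype.ofFinite _
    have e0 := bodies_rank hρ (cls_twoFoldN hp.toGen hc hK)
    have e1 := add_barsN hp hc hK _ (loose hp.toGen G) le_rfl rfl
    have e2 : mo G p = mo (bodies (cls hp.toGen G) ⊔ loose hp.toGen G) p := by
      unfold mo
      rw [mot_eq hp.toGen]
    have e3 := genRank_add hp G
    have e4 := genRank_add hp (bodies (cls hp.toGen G))
    have e5 : G ≤ bodies (cls hp.toGen G) ⊔ loose hp.toGen G := by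
      intro u v huv
      by_cases h : ∃ c, u ∈ cls hp.toGen G c ∧ v ∈ cls hp.toGen G c
      · exact Or.inl ⟨huv.ne, h⟩
      · exact Or.inr ⟨huv, h⟩
    have e6 := hρ.mono e5
    have e7 := hρ.join (bodies (cls hp.toGen G)) (loose hp.toGen G)
    omega
  induction n with
  | zero =>
    intro G hc hn
    apply base G hc
    intro v w hvw
    exfalso
    have h1 : 0 < nis G := Finset.card_pos.2 ⟨v, Finset.mem_filter.2 ⟨Finset.mem_univ _, w, hvw⟩⟩
    omega
  | succ n ih =>
    intro G hc hn
    by_cases hK : CovN G p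
    · exact base G hc hK
    · unfold CovN at hK
      push Not at hK
      obtain ⟨v, w, hvw, hno⟩ := hK
      have hv : ∀ Z, Big G p Z → v ∉ Z := fun Z hZ hvZ => hno Z hvZ hZ
      set N : Finset V := univ.filter fun w => G.Adj v w with hNdef
      have hN : ∀ w, G.Adj v w ↔ w ∈ N := by
        intro w
        rw [hNdef, Finset.mem_filter]
        exact ⟨fun h => ⟨Finset.mem_univ _, h⟩, fun h => h.2⟩
      have hT : ∀ a ∈ N, ∀ b ∈ N, ∀ c ∈ N, G.Adj a b → G.Adj a c → G.Adj b c → False := by
        intro a ha b hb c hcc hab hac hbc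
        have ha' := (hN a).2 ha
        have hb' := (hN b).2 hb
        have hc' := (hN c).2 hcc
        apply hv {v, a, b, c}
        · refine ⟨rigid_four hp.toGen G ha' hb' hc' hab hac hbc, ?_⟩
          rw [Finset.card_eq_four.2 ⟨v, a, b, c, ha'.ne, hb'.ne, hc'.ne, hab.ne, hac.ne, hbc.ne,
            rfl⟩]
        · simp
      have hI : ∀ a ∈ N, ∀ b ∈ N, ∀ c ∈ N, a ≠ b → a ≠ c → b ≠ c →
          G.Adj a b ∨ G.Adj a c ∨ G.Adj b c :=
        fun a ha b hb c hcc => hc v a b c ((hN a).2 ha) ((hN b).2 hb) ((hN c).2 hcc)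
      have h5 := card_le5 hT hI
      have hvN : v ∉ N := fun h => ((hN v).2 h).ne rfl
      have g0 := genRank_add hp G
      -- deletion
      have stepA' : mo G p + N.card ≤ mo (G.deleteIncidenceSet v) p → ρ G ≤ genRank 3 G := by
        intro hm
        have hA : ρ (G.deleteIncidenceSet v) ≤ genRank 3 (G.deleteIncidenceSet v) := by
          apply ih _ (claw_del hc v)
          have : nis (G.deleteIncidenceSet v) < nis G := by
            apply nis_lt hvw
            intro a b hab
            rw [SimpleGraph.deleteIncidenceSet_adj] at hab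
            exact ⟨hab.2.1, b, hab.1⟩
          omega
        have g1 := genRank_add hp (G.deleteIncidenceSet v)
        have g2 : G ≤ G.deleteIncidenceSet v ⊔ (G \ G.deleteIncidenceSet v) := by
          rw [sup_sdiff_self_right]
          exact le_sup_right
        have g3 := hρ.mono g2
        have g4 := hρ.join (G.deleteIncidenceSet v) (G \ G.deleteIncidenceSet v)
        have g5 : (G \ G.deleteIncidenceSet v).edgeSet.ncard ≤ N.card := by
          have k1 : (G \ G.deleteIncidenceSet v).edgeSet ⊆
              ((N.image fun w => s(v, w) : Finset (Sym2 V)) : Set (Sym2 V)) := by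
            intro e
            induction e using Sym2.ind with
            | _ a b =>
              rw [SimpleGraph.mem_edgeSet, SimpleGraph.sdiff_adj,
                SimpleGraph.deleteIncidenceSet_adj, Finset.mem_coe, Finset.mem_image]
              rintro ⟨hab, hn⟩
              by_cases ha : a = v
              · subst ha
                exact ⟨b, (hN b).1 hab, rfl⟩
              · by_cases hb : b = v
                · subst hb
                  exact ⟨a, (hN a).1 hab.symm, Sym2.eq_swap⟩
                · exact absurd ⟨hab, ha, hb⟩ hn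
          have k2 := Set.ncard_le_ncard k1 (Set.toFinite _)
          rw [Set.ncard_coe_finset] at k2
          exact k2.trans Finset.card_image_le
        omega
      -- completion
      have stepB' : 4 ≤ N.card → Tied G p N → ρ G ≤ genRank 3 G := by
        intro hN4 ht
        have hB : ρ (lc G v N) ≤ genRank 3 (lc G v N) := by
          apply ih _ (claw_lc hc hN)
          have : nis (lc G v N) < nis G := by
            apply nis_lt hvw
            rintro a b (hab | hab)
            · exact ⟨hab.2.1, b, hab.1⟩
            · have := (hN a).2 hab.2.1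
              exact ⟨this.ne.symm, v, this.symm⟩
          omega
        have g1 := genRank_add hp (lc G v N)
        have g2 := lc_mo hp hN (by omega) ht
        have g3 : G ≤ lc G v N ⊔ kg (insert v N) := by
          intro a b hab
          by_cases ha : a = v
          · subst ha
            exact Or.inr ⟨hab.ne, Finset.mem_insert_self _ _,
              Finset.mem_insert_of_mem ((hN b).1 hab)⟩
          · by_cases hb : b = v
            · subst hb
              exact Or.inr ⟨hab.ne, Finset.mem_insert_of_mem ((hN a).1 hab.symm),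
                Finset.mem_insert_self _ _⟩
            · exact Or.inl (Or.inl ⟨hab, ha, hb⟩)
        have g4 := hρ.mono g3
        have g5 := hρ.sub (lc G v N) (kg (insert v N))
        have g6 : kg N ≤ lc G v N ⊓ kg (insert v N) := by
          rintro a b ⟨hab, ha, hb⟩
          exact ⟨Or.inr ⟨hab, ha, hb⟩, hab, Finset.mem_insert_of_mem ha,
            Finset.mem_insert_of_mem hb⟩
        have g7 := hρ.mono g6
        have g8 := hρ.comp N (by omega)
        have g9 := hρ.comp (insert v N) (by rw [Finset.card_insert_of_notMem hvN]; omega)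
        rw [Finset.card_insert_of_notMem hvN] at g9
        omega
      rcases Nat.lt_or_ge N.card 4 with h3 | h3
      · exact stepA' (Pool.Agent.H789R5.ext0 hp G v N (by omega) (fun z hz => (hN z).2 hz))
      · rcases Nat.lt_or_ge N.card 5 with h4 | h4
        · have hN4 : N.card = 4 := by omega
          rcases deg4 hp G v hN4 (fun z hz => (hN z).2 hz) with h | h
          · exact stepA' (by rw [hN4]; exact h)
          · exact stepB' h3 h
        · have hN5 : N.card = 5 := by omega
          obtain ⟨b, hb, hbN, hside⟩ := cycle5 hT hI hN5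
          rcases deg5 hp G v hb (fun w => by rw [hbN]; exact hN w) hside with h | h
          · exact stepA' (by rw [hN5]; exact h)
          · rw [hbN] at h
            exact stepB' h3 h

end Pool.Agent.Y647.RG
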