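import Mathlib
import Pool.Agent.Y647.RG.Count2

/-!
# Reductions which preserve maximality of the rank
-/

set_option autoImplicit false
set_option linter.unusedSectionVars false

namespace Pool.Agent.Y647.RG

open Matrix Finset Pool.Agent.W824.BJ Pool.Agent.H789R5 Pool.Agent.H283R2.DR

variable {V : Type} [Fintype V] [DecidableEq V] {ρ : SimpleGraph V → ℕ} {p : V → Fin 3 → ℝ}
  {G : SimpleGraph V}

theorem stepA_count (hp : MG p) (hρ : CR ρ) {v : V} {N : Finset V} (hN : ∀ w, G.Adj v w ↔ w ∈ N)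
    (hm : mo G p + N.card ≤ mo (G.deleteIncidenceSet v) p)
    (hA : ρ (G.deleteIncidenceSet v) ≤ genRank 3 (G.deleteIncidenceSet v)) :
    ρ G ≤ genRank 3 G := by
  have g0 := genRank_add hp G
  have g1 := genRank_add hp (G.deleteIncidenceSet v)
  have g2 : G ≤ G.deleteIncidenceSet v ⊔ (G \ G.deleteIncidenceSet v) := by
    rw [sup_sdiff_self_right]
    exact le_sup_right
  have g3 := hρ.mono g2
  have g4 := hρ.join (G.deleteIncidenceSet v) (G \ G.deleteIncidenceSet v)
  have g5 : (G \ G.deleteIncidenceSet v).edgeSet.ncard ≤ N.card := by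
    have k1 : (G \ G.deleteIncidenceSet v).edgeSet ⊆
        ((N.image fun w => s(v, w) : Finset (Sym2 V)) : Set (Sym2 V)) := by
      intro e
      induction e using Sym2.ind with
      | _ a b =>
        rw [SimpleGraph.mem_edgeSet, SimpleGraph.sdiff_adj,
          SimpleGraph.deleteIncidenceSet_adj, Finset.mem_coe, Finset.mem_image]
        rintro ⟨hab, hn⟩
        by_cases ha : a = v
        · subst ha
          exact ⟨b, (hN b).1 hab, rfl⟩
        · by_cases hb : b = v
          · subst hb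
            exact ⟨a, (hN a).1 hab.symm, Sym2.eq_swap⟩
          · exact absurd ⟨hab, ha, hb⟩ hn
    have k2 := Set.ncard_le_ncard k1 (Set.toFinite _)
    rw [Set.ncard_coe_finset] at k2
    exact k2.trans Finset.card_image_le
  omega

theorem stepB_count (hp : MG p) (hρ : CR ρ) {v : V} {N : Finset V} (hN : ∀ w, G.Adj v w ↔ w ∈ N)
    (hN3 : 3 ≤ N.card) (ht : Tied G p N) (hB : ρ (lc G v N) ≤ genRank 3 (lc G v N)) :
    ρ G ≤ genRank 3 G := by
  have hvN : v ∉ N := fun h => ((hN v).2 h).ne rfl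
  have g0 := genRank_add hp G
  have g1 := genRank_add hp (lc G v N)
  have g2 := lc_mo hp hN hN3 ht
  have g3 : G ≤ lc G v N ⊔ kg (insert v N) := by
    intro a b hab
    by_cases ha : a = v
    · subst ha
      exact Or.inr ⟨hab.ne, Finset.mem_insert_self _ _,
        Finset.mem_insert_of_mem ((hN b).1 hab)⟩
    · by_cases hb : b = v
      · subst hb
        exact Or.inr ⟨hab.ne, Finset.mem_insert_of_mem ((hN a).1 hab.symm),
          Finset.mem_insert_self _ _⟩
      · exact Or.inl (Or.inl ⟨hab, ha, hb⟩)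
  have g4 := hρ.mono g3
  have g5 := hρ.sub (lc G v N) (kg (insert v N))
  have g6 : kg N ≤ lc G v N ⊓ kg (insert v N) := by
    rintro a b ⟨hab, ha, hb⟩
    exact ⟨Or.inr ⟨hab, ha, hb⟩, hab, Finset.mem_insert_of_mem ha,
      Finset.mem_insert_of_mem hb⟩
  have g7 := hρ.mono g6
  have g8 := hρ.comp N (by omega)
  have g9 := hρ.comp (insert v N) (by rw [Finset.card_insert_of_notMem hvN]; omega)
  rw [Finset.card_insert_of_notMem hvN] at g9
  omega

theorem three_count (hp : MG p) (hρ : CR ρ) {v : V} {N : Finset V} (hN : ∀ w, G.Adj v w ↔ w ∈ N)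
    (hN3 : N.card ≤ 3) (hA : ρ (G.deleteIncidenceSet v) ≤ genRank 3 (G.deleteIncidenceSet v)) :
    ρ G ≤ genRank 3 G :=
  stepA_count hp hρ hN (Pool.Agent.H789R5.ext0 hp G v N hN3 (fun z hz => (hN z).2 hz)) hA

theorem four_count (hp : MG p) (hρ : CR ρ) {v : V} {N : Finset V} (hN : ∀ w, G.Adj v w ↔ w ∈ N)
    (hN4 : N.card = 4) (hA : ρ (G.deleteIncidenceSet v) ≤ genRank 3 (G.deleteIncidenceSet v))
    (hB : ρ (lc G v N) ≤ genRank 3 (lc G v N)) : ρ G ≤ genRank 3 G := by
  rcases deg4 hp G v hN4 (fun z hz => (hN z).2 hz) with h | h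
  · exact stepA_count hp hρ hN (by rw [hN4]; exact h) hA
  · exact stepB_count hp hρ hN (by omega) h hB

theorem five_count (hp : MG p) (hρ : CR ρ) {v : V} {b : Fin 5 → V} (hb : Function.Injective b)
    (hN : ∀ w, G.Adj v w ↔ w ∈ univ.image b) (hside : ∀ i, G.Adj (b i) (b (i + 2)))
    (hA : ρ (G.deleteIncidenceSet v) ≤ genRank 3 (G.deleteIncidenceSet v))
    (hB : ρ (lc G v (univ.image b)) ≤ genRank 3 (lc G v (univ.image b))) :
    ρ G ≤ genRank 3 G := by
  have hc : (univ.image b).card = 5 := by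
    rw [Finset.card_image_of_injective _ hb]
    simp
  rcases deg5 hp G v hb hN hside with h | h
  · exact stepA_count hp hρ hN (by rw [hc]; exact h) hA
  · exact stepB_count hp hρ hN (by omega) h hB

/-! ### Matroids on the pairs -/

section matroid

variable {n : ℕ}

/-- the ordered edges -/
def eset (F : SimpleGraph (Fin n)) : Set (Fin n × Fin n) := {x | x.1 < x.2 ∧ F.Adj x.1 x.2}

theorem eset_ncard (F : SimpleGraph (Fin n)) : (eset F).ncard = F.edgeSet.ncard := by
  have h1 : F.edgeSet = (fun e : Fin n × Fin n => s(e.1, e.2)) '' eset F := by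
    ext e
    induction e using Sym2.ind with
    | _ a b =>
      rw [SimpleGraph.mem_edgeSet, Set.mem_image]
      constructor
      · intro h
        rcases lt_or_gt_of_ne h.ne with h1 | h1
        · exact ⟨(a, b), ⟨h1, h⟩, rfl⟩
        · exact ⟨(b, a), ⟨h1, h.symm⟩, Sym2.eq_swap⟩
      · rintro ⟨⟨x, y⟩, ⟨h, h'⟩, he⟩
        rcases Sym2.eq_iff.1 he with ⟨rfl, rfl⟩ | ⟨rfl, rfl⟩
        · exact h'
        · exact h'.symm
  rw [h1, Set.InjOn.ncard_image]
  rintro ⟨a, b⟩ ⟨h1, -⟩ ⟨c, d⟩ ⟨h2, -⟩ he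
  simp only at h1 h2 he
  rcases Sym2.eq_iff.1 he with ⟨rfl, rfl⟩ | ⟨rfl, rfl⟩
  · rfl
  · exact absurd h1 (lt_asymm h2)

theorem cr_matroid (M : Matroid (Fin n × Fin n))
    (hr : ∀ S : Finset (Fin n), 3 ≤ S.card →
      M.eRk {x : Fin n × Fin n | x.1 ∈ S ∧ x.2 ∈ S ∧ x.1 < x.2} = ((3 * S.card - 6 : ℕ) : ℕ∞)) :
    CR (fun H => (M.eRk (eset H)).toNat) := by
  have hfin : ∀ X : Set (Fin n × Fin n), M.eRk X ≠ ⊤ := fun X =>
    ((M.eRk_le_encard X).trans_lt (Set.toFinite X).encard_lt_top).ne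
  have hco : ∀ X : Set (Fin n × Fin n), (((M.eRk X).toNat : ℕ) : ℕ∞) = M.eRk X := fun X =>
    ENat.coe_toNat (hfin X)
  refine ⟨?_, ?_, ?_, ?_⟩
  · intro H H' h
    apply ENat.toNat_le_toNat _ (hfin _)
    apply M.eRk_mono
    exact fun x hx => ⟨hx.1, h hx.2⟩
  · intro H H'
    have h1 := M.eRk_submod (eset H) (eset H')
    have e1 : eset H ∩ eset H' = eset (H ⊓ H') := by
      ext x
      constructor
      · rintro ⟨h, h'⟩
        exact ⟨h.1, h.2, h'.2⟩
      · rintro ⟨h, h', h''⟩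
        exact ⟨⟨h, h'⟩, h, h''⟩
    have e2 : eset H ∪ eset H' = eset (H ⊔ H') := by
      ext x
      constructor
      · rintro (h | h)
        · exact ⟨h.1, Or.inl h.2⟩
        · exact ⟨h.1, Or.inr h.2⟩
      · rintro ⟨h, h' | h'⟩
        · exact Or.inl ⟨h, h'⟩
        · exact Or.inr ⟨h, h'⟩
    rw [e1, e2, ← hco (eset (H ⊓ H')), ← hco (eset (H ⊔ H')), ← hco (eset H),
      ← hco (eset H'), ← Nat.cast_add, ← Nat.cast_add, Nat.cast_le] at h1
    show (M.eRk (eset (H ⊔ H'))).toNat + (M.eRk (eset (H ⊓ H'))).toNat ≤ _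
    omega
  · intro H
    have h1 := M.eRk_le_encard (eset H)
    rw [← (Set.toFinite (eset H)).cast_ncard_eq, eset_ncard, ← hco (eset H), Nat.cast_le] at h1
    exact h1
  · intro U hU
    have e1 : eset (kg U) = {x : Fin n × Fin n | x.1 ∈ U ∧ x.2 ∈ U ∧ x.1 < x.2} := by
      ext x
      constructor
      · rintro ⟨h1, -, h2, h3⟩
        exact ⟨h2, h3, h1⟩
      · rintro ⟨h1, h2, h3⟩
        exact ⟨h3, h3.ne, h1, h2⟩
    show (M.eRk (eset (kg U))).toNat = _
    rw [e1, hr U hU, ENat.toNat_coe]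

/-- full rank means independent rows -/
theorem rows_of_rank {I : Set (Fin n × Fin n)} (hI : ∀ e ∈ I, e.1 < e.2)
    (h : I.ncard ≤ genRank 3 (SimpleGraph.fromRel (fun a b => (a, b) ∈ I))) :
    ∃ p : Fin n → Fin 3 → ℝ,
      LinearIndependent ℝ
        (fun e : I => fun v : Fin n => fun k : Fin 3 =>
          if v = e.1.1 then p e.1.1 k - p e.1.2 k
          else if v = e.1.2 then p e.1.2 k - p e.1.1 k
          else 0) := by
  classical
  obtain ⟨p, hp⟩ := exists_mg (Fin n) 3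
  set G := SimpleGraph.fromRel (fun a b => (a, b) ∈ I) with hG
  have e0 : eset G = I := by
    ext ⟨a, b⟩
    constructor
    · rintro ⟨h1, -, h2 | h2⟩
      · exact h2
      · exact absurd (hI _ h2) (lt_asymm h1)
    · intro h
      exact ⟨hI _ h, (hI _ h).ne, Or.inl h⟩
  have e1 := genRank_add hp G
  have e2 := rank_add_mo G p
  have e3 : G.edgeSet.ncard ≤ (rigidityMatrix G p).rank := by
    rw [← eset_ncard, e0]
    omega
  have e4 : LinearIndependent ℝ (rigidityMatrix G p) := by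
    rw [linearIndependent_iff_card_le_finrank_span]
    have e5 : (rigidityMatrix G p).rank = (Set.range (rigidityMatrix G p)).finrank ℝ :=
      Matrix.rank_eq_finrank_span_row _
    rw [← e5]
    refine le_trans (le_of_eq ?_) e3
    rw [Set.ncard_eq_toFinset_card', Set.toFinset_card]
  have hmem : ∀ e : I, s(e.1.1, e.1.2) ∈ G.edgeSet := by
    intro e
    exact ⟨(hI _ e.2).ne, Or.inl e.2⟩
  let φ : I → G.edgeSet := fun e => ⟨s(e.1.1, e.1.2), hmem e⟩
  have hφ : Function.Injective φ := by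
    rintro ⟨⟨a, b⟩, h1⟩ ⟨⟨c, d⟩, h2⟩ he
    have he' : s(a, b) = s(c, d) := congrArg Subtype.val he
    have l1 : a < b := hI _ h1
    have l2 : c < d := hI _ h2
    rcases Sym2.eq_iff.1 he' with ⟨rfl, rfl⟩ | ⟨rfl, rfl⟩
    · rfl
    · exact absurd l1 (lt_asymm l2)
  have e6 := (e4.comp φ hφ).map' (LinearEquiv.curry ℝ ℝ (Fin n) (Fin 3)).toLinearMap
    (LinearEquiv.ker _)
  refine ⟨p, ?_⟩
  have e7 : (fun e : I => fun v : Fin n => fun k : Fin 3 =>
      if v = e.1.1 then p e.1.1 k - p e.1.2 k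
      else if v = e.1.2 then p e.1.2 k - p e.1.1 k
      else 0) =
      (LinearEquiv.curry ℝ ℝ (Fin n) (Fin 3)).toLinearMap ∘ (rigidityMatrix G p ∘ φ) := by
    funext e v k
    show _ = Pool.Agent.H789R5.row p e.1.1 e.1.2 (v, k)
    unfold Pool.Agent.H789R5.row
    by_cases h1 : v = e.1.1
    · rw [if_pos h1, if_pos h1]
    · rw [if_neg h1, if_neg h1]
      by_cases h2 : v = e.1.2
      · rw [if_pos h2, if_pos h2]
      · rw [if_neg h2, if_neg h2]
  rw [e7]
  exact e6

end matroid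

end Pool.Agent.Y647.RG
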