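import Mathlib
import Pool.Agent.Y647.RG.Count

/-!
# Deleting a vertex of degree five of a claw-free graph and adding two disjoint edges
-/

set_option autoImplicit false
set_option linter.unusedSectionVars false

namespace Pool.Agent.Y647.RG

open Matrix Finset Pool.Agent.W824.BJ Pool.Agent.H789R5 Pool.Agent.H283R2.DR

variable {V : Type} [Fintype V] [DecidableEq V] {C : Type} [Fintype C] [DecidableEq C]

/-- two-fold families with extra edges, of value at most `r` -/
def FG (G : SimpleGraph V) (r : ℕ) (F : Finset (Sym2 V)) (T : Finset C) (Y : C → Finset V) :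
    Prop :=
  (∀ v, (T.filter fun c => v ∈ Y c).card ≤ 2) ∧
  (∀ u v, G.Adj u v → s(u, v) ∈ F ∨ ∃ c ∈ T, u ∈ Y c ∧ v ∈ Y c) ∧
  2 * F.card + 2 * ∑ c ∈ T, rho (Y c).card ≤
    2 * r + ∑ q ∈ T.offDiag, rho (Y q.1 ∩ Y q.2).card

theorem fg_remove {G : SimpleGraph V} {r : ℕ} {F : Finset (Sym2 V)} {T : Finset C}
    {Y : C → Finset V} (hB : FG G r F T Y) {d : C} (hd : d ∈ T) (h4 : (Y d).card ≤ 4) :
    ∃ F', FG G r F' (T.erase d) Y := by
  obtain ⟨h0, h1, h3⟩ := hB
  set P := (pr (Y d)).filter (fun e => ∀ c ∈ T.erase d, e ∉ pr (Y c)) with hP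
  refine ⟨F ∪ P, ?_, ?_, ?_⟩
  · intro v
    exact (Finset.card_le_card (Finset.filter_subset_filter _ (Finset.erase_subset _ _))).trans
      (h0 v)
  · intro u v huv
    rcases h1 u v huv with h | ⟨c, hc, hu, hv⟩
    · exact Or.inl (Finset.mem_union_left _ h)
    · by_cases hcd : c = d
      · subst hcd
        by_cases hex : ∃ c' ∈ T.erase c, u ∈ Y c' ∧ v ∈ Y c'
        · exact Or.inr hex
        · left
          apply Finset.mem_union_right
          rw [hP, Finset.mem_filter]
          refine ⟨mem_pr.2 ⟨hu, hv, huv.ne⟩, ?_⟩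
          intro c' hc' hm
          rw [mem_pr] at hm
          exact hex ⟨c', hc', hm.1, hm.2.1⟩
      · exact Or.inr ⟨c, Finset.mem_erase.2 ⟨hcd, hc⟩, hu, hv⟩
  · have key : P.card + ∑ c ∈ T.erase d, rho (Y c ∩ Y d).card ≤ rho (Y d).card := by
      have e1 : ∀ c ∈ T.erase d, rho (Y c ∩ Y d).card = (pr (Y c ∩ Y d)).card := by
        intro c _
        rw [card_pr]
        exact rho_le4 ((Finset.card_le_card Finset.inter_subset_right).trans h4)
      rw [Finset.sum_congr rfl e1, ← Finset.card_biUnion, rho_le4 h4, ← card_pr,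
        ← Finset.card_union_of_disjoint]
      · apply Finset.card_le_card
        intro e he
        rw [Finset.mem_union, Finset.mem_biUnion] at he
        rcases he with he | ⟨c, _, he⟩
        · exact (Finset.mem_filter.1 he).1
        · exact pr_mono Finset.inter_subset_right he
      · rw [Finset.disjoint_left]
        intro e he he'
        rw [Finset.mem_biUnion] at he'
        obtain ⟨c, hc, hc'⟩ := he'
        exact (Finset.mem_filter.1 he).2 c hc (pr_mono Finset.inter_subset_left hc')
      · intro a ha b hb hab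
        rw [Finset.mem_coe, Finset.mem_erase] at ha hb
        rw [Function.onFun, Finset.disjoint_left]
        intro e he he'
        induction e using Sym2.ind with
        | _ x y =>
          rw [mem_pr, Finset.mem_inter] at he he'
          exact three_memT h0 ha.2 hb.2 hd he.1.1 he'.1.1 he.1.2 hab ha.1 hb.1
    have e1 := off_insert (Finset.notMem_erase d T) (fun a b => rho (Y a ∩ Y b).card)
      (fun a b => by rw [Finset.inter_comm])
    rw [Finset.insert_erase hd] at e1
    have e2 : ∑ c ∈ T, rho (Y c).card = rho (Y d).card + ∑ c ∈ T.erase d, rho (Y c).card :=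
      (Finset.add_sum_erase T (fun c => rho (Y c).card) hd).symm
    have e3 := Finset.card_union_le F P
    omega

/-- merging two members with at least three common elements -/
theorem fg_merge {G : SimpleGraph V} {r : ℕ} {F : Finset (Sym2 V)} {T : Finset C}
    {Y : C → Finset V} (hB : FG G r F T Y) {c d : C} (hc : c ∈ T) (hd : d ∈ T) (hcd : c ≠ d)
    (h3 : 3 ≤ (Y c ∩ Y d).card) : ∃ Y', FG G r F (T.erase d) Y' := by
  obtain ⟨g0, g1, g3⟩ := hB
  set Y' : C → Finset V := fun x => if x = c then Y c ∪ Y d else Y x with hY'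
  have hYc : Y' c = Y c ∪ Y d := if_pos rfl
  have hYx : ∀ x, x ≠ c → Y' x = Y x := fun x hx => if_neg hx
  have hcT : c ∈ T.erase d := Finset.mem_erase.2 ⟨hcd, hc⟩
  set U := (T.erase d).erase c with hU
  have hcU : c ∉ U := Finset.notMem_erase _ _
  have hTU : T.erase d = insert c U := (Finset.insert_erase hcT).symm
  have hUx : ∀ x ∈ U, x ≠ c ∧ x ≠ d ∧ x ∈ T := by
    intro x hx
    rw [hU, Finset.mem_erase, Finset.mem_erase] at hx
    exact ⟨hx.1, hx.2.1, hx.2.2⟩
  have hdU : d ∉ insert c U := by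
    rw [← hTU]
    exact Finset.notMem_erase _ _
  have hT : T = insert d (insert c U) := by
    rw [← hTU, Finset.insert_erase hd]
  refine ⟨Y', ?_, ?_, ?_⟩
  · intro v
    let m : C → C := fun x => if x = d then c else x
    have e1 : ((T.erase d).filter fun x => v ∈ Y' x) ⊆ (T.filter fun x => v ∈ Y x).image m := by
      intro x hx
      rw [Finset.mem_filter, Finset.mem_erase] at hx
      rw [Finset.mem_image]
      obtain ⟨⟨hxd, hxT⟩, hvx⟩ := hx
      by_cases hxc : x = c
      · rw [hxc, hYc, Finset.mem_union] at hvx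
        rcases hvx with h | h
        · exact ⟨c, Finset.mem_filter.2 ⟨hc, h⟩, by rw [hxc]; exact if_neg hcd⟩
        · exact ⟨d, Finset.mem_filter.2 ⟨hd, h⟩, by rw [hxc]; exact if_pos rfl⟩
      · rw [hYx x hxc] at hvx
        exact ⟨x, Finset.mem_filter.2 ⟨hxT, hvx⟩, if_neg hxd⟩
    exact (Finset.card_le_card e1).trans (Finset.card_image_le.trans (g0 v))
  · intro u v huv
    rcases g1 u v huv with h | ⟨x, hx, hu, hv⟩
    · exact Or.inl h
    · right
      by_cases hxd : x = d
      · refine ⟨c, hcT, ?_, ?_⟩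
        · rw [hYc]; exact Finset.mem_union_right _ (hxd ▸ hu)
        · rw [hYc]; exact Finset.mem_union_right _ (hxd ▸ hv)
      · by_cases hxc : x = c
        · refine ⟨c, hcT, ?_, ?_⟩
          · rw [hYc]; exact Finset.mem_union_left _ (hxc ▸ hu)
          · rw [hYc]; exact Finset.mem_union_left _ (hxc ▸ hv)
        · refine ⟨x, Finset.mem_erase.2 ⟨hxd, hx⟩, ?_, ?_⟩
          · rw [hYx x hxc]; exact hu
          · rw [hYx x hxc]; exact hv
  · have s1 : ∑ x ∈ T, rho (Y x).card =
        rho (Y d).card + (rho (Y c).card + ∑ x ∈ U, rho (Y x).card) := by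
      rw [hT, Finset.sum_insert hdU, Finset.sum_insert hcU]
    have s2 : ∑ x ∈ T.erase d, rho (Y' x).card =
        rho (Y c ∪ Y d).card + ∑ x ∈ U, rho (Y x).card := by
      rw [hTU, Finset.sum_insert hcU, hYc]
      congr 1
      exact Finset.sum_congr rfl fun x hx => by rw [hYx x (hUx x hx).1]
    have s3 : ∑ q ∈ T.offDiag, rho (Y q.1 ∩ Y q.2).card =
        ∑ q ∈ U.offDiag, rho (Y q.1 ∩ Y q.2).card + 2 * ∑ x ∈ U, rho (Y x ∩ Y c).card +
        2 * (rho (Y c ∩ Y d).card + ∑ x ∈ U, rho (Y x ∩ Y d).card) := by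
      have k1 := off_insert hdU (fun a b => rho (Y a ∩ Y b).card)
        (fun a b => by rw [Finset.inter_comm])
      have k2 := off_insert hcU (fun a b => rho (Y a ∩ Y b).card)
        (fun a b => by rw [Finset.inter_comm])
      rw [← hT, Finset.sum_insert hcU] at k1
      have k1' : ∑ q ∈ T.offDiag, rho (Y q.1 ∩ Y q.2).card =
        ∑ q ∈ (insert c U).offDiag, rho (Y q.1 ∩ Y q.2).card +
        2 * (rho (Y c ∩ Y d).card + ∑ x ∈ U, rho (Y x ∩ Y d).card) := k1
      have k2' : ∑ q ∈ (insert c U).offDiag, rho (Y q.1 ∩ Y q.2).card =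
        ∑ q ∈ U.offDiag, rho (Y q.1 ∩ Y q.2).card + 2 * ∑ x ∈ U, rho (Y x ∩ Y c).card := k2
      omega
    have s4 : ∑ q ∈ (T.erase d).offDiag, rho (Y' q.1 ∩ Y' q.2).card =
        ∑ q ∈ U.offDiag, rho (Y q.1 ∩ Y q.2).card +
        2 * ∑ x ∈ U, rho (Y x ∩ (Y c ∪ Y d)).card := by
      have k2 := off_insert hcU (fun a b => rho (Y' a ∩ Y' b).card)
        (fun a b => by rw [Finset.inter_comm])
      have k2' : ∑ q ∈ (insert c U).offDiag, rho (Y' q.1 ∩ Y' q.2).card =
        ∑ q ∈ U.offDiag, rho (Y' q.1 ∩ Y' q.2).card + 2 * ∑ x ∈ U, rho (Y' x ∩ Y' c).card := k2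
      rw [hTU, k2']
      congr 1
      · apply Finset.sum_congr rfl
        intro q hq
        rw [Finset.mem_offDiag] at hq
        rw [hYx _ (hUx _ hq.1).1, hYx _ (hUx _ hq.2.1).1]
      · congr 1
        apply Finset.sum_congr rfl
        intro x hx
        rw [hYx x (hUx x hx).1, hYc]
    have s5 : ∑ x ∈ U, rho (Y x ∩ Y c).card + ∑ x ∈ U, rho (Y x ∩ Y d).card ≤
        ∑ x ∈ U, rho (Y x ∩ (Y c ∪ Y d)).card := by
      rw [← Finset.sum_add_distrib]
      apply Finset.sum_le_sum
      intro x hx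
      obtain ⟨hx1, hx2, hx3⟩ := hUx x hx
      have k1 : (Y x ∩ (Y c ∪ Y d)).card = (Y x ∩ Y c).card + (Y x ∩ Y d).card := by
        rw [Finset.inter_union_distrib_left, Finset.card_union_of_disjoint]
        rw [Finset.disjoint_left]
        intro v hv hv'
        rw [Finset.mem_inter] at hv hv'
        exact three_memT g0 hx3 hc hd hv.1 hv.2 hv'.2 hx1 hx2 hcd
      rw [k1]
      exact rho_add _ _
    have s6 : rho (Y c ∪ Y d).card + rho (Y c ∩ Y d).card = rho (Y c).card + rho (Y d).card := by
      have k1 := Finset.card_union_add_card_inter (Y c) (Y d)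
      have k2 := Finset.card_le_card (Finset.inter_subset_left (s₁ := Y c) (s₂ := Y d))
      have k3 := Finset.card_le_card (Finset.inter_subset_right (s₁ := Y c) (s₂ := Y d))
      have k4 := Finset.card_le_card (Finset.subset_union_left (s₁ := Y c) (s₂ := Y d))
      unfold rho
      rw [if_neg (by omega), if_neg (by omega), if_neg (by omega), if_neg (by omega),
        if_neg (by omega), if_neg (by omega), if_neg (by omega), if_neg (by omega)]
      omega
    rw [s2, s4]
    omega

/-- the upper bound for families indexed by a finite set -/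
theorem upperT {G : SimpleGraph V} {F : Finset (Sym2 V)} {T : Finset C} {Y : C → Finset V}
    (h0 : ∀ v, (T.filter fun c => v ∈ Y c).card ≤ 2)
    (h1 : ∀ u v, G.Adj u v → s(u, v) ∈ F ∨ ∃ c ∈ T, u ∈ Y c ∧ v ∈ Y c) :
    2 * genRank 3 G + ∑ q ∈ T.offDiag, rho (Y q.1 ∩ Y q.2).card ≤
      2 * F.card + 2 * ∑ c ∈ T, rho (Y c).card := by
  have u1 : TwoFold (fun c : T => Y c.1) := by
    intro v
    refine (Finset.card_le_card_of_injOn (t := T.filter fun c => v ∈ Y c)
      (fun c => c.1) ?_ ?_).trans (h0 v)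
    · intro c hc
      rw [Finset.mem_coe, Finset.mem_filter] at hc
      rw [Finset.mem_coe, Finset.mem_filter]
      exact ⟨c.2, hc.2⟩
    · intro c _ c' _ h
      exact Subtype.ext h
  have u2 := upperF u1 (G := G) (F := F) (by
    intro a b hab
    rw [SimpleGraph.deleteEdges_adj] at hab
    rcases h1 a b hab.1 with h | ⟨c, hc, ha, hb⟩
    · exact absurd (by exact_mod_cast h) hab.2
    · exact ⟨⟨c, hc⟩, ha, hb⟩)
  have u3 : ∑ c : T, rho (Y c.1).card = ∑ c ∈ T, rho (Y c).card :=
    Finset.sum_coe_sort T (fun c => rho (Y c).card)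
  have u4 : ∑ q ∈ (univ : Finset T).offDiag, rho (Y q.1.1 ∩ Y q.2.1).card =
      ∑ q ∈ T.offDiag, rho (Y q.1 ∩ Y q.2).card := by
    refine Finset.sum_bij (fun q _ => (q.1.1, q.2.1)) ?_ ?_ ?_ ?_
    · intro q hq
      rw [Finset.mem_offDiag] at hq ⊢
      exact ⟨q.1.2, q.2.2, fun h => hq.2.2 (Subtype.ext h)⟩
    · intro q _ q' _ h
      exact Prod.ext (Subtype.ext (congrArg Prod.fst h)) (Subtype.ext (congrArg Prod.snd h))
    · rintro ⟨X, X'⟩ hq
      rw [Finset.mem_offDiag] at hq
      refine ⟨(⟨X, hq.1⟩, ⟨X', hq.2.1⟩), ?_, rfl⟩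
      rw [Finset.mem_offDiag]
      exact ⟨Finset.mem_univ _, Finset.mem_univ _, fun h => hq.2.2 (congrArg Subtype.val h)⟩
    · intro q _
      rfl
  rw [u4, u3] at u2
  exact u2

/-- **The rank drops by at least three** when a vertex of degree five of a claw-free graph is
deleted and two disjoint edges between its neighbours are added. -/
theorem xrep_count {G G' : SimpleGraph V} (hc : ClawFree G') {v a b c d e : V}
    (hN : ∀ w ∈ ({a, b, c, d, e} : Finset V), G'.Adj v w)
    (h5 : ({a, b, c, d, e} : Finset V).card = 5) (hiso : ∀ u, ¬ G.Adj v u)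
    (hG : ∀ x y, G.Adj x y → G'.Adj x y ∨ s(x, y) = s(a, b) ∨ s(x, y) = s(c, d)) :
    genRank 3 G + 3 ≤ genRank 3 G' := by
  classical
  obtain ⟨p, hp⟩ := exists_mg V 3
  obtain ⟨F0, C, i1, i2, Y0, k1, k2, -, k4⟩ := att_all hp _ G' hc le_rfl
  set r := genRank 3 G' with hr
  have hex : ∃ n, ∃ (F : Finset (Sym2 V)) (T : Finset C) (Y : C → Finset V),
      FG G' r F T Y ∧ T.card = n := by
    refine ⟨_, F0, univ, Y0, ⟨k1, ?_, k4.ge⟩, rfl⟩
    intro x y hxy
    by_cases h : s(x, y) ∈ F0
    · exact Or.inl h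
    · obtain ⟨c, hc⟩ := k2 x y (by
        rw [SimpleGraph.deleteEdges_adj]
        exact ⟨hxy, fun h' => h (by exact_mod_cast h')⟩)
      exact Or.inr ⟨c, Finset.mem_univ _, hc⟩
  obtain ⟨F, T, Y, hB, hTn⟩ := Nat.find_spec hex
  have hmin : ∀ (F' : Finset (Sym2 V)) (T' : Finset C) (Y' : C → Finset V), FG G' r F' T' Y' →
      T.card ≤ T'.card := fun F' T' Y' h => hTn ▸ Nat.find_min' hex ⟨F', T', Y', h, rfl⟩
  have hsz : ∀ x ∈ T, 5 ≤ (Y x).card := by
    intro x hx
    by_contra hn
    obtain ⟨F', hF'⟩ := fg_remove hB hx (by omega)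
    have g1 := hmin _ _ _ hF'
    rw [Finset.card_erase_of_mem hx] at g1
    have := Finset.card_pos.2 ⟨x, hx⟩
    omega
  have hint : ∀ x ∈ T, ∀ y ∈ T, x ≠ y → (Y x ∩ Y y).card ≤ 2 := by
    intro x hx y hy hxy
    by_contra hn
    obtain ⟨Y', hY'⟩ := fg_merge hB hx hy hxy (by omega)
    have g1 := hmin _ _ _ hY'
    rw [Finset.card_erase_of_mem hy] at g1
    have := Finset.card_pos.2 ⟨y, hy⟩
    omega
  obtain ⟨g0, g1, g3⟩ := hB
  set D := T.filter fun x => v ∈ Y x with hD
  have hD2 : D.card ≤ 2 := g0 v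
  set Y' : C → Finset V := fun x => (Y x).erase v with hY'
  -- the sums
  have s1 : ∑ x ∈ T, rho (Y x).card = ∑ x ∈ T, rho (Y' x).card + 3 * D.card := by
    have e1 : 3 * D.card = ∑ x ∈ T, if v ∈ Y x then 3 else 0 := by
      rw [hD, Finset.card_filter, Finset.mul_sum]
      apply Finset.sum_congr rfl
      intro x _
      split_ifs <;> rfl
    rw [e1, ← Finset.sum_add_distrib]
    apply Finset.sum_congr rfl
    intro x hx
    have h5' := hsz x hx
    by_cases hv : v ∈ Y x
    · rw [if_pos hv]
      show rho (Y x).card = rho ((Y x).erase v).card + 3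
      rw [Finset.card_erase_of_mem hv]
      unfold rho
      rw [if_neg (by omega), if_neg (by omega), if_neg (by omega), if_neg (by omega)]
      omega
    · rw [if_neg hv]
      show rho (Y x).card = rho ((Y x).erase v).card + 0
      rw [Finset.erase_eq_of_notMem hv, add_zero]
  have s2 : ∑ q ∈ T.offDiag, rho (Y q.1 ∩ Y q.2).card ≤
      ∑ q ∈ T.offDiag, rho (Y' q.1 ∩ Y' q.2).card + D.offDiag.card := by
    have e1 : D.offDiag.card = ∑ q ∈ T.offDiag, if v ∈ Y q.1 ∧ v ∈ Y q.2 then 1 else 0 := by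
      rw [← Finset.card_filter]
      congr 1
      ext q
      rw [Finset.mem_offDiag, hD, Finset.mem_filter, Finset.mem_filter, Finset.mem_filter,
        Finset.mem_offDiag]
      tauto
    rw [e1, ← Finset.sum_add_distrib]
    apply Finset.sum_le_sum
    intro q hq
    rw [Finset.mem_offDiag] at hq
    have h2 := hint q.1 hq.1 q.2 hq.2.1 hq.2.2
    have e2 : Y' q.1 ∩ Y' q.2 = (Y q.1 ∩ Y q.2).erase v := by
      ext w
      show w ∈ (Y q.1).erase v ∩ (Y q.2).erase v ↔ _
      simp only [Finset.mem_inter, Finset.mem_erase]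
      tauto
    rw [e2]
    by_cases hv : v ∈ Y q.1 ∧ v ∈ Y q.2
    · rw [if_pos hv, Finset.card_erase_of_mem (Finset.mem_inter.2 hv)]
      unfold rho
      split_ifs <;> omega
    · rw [if_neg hv, Finset.erase_eq_of_notMem (by rw [Finset.mem_inter]; exact hv), add_zero]
  -- the edges
  set Fv := F.filter fun z => v ∈ z with hFv
  set F1 := F.filter fun z => ¬ v ∈ z with hF1
  have hFc : Fv.card + F1.card = F.card := Finset.card_filter_add_card_filter_not _
  set A12 : Finset (Sym2 V) := if (∃ x ∈ T, a ∈ Y' x ∧ b ∈ Y' x) then ∅ else {s(a, b)} with hA12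
  set A34 : Finset (Sym2 V) := if (∃ x ∈ T, c ∈ Y' x ∧ d ∈ Y' x) then ∅ else {s(c, d)} with hA34
  have hv5 : ∀ w ∈ ({a, b, c, d, e} : Finset V), w ≠ v := fun w hw => (hN w hw).ne.symm
  have hup := upperT (G := G) (F := F1 ∪ A12 ∪ A34) (T := T) (Y := Y') (by
    intro u
    refine (Finset.card_le_card ?_).trans (g0 u)
    intro x hx
    rw [Finset.mem_filter] at hx ⊢
    exact ⟨hx.1, Finset.mem_of_mem_erase hx.2⟩) (by
    intro x y hxy
    have hxv : x ≠ v := by rintro rfl; exact hiso _ hxy
    have hyv : y ≠ v := by rintro rfl; exact hiso _ hxy.symm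
    rcases hG x y hxy with h | h | h
    · rcases g1 x y h with h' | ⟨z, hz, hx, hy⟩
      · left
        apply Finset.mem_union_left
        apply Finset.mem_union_left
        rw [hF1, Finset.mem_filter, Sym2.mem_iff]
        refine ⟨h', ?_⟩
        rintro (h'' | h'')
        · exact hxv h''.symm
        · exact hyv h''.symm
      · exact Or.inr ⟨z, hz, Finset.mem_erase.2 ⟨hxv, hx⟩, Finset.mem_erase.2 ⟨hyv, hy⟩⟩
    · by_cases hcov : ∃ x ∈ T, a ∈ Y' x ∧ b ∈ Y' x
      · right
        obtain ⟨z, hz, ha, hb⟩ := hcov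
        rcases Sym2.eq_iff.1 h with ⟨rfl, rfl⟩ | ⟨rfl, rfl⟩
        · exact ⟨z, hz, ha, hb⟩
        · exact ⟨z, hz, hb, ha⟩
      · left
        apply Finset.mem_union_left
        apply Finset.mem_union_right
        rw [hA12, if_neg hcov, Finset.mem_singleton]
        exact h
    · by_cases hcov : ∃ x ∈ T, c ∈ Y' x ∧ d ∈ Y' x
      · right
        obtain ⟨z, hz, ha, hb⟩ := hcov
        rcases Sym2.eq_iff.1 h with ⟨rfl, rfl⟩ | ⟨rfl, rfl⟩
        · exact ⟨z, hz, ha, hb⟩
        · exact ⟨z, hz, hb, ha⟩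
      · left
        apply Finset.mem_union_right
        rw [hA34, if_neg hcov, Finset.mem_singleton]
        exact h)
  have hcard : (F1 ∪ A12 ∪ A34).card ≤ F1.card + A12.card + A34.card := by
    have := Finset.card_union_le (F1 ∪ A12) A34
    have := Finset.card_union_le F1 A12
    omega
  have hA1 : A12.card ≤ 1 := by
    rw [hA12]
    split_ifs <;> simp
  have hA2 : A34.card ≤ 1 := by
    rw [hA34]
    split_ifs <;> simp
  have hinj : ∀ S : Finset V, (∀ w ∈ S, s(v, w) ∈ F) → S.card ≤ Fv.card := by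
    intro S hS
    have e1 : (S.image fun w => s(v, w)) ⊆ Fv := by
      intro z hz
      rw [Finset.mem_image] at hz
      obtain ⟨w, hw, rfl⟩ := hz
      exact Finset.mem_filter.2 ⟨hS w hw, Sym2.mem_mk_left v w⟩
    have e2 := Finset.card_le_card e1
    rwa [Finset.card_image_of_injective] at e2
    intro w w' hww
    rcases Sym2.eq_iff.1 hww with ⟨-, h⟩ | ⟨h1, h2⟩
    · exact h
    · exact h2.trans h1
  have hma : a ∈ ({a, b, c, d, e} : Finset V) := by simp
  have hmb : b ∈ ({a, b, c, d, e} : Finset V) := by simp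
  have hmc : c ∈ ({a, b, c, d, e} : Finset V) := by simp
  have hmd : d ∈ ({a, b, c, d, e} : Finset V) := by simp
  have hdist : ∀ x ∈ ({a, b} : Finset V), ∀ y ∈ ({c, d} : Finset V), x ≠ y := by
    intro x hx y hy hxy
    subst hxy
    have e1 : ({a, b, c, d, e} : Finset V) ⊆ insert e ({a, b} ∪ ({c, d} : Finset V).erase x) := by
      intro w hw
      simp only [Finset.mem_insert, Finset.mem_singleton, Finset.mem_union,
        Finset.mem_erase] at hw hx hy ⊢
      by_cases hwx : w = x
      · subst hwx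
        tauto
      · tauto
    have e2 := Finset.card_le_card e1
    have e3 := Finset.card_insert_le e ({a, b} ∪ ({c, d} : Finset V).erase x)
    have e4 := Finset.card_union_le ({a, b} : Finset V) (({c, d} : Finset V).erase x)
    have e5 := Finset.card_le_two (a := a) (b := b)
    have e6 := Finset.card_le_two (a := c) (b := d)
    rw [Finset.card_erase_of_mem hy] at e4
    have e7 := Finset.card_pos.2 ⟨x, hy⟩
    omega
  rw [Finset.offDiag_card] at s2
  have hcase : D.card = 0 ∨ D.card = 1 ∨ D.card = 2 := by omega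
  rcases hcase with h0 | h0 | h0
  · -- no member
    have hall : ∀ w ∈ ({a, b, c, d, e} : Finset V), s(v, w) ∈ F := by
      intro w hw
      rcases g1 v w (hN w hw) with h | ⟨x, hx, hvx, -⟩
      · exact h
      · exfalso
        have h0' := Finset.card_eq_zero.1 h0
        have hx' : x ∈ D := Finset.mem_filter.2 ⟨hx, hvx⟩
        rw [h0'] at hx'
        exact Finset.notMem_empty x hx'
    have e1 := hinj _ hall
    rw [h0] at s1 s2
    omega
  · -- one member
    obtain ⟨x0, hx0⟩ := Finset.card_eq_one.1 h0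
    have hx0' : x0 ∈ T ∧ v ∈ Y x0 := by
      have : x0 ∈ D := by rw [hx0]; exact Finset.mem_singleton_self _
      exact Finset.mem_filter.1 this
    have hall : ∀ w ∈ ({a, b, c, d, e} : Finset V), s(v, w) ∈ F ∨ w ∈ Y' x0 := by
      intro w hw
      rcases g1 v w (hN w hw) with h | ⟨x, hx, hvx, hwx⟩
      · exact Or.inl h
      · right
        have : x ∈ D := Finset.mem_filter.2 ⟨hx, hvx⟩
        rw [hx0, Finset.mem_singleton] at this
        subst this
        exact Finset.mem_erase.2 ⟨hv5 w hw, hwx⟩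
    have c12 : A12.card = 0 ∨ ∃ w ∈ ({a, b} : Finset V), s(v, w) ∈ F := by
      by_cases hcov : ∃ x ∈ T, a ∈ Y' x ∧ b ∈ Y' x
      · left
        rw [hA12, if_pos hcov, Finset.card_empty]
      · right
        rcases hall a hma with h | h
        · exact ⟨a, by simp, h⟩
        · rcases hall b hmb with h' | h'
          · exact ⟨b, by simp, h'⟩
          · exact absurd ⟨x0, hx0'.1, h, h'⟩ hcov
    have c34 : A34.card = 0 ∨ ∃ w ∈ ({c, d} : Finset V), s(v, w) ∈ F := by
      by_cases hcov : ∃ x ∈ T, c ∈ Y' x ∧ d ∈ Y' x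
      · left
        rw [hA34, if_pos hcov, Finset.card_empty]
      · right
        rcases hall c hmc with h | h
        · exact ⟨c, by simp, h⟩
        · rcases hall d hmd with h' | h'
          · exact ⟨d, by simp, h'⟩
          · exact absurd ⟨x0, hx0'.1, h, h'⟩ hcov
    have hcost : A12.card + A34.card ≤ Fv.card := by
      rcases c12 with h | ⟨w, hw, hwF⟩
      · rcases c34 with h' | ⟨w', hw', hwF'⟩
        · omega
        · have := hinj {w'} (by intro z hz; rw [Finset.mem_singleton] at hz; exact hz ▸ hwF')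
          rw [Finset.card_singleton] at this
          omega
      · rcases c34 with h' | ⟨w', hw', hwF'⟩
        · have := hinj {w} (by intro z hz; rw [Finset.mem_singleton] at hz; exact hz ▸ hwF)
          rw [Finset.card_singleton] at this
          omega
        · have := hinj {w, w'} (by
            intro z hz
            rw [Finset.mem_insert, Finset.mem_singleton] at hz
            rcases hz with rfl | rfl
            · exact hwF
            · exact hwF')
          rw [Finset.card_pair (hdist w hw w' hw')] at this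
          omega
    rw [h0] at s1 s2
    omega
  · -- two members
    rw [h0] at s1 s2
    omega

end Pool.Agent.Y647.RG
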