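import Mathlib
import Pool.Agent.Y647.RG.XRep

/-!
# Implied pairs in claw-free graphs
-/

set_option autoImplicit false
set_option linter.unusedSectionVars false

namespace Pool.Agent.Y647.RG

open Matrix Finset Pool.Agent.W824.BJ Pool.Agent.H789R5 Pool.Agent.H283R2.DR

variable {V : Type} [Fintype V] [DecidableEq V]

/-- An edge of a claw-free graph whose deletion does not change the rank lies in a set of at least
five vertices which is complete in the closure. -/
theorem implied_core {G₀ H : SimpleGraph V} (hc : ClawFree H) {u v : V} (huv : H.Adj u v)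
    (h0 : ∀ x y, G₀.Adj x y → H.Adj x y ∧ s(x, y) ≠ s(u, v))
    (hr : genRank 3 H ≤ genRank 3 G₀) :
    ∃ A : Finset V, 5 ≤ A.card ∧ u ∈ A ∧ v ∈ A ∧ ∀ x ∈ A, ∀ y ∈ A,
      genRank 3 (H ⊔ SimpleGraph.edge x y) ≤ genRank 3 H := by
  classical
  obtain ⟨p, hp⟩ := exists_mg V 3
  obtain ⟨F0, C, i1, i2, Y0, k1, k2, -, k4⟩ := att_all hp _ H hc le_rfl
  set r := genRank 3 H with hrr
  have hex : ∃ n, ∃ (F : Finset (Sym2 V)) (T : Finset C) (Y : C → Finset V),
      FG H r F T Y ∧ T.card = n := by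
    refine ⟨_, F0, univ, Y0, ⟨k1, ?_, k4.ge⟩, rfl⟩
    intro x y hxy
    by_cases h : s(x, y) ∈ F0
    · exact Or.inl h
    · obtain ⟨c, hc⟩ := k2 x y (by
        rw [SimpleGraph.deleteEdges_adj]
        exact ⟨hxy, fun h' => h (by exact_mod_cast h')⟩)
      exact Or.inr ⟨c, Finset.mem_univ _, hc⟩
  obtain ⟨F, T, Y, hB, hTn⟩ := Nat.find_spec hex
  have hmin : ∀ (F' : Finset (Sym2 V)) (T' : Finset C) (Y' : C → Finset V), FG H r F' T' Y' →
      T.card ≤ T'.card := fun F' T' Y' h => hTn ▸ Nat.find_min' hex ⟨F', T', Y', h, rfl⟩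
  have hsz : ∀ x ∈ T, 5 ≤ (Y x).card := by
    intro x hx
    by_contra hn
    obtain ⟨F', hF'⟩ := fg_remove hB hx (by omega)
    have g1 := hmin _ _ _ hF'
    rw [Finset.card_erase_of_mem hx] at g1
    have := Finset.card_pos.2 ⟨x, hx⟩
    omega
  obtain ⟨g0, g1, g3⟩ := hB
  have hcov : ∃ c ∈ T, u ∈ Y c ∧ v ∈ Y c := by
    by_contra hno
    have hF : s(u, v) ∈ F := (g1 u v huv).resolve_right hno
    have h1 := upperT (G := G₀) (F := F.erase s(u, v)) g0 (by
      intro x y hxy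
      obtain ⟨h2, h3⟩ := h0 x y hxy
      rcases g1 x y h2 with h | h
      · exact Or.inl (Finset.mem_erase.2 ⟨h3, h⟩)
      · exact Or.inr h)
    have h2 := Finset.card_erase_of_mem hF
    have h3 := Finset.card_pos.2 ⟨_, hF⟩
    omega
  obtain ⟨c, hcT, hu, hv⟩ := hcov
  refine ⟨Y c, hsz c hcT, hu, hv, ?_⟩
  intro x hx y hy
  have h1 := upperT (G := H ⊔ SimpleGraph.edge x y) (F := F) g0 (by
    intro a b hab
    rw [SimpleGraph.sup_adj, SimpleGraph.edge_adj] at hab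
    rcases hab with h | ⟨⟨rfl, rfl⟩ | ⟨rfl, rfl⟩, -⟩
    · exact g1 a b h
    · exact Or.inr ⟨c, hcT, hx, hy⟩
    · exact Or.inr ⟨c, hcT, hy, hx⟩)
  omega

end Pool.Agent.Y647.RG
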