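import Mathlib
import Pool.Agent.Y647.RG.Implied
import Pool.Agent.Y647.RG.Count3

/-!
# Implied pairs in graphs which can be reduced to claw-free graphs
-/

set_option autoImplicit false
set_option linter.unusedSectionVars false

namespace Pool.Agent.Y647.RG

open Matrix Finset Pool.Agent.W824.BJ Pool.Agent.H789R5 Pool.Agent.H283R2.DR

variable {V : Type} [Fintype V] [DecidableEq V] {p : V → Fin 3 → ℝ}

/-- all pairs of elements of `A` are implied -/
def Comp (p : V → Fin 3 → ℝ) (H : SimpleGraph V) (A : Finset V) : Prop :=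
  ∀ q ∈ Mot H p, ∀ x ∈ A, ∀ y ∈ A, (p x - p y) ⬝ᵥ (q x - q y) = 0

/-- each edge which is implied by the other edges lies in a large complete set of the closure -/
def ImpK (p : V → Fin 3 → ℝ) (H : SimpleGraph V) : Prop :=
  ∀ u v, H.Adj u v → mo (H.deleteEdges {s(u, v)}) p ≤ mo H p →
    ∃ A : Finset V, 5 ≤ A.card ∧ u ∈ A ∧ v ∈ A ∧ Comp p H A

theorem Comp.anti {H H' : SimpleGraph V} {A : Finset V} (h : Comp p H A) (hle : H ≤ H') :
    Comp p H' A := fun q hq => h q (mot_anti hle p hq)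

theorem impK_claw (hp : MG p) {H : SimpleGraph V} (hc : ClawFree H) : ImpK p H := by
  intro u v huv hm
  have r1 := genRank_add hp H
  have r2 := genRank_add hp (H.deleteEdges {s(u, v)})
  obtain ⟨A, h5, hu, hv, hA⟩ := implied_core (G₀ := H.deleteEdges {s(u, v)}) hc huv (by
    intro x y hxy
    rw [SimpleGraph.deleteEdges_adj] at hxy
    exact ⟨hxy.1, hxy.2⟩) (by omega)
  refine ⟨A, h5, hu, hv, ?_⟩
  intro q hq x hx y hy
  by_cases hxy : x = y
  · rw [hxy, sub_self, zero_dotProduct]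
  have r3 := genRank_add hp (H ⊔ SimpleGraph.edge x y)
  have h1 := hA x hx y hy
  have h2 : Mot H p = Mot (H ⊔ SimpleGraph.edge x y) p := by
    refine (Submodule.eq_of_le_of_finrank_le (mot_anti le_sup_left p) ?_).symm
    show mo H p ≤ mo (H ⊔ SimpleGraph.edge x y) p
    omega
  rw [h2, mem_mot] at hq
  exact hq x y (by
    rw [SimpleGraph.sup_adj, SimpleGraph.edge_adj]
    exact Or.inr ⟨Or.inl ⟨rfl, rfl⟩, hxy⟩)

theorem mo_del_le {K : SimpleGraph V} {v : V} {M : Finset V} (hK : ∀ w, K.Adj v w → w ∈ M) :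
    mo (K.deleteIncidenceSet v) p ≤ mo K p + M.card := by
  have h1 := mo_le_add (G := K.deleteIncidenceSet v) (G' := K) p
  have h2 : (K.edgeSet \ (K.deleteIncidenceSet v).edgeSet).ncard ≤ M.card := by
    have k1 : (K.edgeSet \ (K.deleteIncidenceSet v).edgeSet) ⊆
        ((M.image fun w => s(v, w) : Finset (Sym2 V)) : Set (Sym2 V)) := by
      intro e
      induction e using Sym2.ind with
      | _ a b =>
        rw [Set.mem_sdiff, SimpleGraph.mem_edgeSet, SimpleGraph.mem_edgeSet,
          SimpleGraph.deleteIncidenceSet_adj, Finset.mem_coe, Finset.mem_image]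
        rintro ⟨hab, hn⟩
        by_cases ha : a = v
        · subst ha
          exact ⟨b, hK b hab, rfl⟩
        · by_cases hb : b = v
          · subst hb
            exact ⟨a, hK a hab.symm, Sym2.eq_swap⟩
          · exact absurd ⟨hab, ha, hb⟩ hn
    have k2 := Set.ncard_le_ncard k1 (Set.toFinite _)
    rw [Set.ncard_coe_finset] at k2
    exact k2.trans Finset.card_image_le
  omega

theorem impK_A {H : SimpleGraph V} {v : V} {N : Finset V} (hN : ∀ w, H.Adj v w ↔ w ∈ N)
    (hm : mo H p + N.card ≤ mo (H.deleteIncidenceSet v) p)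
    (hA : ImpK p (H.deleteIncidenceSet v)) : ImpK p H := by
  intro x y hxy hr
  set K := H.deleteEdges {s(x, y)} with hK
  have hKle : K ≤ H := SimpleGraph.deleteEdges_le _
  have hKadj : ∀ a b, K.Adj a b ↔ H.Adj a b ∧ s(a, b) ≠ s(x, y) := by
    intro a b
    rw [hK, SimpleGraph.deleteEdges_adj]
    rfl
  have hcase : ∀ w, s(x, y) = s(v, w) → False := by
    intro w hw
    have hwN : w ∈ N := by
      rw [← hN]
      have : s(x, y) ∈ H.edgeSet := hxy
      rw [hw] at this
      exact this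
    have h1 := mo_del_le (p := p) (K := K) (v := v) (M := N.erase w) (by
      intro z hz
      rw [hKadj] at hz
      refine Finset.mem_erase.2 ⟨?_, (hN z).1 hz.1⟩
      rintro rfl
      exact hz.2 hw.symm)
    have h2 := Finset.card_erase_of_mem hwN
    have h3 := Finset.card_pos.2 ⟨w, hwN⟩
    have h4 : mo (H.deleteIncidenceSet v) p ≤ mo (K.deleteIncidenceSet v) p := by
      apply mo_anti
      intro a b hab
      rw [SimpleGraph.deleteIncidenceSet_adj] at hab ⊢
      exact ⟨hKle hab.1, hab.2⟩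
    omega
  have hxv : x ≠ v := by
    rintro rfl
    exact hcase y rfl
  have hyv : y ≠ v := by
    rintro rfl
    exact hcase x Sym2.eq_swap
  have h1 := mo_del_le (p := p) (K := K) (v := v) (M := N) (fun w hw => (hN w).1 (hKle hw))
  have h2 : mo ((H.deleteIncidenceSet v).deleteEdges {s(x, y)}) p ≤
      mo (K.deleteIncidenceSet v) p := by
    apply mo_anti
    intro a b hab
    rw [SimpleGraph.deleteIncidenceSet_adj, hKadj] at hab
    rw [SimpleGraph.deleteEdges_adj, SimpleGraph.deleteIncidenceSet_adj]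
    exact ⟨⟨hab.1.1, hab.2⟩, hab.1.2⟩
  obtain ⟨A, h5, hx, hy, hc⟩ := hA x y (by
    rw [SimpleGraph.deleteIncidenceSet_adj]
    exact ⟨hxy, hxv, hyv⟩) (by omega)
  exact ⟨A, h5, hx, hy, hc.anti (SimpleGraph.deleteIncidenceSet_le _ _)⟩

theorem impK_B (hp : Gen p) {H : SimpleGraph V} {v : V} {N : Finset V}
    (hN : ∀ w, H.Adj v w ↔ w ∈ N) (h4 : 4 ≤ N.card) (ht : Tied H p N)
    (hB : ImpK p (lc H v N)) : ImpK p H := by
  intro x y hxy hr
  have hvN : v ∉ N := fun h => ((hN v).2 h).ne rfl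
  have hNN : ∀ q ∈ Mot H p, ∀ a ∈ N, ∀ b ∈ N, (p a - p b) ⬝ᵥ (q a - q b) = 0 := by
    intro q hq a ha b hb
    obtain ⟨A, t, hA, ht'⟩ := ht q hq
    rw [ht' a ha, ht' b hb, add_sub_add_right_eq_sub, ← Matrix.mulVec_sub]
    exact skew_dot_self hA _
  by_cases hin : x ∈ insert v N ∧ y ∈ insert v N
  · refine ⟨insert v N, by rw [Finset.card_insert_of_notMem hvN]; omega, hin.1, hin.2, ?_⟩
    intro q hq a ha b hb
    have hm := (mem_mot H p q).1 hq
    rw [Finset.mem_insert] at ha hb
    rcases ha with rfl | ha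
    · rcases hb with rfl | hb
      · rw [sub_self, zero_dotProduct]
      · exact hm _ _ ((hN b).2 hb)
    · rcases hb with rfl | hb
      · exact hm _ _ ((hN a).2 ha).symm
      · exact hNN q hq a ha b hb
  have hxv : x ≠ v := by
    rintro rfl
    exact hin ⟨Finset.mem_insert_self _ _, Finset.mem_insert_of_mem ((hN y).1 hxy)⟩
  have hyv : y ≠ v := by
    rintro rfl
    exact hin ⟨Finset.mem_insert_of_mem ((hN x).1 hxy.symm), Finset.mem_insert_self _ _⟩
  have hnN : ¬ (x ∈ N ∧ y ∈ N) := fun h =>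
    hin ⟨Finset.mem_insert_of_mem h.1, Finset.mem_insert_of_mem h.2⟩
  set K := H.deleteEdges {s(x, y)} with hK
  have hKle : K ≤ H := SimpleGraph.deleteEdges_le _
  have hKadj : ∀ a b, K.Adj a b ↔ H.Adj a b ∧ s(a, b) ≠ s(x, y) := by
    intro a b
    rw [hK, SimpleGraph.deleteEdges_adj]
    rfl
  have hMK : Mot H p = Mot K p := Submodule.eq_of_le_of_finrank_le (mot_anti hKle p) hr
  set L := lc H v N with hL
  have hLle : Mot H p ≤ Mot L p := by
    intro q hq
    have hm := (mem_mot H p q).1 hq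
    rw [mem_mot]
    rintro a b (⟨h, -, -⟩ | ⟨-, ha, hb⟩)
    · exact hm a b h
    · exact hNN q hq a ha b hb
  have hdel : Mot (L.deleteEdges {s(x, y)}) p ≤ Mot L p := by
    intro q hq
    have hm := (mem_mot _ p q).1 hq
    have hadj : ∀ a b, (L.deleteEdges {s(x, y)}).Adj a b ↔ L.Adj a b ∧ s(a, b) ≠ s(x, y) := by
      intro a b
      rw [SimpleGraph.deleteEdges_adj]
      rfl
    obtain ⟨A, t, hA, ht'⟩ := rigid_complete hp (L.deleteEdges {s(x, y)}) N (by
      intro a ha b hb hab
      rw [hadj]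
      refine ⟨Or.inr ⟨hab, ha, hb⟩, ?_⟩
      intro h
      rcases Sym2.eq_iff.1 h with ⟨rfl, rfl⟩ | ⟨rfl, rfl⟩
      · exact hnN ⟨ha, hb⟩
      · exact hnN ⟨hb, ha⟩) q (fun a _ b _ hab => hm a b hab)
    let q' : V → Fin 3 → ℝ := Function.update q v (A *ᵥ p v + t)
    have hqv : q' v = A *ᵥ p v + t := Function.update_self _ _ _
    have hqn : ∀ w, w ≠ v → q' w = q w := fun w hw => Function.update_of_ne hw _ _
    have htN : ∀ w ∈ N, q w = A *ᵥ p w + t := fun w hw => ht' w (by exact_mod_cast hw)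
    have hq' : q' ∈ Mot K p := by
      rw [mem_mot]
      intro a b hab
      rw [hKadj] at hab
      by_cases ha : a = v
      · subst ha
        have hb := (hN b).1 hab.1
        rw [hqv, hqn b (fun h => hvN (h ▸ hb)), htN b hb, add_sub_add_right_eq_sub,
          ← Matrix.mulVec_sub]
        exact skew_dot_self hA _
      · by_cases hb : b = v
        · subst hb
          have ha' := (hN a).1 hab.1.symm
          rw [hqv, hqn a ha, htN a ha', add_sub_add_right_eq_sub, ← Matrix.mulVec_sub]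
          exact skew_dot_self hA _
        · rw [hqn a ha, hqn b hb]
          exact hm a b ((hadj a b).2 ⟨Or.inl ⟨hab.1, ha, hb⟩, hab.2⟩)
    rw [← hMK, mem_mot] at hq'
    have h0 := hq' x y hxy
    rw [hqn x hxv, hqn y hyv] at h0
    rw [mem_mot]
    intro a b hab
    by_cases h : s(a, b) = s(x, y)
    · rcases Sym2.eq_iff.1 h with ⟨rfl, rfl⟩ | ⟨rfl, rfl⟩
      · exact h0
      · rw [← neg_sub (p b) (p a), ← neg_sub (q b) (q a), neg_dotProduct, dotProduct_neg,
          neg_neg]
        exact h0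
    · exact hm a b ((hadj a b).2 ⟨hab, h⟩)
  obtain ⟨A, h5, hx, hy, hc⟩ := hB x y (Or.inl ⟨hxy, hxv, hyv⟩) (Submodule.finrank_mono hdel)
  exact ⟨A, h5, hx, hy, fun q hq => hc q (hLle hq)⟩

theorem impK_three (hp : MG p) {H : SimpleGraph V} {v : V} {N : Finset V}
    (hN : ∀ w, H.Adj v w ↔ w ∈ N) (hN3 : N.card ≤ 3) (hA : ImpK p (H.deleteIncidenceSet v)) :
    ImpK p H :=
  impK_A hN (Pool.Agent.H789R5.ext0 hp H v N hN3 (fun z hz => (hN z).2 hz)) hA

theorem impK_four (hp : MG p) {H : SimpleGraph V} {v : V} {N : Finset V}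
    (hN : ∀ w, H.Adj v w ↔ w ∈ N) (hN4 : N.card = 4) (hA : ImpK p (H.deleteIncidenceSet v))
    (hB : ImpK p (lc H v N)) : ImpK p H := by
  rcases deg4 hp H v hN4 (fun z hz => (hN z).2 hz) with h | h
  · exact impK_A hN (by rw [hN4]; exact h) hA
  · exact impK_B hp.toGen hN (by omega) h hB

theorem impK_five (hp : MG p) {H : SimpleGraph V} {v : V} {b : Fin 5 → V}
    (hb : Function.Injective b) (hN : ∀ w, H.Adj v w ↔ w ∈ univ.image b)
    (hside : ∀ i, H.Adj (b i) (b (i + 2))) (hA : ImpK p (H.deleteIncidenceSet v))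
    (hB : ImpK p (lc H v (univ.image b))) : ImpK p H := by
  have hc : (univ.image b).card = 5 := by
    rw [Finset.card_image_of_injective _ hb]
    simp
  rcases deg5 hp H v hb hN hside with h | h
  · exact impK_A hN (by rw [hc]; exact h) hA
  · exact impK_B hp.toGen hN (by omega) h hB

end Pool.Agent.Y647.RG
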