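import Mathlib
import Pool.Agent.Y647.RG.Five

/-!
# A ring of seven cliques
-/

set_option autoImplicit false

namespace Pool.Agent.Y647.RG

open Finset Pool.Agent.W824.BJ Pool.Agent.H789R5 Pool.Agent.H283R2.DR

/-- the `i`-th body: its own vertices and the first two vertices of the next one -/
def rb (m : ℕ) (i : ZMod 7) : Finset (ZMod 7 × Fin (m + 2)) :=
  univ.filter fun v => v.1 = i ∨ (v.1 = i + 1 ∧ v.2.val < 2)

theorem mem_rb {m : ℕ} {i : ZMod 7} {v : ZMod 7 × Fin (m + 2)} :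
    v ∈ rb m i ↔ v.1 = i ∨ (v.1 = i + 1 ∧ v.2.val < 2) := by
  unfold rb
  rw [Finset.mem_filter]
  exact ⟨fun h => h.2, fun h => ⟨Finset.mem_univ _, h⟩⟩

/-- the ring of seven cliques, consecutive ones with two common vertices -/
def ring (m : ℕ) : SimpleGraph (ZMod 7 × Fin (m + 2)) where
  Adj u v := u ≠ v ∧ ∃ i, u ∈ rb m i ∧ v ∈ rb m i
  symm := ⟨fun _ _ h => ⟨h.1.symm, h.2.imp fun _ h => ⟨h.2, h.1⟩⟩⟩
  loopless := ⟨fun _ h => h.1 rfl⟩

theorem rb_cases {m : ℕ} {i : ZMod 7} {v : ZMod 7 × Fin (m + 2)} (h : v ∈ rb m i) :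
    i = v.1 ∨ i = v.1 - 1 := by
  rw [mem_rb] at h
  rcases h with h | ⟨h, -⟩
  · exact Or.inl h.symm
  · exact Or.inr (by rw [h]; ring)

theorem ring_claw (m : ℕ) : ClawFree (ring m) := by
  rintro v a b c ⟨-, i, hvi, hai⟩ ⟨-, j, hvj, hbj⟩ ⟨-, k, hvk, hck⟩ hab hac hbc
  rcases rb_cases hvi with h1 | h1 <;> rcases rb_cases hvj with h2 | h2 <;>
    rcases rb_cases hvk with h3 | h3
  · exact Or.inl ⟨hab, i, hai, by rw [h1, ← h2]; exact hbj⟩
  · exact Or.inl ⟨hab, i, hai, by rw [h1, ← h2]; exact hbj⟩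
  · exact Or.inr (Or.inl ⟨hac, i, hai, by rw [h1, ← h3]; exact hck⟩)
  · exact Or.inr (Or.inr ⟨hbc, j, hbj, by rw [h2, ← h3]; exact hck⟩)
  · exact Or.inr (Or.inr ⟨hbc, j, hbj, by rw [h2, ← h3]; exact hck⟩)
  · exact Or.inr (Or.inl ⟨hac, i, hai, by rw [h1, ← h3]; exact hck⟩)
  · exact Or.inl ⟨hab, i, hai, by rw [h1, ← h2]; exact hbj⟩
  · exact Or.inl ⟨hab, i, hai, by rw [h1, ← h2]; exact hbj⟩

theorem z7_a : ∀ i : ZMod 7, i ≠ i + 1 := by decide

theorem z7_b : ∀ i : ZMod 7, i ≠ i + 1 + 1 := by decide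

theorem z7_c : ∀ (i0 : ZMod 7) (n : Fin 6), i0 + 1 + (n.val : ZMod 7) ≠ i0 := by decide

theorem z7_d : ∀ i0 i : ZMod 7, i ≠ i0 → ∃ n : Fin 6, i = i0 + 1 + (n.val : ZMod 7) := by decide

theorem rb_card (m : ℕ) (i : ZMod 7) : (rb m i).card = m + 4 := by
  have h1 : rb m i = ({i} : Finset (ZMod 7)) ×ˢ (univ : Finset (Fin (m + 2))) ∪
      ({i + 1} : Finset (ZMod 7)) ×ˢ (univ.filter fun a : Fin (m + 2) => a.val < 2) := by
    ext v
    rw [mem_rb]
    simp only [Finset.mem_union, Finset.mem_product, Finset.mem_singleton, Finset.mem_univ,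
      and_true, Finset.mem_filter, true_and]
  have h2 : Disjoint (({i} : Finset (ZMod 7)) ×ˢ (univ : Finset (Fin (m + 2))))
      (({i + 1} : Finset (ZMod 7)) ×ˢ (univ.filter fun a : Fin (m + 2) => a.val < 2)) := by
    rw [Finset.disjoint_left]
    intro v h3 h4
    simp only [Finset.mem_product, Finset.mem_singleton, Finset.mem_univ, and_true,
      Finset.mem_filter, true_and] at h3 h4
    exact z7_a i (h3.symm.trans h4.1)
  have h3 : (univ.filter fun a : Fin (m + 2) => a.val < 2).card = 2 := by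
    rw [Fin.card_filter_val_lt]
    omega
  rw [h1, Finset.card_union_of_disjoint h2, Finset.card_product, Finset.card_product, h3]
  simp

theorem ring_triangles (m : ℕ) {u v : ZMod 7 × Fin (m + 2)} (h : (ring m).Adj u v) :
    m + 2 ≤ {w | (ring m).Adj u w ∧ (ring m).Adj v w}.ncard := by
  classical
  obtain ⟨huv, i, hu, hv⟩ := h
  have h1 : (((rb m i).erase u).erase v).card = m + 2 := by
    rw [Finset.card_erase_of_mem (Finset.mem_erase.2 ⟨huv.symm, hv⟩),
      Finset.card_erase_of_mem hu, rb_card]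
    omega
  refine h1.symm.le.trans ?_
  rw [← Set.ncard_coe_finset]
  apply Set.ncard_le_ncard _ (Set.toFinite _)
  intro w hw
  rw [Finset.mem_coe, Finset.mem_erase, Finset.mem_erase] at hw
  exact ⟨⟨hw.2.1.symm, i, hu, hw.2.2⟩, ⟨hw.1.symm, i, hv, hw.2.2⟩⟩

theorem rb_inter (m : ℕ) (i : ZMod 7) : (rb m i ∩ rb m (i + 1)).card = 2 := by
  have h3 : (univ.filter fun a : Fin (m + 2) => a.val < 2).card = 2 := by
    rw [Fin.card_filter_val_lt]
    omega
  have h1 : rb m i ∩ rb m (i + 1) =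
      ({i + 1} : Finset (ZMod 7)) ×ˢ (univ.filter fun a : Fin (m + 2) => a.val < 2) := by
    ext v
    rw [Finset.mem_inter, mem_rb, mem_rb]
    simp only [Finset.mem_product, Finset.mem_singleton, Finset.mem_univ, Finset.mem_filter,
      true_and]
    constructor
    · rintro ⟨h | h, h' | h'⟩
      · exact absurd (h.symm.trans h') (z7_a i)
      · exact absurd (h.symm.trans h'.1) (z7_b i)
      · exact h
      · exact h
    · rintro h
      exact ⟨Or.inr h, Or.inl h.1⟩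
  rw [h1, Finset.card_product, h3, Finset.card_singleton]

theorem ring_twoFold (m : ℕ) : TwoFold (rb m) := by
  intro v
  have h : (univ.filter fun i => v ∈ rb m i) ⊆ {v.1, v.1 - 1} := by
    intro i hi
    rw [Finset.mem_filter] at hi
    rw [Finset.mem_insert, Finset.mem_singleton]
    exact rb_cases hi.2
  exact (Finset.card_le_card h).trans Finset.card_le_two

theorem ring_rank (m : ℕ) : genRank 3 (ring m) + 7 ≤ 21 * m + 42 := by
  have h1 := upper (ring_twoFold m) (G := ring m) (fun u v h => h.2)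
  have h2 : ∀ i, rho (rb m i).card = 3 * m + 6 := by
    intro i
    rw [rb_card]
    unfold rho
    rw [if_neg (by omega), if_neg (by omega)]
    omega
  have h3 : ∑ q ∈ (univ : Finset (ZMod 7)).offDiag,
      (if q.2 = q.1 + 1 ∨ q.1 = q.2 + 1 then 1 else 0) ≤
      ∑ q ∈ (univ : Finset (ZMod 7)).offDiag, rho (rb m q.1 ∩ rb m q.2).card := by
    apply Finset.sum_le_sum
    intro q _
    split_ifs with h
    · rcases h with h | h
      · rw [h, rb_inter]
        exact le_rfl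
      · rw [h, Finset.inter_comm, rb_inter]
        exact le_rfl
    · exact Nat.zero_le _
  have h4 : ∑ q ∈ (univ : Finset (ZMod 7)).offDiag,
      (if q.2 = q.1 + 1 ∨ q.1 = q.2 + 1 then 1 else 0) = 14 := by decide
  have h5 : ∑ i, rho (rb m i).card = 7 * (3 * m + 6) := by
    rw [Finset.sum_congr rfl (fun i _ => h2 i), Finset.sum_const, smul_eq_mul, Finset.card_univ,
      ZMod.card]
  rw [h5] at h1
  omega

theorem ring_not_rigid (m : ℕ) : ¬ GenRigid 3 (ring m) := by
  obtain ⟨p, hp⟩ := exists_mg (ZMod 7 × Fin (m + 2)) 3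
  have hc : Fintype.card (ZMod 7 × Fin (m + 2)) = 7 * (m + 2) := by
    rw [Fintype.card_prod, ZMod.card, Fintype.card_fin]
  rw [genRigid_iff hp (by omega)]
  have h1 := genRank_add hp (ring m)
  have h2 := ring_rank m
  rw [hc] at h1
  omega

theorem ring_connected (m : ℕ) (S : Finset (ZMod 7 × Fin (m + 2))) (hS : S.card ≤ 3) :
    ((ring m).induce (↑S : Set (ZMod 7 × Fin (m + 2)))ᶜ).Connected := by
  classical
  -- all hinges but one have a vertex outside `S`
  let o : Fin (m + 2) := ⟨0, by omega⟩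
  let l : Fin (m + 2) := ⟨1, by omega⟩
  have hol : o ≠ l := by
    intro h
    have := congrArg Fin.val h
    simp [o, l] at this
  have hh : ∃ i0 : ZMod 7, ∀ i, i ≠ i0 → ∃ b : Fin (m + 2), b.val < 2 ∧ (i, b) ∉ S := by
    by_contra hcon
    push Not at hcon
    obtain ⟨i, -, hi'⟩ := hcon 0
    obtain ⟨j, hj, hj'⟩ := hcon i
    have h1 : ({(i, o), (i, l), (j, o), (j, l)} : Finset (ZMod 7 × Fin (m + 2))) ⊆ S := by
      intro v hv
      simp only [Finset.mem_insert, Finset.mem_singleton] at hv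
      rcases hv with rfl | rfl | rfl | rfl
      · exact hi' o (by simp [o])
      · exact hi' l (by simp [l])
      · exact hj' o (by simp [o])
      · exact hj' l (by simp [l])
    have h2 : ({(i, o), (i, l), (j, o), (j, l)} : Finset (ZMod 7 × Fin (m + 2))).card = 4 := by
      apply Finset.card_eq_four.2
      refine ⟨_, _, _, _, ?_, ?_, ?_, ?_, ?_, ?_, rfl⟩
      · exact fun h => hol (congrArg Prod.snd h)
      · exact fun h => hj (congrArg Prod.fst h).symm
      · exact fun h => hj (congrArg Prod.fst h).symm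
      · exact fun h => hj (congrArg Prod.fst h).symm
      · exact fun h => hj (congrArg Prod.fst h).symm
      · exact fun h => hol (congrArg Prod.snd h)
    have h3 := Finset.card_le_card h1
    omega
  obtain ⟨i0, hi0⟩ := hh
  choose! h hh1 hh2 using hi0
  -- reachability inside a body
  have same : ∀ (x y : ZMod 7 × Fin (m + 2)) (hx : x ∈ (↑S : Set (ZMod 7 × Fin (m + 2)))ᶜ)
      (hy : y ∈ (↑S : Set (ZMod 7 × Fin (m + 2)))ᶜ) (i : ZMod 7), x ∈ rb m i → y ∈ rb m i →
      ((ring m).induce (↑S : Set (ZMod 7 × Fin (m + 2)))ᶜ).Reachable ⟨x, hx⟩ ⟨y, hy⟩ := by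
    intro x y hx hy i h1 h2
    by_cases hxy : x = y
    · subst hxy
      exact SimpleGraph.Reachable.refl _
    · exact SimpleGraph.Adj.reachable (show (ring m).Adj x y from ⟨hxy, i, h1, h2⟩)
  have hmem : ∀ i, i ≠ i0 → (i, h i) ∈ (↑S : Set (ZMod 7 × Fin (m + 2)))ᶜ := fun i hi => by
    rw [Set.mem_compl_iff, Finset.mem_coe]
    exact hh2 i hi
  have hb0 : ∀ i, (i, h i) ∈ rb m i := fun i => mem_rb.2 (Or.inl rfl)
  have hb1 : ∀ i, i + 1 ≠ i0 → (i + 1, h (i + 1)) ∈ rb m i := fun i hi =>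
    mem_rb.2 (Or.inr ⟨rfl, hh1 _ hi⟩)
  have h1 : i0 + 1 ≠ i0 := fun e => z7_a i0 e.symm
  have hchain : ∀ n : ℕ, n < 6 → ∀ i, i = i0 + 1 + (n : ZMod 7) → ∀ hi : i ≠ i0,
      ((ring m).induce (↑S : Set (ZMod 7 × Fin (m + 2)))ᶜ).Reachable
        ⟨(i0 + 1, h (i0 + 1)), hmem _ h1⟩ ⟨(i, h i), hmem _ hi⟩ := by
    intro n
    induction n with
    | zero =>
      intro _ i hi hi'
      rw [Nat.cast_zero, add_zero] at hi
      subst hi
      exact SimpleGraph.Reachable.refl _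
    | succ n ih =>
      intro hn i hi hi'
      have h2 : i0 + 1 + (n : ZMod 7) ≠ i0 := z7_c i0 ⟨n, by omega⟩
      have h3 : i = (i0 + 1 + (n : ZMod 7)) + 1 := by
        rw [hi, Nat.cast_add, Nat.cast_one]
        ring
      refine (ih (by omega) _ rfl h2).trans (same _ _ _ _ (i0 + 1 + (n : ZMod 7)) (hb0 _) ?_)
      subst h3
      exact hb1 _ hi'
  rw [SimpleGraph.connected_iff_exists_forall_reachable]
  refine ⟨⟨(i0 + 1, h (i0 + 1)), hmem _ h1⟩, ?_⟩
  rintro ⟨v, hv⟩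
  by_cases hv0 : v.1 = i0
  · exact same _ _ _ _ i0 (hb1 _ h1) (mem_rb.2 (Or.inl hv0))
  · obtain ⟨n, hn⟩ := z7_d i0 v.1 hv0
    exact (hchain n.val n.isLt _ hn hv0).trans (same _ _ _ _ v.1 (hb0 _) (mem_rb.2 (Or.inl rfl)))

end Pool.Agent.Y647.RG
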